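import Pool.Agent.Lib.MP_b197b4_ntUV.Defs

/-!
# Leaf A: algebra of symbols

(A1) is Milnor's lemma.  For a finite set `I` of indices with `sum_(i in I) a_i = 1` the symbol vanishes.
Induction on `card I`.  `card I = 1`: the entry is `1 = ofMul 1 = 0`.  `card I = 2`: Steinberg.
`card I >= 3`: choose `i /= j` in `I` (if possible with `a_i + a_j /= 0`).  If `a_i + a_j = b /= 0`:
`(a_i/b) + (a_j/b) = 1`, so `lam(.. a_i/b .. a_j/b ..) = 0`, i.e.
`lam(a_i,a_j) = lam(a_i,b) + lam(b,a_j)` (and `lam(b,b) = 0`), the other entries fixed.  In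
`lam(a_i,b)` (b in place j) the entries at `I` minus `i` have sum one, in `lam(b,a_j)` the entries at `I` minus `j`.
If `a_i + a_j = 0`: `lam(a,-a) = 0` because `-a = (1-a)/(1-a^(-1))` (and `lam` kills `-1` : `2 * (-1) = 0` in `Additive F^*`,
real values have no torsion; `lam(a, -a) = lam(a,a) + lam(a,-1) = 0` directly).

(A3) `f_0 + ... + f_N = 0`: the symbol of `-f_j/f_0` (`j >= 1`) has sum one, signs are torsion, so
`lam(f_j/f_0) = 0`; expand `f_j/f_0 = (f_j/s) (s/f_0)`: at most one entry `s/f_0` (alternating).
-/

set_option autoImplicit false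

namespace Pool.Agent.MP_b197b4_ntUV

open scoped BigOperators

section A_abs

variable {M : Type*} [AddCommGroup M]

/-- multiples of one entry may be added to the others -/
theorem A_add_mul {ι : Type*} [Fintype ι] [DecidableEq ι] (g : M [⋀^ι]→ₗ[ℤ] ℝ) (v : ι → M)
    (i0 : ι) (c : ι → ℤ) (h0 : c i0 = 0) : g (fun i => v i + c i • v i0) = g v := by
  have key : ∀ S : Finset ι, g (fun i => if i ∈ S then v i + c i • v i0 else v i) = g v := by
    intro S
    induction S using Finset.induction_on with
    | empty => simp
    | insert a S ha ih =>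
      by_cases hai : a = i0
      · rw [← ih]
        congr 1
        funext i
        by_cases hi : i = a
        · subst hi
          subst hai
          simp [h0, ha]
        · simp [hi]
      · set h : ι → M := fun i => if i ∈ S then v i + c i • v i0 else v i with hh
        have e1 : (fun i => if i ∈ insert a S then v i + c i • v i0 else v i) =
            Function.update h a (v a + c a • v i0) := by
          funext i
          by_cases hi : i = a
          · subst hi
            simp
          · simp [hi, h]
        rw [e1, g.map_update_add, g.map_update_smul]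
        have e2 : Function.update h a (v a) = h := by
          have : v a = h a := by simp [h, ha]
          rw [this, Function.update_eq_self]
        have e3 : g (Function.update h a (v i0)) = 0 := by
          refine g.map_eq_zero_of_eq _ (i := a) (j := i0) ?_ hai
          rw [Function.update_self, Function.update_of_ne (Ne.symm hai)]
          simp only [h]
          split_ifs <;> simp [h0]
        rw [e2, e3, smul_zero, add_zero, ih]
  have := key Finset.univ
  simpa using this

/-- the alternating form in one more variable -/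
noncomputable def A_om {n : ℕ} (lam : M [⋀^Fin n]→ₗ[ℤ] ℝ) : (M × ℤ) [⋀^Fin (n + 1)]→ₗ[ℤ] ℝ :=
  AlternatingMap.alternatizeUncurryFin
    ((LinearMap.toSpanSingleton ℤ _ (lam.compLinearMap (LinearMap.fst ℤ M ℤ))).comp
      (LinearMap.snd ℤ M ℤ))

theorem A_om_apply {n : ℕ} (lam : M [⋀^Fin n]→ₗ[ℤ] ℝ) (v : Fin (n + 1) → M × ℤ) :
    A_om lam v = ∑ i : Fin (n + 1), (-1 : ℝ) ^ (i : ℕ) *
      (((v i).2 : ℝ) * lam (fun j => (v (i.succAbove j)).1)) := by
  rw [A_om, AlternatingMap.alternatizeUncurryFin_apply]
  refine Finset.sum_congr rfl fun i _ => ?_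
  simp only [LinearMap.comp_apply, LinearMap.snd_apply, LinearMap.toSpanSingleton_apply,
    AlternatingMap.smul_apply, AlternatingMap.compLinearMap_apply, LinearMap.fst_apply,
    zsmul_eq_mul, Fin.removeNth]
  push_cast
  rfl

theorem A_quot {n : ℕ} (lam : M [⋀^Fin n]→ₗ[ℤ] ℝ) (x : Fin (n + 1) → M) :
    lam (fun j => x j.succ - x 0) = A_om lam (fun i => (x i, (1 : ℤ))) := by
  have h1 := A_add_mul (A_om lam) (fun i => (x i, (1 : ℤ))) 0
    (fun i => if i = 0 then 0 else -1) (by simp)
  rw [← h1, A_om_apply, Fin.sum_univ_succ, Finset.sum_eq_zero]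
  · simp only [Fin.val_zero, pow_zero, one_mul, add_zero]
    simp only [if_true, zero_smul, add_zero, Int.cast_one, one_mul]
    congr 1
    funext j
    simp [sub_eq_add_neg]
  · intro i _
    simp

theorem A_quot_sum {n : ℕ} (lam : M [⋀^Fin n]→ₗ[ℤ] ℝ) (x : Fin (n + 1) → M) :
    lam (fun j => x j.succ - x 0) = ∑ i : Fin (n + 1), (-1 : ℝ) ^ (i : ℕ) *
      lam (fun j => x (i.succAbove j)) := by
  rw [A_quot, A_om_apply]
  simp

end A_abs

variable {F : Type*} [Field F] {N : ℕ}

theorem A_ev_units (lam : (Additive Fˣ) [⋀^Fin N]→ₗ[ℤ] ℝ) (u : Fin N → Fˣ) :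
    ev lam (fun i => (u i : F)) = lam (fun i => Additive.ofMul (u i)) := by
  have h : ∀ i, (u i : F) ≠ 0 := fun i => (u i).ne_zero
  simp only [ev]
  rw [dif_pos h]
  congr 1
  funext i
  simp

theorem A_ev_zero (lam : (Additive Fˣ) [⋀^Fin N]→ₗ[ℤ] ℝ) (a : Fin N → F) (j : Fin N)
    (h : a j = 0) : ev lam a = 0 := by
  simp only [ev]
  rw [dif_neg]
  intro h'
  exact h' j h

theorem A_lift {ι : Type*} (a : ι → F) (h : ∀ i, a i ≠ 0) :
    ∃ u : ι → Fˣ, (fun i => (u i : F)) = a :=
  ⟨fun i => Units.mk0 (a i) (h i), by simp⟩

theorem A_L_mul (lam : (Additive Fˣ) [⋀^Fin N]→ₗ[ℤ] ℝ) (u : Fin N → Fˣ) (i : Fin N) (x y : Fˣ) :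
    lam (fun l => Additive.ofMul (Function.update u i (x * y) l)) =
      lam (fun l => Additive.ofMul (Function.update u i x l)) +
      lam (fun l => Additive.ofMul (Function.update u i y l)) := by
  have h : ∀ z : Fˣ, (fun l => Additive.ofMul (Function.update u i z l)) =
      Function.update (fun l => Additive.ofMul (u l)) i (Additive.ofMul z) := by
    intro z
    exact Function.comp_update (fun w : Fˣ => Additive.ofMul w) u i z
  rw [h, h, h, ofMul_mul, lam.map_update_add]

theorem A_L_neg (lam : (Additive Fˣ) [⋀^Fin N]→ₗ[ℤ] ℝ) (u : Fin N → Fˣ) (s : Fin N → Bool) :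
    lam (fun l => Additive.ofMul (if s l then - u l else u l)) =
      lam (fun l => Additive.ofMul (u l)) := by
  have h1 := lam.map_smul_univ (fun _ => (2 : ℤ))
    (fun l => Additive.ofMul (if s l then - u l else u l))
  have h2 := lam.map_smul_univ (fun _ => (2 : ℤ)) (fun l => Additive.ofMul (u l))
  have h3 : (fun l => (2 : ℤ) • Additive.ofMul (if s l then - u l else u l)) =
      (fun l => (2 : ℤ) • Additive.ofMul (u l)) := by
    funext l
    rw [← ofMul_zpow, ← ofMul_zpow]
    congr 1
    split_ifs
    · rw [zpow_ofNat, zpow_ofNat, neg_sq]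
    · rfl
  rw [h3, h2] at h1
  simp only [Finset.prod_const, zsmul_eq_mul] at h1
  push_cast at h1
  have h4 : (2 : ℝ) ^ (Finset.univ : Finset (Fin N)).card ≠ 0 := by positivity
  exact (mul_left_cancel₀ h4 h1).symm

theorem A_L_sum_one (lam : (Additive Fˣ) [⋀^Fin N]→ₗ[ℤ] ℝ) (hS : Steinberg lam) (n : ℕ) :
    ∀ (u : Fin N → Fˣ) (I : Finset (Fin N)), I.card = n → ∑ i ∈ I, (u i : F) = 1 →
      lam (fun l => Additive.ofMul (u l)) = 0 := by
  induction n with
  | zero =>
    intro u I hI h
    rw [Finset.card_eq_zero] at hI
    subst hI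
    simp at h
  | succ n ih =>
    intro u I hI h
    rcases Nat.eq_zero_or_pos n with hn | hn
    · subst hn
      obtain ⟨i, rfl⟩ := Finset.card_eq_one.mp hI
      rw [Finset.sum_singleton] at h
      have h1 : u i = 1 := Units.ext h
      refine lam.map_coord_zero i ?_
      simp [h1]
    · have h2 : 1 < I.card := by omega
      obtain ⟨i, hi, j, hj, hij⟩ := Finset.one_lt_card.mp h2
      -- the two-variable function
      have hupd : u = Function.update (Function.update u i (u i)) j (u j) := by
        simp
      by_cases hb : (u i : F) + (u j : F) = 0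
      · have h3 : (u j) = - u i := by
          apply Units.ext
          rw [Units.val_neg]
          exact eq_neg_of_add_eq_zero_right hb
        have h4 := A_L_neg lam (Function.update u j (u i)) (fun l => decide (l = j))
        have h5 : (fun l => Additive.ofMul (if decide (l = j) then - Function.update u j (u i) l
            else Function.update u j (u i) l)) = fun l => Additive.ofMul (u l) := by
          funext l
          by_cases hl : l = j
          · subst hl
            simp [h3]
          · simp [hl]
        rw [h5] at h4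
        rw [h4]
        refine lam.map_eq_zero_of_eq _ (i := i) (j := j) ?_ hij
        simp [Function.update_of_ne hij]
      · set b : Fˣ := Units.mk0 _ hb with hbdef
        have hbv : (b : F) = (u i : F) + (u j : F) := rfl
        have hji : j ≠ i := hij.symm
        -- Steinberg
        have hst : lam (fun l => Additive.ofMul
            (Function.update (Function.update u i (u i / b)) j (u j / b) l)) = 0 := by
          refine hS _ i j hij ?_
          rw [Function.update_self, Function.update_of_ne hij, Function.update_self]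
          rw [Units.val_div_eq_div_val, Units.val_div_eq_div_val, ← add_div, ← hbv]
          exact div_self b.ne_zero
        have hbb : lam (fun l => Additive.ofMul
            (Function.update (Function.update u i b) j b l)) = 0 := by
          refine lam.map_eq_zero_of_eq _ (i := i) (j := j) ?_ hij
          rw [Function.update_self, Function.update_of_ne hij, Function.update_self]
        -- E (u i) b = 0
        have hib : lam (fun l => Additive.ofMul
            (Function.update (Function.update u i (u i)) j b l)) = 0 := by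
          refine ih _ (I.erase i) (by rw [Finset.card_erase_of_mem hi, hI]; rfl) ?_
          rw [Function.update_eq_self]
          have hj' : j ∈ I.erase i := Finset.mem_erase.mpr ⟨hji, hj⟩
          rw [← Finset.add_sum_erase _ _ hj', Function.update_self, hbv]
          rw [← h, ← Finset.add_sum_erase _ _ hi, ← Finset.add_sum_erase _ _ hj']
          rw [add_assoc]
          congr 2
          refine Finset.sum_congr rfl fun l hl => ?_
          rw [Function.update_of_ne (Finset.ne_of_mem_erase hl)]
        have hbj : lam (fun l => Additive.ofMul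
            (Function.update (Function.update u i b) j (u j) l)) = 0 := by
          refine ih _ (I.erase j) (by rw [Finset.card_erase_of_mem hj, hI]; rfl) ?_
          have hi' : i ∈ I.erase j := Finset.mem_erase.mpr ⟨hij, hi⟩
          rw [← Finset.add_sum_erase _ _ hi', Function.update_of_ne hij, Function.update_self, hbv]
          rw [← h, ← Finset.add_sum_erase _ _ hj, ← Finset.add_sum_erase _ _ hi']
          rw [← add_assoc, add_comm (u j : F) (u i : F)]
          congr 1
          refine Finset.sum_congr rfl fun l hl => ?_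
          have hl1 : l ≠ i := Finset.ne_of_mem_erase hl
          have hl2 : l ≠ j := Finset.ne_of_mem_erase (Finset.mem_of_mem_erase hl)
          rw [Function.update_of_ne hl2, Function.update_of_ne hl1]
        -- bilinear expansion
        have e1 : lam (fun l => Additive.ofMul
            (Function.update (Function.update u i (u i)) j (u j) l)) =
            lam (fun l => Additive.ofMul
              (Function.update (Function.update u i (u i)) j (u j / b) l)) +
            lam (fun l => Additive.ofMul
              (Function.update (Function.update u i (u i)) j b l)) := by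
          rw [← A_L_mul, div_mul_cancel]
        have e2 : lam (fun l => Additive.ofMul
            (Function.update (Function.update u i b) j (u j) l)) =
            lam (fun l => Additive.ofMul
              (Function.update (Function.update u i b) j (u j / b) l)) +
            lam (fun l => Additive.ofMul
              (Function.update (Function.update u i b) j b l)) := by
          rw [← A_L_mul, div_mul_cancel]
        have e3 : lam (fun l => Additive.ofMul
            (Function.update (Function.update u i (u i)) j (u j / b) l)) =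
            lam (fun l => Additive.ofMul
              (Function.update (Function.update u i (u i / b)) j (u j / b) l)) +
            lam (fun l => Additive.ofMul
              (Function.update (Function.update u i b) j (u j / b) l)) := by
          rw [Function.update_comm hij, Function.update_comm hij, Function.update_comm hij,
            ← A_L_mul, div_mul_cancel]
        rw [← hupd] at e1
        rw [e1, e3, hst, hib]
        rw [hbj, hbb] at e2
        linarith

/-- (A1) Milnor's lemma. -/
theorem A_sum_one (lam : (Additive Fˣ) [⋀^Fin N]→ₗ[ℤ] ℝ) (hS : Steinberg lam)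
    (a : Fin N → F) (I : Finset (Fin N)) (h : ∑ i ∈ I, a i = 1) : ev lam a = 0 := by
  by_cases h0 : ∀ i, a i ≠ 0
  · obtain ⟨u, rfl⟩ := A_lift a h0
    rw [A_ev_units]
    exact A_L_sum_one lam hS I.card u I rfl h
  · push Not at h0
    obtain ⟨i, hi⟩ := h0
    exact A_ev_zero lam a i hi

/-- (A3) the relation of `N + 1` functions with sum zero, relative to any `s`. -/
theorem A_rel (lam : (Additive Fˣ) [⋀^Fin N]→ₗ[ℤ] ℝ) (hS : Steinberg lam)
    (f : Fin (N + 1) → F) (hf : ∀ j, f j ≠ 0) (h0 : ∑ j, f j = 0) (s : F) (hs : s ≠ 0) :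
    ∑ i : Fin (N + 1), (-1 : ℝ) ^ (i : ℕ) * ev lam (fun j : Fin N => f (i.succAbove j) / s) = 0 := by
  obtain ⟨u, rfl⟩ := A_lift f hf
  have h1 : lam (fun l => Additive.ofMul (- (u l.succ / u 0))) = 0 := by
    refine A_L_sum_one lam hS _ (fun l : Fin N => - (u l.succ / u 0)) Finset.univ rfl ?_
    rw [Fin.sum_univ_succ] at h0
    have h2 : ∑ i : Fin N, ((- (u i.succ / u 0) : Fˣ) : F) =
        - (∑ i : Fin N, (u i.succ : F)) / (u 0 : F) := by
      rw [neg_div, Finset.sum_div, ← Finset.sum_neg_distrib]
      refine Finset.sum_congr rfl fun i _ => ?_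
      rw [Units.val_neg, Units.val_div_eq_div_val]
    rw [h2]
    have h3 : - (∑ i : Fin N, (u i.succ : F)) = (u 0 : F) := by
      rw [eq_comm]
      exact eq_neg_of_add_eq_zero_left h0
    rw [h3]
    exact div_self (u 0).ne_zero
  have h2 := A_L_neg lam (fun l : Fin N => u l.succ / u 0) (fun _ => true)
  simp only [if_true] at h2
  rw [h1] at h2
  set w : Fˣ := Units.mk0 s hs with hw
  have h3 := A_quot_sum lam (fun i => Additive.ofMul (u i / w))
  have h4 : (fun j : Fin N => Additive.ofMul (u j.succ / w) - Additive.ofMul (u 0 / w)) =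
      fun j => Additive.ofMul (u j.succ / u 0) := by
    funext j
    rw [← ofMul_div, div_div_div_cancel_right]
  rw [h4, ← h2] at h3
  rw [h3]
  refine Finset.sum_congr rfl fun i _ => ?_
  congr 1
  have h5 : (fun j : Fin N => (u (i.succAbove j) : F) / s) =
      fun j => ((u (i.succAbove j) / w : Fˣ) : F) := by
    funext j
    rw [Units.val_div_eq_div_val]
    rfl
  rw [h5, A_ev_units]

/-- (A4) three factors in every row. -/
theorem A_prod (lam : (Additive Fˣ) [⋀^Fin N]→ₗ[ℤ] ℝ) (v : Fin N → Fin 3 → F)
    (hv : ∀ j a, v j a ≠ 0) (r : F) (hr : r ≠ 0) :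
    ev lam (fun j => (∏ a, v j a) / r ^ 3) =
      ∑ c : Fin N → Fin 3, ev lam (fun j => v j (c j) / r) := by
  classical
  set V : Fin N → Fin 3 → Fˣ := fun j a => Units.mk0 (v j a) (hv j a) with hV
  set w : Fˣ := Units.mk0 r hr with hw
  have h1 : (fun j => (∏ a, v j a) / r ^ 3) = fun j => (((∏ a, V j a) / w ^ 3 : Fˣ) : F) := by
    funext j
    rw [Units.val_div_eq_div_val, Units.coe_prod, Units.val_pow_eq_pow_val]
    rfl
  have h2 : ∀ c : Fin N → Fin 3, (fun j => v j (c j) / r) =
      fun j => ((V j (c j) / w : Fˣ) : F) := by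
    intro c
    funext j
    rw [Units.val_div_eq_div_val]
    rfl
  rw [h1, A_ev_units]
  simp only [h2, A_ev_units]
  have h3 : (fun j => Additive.ofMul ((∏ a, V j a) / w ^ 3)) =
      fun j => ∑ a, Additive.ofMul (V j a / w) := by
    funext j
    rw [← ofMul_prod, Finset.prod_div_distrib]
    simp
  rw [h3]
  exact lam.toMultilinearMap.map_sum (fun j a => Additive.ofMul (V j a / w))

/-- (A4') quotients in every row. -/
theorem A_div (lam : (Additive Fˣ) [⋀^Fin N]→ₗ[ℤ] ℝ) (x y : Fin N → F)
    (hx : ∀ j, x j ≠ 0) (hy : ∀ j, y j ≠ 0) (r : F) (hr : r ≠ 0) :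
    ev lam (fun j => x j / y j) =
      ∑ c : Fin N → Bool, (∏ j, (if c j then (1 : ℝ) else -1)) *
        ev lam (fun j => (if c j then x j else y j) / r) := by
  classical
  set X : Fin N → Fˣ := fun j => Units.mk0 (x j) (hx j) with hX
  set Y : Fin N → Fˣ := fun j => Units.mk0 (y j) (hy j) with hY
  set w : Fˣ := Units.mk0 r hr with hw
  have h1 : (fun j => x j / y j) = fun j => ((X j / Y j : Fˣ) : F) := by
    funext j
    rw [Units.val_div_eq_div_val]
    rfl
  have h2 : ∀ c : Fin N → Bool, (fun j => (if c j then x j else y j) / r) =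
      fun j => (((if c j then X j else Y j) / w : Fˣ) : F) := by
    intro c
    funext j
    rw [Units.val_div_eq_div_val]
    split_ifs <;> rfl
  rw [h1, A_ev_units]
  simp only [h2, A_ev_units]
  have h3 : (fun j => Additive.ofMul (X j / Y j)) =
      fun j => ∑ b : Bool, (if b then (1 : ℤ) else -1) •
        Additive.ofMul ((if b then X j else Y j) / w) := by
    funext j
    rw [Fintype.sum_bool]
    simp only [if_true, Bool.false_eq_true, if_false, one_smul, neg_smul, ofMul_div]
    abel
  rw [h3]
  have h4 := lam.toMultilinearMap.map_sum (fun (j : Fin N) (b : Bool) =>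
    (if b then (1 : ℤ) else -1) • Additive.ofMul ((if b then X j else Y j) / w))
  rw [AlternatingMap.coe_multilinearMap] at h4
  rw [h4]
  refine Finset.sum_congr rfl fun c _ => ?_
  rw [lam.map_smul_univ (fun j => if c j then (1 : ℤ) else -1)
    (fun j => Additive.ofMul ((if c j then X j else Y j) / w)), zsmul_eq_mul]
  congr 1
  push_cast
  refine Finset.prod_congr rfl fun j _ => ?_
  split_ifs <;> simp

/-- the symbol of `N + 1` sections -/
noncomputable def theta (lam : (Additive Fˣ) [⋀^Fin N]→ₗ[ℤ] ℝ) (X : Fin (N + 1) → F) : ℝ :=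
  ev lam (fun j => X j.succ / X 0)

/-- (A5) `theta` is alternating in all `N + 1` variables. -/
theorem A_theta_perm (lam : (Additive Fˣ) [⋀^Fin N]→ₗ[ℤ] ℝ) (X : Fin (N + 1) → F)
    (hX : ∀ j, X j ≠ 0) (σ : Equiv.Perm (Fin (N + 1))) :
    theta lam (X ∘ σ) = ((Equiv.Perm.sign σ : ℤˣ) : ℤ) * theta lam X := by
  obtain ⟨u, rfl⟩ := A_lift X hX
  have key : ∀ u : Fin (N + 1) → Fˣ, theta lam (fun i => (u i : F)) =
      A_om lam (fun i => (Additive.ofMul (u i), (1 : ℤ))) := by
    intro u
    rw [← A_quot, theta]
    have h1 : (fun j : Fin N => (u j.succ : F) / (u 0 : F)) =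
        fun j => ((u j.succ / u 0 : Fˣ) : F) := by
      funext j
      rw [Units.val_div_eq_div_val]
    rw [h1, A_ev_units]
    congr 1
  have h1 : (fun i => (u i : F)) ∘ σ = fun i => ((u ∘ σ) i : F) := rfl
  rw [h1, key, key]
  have h2 := (A_om lam).map_perm (fun i => (Additive.ofMul (u i), (1 : ℤ))) σ
  have h3 : (fun i => (Additive.ofMul (u i), (1 : ℤ))) ∘ σ =
      fun i => (Additive.ofMul ((u ∘ σ) i), (1 : ℤ)) := rfl
  rw [h3] at h2
  rw [h2, Units.smul_def, zsmul_eq_mul]

end Pool.Agent.MP_b197b4_ntUV
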