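import Pool.Agent.Lib.MP_b197b4_ntUV.Defs

/-! UV, part B3: abstract expansion of a square and Cauchy-Schwarz. -/

namespace Pool.Agent.MP_b197b4_ntUV

set_option autoImplicit false

open scoped BigOperators
open Finset

section B3

open Classical in
/-- abstract expansion + Cauchy-Schwarz -/
theorem B3_main {Ω S : Type*} [Fintype Ω] [Fintype S] (f : S → Ω → ℝ) (sg : S → ℝ)
    (hsg : ∀ s, |sg s| ≤ 1) (C : S → S → Ω → Prop) (G O : Ω → Prop) (κ D : ℝ) (hκ : 0 < κ)
    (hG : ∀ s t v, G v → C s t v)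
    (h1 : ∀ s t, κ * ∑ v with (O v ∧ C s t v), f s v * f t v = ∑ v with C s t v, f s v * f t v)
    (h2 : ∀ s t, ∑ v with ¬ C s t v, (f s v) ^ 2 ≤ D ∧ ∑ v with ¬ C s t v, (f t v) ^ 2 ≤ D)
    (h3 : ∀ s t, κ * ∑ v with (O v ∧ C s t v ∧ ¬ G v), (f s v) ^ 2 ≤ D ∧
      κ * ∑ v with (O v ∧ C s t v ∧ ¬ G v), (f t v) ^ 2 ≤ D)
    (h4 : ∀ v, O v → G v → ∑ s, sg s * f s v = 0) :
    ∑ v, (∑ s, sg s * f s v) ^ 2 ≤ 2 * (Fintype.card S : ℝ) ^ 2 * D := by
  have hexp : ∀ v, (∑ s, sg s * f s v) ^ 2 =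
      ∑ s, ∑ t, (sg s * sg t) * (f s v * f t v) := by
    intro v
    rw [sq, Finset.sum_mul_sum]
    refine Finset.sum_congr rfl fun s _ => Finset.sum_congr rfl fun t _ => ?_
    ring
  -- bound of a product sum
  have hab : ∀ (s t : S) (P : Finset Ω), |∑ v ∈ P, f s v * f t v| ≤
      (∑ v ∈ P, (f s v) ^ 2 + ∑ v ∈ P, (f t v) ^ 2) / 2 := by
    intro s t P
    refine (Finset.abs_sum_le_sum_abs _ _).trans ?_
    rw [← Finset.sum_add_distrib, Finset.sum_div]
    refine Finset.sum_le_sum fun v _ => ?_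
    rw [abs_le]
    constructor
    · nlinarith [sq_nonneg (f s v + f t v)]
    · nlinarith [sq_nonneg (f s v - f t v)]
  have hst : ∀ s t : S, |sg s * sg t| ≤ 1 := fun s t => by
    rw [abs_mul]
    exact mul_le_one₀ (hsg s) (abs_nonneg _) (hsg t)
  -- zero sum on the good part of `O`
  have hz : κ * ∑ v with (O v ∧ G v), (∑ s, sg s * f s v) ^ 2 = 0 := by
    rw [Finset.sum_eq_zero, mul_zero]
    intro v hv
    rw [Finset.mem_filter] at hv
    rw [h4 v hv.2.1 hv.2.2]
    norm_num
  -- decomposition of a pair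
  have hpair : ∀ s t : S, |∑ v, f s v * f t v - κ * ∑ v with (O v ∧ G v), f s v * f t v| ≤
      2 * D := by
    intro s t
    have e1 : ∑ v, f s v * f t v = ∑ v with C s t v, f s v * f t v +
        ∑ v with ¬ C s t v, f s v * f t v :=
      (Finset.sum_filter_add_sum_filter_not _ _ _).symm
    have e2 : ∑ v with (O v ∧ C s t v), f s v * f t v =
        ∑ v with (O v ∧ G v), f s v * f t v + ∑ v with (O v ∧ C s t v ∧ ¬ G v), f s v * f t v := by
      rw [← Finset.sum_filter_add_sum_filter_not (Finset.univ.filter fun v => O v ∧ C s t v)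
        (fun v => G v)]
      congr 1
      · apply Finset.sum_congr _ fun _ _ => rfl
        ext v
        simp only [Finset.mem_filter, Finset.mem_univ, true_and]
        constructor
        · rintro ⟨⟨a, b⟩, c⟩
          exact ⟨a, c⟩
        · rintro ⟨a, c⟩
          exact ⟨⟨a, hG s t v c⟩, c⟩
      · apply Finset.sum_congr _ fun _ _ => rfl
        ext v
        simp only [Finset.mem_filter, Finset.mem_univ, true_and]
        tauto
    have e3 : ∑ v, f s v * f t v - κ * ∑ v with (O v ∧ G v), f s v * f t v =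
        ∑ v with ¬ C s t v, f s v * f t v +
          κ * ∑ v with (O v ∧ C s t v ∧ ¬ G v), f s v * f t v := by
      rw [e1, ← h1 s t, e2]
      ring
    rw [e3]
    refine (abs_add_le _ _).trans ?_
    rw [abs_mul, abs_of_pos hκ]
    have b1 := hab s t (Finset.univ.filter fun v => ¬ C s t v)
    have b2 := hab s t (Finset.univ.filter fun v => O v ∧ C s t v ∧ ¬ G v)
    have b3 := mul_le_mul_of_nonneg_left b2 hκ.le
    obtain ⟨c1, c2⟩ := h2 s t
    obtain ⟨c3, c4⟩ := h3 s t
    have b4 : κ * ((∑ v with (O v ∧ C s t v ∧ ¬ G v), (f s v) ^ 2 +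
        ∑ v with (O v ∧ C s t v ∧ ¬ G v), (f t v) ^ 2) / 2) ≤ D := by
      linarith
    linarith
  have htot : ∑ v, (∑ s, sg s * f s v) ^ 2 =
      ∑ s, ∑ t, (sg s * sg t) *
        (∑ v, f s v * f t v - κ * ∑ v with (O v ∧ G v), f s v * f t v) := by
    have e1 : ∀ P : Finset Ω, ∑ v ∈ P, (∑ s, sg s * f s v) ^ 2 =
        ∑ s, ∑ t, (sg s * sg t) * ∑ v ∈ P, f s v * f t v := by
      intro P
      rw [Finset.sum_congr rfl fun v _ => hexp v, Finset.sum_comm]
      refine Finset.sum_congr rfl fun s _ => ?_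
      rw [Finset.sum_comm]
      refine Finset.sum_congr rfl fun t _ => ?_
      rw [Finset.mul_sum]
    rw [e1] at hz
    have e2 : ∑ s, ∑ t, (sg s * sg t) *
        (∑ v, f s v * f t v - κ * ∑ v with (O v ∧ G v), f s v * f t v) =
        ∑ s, ∑ t, (sg s * sg t) * ∑ v, f s v * f t v -
          κ * ∑ s, ∑ t, (sg s * sg t) * ∑ v with (O v ∧ G v), f s v * f t v := by
      rw [Finset.mul_sum, ← Finset.sum_sub_distrib]
      refine Finset.sum_congr rfl fun s _ => ?_
      rw [Finset.mul_sum, ← Finset.sum_sub_distrib]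
      refine Finset.sum_congr rfl fun t _ => ?_
      ring
    rw [e2, hz, sub_zero, e1]
  rw [htot]
  calc ∑ s, ∑ t, (sg s * sg t) *
        (∑ v, f s v * f t v - κ * ∑ v with (O v ∧ G v), f s v * f t v)
      ≤ ∑ s : S, ∑ t : S, (2 * D) := by
        refine Finset.sum_le_sum fun s _ => Finset.sum_le_sum fun t _ => ?_
        refine (le_abs_self _).trans ?_
        rw [abs_mul]
        have := hpair s t
        have h5 := hst s t
        calc _ ≤ 1 * |∑ v, f s v * f t v - κ * ∑ v with (O v ∧ G v), f s v * f t v| :=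
              mul_le_mul_of_nonneg_right h5 (abs_nonneg _)
          _ ≤ _ := by linarith
    _ = 2 * (Fintype.card S : ℝ) ^ 2 * D := by
        simp only [Finset.sum_const, Finset.card_univ, nsmul_eq_mul]
        ring

end B3

end Pool.Agent.MP_b197b4_ntUV
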