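import Pool.Agent.Lib.MP_b197b4_ntUV.Defs

/-! UV, part B4: alternating functions on finite products, the projection `L0`, the gauge. -/

namespace Pool.Agent.MP_b197b4_ntUV

set_option autoImplicit false

open scoped BigOperators
open Finset

section sums

variable {H : Type*} [Fintype H]

theorem B4_sum_update {I : Type*} [Fintype I] [DecidableEq I] (f : (I → H) → ℝ) (i : I) :
    ∑ v : I → H, ∑ h : H, f (Function.update v i h) =
      (Fintype.card H : ℝ) * ∑ v : I → H, f v := by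
  classical
  let E : (I → H) × H ≃ (I → H) × H :=
    { toFun := fun p => (Function.update p.1 i p.2, p.1 i)
      invFun := fun p => (Function.update p.1 i p.2, p.1 i)
      left_inv := by
        rintro ⟨v, h⟩
        simp
      right_inv := by
        rintro ⟨v, h⟩
        simp }
  have h1 : ∑ v : I → H, ∑ h : H, f (Function.update v i h) =
      ∑ p : (I → H) × H, f (E p).1 := by
    rw [← Fintype.sum_prod_type' (fun (v : I → H) (h : H) => f (Function.update v i h))]
    rfl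
  rw [h1, Equiv.sum_comp E (fun p : (I → H) × H => f p.1), Fintype.sum_prod_type]
  simp [Finset.sum_const, Finset.mul_sum]

theorem B4_sum_comp0 {I J : Type*} [Fintype I] [Fintype J] [DecidableEq I] [DecidableEq J]
    (φ : J → I) (hφ : Function.Injective φ) (g : (J → H) → ℝ) :
    ∑ v : I → H, g (v ∘ φ) =
      (Fintype.card H : ℝ) ^ (Fintype.card I - Fintype.card J) * ∑ z : J → H, g z := by
  classical
  let E1 := Equiv.piEquivPiSubtypeProd (fun i : I => i ∈ Set.range φ) (fun _ => H)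
  let e : J ≃ {i : I // i ∈ Set.range φ} := Equiv.ofInjective φ hφ
  have h1 : ∑ v : I → H, g (v ∘ φ) =
      ∑ p : ({i : I // i ∈ Set.range φ} → H) × ({i : I // ¬ i ∈ Set.range φ} → H),
        g (p.1 ∘ e) := by
    rw [← Equiv.sum_comp E1]
    rfl
  have hcard : Fintype.card {i : I // ¬ i ∈ Set.range φ} = Fintype.card I - Fintype.card J := by
    rw [Fintype.card_subtype_compl, ← Fintype.card_congr e]
  rw [h1, Fintype.sum_prod_type]
  simp only [Finset.sum_const, Finset.card_univ, nsmul_eq_mul, Fintype.card_fun, hcard]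
  rw [← Finset.mul_sum]
  congr 1
  · push_cast
    rfl
  · exact Equiv.sum_comp (Equiv.arrowCongr e (Equiv.refl H)).symm (fun z : J → H => g z)

end sums

section alt

variable {H : Type*} [Fintype H]

/-- alternating functions of `n` variables -/
def Alt {H : Type*} {n : ℕ} (L : (Fin n → H) → ℝ) : Prop :=
  ∀ (z : Fin n → H) (i j : Fin n), i ≠ j → L (z ∘ Equiv.swap i j) = - L z

/-- sum over one coordinate -/
noncomputable def Sj {n : ℕ} (L : (Fin n → H) → ℝ) (j : Fin n) (z : Fin n → H) : ℝ :=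
  (∑ h : H, L (Function.update z j h)) / (Fintype.card H : ℝ)

noncomputable def L0 {n : ℕ} (L : (Fin n → H) → ℝ) (z : Fin n → H) : ℝ :=
  L z - ∑ j, Sj L j z

theorem B4_Sj_update {n : ℕ} (L : (Fin n → H) → ℝ) (j : Fin n) (z : Fin n → H) (h : H) :
    Sj L j (Function.update z j h) = Sj L j z := by
  simp [Sj]

omit [Fintype H] in
theorem B4_swap_update {n : ℕ} (z : Fin n → H) (i j : Fin n) (hij : i ≠ j) (h h' : H) :
    (Function.update (Function.update z i h) j h') ∘ Equiv.swap i j =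
      Function.update (Function.update z i h') j h := by
  funext k
  by_cases hk1 : k = i
  · subst hk1
    simp [hij]
  · by_cases hk2 : k = j
    · subst hk2
      simp [hij]
    · simp [Equiv.swap_apply_of_ne_of_ne hk1 hk2, hk1, hk2]

theorem B4_two {n : ℕ} {L : (Fin n → H) → ℝ} (hL : Alt L) (i j : Fin n) (hij : i ≠ j)
    (z : Fin n → H) :
    ∑ h : H, ∑ h' : H, L (Function.update (Function.update z i h) j h') = 0 := by
  have h1 : ∑ h : H, ∑ h' : H, L (Function.update (Function.update z i h) j h') =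
      - ∑ h : H, ∑ h' : H, L (Function.update (Function.update z i h) j h') := by
    conv_lhs => rw [Finset.sum_comm]
    rw [← Finset.sum_neg_distrib]
    refine Finset.sum_congr rfl fun h _ => ?_
    rw [← Finset.sum_neg_distrib]
    refine Finset.sum_congr rfl fun h' _ => ?_
    rw [← B4_swap_update z i j hij h h', hL _ i j hij]
  linarith

variable [Nonempty H]

theorem B4_card_pos : (0 : ℝ) < (Fintype.card H : ℝ) := by
  exact_mod_cast Fintype.card_pos

/-- `P_j L0 = 0` -/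
theorem B4_sum_L0 {n : ℕ} {L : (Fin n → H) → ℝ} (hL : Alt L) (j : Fin n) (z : Fin n → H) :
    ∑ h : H, L0 L (Function.update z j h) = 0 := by
  have hc : (Fintype.card H : ℝ) ≠ 0 := B4_card_pos.ne'
  unfold L0
  rw [Finset.sum_sub_distrib, Finset.sum_comm]
  have h1 : ∑ k : Fin n, ∑ h : H, Sj L k (Function.update z j h) =
      ∑ h : H, L (Function.update z j h) := by
    rw [Finset.sum_eq_single j]
    · simp only [B4_Sj_update, Finset.sum_const, Finset.card_univ, nsmul_eq_mul]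
      unfold Sj
      field_simp
    · intro k _ hk
      unfold Sj
      rw [← Finset.sum_div, B4_two hL j k (Ne.symm hk), zero_div]
    · intro h
      exact absurd (Finset.mem_univ j) h
  rw [h1, sub_self]

/-- integration over one coordinate -/
theorem B4_int {n : ℕ} (f g : (Fin n → H) → ℝ) (j : Fin n)
    (hf : ∀ z h, f (Function.update z j h) = f z) :
    ∑ z, f z * g z = ∑ z, f z * ((∑ h : H, g (Function.update z j h)) / (Fintype.card H : ℝ)) := by
  have hc : (Fintype.card H : ℝ) ≠ 0 := B4_card_pos.ne'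
  have h1 := B4_sum_update (fun z => f z * g z) j
  simp only [hf] at h1
  simp only [← Finset.mul_sum] at h1
  rw [← mul_right_inj' hc, ← h1, Finset.mul_sum]
  refine Finset.sum_congr rfl fun z _ => ?_
  field_simp

theorem B4_L_Sj {n : ℕ} (L : (Fin n → H) → ℝ) (j : Fin n) :
    ∑ z, L z * Sj L j z = ∑ z, Sj L j z ^ 2 := by
  have h1 := B4_int (Sj L j) L j (B4_Sj_update L j)
  calc ∑ z, L z * Sj L j z = ∑ z, Sj L j z * L z := by
        refine Finset.sum_congr rfl fun z _ => ?_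
        ring
    _ = ∑ z, Sj L j z * Sj L j z := h1
    _ = ∑ z, Sj L j z ^ 2 := by
        refine Finset.sum_congr rfl fun z _ => ?_
        ring

theorem B4_Sj_L0 {n : ℕ} {L : (Fin n → H) → ℝ} (hL : Alt L) (j : Fin n) :
    ∑ z, Sj L j z * L0 L z = 0 := by
  rw [B4_int (Sj L j) (L0 L) j (B4_Sj_update L j)]
  refine Finset.sum_eq_zero fun z _ => ?_
  rw [B4_sum_L0 hL]
  simp

theorem B4_L_L0 {n : ℕ} {L : (Fin n → H) → ℝ} (hL : Alt L) :
    ∑ z, L z * L0 L z = ∑ z, L0 L z ^ 2 := by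
  have h1 : ∀ z, L z = L0 L z + ∑ j, Sj L j z := fun z => by
    unfold L0
    ring
  have h2 : ∑ z, L z * L0 L z = ∑ z, (L0 L z ^ 2 + ∑ j, Sj L j z * L0 L z) := by
    refine Finset.sum_congr rfl fun z _ => ?_
    rw [← Finset.sum_mul]
    nth_rewrite 1 [h1 z]
    ring
  rw [h2, Finset.sum_add_distrib, Finset.sum_comm]
  simp [B4_Sj_L0 hL]

theorem B4_norm {n : ℕ} {L : (Fin n → H) → ℝ} (hL : Alt L) :
    ∑ z, L0 L z ^ 2 = ∑ z, L z ^ 2 - ∑ j, ∑ z, Sj L j z ^ 2 := by
  rw [← B4_L_L0 hL]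
  have h2 : ∑ z, L z * L0 L z = ∑ z, (L z ^ 2 - ∑ j, L z * Sj L j z) := by
    refine Finset.sum_congr rfl fun z _ => ?_
    rw [← Finset.mul_sum]
    unfold L0
    ring
  rw [h2, Finset.sum_sub_distrib]
  congr 1
  rw [Finset.sum_comm]
  refine Finset.sum_congr rfl fun j _ => ?_
  exact B4_L_Sj L j

omit [Fintype H] [Nonempty H] in
theorem B4_slice {N : ℕ} {Θ : (Fin (N + 1) → H) → ℝ} (hΘ : Alt Θ) (r : H) :
    Alt (fun z : Fin N → H => Θ (Fin.cons r z)) := by
  intro z i j hij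
  have h1 := hΘ (Fin.cons r z) i.succ j.succ (by simpa using hij)
  rw [← h1]
  show Θ (Fin.cons r (z ∘ Equiv.swap i j)) = _
  congr 1
  funext k
  refine Fin.cases ?_ (fun k => ?_) k
  · rw [Function.comp_apply, Equiv.swap_apply_of_ne_of_ne (Fin.succ_ne_zero i).symm
      (Fin.succ_ne_zero j).symm]
    simp
  · simp only [Fin.cons_succ, Function.comp_apply]
    have h2 : Equiv.swap i.succ j.succ k.succ = (Equiv.swap i j k).succ := by
      by_cases hk1 : k = i
      · subst hk1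
        simp
      · by_cases hk2 : k = j
        · subst hk2
          simp
        · rw [Equiv.swap_apply_of_ne_of_ne hk1 hk2, Equiv.swap_apply_of_ne_of_ne]
          · simpa using hk1
          · simpa using hk2
    rw [h2, Fin.cons_succ]

omit [Nonempty H] in
theorem B4_sum_cons {N : ℕ} (f : (Fin (N + 1) → H) → ℝ) :
    ∑ r : H, ∑ z : Fin N → H, f (Fin.cons r z) = ∑ X, f X := by
  rw [← Fintype.sum_prod_type' (fun (r : H) (z : Fin N → H) => f (Fin.cons r z))]
  exact Equiv.sum_comp (Fin.consEquiv (fun _ => H)) f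

/-- the norm of the `L0` parts of the slices, gauge inequality -/
theorem B4_gauge {N : ℕ} {Θ : (Fin (N + 1) → H) → ℝ} (hΘ : Alt Θ) :
    ∑ X, Θ X ^ 2 ≤ ((N : ℝ) + 1) *
      ∑ r : H, ∑ z : Fin N → H, L0 (fun z => Θ (Fin.cons r z)) z ^ 2 := by
  have hc : (Fintype.card H : ℝ) ≠ 0 := B4_card_pos.ne'
  have hsl : ∀ r : H, Alt (fun z : Fin N → H => Θ (Fin.cons r z)) := B4_slice hΘ
  have hsum : ∀ f : (Fin (N + 1) → H) → ℝ,
      ∑ r : H, ∑ z : Fin N → H, f (Fin.cons r z) = ∑ X, f X := B4_sum_cons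
  -- all the `P_j` have the same norm
  have hp : ∀ j : Fin (N + 1), ∑ X, Sj Θ j X ^ 2 = ∑ X, Sj Θ 0 X ^ 2 := by
    intro j
    by_cases hj : j = 0
    · rw [hj]
    have h1 : ∀ X : Fin (N + 1) → H, Sj Θ j X ^ 2 = Sj Θ 0 (X ∘ Equiv.swap 0 j) ^ 2 := by
      intro X
      have h2 : Sj Θ j X = - Sj Θ 0 (X ∘ Equiv.swap 0 j) := by
        unfold Sj
        rw [← neg_div, ← Finset.sum_neg_distrib]
        congr 1
        refine Finset.sum_congr rfl fun h _ => ?_
        rw [eq_neg_iff_add_eq_zero, add_comm, ← eq_neg_iff_add_eq_zero,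
          ← hΘ (Function.update X j h) 0 j (Ne.symm hj)]
        congr 1
        funext k
        by_cases hk1 : k = 0
        · subst hk1
          simp
        · by_cases hk2 : k = j
          · subst hk2
            simp [hj, Ne.symm hj]
          · simp [Equiv.swap_apply_of_ne_of_ne hk1 hk2, hk1, hk2]
      rw [h2, neg_sq]
    rw [Finset.sum_congr rfl fun X _ => h1 X]
    exact Equiv.sum_comp (Equiv.arrowCongr (Equiv.swap 0 j) (Equiv.refl H))
      (fun X => Sj Θ 0 X ^ 2)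
  -- Bessel
  have hb := B4_norm hΘ
  have hb0 : 0 ≤ ∑ z, L0 Θ z ^ 2 := Finset.sum_nonneg fun z _ => sq_nonneg _
  simp only [hp, Finset.sum_const, Finset.card_univ, Fintype.card_fin, nsmul_eq_mul] at hb
  push_cast at hb
  -- slices
  have h3 : ∑ r : H, ∑ z : Fin N → H, L0 (fun z => Θ (Fin.cons r z)) z ^ 2 =
      ∑ X, Θ X ^ 2 - N * ∑ X, Sj Θ 0 X ^ 2 := by
    have h4 : ∀ r : H, ∑ z : Fin N → H, L0 (fun z => Θ (Fin.cons r z)) z ^ 2 =
        ∑ z : Fin N → H, Θ (Fin.cons r z) ^ 2 -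
          ∑ j : Fin N, ∑ z : Fin N → H, Sj Θ j.succ (Fin.cons r z) ^ 2 := by
      intro r
      rw [B4_norm (hsl r)]
      congr 1
      refine Finset.sum_congr rfl fun j _ => Finset.sum_congr rfl fun z _ => ?_
      unfold Sj
      congr 2
      refine Finset.sum_congr rfl fun h _ => ?_
      show Θ (Fin.cons r (Function.update z j h)) = Θ (Function.update (Fin.cons r z) j.succ h)
      rw [Fin.cons_update]
    rw [Finset.sum_congr rfl fun r _ => h4 r, Finset.sum_sub_distrib,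
      hsum (fun X => Θ X ^ 2), Finset.sum_comm]
    have h5 : ∀ j : Fin N, ∑ r : H, ∑ z : Fin N → H, Sj Θ j.succ (Fin.cons r z) ^ 2 =
        ∑ X, Sj Θ 0 X ^ 2 := by
      intro j
      rw [hsum (fun X => Sj Θ j.succ X ^ 2), hp]
    rw [Finset.sum_congr rfl fun j _ => h5 j]
    simp
  rw [h3]
  have hN : (0 : ℝ) ≤ N := Nat.cast_nonneg N
  have h6 : ((N : ℝ) + 1) * ∑ X, Sj Θ 0 X ^ 2 ≤ ∑ X, Θ X ^ 2 := by linarith
  nlinarith [mul_le_mul_of_nonneg_left h6 hN]

end alt

section main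

variable {H : Type*}

/-- the tuple chosen by `c` in the rows different from `i` -/
def tup {H : Type*} {N : ℕ} (i : Fin (N + 1)) (c : Fin (N + 1) → Fin 3)
    (v : Fin (N + 1) × Fin 3 → H) : Fin N → H := fun j => v (i.succAbove j, c (i.succAbove j))

noncomputable def Aop {H : Type*} {N : ℕ} (L : (Fin N → H) → ℝ)
    (v : Fin (N + 1) × Fin 3 → H) : ℝ :=
  ∑ i : Fin (N + 1), ∑ c : Fin (N + 1) → Fin 3, (-1 : ℝ) ^ (i : ℕ) * L (tup i c v)

variable [Fintype H]

theorem B4_sum_tup0 {N : ℕ} (i : Fin (N + 1)) (c : Fin (N + 1) → Fin 3)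
    (g : (Fin N → H) → ℝ) :
    ∑ v : Fin (N + 1) × Fin 3 → H, g (tup i c v) =
      (Fintype.card H : ℝ) ^ (2 * N + 3) * ∑ z : Fin N → H, g z := by
  have h1 := B4_sum_comp0 (H := H) (I := Fin (N + 1) × Fin 3) (J := Fin N)
    (fun j => (i.succAbove j, c (i.succAbove j)))
    (fun a b hab => by
      have := congrArg Prod.fst hab
      exact Fin.succAbove_right_injective this) g
  have h2 : Fintype.card (Fin (N + 1) × Fin 3) - Fintype.card (Fin N) = 2 * N + 3 := by
    simp only [Fintype.card_prod, Fintype.card_fin]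
    omega
  rw [h2] at h1
  exact h1

variable [Nonempty H]

theorem B4_pair {N : ℕ} {L : (Fin N → H) → ℝ} (hL : Alt L) :
    ∑ v : Fin (N + 1) × Fin 3 → H, Aop L v * L0 L (tup 0 (fun _ => 0) v) =
      3 * ((Fintype.card H : ℝ) ^ (2 * N + 3) * ∑ z : Fin N → H, L0 L z ^ 2) := by
  classical
  have hc : (Fintype.card H : ℝ) ≠ 0 := B4_card_pos.ne'
  -- a term not seeing the variable `(a.succ, 0)` vanishes
  have hzero : ∀ (i : Fin (N + 1)) (c : Fin (N + 1) → Fin 3) (a : Fin N),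
      (a.succ = i ∨ c a.succ ≠ 0) →
      ∑ v : Fin (N + 1) × Fin 3 → H, L (tup i c v) * L0 L (tup 0 (fun _ => 0) v) = 0 := by
    intro i c a ha
    have h1 := B4_sum_update (H := H)
      (fun v : Fin (N + 1) × Fin 3 → H => L (tup i c v) * L0 L (tup 0 (fun _ => 0) v))
      (a.succ, 0)
    have h2 : ∀ (v : Fin (N + 1) × Fin 3 → H) (h : H),
        tup i c (Function.update v (a.succ, 0) h) = tup i c v := by
      intro v h
      funext k
      unfold tup
      rw [Function.update_apply, if_neg]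
      intro h3
      have h4 := congrArg Prod.fst h3
      have h5 := congrArg Prod.snd h3
      simp only at h4 h5
      rw [h4] at h5
      rcases ha with ha | ha
      · rw [ha] at h4
        exact Fin.succAbove_ne i k h4
      · exact ha h5
    have h3 : ∀ (v : Fin (N + 1) × Fin 3 → H) (h : H),
        tup 0 (fun _ => 0) (Function.update v (a.succ, 0) h) =
          Function.update (tup 0 (fun _ => 0) v) a h := by
      intro v h
      funext k
      unfold tup
      by_cases hk : k = a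
      · subst hk
        simp
      · simp [hk]
    simp only [h2, h3] at h1
    rw [← mul_right_inj' hc, ← h1, mul_zero]
    refine Finset.sum_eq_zero fun v _ => ?_
    rw [← Finset.mul_sum, B4_sum_L0 hL, mul_zero]
  have hone : ∀ t : Fin 3, ∑ v : Fin (N + 1) × Fin 3 → H,
      L (tup 0 (Function.update (fun _ => 0) 0 t) v) * L0 L (tup 0 (fun _ => 0) v) =
        (Fintype.card H : ℝ) ^ (2 * N + 3) * ∑ z : Fin N → H, L0 L z ^ 2 := by
    intro t
    rw [← B4_L_L0 hL, ← B4_sum_tup0 0 (fun _ => 0)]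
    refine Finset.sum_congr rfl fun v _ => ?_
    congr 2
  have h1 : ∑ v : Fin (N + 1) × Fin 3 → H, Aop L v * L0 L (tup 0 (fun _ => 0) v) =
      ∑ i : Fin (N + 1), ∑ c : Fin (N + 1) → Fin 3, (-1 : ℝ) ^ (i : ℕ) *
        ∑ v : Fin (N + 1) × Fin 3 → H, L (tup i c v) * L0 L (tup 0 (fun _ => 0) v) := by
    unfold Aop
    simp only [Finset.sum_mul, Finset.mul_sum]
    rw [Finset.sum_comm]
    refine Finset.sum_congr rfl fun i _ => ?_
    rw [Finset.sum_comm]
    refine Finset.sum_congr rfl fun c _ => Finset.sum_congr rfl fun v _ => ?_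
    ring
  rw [h1]
  rw [Finset.sum_eq_single 0]
  · simp only [Fin.val_zero, pow_zero, one_mul]
    -- only `c` with `c (a.succ) = 0` for all `a` survive
    have h2 : ∑ c : Fin (N + 1) → Fin 3,
        ∑ v : Fin (N + 1) × Fin 3 → H, L (tup 0 c v) * L0 L (tup 0 (fun _ => 0) v) =
        ∑ c ∈ Finset.univ.image (fun t : Fin 3 =>
            (Function.update (fun _ => 0) 0 t : Fin (N + 1) → Fin 3)),
        ∑ v : Fin (N + 1) × Fin 3 → H, L (tup 0 c v) * L0 L (tup 0 (fun _ => 0) v) := by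
      symm
      apply Finset.sum_subset (Finset.subset_univ _)
      intro c _ hcn
      by_contra hne
      apply hcn
      rw [Finset.mem_image]
      refine ⟨c 0, Finset.mem_univ _, ?_⟩
      funext k
      refine Fin.cases ?_ (fun k => ?_) k
      · simp
      · rw [Function.update_of_ne (Fin.succ_ne_zero k)]
        by_contra hk
        exact hne (hzero 0 c k (Or.inr (fun h => hk h.symm)))
    rw [h2, Finset.sum_image]
    · rw [Finset.sum_congr rfl fun t _ => hone t]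
      simp
    · intro t _ t' _ htt
      have := congrFun htt 0
      simpa using this
  · intro i _ hi
    obtain ⟨a, rfl⟩ := Fin.exists_succ_eq.mpr hi
    refine Finset.sum_eq_zero fun c _ => ?_
    rw [hzero a.succ c a (Or.inl rfl), mul_zero]
  · intro h
    exact absurd (Finset.mem_univ _) h

/-- `L0` is controlled by `A` -/
theorem B4_top {N : ℕ} {L : (Fin N → H) → ℝ} (hL : Alt L) :
    9 * ((Fintype.card H : ℝ) ^ (2 * N + 3) * ∑ z : Fin N → H, L0 L z ^ 2) ≤
      ∑ v : Fin (N + 1) × Fin 3 → H, Aop L v ^ 2 := by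
  have h1 := B4_pair hL
  have h2 : ∑ v : Fin (N + 1) × Fin 3 → H, L0 L (tup 0 (fun _ => 0) v) ^ 2 =
      (Fintype.card H : ℝ) ^ (2 * N + 3) * ∑ z : Fin N → H, L0 L z ^ 2 :=
    B4_sum_tup0 0 (fun _ => 0) (fun z => L0 L z ^ 2)
  have h3 : 0 ≤ ∑ v : Fin (N + 1) × Fin 3 → H,
      (Aop L v - 3 * L0 L (tup 0 (fun _ => 0) v)) ^ 2 :=
    Finset.sum_nonneg fun v _ => sq_nonneg _
  have h4 : ∑ v : Fin (N + 1) × Fin 3 → H,
      (Aop L v - 3 * L0 L (tup 0 (fun _ => 0) v)) ^ 2 =
      ∑ v : Fin (N + 1) × Fin 3 → H, Aop L v ^ 2 -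
        6 * ∑ v : Fin (N + 1) × Fin 3 → H, Aop L v * L0 L (tup 0 (fun _ => 0) v) +
        9 * ∑ v : Fin (N + 1) × Fin 3 → H, L0 L (tup 0 (fun _ => 0) v) ^ 2 := by
    rw [Finset.mul_sum, Finset.mul_sum, ← Finset.sum_sub_distrib, ← Finset.sum_add_distrib]
    refine Finset.sum_congr rfl fun v _ => ?_
    ring
  rw [h4, h1, h2] at h3
  linarith

theorem B4_main0 {N : ℕ} (Θ : (Fin (N + 1) → H) → ℝ) (hΘ : Alt Θ) (ε : ℝ)
    (hε : ε * (N + 1) < 9)
    (hA : ∀ r : H, ∑ v : Fin (N + 1) × Fin 3 → H, (Aop (fun z => Θ (Fin.cons r z)) v) ^ 2 ≤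
      ε * (Fintype.card H : ℝ) ^ (2 * N + 3) * ∑ z : Fin N → H, Θ (Fin.cons r z) ^ 2) :
    ∀ X, Θ X = 0 := by
  have hc : (0 : ℝ) < (Fintype.card H : ℝ) ^ (2 * N + 3) := pow_pos B4_card_pos _
  have hsl : ∀ r : H, Alt (fun z : Fin N → H => Θ (Fin.cons r z)) := B4_slice hΘ
  have h1 : ∀ r : H, 9 * ∑ z : Fin N → H, L0 (fun z => Θ (Fin.cons r z)) z ^ 2 ≤
      ε * ∑ z : Fin N → H, Θ (Fin.cons r z) ^ 2 := by
    intro r
    have h2 := (B4_top (hsl r)).trans (hA r)
    have h3 : (Fintype.card H : ℝ) ^ (2 * N + 3) *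
        (9 * ∑ z : Fin N → H, L0 (fun z => Θ (Fin.cons r z)) z ^ 2) ≤
        (Fintype.card H : ℝ) ^ (2 * N + 3) * (ε * ∑ z : Fin N → H, Θ (Fin.cons r z) ^ 2) := by
      calc _ = 9 * ((Fintype.card H : ℝ) ^ (2 * N + 3) *
            ∑ z : Fin N → H, L0 (fun z => Θ (Fin.cons r z)) z ^ 2) := by ring
        _ ≤ _ := h2
        _ = _ := by ring
    exact le_of_mul_le_mul_left h3 hc
  have h2 : 9 * ∑ r : H, ∑ z : Fin N → H, L0 (fun z => Θ (Fin.cons r z)) z ^ 2 ≤
      ε * ∑ X, Θ X ^ 2 := by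
    rw [← B4_sum_cons (fun X => Θ X ^ 2), Finset.mul_sum, Finset.mul_sum]
    exact Finset.sum_le_sum fun r _ => h1 r
  have h3 := B4_gauge hΘ
  have hN : (0 : ℝ) < (N : ℝ) + 1 := by positivity
  have h0 : 0 ≤ ∑ X, Θ X ^ 2 := Finset.sum_nonneg fun z _ => sq_nonneg _
  have h4 : 9 * ∑ X, Θ X ^ 2 ≤ (ε * (N + 1)) * ∑ X, Θ X ^ 2 := by
    calc 9 * ∑ X, Θ X ^ 2 ≤ 9 * (((N : ℝ) + 1) *
          ∑ r : H, ∑ z : Fin N → H, L0 (fun z => Θ (Fin.cons r z)) z ^ 2) := by linarith
      _ = ((N : ℝ) + 1) *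
          (9 * ∑ r : H, ∑ z : Fin N → H, L0 (fun z => Θ (Fin.cons r z)) z ^ 2) := by ring
      _ ≤ ((N : ℝ) + 1) * (ε * ∑ X, Θ X ^ 2) := mul_le_mul_of_nonneg_left h2 hN.le
      _ = _ := by ring
  have h5 : ∑ X, Θ X ^ 2 = 0 := by
    by_contra hne
    have hpos : 0 < ∑ X, Θ X ^ 2 := lt_of_le_of_ne h0 (Ne.symm hne)
    have := le_of_mul_le_mul_right h4 hpos
    linarith
  intro X
  have h6 := (Finset.sum_eq_zero_iff_of_nonneg (fun z _ => sq_nonneg (Θ z))).mp h5 X
    (Finset.mem_univ X)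
  exact pow_eq_zero_iff (two_ne_zero) |>.mp h6

end main

theorem B4_main {H : Type*} [Fintype H] [Nonempty H] {N : ℕ} (Θ : (Fin (N+1) → H) → ℝ)
    (hΘ : Alt Θ) (ε : ℝ) (hε : ε * (N+1) < 9)
    (hA : ∀ r : H, ∑ v : Fin (N+1) × Fin 3 → H, (Aop (fun z => Θ (Fin.cons r z)) v)^2 ≤
      ε * (Fintype.card H : ℝ)^(2*N+3) * ∑ z : Fin N → H, Θ (Fin.cons r z)^2) : ∀ X, Θ X = 0 :=
  B4_main0 Θ hΘ ε hε hA

theorem B4_sum_comp {I J H : Type*} [Fintype I] [Fintype J] [DecidableEq I] [DecidableEq J]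
    [Fintype H] (φ : J → I) (hφ : Function.Injective φ) (g : (J → H) → ℝ) :
    ∑ v : I → H, g (v ∘ φ) =
      (Fintype.card H : ℝ)^(Fintype.card I - Fintype.card J) * ∑ z : J → H, g z :=
  B4_sum_comp0 φ hφ g

theorem B4_sum_tup {H : Type*} [Fintype H] {N : ℕ} (i : Fin (N+1)) (c : Fin (N+1) → Fin 3)
    (L : (Fin N → H) → ℝ) :
    ∑ v : Fin (N+1) × Fin 3 → H, (L (tup i c v))^2 =
      (Fintype.card H : ℝ)^(2*N+3) * ∑ z : Fin N → H, (L z)^2 :=
  B4_sum_tup0 i c (fun z => (L z) ^ 2)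

end Pool.Agent.MP_b197b4_ntUV
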