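import Pool.Agent.Lib.MP_b197b4_ntUV.K1

/-!
# Leaf K3: the third kind of bad event

The event: all `v j a /= 0`, but `rtup r i' c' v` is not good.  Let `y, I_0, I_1, I_2` be the witness for `v0` (row `i` missing),
`σ = swap (some i) (some i')`, `y' = y ∘ σ`, `I_a' = σ(I_a)` (does not contain `some i'`).  Since all entries are non zero the
event implies (`K0_good_iff`) that for some `a` the family `otup r c' v · y'` does not cover on `I_a'`: three events.
For each `a` choose `b /= a` with `none ∉ I_b` and `J` = rows of `I_b'`; the event only sees the rows of `I_a'`, disjoint from `J`: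
`K0_tool`, `K1_rest` for `J`, and for the event itself `K0_fix` + `K0_sz`: first atom of `some j in I_a'` : the variable
`v j (c' j)` (if `j /= i` and `c' j = c j` the constant `v0 j (c j)`), first atom of `none` : the constant `r`,
second atom the constant `y' o`.  Witness point `v j a = Z' (some j)`, `Z' = otup r c v0 ∘ σ`.
-/

set_option autoImplicit false

namespace Pool.Agent.MP_b197b4_ntUV

open scoped BigOperators

variable {K F : Type*} [Field K] [Field F] [Algebra K F] {H : Submodule K F} {N : ℕ}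

private theorem K3_union {α : Type*} [Finite α] (S : α → Prop) (T : Fin 3 → α → Prop)
    (h : ∀ v, S v → ∃ a, T a v) : Nat.card {v // S v} ≤ ∑ a, Nat.card {v // T a v} := by
  classical
  rw [← Nat.card_sigma]
  choose f hf using h
  refine Nat.card_le_card_of_injective
    (fun v : {v // S v} => (⟨f v.1 v.2, v.1, hf v.1 v.2⟩ : Σ a, {v // T a v})) ?_
  intro v w hvw
  have h1 : ((fun x : Σ a, {v // T a v} => (x.2 : α)) ⟨f v.1 v.2, v.1, hf v.1 v.2⟩) =
      ((fun x : Σ a, {v // T a v} => (x.2 : α)) ⟨f w.1 w.2, w.1, hf w.1 w.2⟩) :=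
    congrArg (fun x : Σ a, {v // T a v} => (x.2 : α)) hvw
  exact Subtype.ext h1

/-- one of the three witness sets -/
private theorem K3_one [Fintype K] (H W : Submodule K F) [Fintype H] [Finite W]
    (hW : ∀ a b c : H, (a : F) * (b : F) * (c : F) ∈ W)
    (r : H) (i i' : Fin (N + 1)) (c c' e : Fin (N + 1) → Fin 3) (he : ∀ j, e j ≠ c j)
    (v0 : Fin (N + 1) → Fin 3 → H) (y : Option (Fin (N + 1)) → H)
    (I I2 : Finset (Option (Fin (N + 1)))) (hdis : Disjoint I I2)
    (hi : some i ∉ I) (hi2 : some i ∉ I2) (hn2 : none ∉ I2)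
    (hI : Cov H W I (fun o => (otup r c v0 o : F) * (y o : F)))
    (hI2 : Cov H W I2 (fun o => (otup r c v0 o : F) * (y o : F))) :
    Nat.card W * Nat.card {v : Fin (N + 1) → Fin 3 → H // (∀ j, j ≠ i → v j (c j) = v0 j (c j)) ∧
        fsum v = 0 ∧ Cov H W Finset.univ (rest e v) ∧
        ¬ Cov H W (I.map (Equiv.swap (some i) (some i')).toEmbedding)
          (fun o => (otup r c' v o : F) * (y ((Equiv.swap (some i) (some i')).symm o) : F))} *
        Fintype.card K * Fintype.card H ^ N
      ≤ 4 * Module.finrank K W * Fintype.card H ^ (3 * (N + 1)) := by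
  classical
  set σ : Equiv.Perm (Option (Fin (N + 1))) := Equiv.swap (some i) (some i') with hσ
  have hσs : σ.symm = σ := by rw [hσ, Equiv.symm_swap]
  set J : Finset (Fin (N + 1)) := Finset.univ.filter (fun j : Fin (N + 1) => σ (some j) ∈ I2) with hJ
  have hmem : ∀ o, o ∈ I.map σ.toEmbedding ↔ σ o ∈ I := by
    intro o
    rw [Finset.mem_map_equiv, hσs]
  have hi' : some i' ∉ I.map σ.toEmbedding := by
    rw [hmem, hσ, Equiv.swap_apply_right]
    exact hi
  have hJI : ∀ j, some j ∈ I.map σ.toEmbedding → j ∉ J := by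
    intro j hj hj2
    rw [hmem] at hj
    have h2 : σ (some j) ∈ I2 := (Finset.mem_filter.1 hj2).2
    exact Finset.disjoint_left.1 hdis hj h2
  -- the event
  let E : (Fin (N + 1) → Fin 3 → H) → Prop := fun v => ¬ Cov H W (I.map σ.toEmbedding)
    (fun o => (otup r c' v o : F) * (y (σ.symm o) : F))
  have hE : ∀ v v' : Fin (N + 1) → Fin 3 → H, (∀ j a, (j ∈ J → a ≠ e j) → v j a = v' j a) →
      (E v ↔ E v') := by
    intro v v' h
    refine not_congr (K0_cov_congr H W _ _ _ fun o ho => ?_)
    cases o with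
    | none => rfl
    | some j =>
      have h1 : v j (c' j) = v' j (c' j) := h j (c' j) fun hj => absurd hj (hJI j ho)
      show (v j (c' j) : F) * _ = (v' j (c' j) : F) * _
      rw [h1]
  have htool := K0_tool H W hW i c e he v0 J E hE
  have hrest := K1_rest H W hW r i i' c e v0 y I2 hi2 hn2 hI2
  -- the event as an event without the chosen variables
  let p : Option (Fin (N + 1)) → H ⊕ (Fin (N + 1) × Fin 3) := fun o =>
    o.elim (Sum.inl r) (fun j => if j ≠ i ∧ c' j = c j then Sum.inl (v0 j (c j)) else Sum.inr (j, c' j))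
  let q : Option (Fin (N + 1)) → H ⊕ (Fin (N + 1) × Fin 3) := fun o => Sum.inl (y (σ.symm o))
  let E' : (Fin (N + 1) → Fin 3 → H) → Prop := fun v => ¬ Cov H W (I.map σ.toEmbedding)
    (fun j => ((Sum.elim id (fun x => v x.1 x.2) (p j) : H) : F) *
      ((Sum.elim id (fun x => v x.1 x.2) (q j) : H) : F))
  have hE' : ∀ v v' : Fin (N + 1) → Fin 3 → H,
      (∀ j a, ¬ (j ≠ i ∧ a = c j) → v j a = v' j a) → (E' v ↔ E' v') := by
    intro v v' h
    refine not_congr (K0_cov_congr H W _ _ _ fun o _ => ?_)
    cases o with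
    | none => rfl
    | some j =>
      by_cases hj : j ≠ i ∧ c' j = c j
      · have hp : p (some j) = Sum.inl (v0 j (c j)) := if_pos hj
        rw [hp]
        rfl
      · have hp : p (some j) = Sum.inr (j, c' j) := if_neg hj
        rw [hp]
        show (v j (c' j) : F) * _ = (v' j (c' j) : F) * _
        rw [h j (c' j) hj]
        rfl
  have hEE : ∀ v : Fin (N + 1) → Fin 3 → H, (∀ j, j ≠ i → v j (c j) = v0 j (c j)) →
      (E v ↔ E' v) := by
    intro v h
    refine not_congr (K0_cov_congr H W _ _ _ fun o _ => ?_)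
    cases o with
    | none => rfl
    | some j =>
      by_cases hj : j ≠ i ∧ c' j = c j
      · have hp : p (some j) = Sum.inl (v0 j (c j)) := if_pos hj
        rw [hp]
        show (v j (c' j) : F) * _ = (v0 j (c j) : F) * _
        rw [hj.2, h j hj.1]
        rfl
      · have hp : p (some j) = Sum.inr (j, c' j) := if_neg hj
        rw [hp]
        rfl
  have hcard : Nat.card {v : Fin (N + 1) → Fin 3 → H // (∀ j, j ≠ i → v j (c j) = v0 j (c j)) ∧ E v} =
      Nat.card {v : Fin (N + 1) → Fin 3 → H // (∀ j, j ≠ i → v j (c j) = v0 j (c j)) ∧ E' v} :=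
    Nat.card_congr (Equiv.subtypeEquivRight fun v => and_congr_right fun h => hEE v h)
  have hfix := K0_fix i c v0 E' hE'
  have hsz := K0_sz H W hW (I.map σ.toEmbedding) p q (fun j _ => otup r c v0 (σ (some j))) (by
    have h1 := (K0_cov_map H W σ I (fun o => (otup r c v0 o : F) * (y o : F))).2 hI
    refine (K0_cov_congr H W _ _ _ fun o ho => ?_).1 h1
    show (otup r c v0 (σ.symm o) : F) * (y (σ.symm o) : F) = _ * (y (σ.symm o) : F)
    congr 2
    cases o with
    | none =>
      have h2 : σ.symm none = none := by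
        rw [hσs, hσ]
        exact Equiv.swap_apply_of_ne_of_ne (by simp) (by simp)
      rw [h2]
      rfl
    | some j =>
      by_cases hj : j ≠ i ∧ c' j = c j
      · have hp : p (some j) = Sum.inl (v0 j (c j)) := if_pos hj
        rw [hp]
        have hji' : j ≠ i' := fun h => hi' (h ▸ ho)
        have h2 : σ.symm (some j) = some j := by
          rw [hσs, hσ]
          exact Equiv.swap_apply_of_ne_of_ne (fun h => hj.1 (Option.some_injective _ h))
            (fun h => hji' (Option.some_injective _ h))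
        rw [h2]
        rfl
      · have hp : p (some j) = Sum.inr (j, c' j) := if_neg hj
        rw [hp, hσs]
        rfl)
  rw [← hfix, ← hcard] at hsz
  have h1 : Nat.card W * Nat.card {v : Fin (N + 1) → Fin 3 → H //
      (∀ j, j ≠ i → v j (c j) = v0 j (c j)) ∧
        fsum v = 0 ∧ Cov H W Finset.univ (rest e v) ∧ E v} * Fintype.card K * Fintype.card H ^ N ≤
      (Nat.card {v : Fin (N + 1) → Fin 3 → H // (∀ j, j ≠ i → v j (c j) = v0 j (c j)) ∧
        ¬ Cov H W J (rest e v)} + Nat.card {v : Fin (N + 1) → Fin 3 → H //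
          (∀ j, j ≠ i → v j (c j) = v0 j (c j)) ∧ E v}) * Fintype.card K * Fintype.card H ^ N :=
    Nat.mul_le_mul_right _ (Nat.mul_le_mul_right _ htool)
  refine h1.trans ?_
  have h2 : ∀ x z Q P : ℕ, (x + z) * Q * P = x * Q * P + z * P * Q := fun x z Q P => by ring
  rw [h2]
  have h3 : 4 * Module.finrank K W * Fintype.card H ^ (3 * (N + 1)) =
      2 * Module.finrank K W * Fintype.card H ^ (3 * (N + 1)) +
      2 * Module.finrank K W * Fintype.card H ^ (3 * (N + 1)) := by ring
  rw [h3]
  exact Nat.add_le_add hrest hsz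

theorem K3_good [Fintype K] (H W : Submodule K F) [Fintype H] [Finite W]
    (hW : ∀ a b c : H, (a : F) * (b : F) * (c : F) ∈ W)
    (r : H) (i i' : Fin (N + 1)) (c c' e : Fin (N + 1) → Fin 3) (he : ∀ j, e j ≠ c j)
    (v0 : Fin (N + 1) → Fin 3 → H) (hv0 : Good H W (rtup r i c v0)) :
    Nat.card W * Nat.card {v : Fin (N + 1) → Fin 3 → H // (∀ j, j ≠ i → v j (c j) = v0 j (c j)) ∧
        fsum v = 0 ∧ Cov H W Finset.univ (rest e v) ∧ (∀ j a, v j a ≠ 0) ∧ ¬ Good H W (rtup r i' c' v)} *
        Fintype.card K * Fintype.card H ^ N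
      ≤ 12 * Module.finrank K W * Fintype.card H ^ (3 * (N + 1)) := by
  classical
  obtain ⟨hz, y, I, hdis, hiI, hcov⟩ := (K0_good_iff H W r i c v0).1 hv0
  set σ : Equiv.Perm (Option (Fin (N + 1))) := Equiv.swap (some i) (some i') with hσ
  have hσs : σ.symm = σ := by rw [hσ, Equiv.symm_swap]
  let T : Fin 3 → (Fin (N + 1) → Fin 3 → H) → Prop := fun a v =>
    (∀ j, j ≠ i → v j (c j) = v0 j (c j)) ∧ fsum v = 0 ∧ Cov H W Finset.univ (rest e v) ∧
      ¬ Cov H W ((I a).map σ.toEmbedding) (fun o => (otup r c' v o : F) * (y (σ.symm o) : F))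
  have hT : ∀ v : Fin (N + 1) → Fin 3 → H, ((∀ j, j ≠ i → v j (c j) = v0 j (c j)) ∧
        fsum v = 0 ∧ Cov H W Finset.univ (rest e v) ∧ (∀ j a, v j a ≠ 0) ∧
        ¬ Good H W (rtup r i' c' v)) → ∃ a, T a v := by
    rintro v ⟨h1, h2, h3, h4, h5⟩
    by_contra hcon
    push Not at hcon
    refine h5 ((K0_good_iff H W r i' c' v).2 ⟨fun o ho => ?_, fun o => y (σ.symm o),
      fun a => (I a).map σ.toEmbedding, fun a b hab => ?_, fun a => ?_, fun a => ?_⟩)
    · cases o with
      | none => exact hz none (by simp)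
      | some j => exact h4 j (c' j)
    · exact (Finset.disjoint_map σ.toEmbedding).2 (hdis a b hab)
    · rw [Finset.mem_map_equiv, hσs, hσ, Equiv.swap_apply_right]
      exact hiI a
    · by_contra hc
      exact hcon a ⟨h1, h2, h3, hc⟩
  have hone : ∀ a, Nat.card W * Nat.card {v // T a v} * Fintype.card K * Fintype.card H ^ N ≤
      4 * Module.finrank K W * Fintype.card H ^ (3 * (N + 1)) := by
    intro a
    obtain ⟨b, hab, hb⟩ : ∃ b, a ≠ b ∧ none ∉ I b := by
      by_contra hcon
      push Not at hcon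
      obtain ⟨b, b', hb, hb', hbb⟩ : ∃ b b' : Fin 3, a ≠ b ∧ a ≠ b' ∧ b ≠ b' := by
        fin_cases a
        · exact ⟨1, 2, by decide, by decide, by decide⟩
        · exact ⟨0, 2, by decide, by decide, by decide⟩
        · exact ⟨0, 1, by decide, by decide, by decide⟩
      exact Finset.disjoint_left.1 (hdis b b' hbb) (hcon b hb) (hcon b' hb')
    exact K3_one H W hW r i i' c c' e he v0 y (I a) (I b) (hdis a b hab) (hiI a) (hiI b) hb
      (hcov a) (hcov b)
  have hun := K3_union _ T hT
  rw [Fin.sum_univ_three] at hun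
  have h0 := hone 0
  have h1 := hone 1
  have h2 := hone 2
  calc _ ≤ Nat.card W * (Nat.card {v // T 0 v} + Nat.card {v // T 1 v} + Nat.card {v // T 2 v}) *
        Fintype.card K * Fintype.card H ^ N :=
        Nat.mul_le_mul_right _ (Nat.mul_le_mul_right _ (Nat.mul_le_mul_left _ hun))
    _ = Nat.card W * Nat.card {v // T 0 v} * Fintype.card K * Fintype.card H ^ N +
        Nat.card W * Nat.card {v // T 1 v} * Fintype.card K * Fintype.card H ^ N +
        Nat.card W * Nat.card {v // T 2 v} * Fintype.card K * Fintype.card H ^ N := by ring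
    _ ≤ 4 * Module.finrank K W * Fintype.card H ^ (3 * (N + 1)) +
        4 * Module.finrank K W * Fintype.card H ^ (3 * (N + 1)) +
        4 * Module.finrank K W * Fintype.card H ^ (3 * (N + 1)) :=
        Nat.add_le_add (Nat.add_le_add h0 h1) h2
    _ = 12 * Module.finrank K W * Fintype.card H ^ (3 * (N + 1)) := by ring

end Pool.Agent.MP_b197b4_ntUV
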