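import Pool.Agent.Lib.MP_b197b4_ntUV.K2
import Pool.Agent.Lib.MP_b197b4_ntUV.K3

/-!
# Leaf K4: the good event
Union bound over `3(N+1)` events `K2_zero`, `3^(N+1)` events `K2_cov`, `(N+1) 3^(N+1)` events `K3_good`.
-/

set_option autoImplicit false

namespace Pool.Agent.MP_b197b4_ntUV

open scoped BigOperators

variable {K F : Type*} [Field K] [Field F] [Algebra K F] {H : Submodule K F} {N : ℕ}

/-- the good event -/
def Gev (H W : Submodule K F) (r : H) (v : Fin (N + 1) → Fin 3 → H) : Prop :=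
  (∀ j a, v j a ≠ 0) ∧ (∀ e, Cov H W Finset.univ (rest e v)) ∧ ∀ i c, Good H W (rtup r i c v)

/-- a union bound -/
private theorem K4_union {α : Type*} {A B D : Type} [Fintype α] [Fintype A] [Fintype B] [Fintype D]
    (P : α → Prop) (p : A → α → Prop) (q : B → α → Prop) (s : D → α → Prop)
    (h : ∀ v, P v → (∃ a, p a v) ∨ (∃ b, q b v) ∨ ∃ d, s d v) (M X Y Z : ℕ)
    (hp : ∀ a, M * Nat.card {v // p a v} ≤ X) (hq : ∀ b, M * Nat.card {v // q b v} ≤ Y)
    (hs : ∀ d, M * Nat.card {v // s d v} ≤ Z) :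
    M * Nat.card {v // P v} ≤
      Fintype.card A * X + Fintype.card B * Y + Fintype.card D * Z := by
  classical
  have hc : ∀ t : α → Prop, Nat.card {v // t v} = (Finset.univ.filter t).card := by
    intro t
    rw [Nat.card_eq_fintype_card, Fintype.card_subtype]
  have hsub : Finset.univ.filter P ⊆
      ((Finset.univ : Finset A).biUnion fun a => Finset.univ.filter (p a)) ∪
        ((Finset.univ : Finset B).biUnion fun b => Finset.univ.filter (q b)) ∪
          ((Finset.univ : Finset D).biUnion fun d => Finset.univ.filter (s d)) := by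
    intro v hv
    rcases h v (Finset.mem_filter.1 hv).2 with ⟨a, ha⟩ | ⟨b, hb⟩ | ⟨d, hd⟩
    · exact Finset.mem_union_left _ (Finset.mem_union_left _ (Finset.mem_biUnion.2
        ⟨a, Finset.mem_univ a, Finset.mem_filter.2 ⟨Finset.mem_univ v, ha⟩⟩))
    · exact Finset.mem_union_left _ (Finset.mem_union_right _ (Finset.mem_biUnion.2
        ⟨b, Finset.mem_univ b, Finset.mem_filter.2 ⟨Finset.mem_univ v, hb⟩⟩))
    · exact Finset.mem_union_right _ (Finset.mem_biUnion.2
        ⟨d, Finset.mem_univ d, Finset.mem_filter.2 ⟨Finset.mem_univ v, hd⟩⟩)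
  have h1 : (Finset.univ.filter P).card ≤ (∑ a, (Finset.univ.filter (p a)).card) +
      (∑ b, (Finset.univ.filter (q b)).card) + ∑ d, (Finset.univ.filter (s d)).card := by
    refine (Finset.card_le_card hsub).trans ((Finset.card_union_le _ _).trans ?_)
    refine Nat.add_le_add ((Finset.card_union_le _ _).trans ?_) Finset.card_biUnion_le
    exact Nat.add_le_add Finset.card_biUnion_le Finset.card_biUnion_le
  have h2 : ∀ {ι : Type} [Fintype ι] (t : ι → α → Prop) (U : ℕ)
      (_ : ∀ a, M * Nat.card {v // t a v} ≤ U),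
      M * (∑ a, (Finset.univ.filter (t a)).card) ≤ Fintype.card ι * U := by
    intro ι _ t U hU
    rw [Finset.mul_sum]
    calc ∑ a, M * (Finset.univ.filter (t a)).card ≤ ∑ _a : ι, U :=
          Finset.sum_le_sum fun a _ => by
            rw [← hc]
            exact hU a
      _ = Fintype.card ι * U := by
          rw [Finset.sum_const, smul_eq_mul, Finset.card_univ]
  rw [hc]
  calc M * (Finset.univ.filter P).card ≤ M * ((∑ a, (Finset.univ.filter (p a)).card) +
      (∑ b, (Finset.univ.filter (q b)).card) + ∑ d, (Finset.univ.filter (s d)).card) :=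
        Nat.mul_le_mul_left M h1
    _ = M * (∑ a, (Finset.univ.filter (p a)).card) + M * (∑ b, (Finset.univ.filter (q b)).card) +
        M * ∑ d, (Finset.univ.filter (s d)).card := by ring
    _ ≤ _ := Nat.add_le_add (Nat.add_le_add (h2 p X hp) (h2 q Y hq)) (h2 s Z hs)

theorem K4_two [Fintype K] (H W : Submodule K F) [Fintype H] [Finite W]
    (hW : ∀ a b c : H, (a : F) * (b : F) * (c : F) ∈ W)
    (r : H) (i : Fin (N + 1)) (c e : Fin (N + 1) → Fin 3) (he : ∀ j, e j ≠ c j)
    (v0 : Fin (N + 1) → Fin 3 → H) (hv0 : Good H W (rtup r i c v0)) :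
    Nat.card W * Nat.card {v : Fin (N + 1) → Fin 3 → H // (∀ j, j ≠ i → v j (c j) = v0 j (c j)) ∧
        fsum v = 0 ∧ Cov H W Finset.univ (rest e v) ∧ ¬ Gev H W r v} *
        Fintype.card K * Fintype.card H ^ N
      ≤ 20 * (N + 1) * 3 ^ (N + 1) * Module.finrank K W * Fintype.card H ^ (3 * (N + 1)) := by
  classical
  set f := Module.finrank K W with hf
  set U := Fintype.card H ^ (3 * (N + 1)) with hU
  set M := Nat.card W * Fintype.card K * Fintype.card H ^ N with hM
  have hmul : ∀ n : ℕ, Nat.card W * n * Fintype.card K * Fintype.card H ^ N = M * n := by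
    intro n
    rw [hM]
    ring
  have h1 := K4_union (A := Fin (N + 1) × Fin 3) (B := Fin (N + 1) → Fin 3)
    (D := Fin (N + 1) × (Fin (N + 1) → Fin 3))
    (fun v : Fin (N + 1) → Fin 3 → H => (∀ j, j ≠ i → v j (c j) = v0 j (c j)) ∧
        fsum v = 0 ∧ Cov H W Finset.univ (rest e v) ∧ ¬ Gev H W r v)
    (fun q v => (∀ j, j ≠ i → v j (c j) = v0 j (c j)) ∧
        fsum v = 0 ∧ Cov H W Finset.univ (rest e v) ∧ v q.1 q.2 = 0)
    (fun e' v => (∀ j, j ≠ i → v j (c j) = v0 j (c j)) ∧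
        fsum v = 0 ∧ Cov H W Finset.univ (rest e v) ∧ ¬ Cov H W Finset.univ (rest e' v))
    (fun q v => (∀ j, j ≠ i → v j (c j) = v0 j (c j)) ∧
        fsum v = 0 ∧ Cov H W Finset.univ (rest e v) ∧ (∀ j a, v j a ≠ 0) ∧
          ¬ Good H W (rtup r q.1 q.2 v))
    (by
      rintro v ⟨h1, h2, h3, h4⟩
      by_cases h5 : ∀ j a, v j a ≠ 0
      · by_cases h6 : ∀ e, Cov H W Finset.univ (rest e v)
        · have h7 : ¬ ∀ i c, Good H W (rtup r i c v) := fun h8 => h4 ⟨h5, h6, h8⟩
          obtain ⟨i', h8⟩ := not_forall.1 h7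
          obtain ⟨c', h9⟩ := not_forall.1 h8
          exact Or.inr (Or.inr ⟨(i', c'), h1, h2, h3, h5, h9⟩)
        · obtain ⟨e', h7⟩ := not_forall.1 h6
          exact Or.inr (Or.inl ⟨e', h1, h2, h3, h7⟩)
      · obtain ⟨j, h6⟩ := not_forall.1 h5
        obtain ⟨a, h7⟩ := not_forall.1 h6
        exact Or.inl ⟨(j, a), h1, h2, h3, not_not.1 h7⟩)
    M (3 * f * U) (4 * f * U) (12 * f * U)
    (fun q => by
      rw [← hmul]
      exact K2_zero H W hW r i c e he v0 hv0 q.1 q.2)
    (fun e' => by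
      rw [← hmul]
      exact K2_cov H W hW r i c e e' he v0 hv0)
    (fun q => by
      rw [← hmul]
      exact K3_good H W hW r i q.1 c q.2 e he v0 hv0)
  rw [hmul]
  refine h1.trans ?_
  have h2 : Fintype.card (Fin (N + 1) × Fin 3) = (N + 1) * 3 := by simp
  have h3 : Fintype.card (Fin (N + 1) → Fin 3) = 3 ^ (N + 1) := by simp
  have h4 : Fintype.card (Fin (N + 1) × (Fin (N + 1) → Fin 3)) = (N + 1) * 3 ^ (N + 1) := by simp
  rw [h2, h3, h4]
  have h5 : 3 ≤ 3 ^ (N + 1) := by
    calc 3 = 3 ^ 1 := (pow_one 3).symm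
      _ ≤ 3 ^ (N + 1) := Nat.pow_le_pow_right (by norm_num) (by omega)
  generalize 3 ^ (N + 1) = T at h5 ⊢
  have h6 : (N + 1) * 3 * 3 + T * 4 + (N + 1) * T * 12 ≤ 20 * (N + 1) * T := by nlinarith
  calc (N + 1) * 3 * (3 * f * U) + T * (4 * f * U) + (N + 1) * T * (12 * f * U) =
        ((N + 1) * 3 * 3 + T * 4 + (N + 1) * T * 12) * (f * U) := by ring
    _ ≤ 20 * (N + 1) * T * (f * U) := Nat.mul_le_mul_right _ h6
    _ = 20 * (N + 1) * T * f * U := by ring

end Pool.Agent.MP_b197b4_ntUV
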