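import Pool.Agent.Lib.MP_b197b4_ntUV.A
import Pool.Agent.Lib.MP_b197b4_ntUV.K4
import Pool.Agent.Lib.MP_b197b4_ntUV.B3
import Pool.Agent.Lib.MP_b197b4_ntUV.B4

/-!
# Leaf B5: THEOREM B (assembly of the L2 argument)

`Θ X = [Good X] * theta lam X` on `H^(N+1)` is alternating (`A_theta_perm`, `Good` is invariant under permutations of the index set;
a swap of the indices).  Fix `r`, `L z = Θ (Fin.cons r z)`; `B3_main` with `Ω = Fin (N+1) -> Fin 3 -> H` (or the product; translate by
`Equiv.curry`), `S = Fin (N+1) × (Fin (N+1) -> Fin 3)`, `f (i,c) v = L (tup i c v)`, `sg (i,c) = (-1)^i`, for two indices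
`(i,c), (i',c')` choose `e j` different from `c j` and `c' j` (a fixed choice function `Fin 3 -> Fin 3 -> Fin 3`),
`C = Cov univ (rest e v)`, `G = Gev H W r v`, `O = (fsum v = 0)`, `κ = card W`.
* `h1`: `M_master` with `J = univ`.
* `h2`, `h3`: from `K1_one`, `K4_two`: for a function `E` and the number `n(v0) = #{v : same c-variables as v0, E v}` one has
  `sum_v L(c v)^2 [E v] = card H^(-(2N+3)) sum_(v0) sum_(v ~ v0) L(c v0)^2 [E v]` (the number of `v0 ~ v` is `card H^(2N+3)`,
  `K0_fix` with `E = True`), and `L (tup i c v0) /= 0` implies `Good H W (rtup r i c v0)`; finally `B4_sum_tup`.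
* `h4`: on `G` and `O` the relation `A_rel` (with `s = r^3`) and `A_prod`.  `ev lam (z_j / r) = theta lam (cons r z)`.
  (`A_prod` sums over `c : Fin N -> Fin 3`, `Aop` over `Fin (N+1) -> Fin 3`: a factor 3 for the unused row.)
`B4_main` with `ε = 2 card(S)^2 (2 + 20 (N+1) 3^(N+1)) dim W / card K`.
-/

set_option autoImplicit false

namespace Pool.Agent.MP_b197b4_ntUV

open scoped BigOperators

/-- the lower bound for `card K` in THEOREM B -/
def qB (N D : ℕ) : ℕ :=
  2 * (N + 1) * ((N + 1) * 3 ^ (N + 1)) ^ 2 * (2 + 20 * (N + 1) * 3 ^ (N + 1)) * D + 1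

section B5_aux

variable {K F : Type*} [Field K] [Field F] [Algebra K F] {N : ℕ}

/-- the average over the fibres of the chosen variables -/
theorem B5_avg (H W : Submodule K F) [Fintype H]
    (κ A q : ℝ) (hq : 0 < q)
    (g : (Fin (N + 1) → H) → ℝ) (hg0 : ∀ X, 0 ≤ g X) (hg : ∀ X, ¬ Good H W X → g X = 0)
    (r : H) (i : Fin (N + 1)) (c : Fin (N + 1) → Fin 3) (E : (Fin (N + 1) → Fin 3 → H) → Prop)
    [DecidablePred E]
    (hE : ∀ v0, Good H W (rtup r i c v0) →
      κ * (Nat.card {v : Fin (N + 1) → Fin 3 → H // (∀ j, j ≠ i → v j (c j) = v0 j (c j)) ∧ E v} : ℝ)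
        * q * (Fintype.card H : ℝ) ^ N ≤ A * (Fintype.card H : ℝ) ^ (3 * (N + 1))) :
    κ * ∑ v with E v, g (rtup r i c v) ≤
      A / q * (Fintype.card H : ℝ) ^ (2 * N + 3) * ∑ z : Fin N → H, g (Fin.cons r z) := by
  classical
  have hH : (0 : ℝ) < (Fintype.card H : ℝ) := by exact_mod_cast Fintype.card_pos
  let tp : (Fin (N + 1) → Fin 3 → H) → (Fin N → H) :=
    fun v j => v (i.succAbove j) (c (i.succAbove j))
  have h1 : ∑ v with E v, g (rtup r i c v) =
      ∑ z : Fin N → H, ((Finset.univ.filter E).filter (fun v => tp v = z)).card *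
        g (Fin.cons r z) := by
    rw [← Finset.sum_fiberwise (Finset.univ.filter E) tp]
    refine Finset.sum_congr rfl fun z _ => ?_
    rw [← nsmul_eq_mul, ← Finset.sum_const]
    refine Finset.sum_congr rfl fun v hv => ?_
    rw [Finset.mem_filter] at hv
    rw [← hv.2]
    rfl
  rw [h1, Finset.mul_sum, Finset.mul_sum]
  refine Finset.sum_le_sum fun z _ => ?_
  rw [← mul_assoc]
  by_cases hz : Good H W (Fin.cons r z : Fin (N + 1) → H)
  · refine mul_le_mul_of_nonneg_right ?_ (hg0 _)
    let v0 : Fin (N + 1) → Fin 3 → H := fun j _ => (Fin.insertNth i (0 : H) z : Fin (N + 1) → H) j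
    have hv0 : tp v0 = z := by
      funext j
      simp only [tp, v0]
      rw [Fin.insertNth_apply_succAbove]
    have hgood : Good H W (rtup r i c v0) := by
      have : rtup r i c v0 = (Fin.cons r z : Fin (N + 1) → H) := by
        rw [← hv0]
        rfl
      rw [this]
      exact hz
    have h2 := hE v0 hgood
    have h3 : Nat.card {v : Fin (N + 1) → Fin 3 → H //
        (∀ j, j ≠ i → v j (c j) = v0 j (c j)) ∧ E v} =
        ((Finset.univ.filter E).filter (fun v => tp v = z)).card := by
      rw [Nat.card_eq_fintype_card, Fintype.card_subtype, Finset.filter_filter]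
      congr 1
      ext v
      simp only [Finset.mem_filter, Finset.mem_univ, true_and]
      constructor
      · rintro ⟨h, hv⟩
        refine ⟨hv, ?_⟩
        rw [← hv0]
        funext j
        exact h _ (Fin.succAbove_ne i j)
      · rintro ⟨hv, h⟩
        refine ⟨fun j hj => ?_, hv⟩
        obtain ⟨k, rfl⟩ := Fin.exists_succAbove_eq hj
        have h4 := congrFun (h.trans hv0.symm) k
        exact h4
    rw [h3] at h2
    have h5 : (Fintype.card H : ℝ) ^ (3 * (N + 1)) =
        (Fintype.card H : ℝ) ^ (2 * N + 3) * (Fintype.card H : ℝ) ^ N := by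
      rw [← pow_add]
      congr 1
      ring
    rw [h5, ← mul_assoc] at h2
    have h6 := le_of_mul_le_mul_right h2 (pow_pos hH N)
    rw [div_mul_eq_mul_div, le_div_iff₀ hq]
    exact h6
  · rw [hg _ hz, mul_zero, mul_zero]

open Classical in
/-- the form `theta lam` on good families -/
noncomputable def B5_th (H W : Submodule K F) (lam : (Additive Fˣ) [⋀^Fin N]→ₗ[ℤ] ℝ)
    (X : Fin (N + 1) → H) : ℝ :=
  if Good H W X then theta lam (fun j => (X j : F)) else 0

theorem B5_good_perm (H W : Submodule K F) {n : ℕ} (X : Fin n → H) (σ : Equiv.Perm (Fin n))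
    (h : Good H W X) : Good H W (X ∘ σ) := by
  obtain ⟨h0, y, I, hI, hc⟩ := h
  refine ⟨fun j => h0 (σ j), y ∘ σ, fun a => (I a).map σ.symm.toEmbedding, ?_, ?_⟩
  · intro a b hab
    rw [Finset.disjoint_map]
    exact hI a b hab
  · intro a
    have h1 := (K0_cov_map H W σ.symm (I a) (fun j => (X j : F) * (y j : F))).mpr (hc a)
    exact h1

theorem B5_good_perm_iff (H W : Submodule K F) {n : ℕ} (X : Fin n → H) (σ : Equiv.Perm (Fin n)) :
    Good H W (X ∘ σ) ↔ Good H W X := by
  refine ⟨fun h => ?_, B5_good_perm H W X σ⟩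
  have h1 := B5_good_perm H W _ σ.symm h
  have h2 : (X ∘ σ) ∘ σ.symm = X := by
    funext j
    simp
  rwa [h2] at h1

theorem B5_alt (H W : Submodule K F) (lam : (Additive Fˣ) [⋀^Fin N]→ₗ[ℤ] ℝ) :
    Alt (B5_th H W lam) := by
  intro z i j hij
  simp only [B5_th]
  by_cases h : Good H W z
  · rw [if_pos h, if_pos ((B5_good_perm_iff H W z _).mpr h)]
    have h1 := A_theta_perm lam (fun j => (z j : F)) (fun j => by
      intro h0
      exact h.1 j (Subtype.ext h0)) (Equiv.swap i j)
    rw [Equiv.Perm.sign_swap hij] at h1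
    simp only [Units.val_neg, Units.val_one, Int.cast_neg, Int.cast_one, neg_mul, one_mul] at h1
    exact h1
  · rw [if_neg h, if_neg (fun h' => h ((B5_good_perm_iff H W z _).mp h')), neg_zero]

theorem B5_sum_remove (i : Fin (N + 1)) (Φ : (Fin N → Fin 3) → ℝ) :
    ∑ c : Fin (N + 1) → Fin 3, Φ (fun j => c (i.succAbove j)) = 3 * ∑ c : Fin N → Fin 3, Φ c := by
  have h1 := Fintype.sum_equiv (Fin.insertNthEquiv (fun _ : Fin (N + 1) => Fin 3) i)
    (fun p : Fin 3 × (Fin N → Fin 3) => Φ p.2)
    (fun c : Fin (N + 1) → Fin 3 => Φ (fun j => c (i.succAbove j)))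
    (fun p => by
      congr 1
      funext j
      simp [Fin.insertNthEquiv])
  rw [← h1, Fintype.sum_prod_type]
  simp

/-- the relation on the good event -/
theorem B5_rel (H W : Submodule K F) (lam : (Additive Fˣ) [⋀^Fin N]→ₗ[ℤ] ℝ) (hS : Steinberg lam)
    (r : H) (v : Fin (N + 1) → Fin 3 → H) (hO : fsum v = 0) (hG : Gev H W r v) :
    ∑ s : Fin (N + 1) × (Fin (N + 1) → Fin 3), (-1 : ℝ) ^ (s.1 : ℕ) *
      B5_th H W lam (rtup r s.1 s.2 v) = 0 := by
  obtain ⟨h1, -, h3⟩ := hG
  have hr : (r : F) ≠ 0 := by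
    have := (h3 0 (fun _ => 0)).1 0
    intro h0
    exact this (Subtype.ext h0)
  have hv : ∀ j a, (v j a : F) ≠ 0 := fun j a h0 => h1 j a (Subtype.ext h0)
  rw [Fintype.sum_prod_type]
  have h4 : ∀ i : Fin (N + 1), ∑ c : Fin (N + 1) → Fin 3, (-1 : ℝ) ^ (i : ℕ) *
      B5_th H W lam (rtup r i c v) = 3 * ((-1 : ℝ) ^ (i : ℕ) *
        ev lam (fun j : Fin N => (∏ a, (v (i.succAbove j) a : F)) / (r : F) ^ 3)) := by
    intro i
    have h5 : ∀ c : Fin (N + 1) → Fin 3, B5_th H W lam (rtup r i c v) =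
        ev lam (fun j : Fin N => (v (i.succAbove j) (c (i.succAbove j)) : F) / (r : F)) := by
      intro c
      simp only [B5_th]
      rw [if_pos (h3 i c)]
      rfl
    simp only [h5]
    rw [← Finset.mul_sum, B5_sum_remove i (fun c' : Fin N → Fin 3 =>
      ev lam (fun j : Fin N => (v (i.succAbove j) (c' j) : F) / (r : F)))]
    rw [A_prod lam (fun j a => (v (i.succAbove j) a : F)) (fun j a => hv _ a) r hr]
    ring
  simp only [h4]
  rw [← Finset.mul_sum, A_rel lam hS (fun j => ∏ a, (v j a : F))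
    (fun j => Finset.prod_ne_zero_iff.mpr fun a _ => hv j a) hO _ (pow_ne_zero 3 hr), mul_zero]

end B5_aux

/-- THEOREM B. -/
theorem B5_main {K F : Type*} [Field K] [Fintype K] [Field F] [Algebra K F] {N : ℕ}
    (H W : Submodule K F) [Finite H] [Finite W]
    (hW : ∀ a b c : H, (a : F) * (b : F) * (c : F) ∈ W)
    (hq : qB N (Module.finrank K W) ≤ Fintype.card K)
    (lam : (Additive Fˣ) [⋀^Fin N]→ₗ[ℤ] ℝ) (hS : Steinberg lam)
    (X : Fin (N + 1) → H) (hX : Good H W X) :
    ev lam (fun j => (X j.succ : F) / (X 0 : F)) = 0 := by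
  classical
  have : Fintype H := Fintype.ofFinite H
  have hfr : ∀ a b : Fin 3, ∃ c : Fin 3, c ≠ a ∧ c ≠ b := by decide
  choose fr hfr1 hfr2 using hfr
  set w : ℕ := Module.finrank K W with hw
  set q : ℝ := (Fintype.card K : ℝ) with hqdef
  have hq0 : (0 : ℝ) < q := by
    rw [hqdef]
    exact_mod_cast Fintype.card_pos
  set M : ℕ := 2 + 20 * (N + 1) * 3 ^ (N + 1) with hM
  set L : (Fin (N + 1) → H) → ℝ := B5_th H W lam with hL
  have hW0 : (0 : ℝ) < (Nat.card W : ℝ) := by
    have : 0 < Nat.card W := Nat.card_pos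
    exact_mod_cast this
  have hcard : Fintype.card (Fin (N + 1) × (Fin (N + 1) → Fin 3)) = (N + 1) * 3 ^ (N + 1) := by
    simp
  have huniv : ∀ (i1 i2 : Fintype (Fin (N + 1) → Fin 3 → H))
      (f : (Fin (N + 1) → Fin 3 → H) → ℝ),
      @Finset.sum _ _ _ (@Finset.univ _ i1) f = @Finset.sum _ _ _ (@Finset.univ _ i2) f := by
    intro i1 i2 f
    rw [Subsingleton.elim i1 i2]
  have hmain : ∀ Y, L Y = 0 := by
    refine B4_main L (B5_alt H W lam)
      (2 * (((N + 1) * 3 ^ (N + 1) : ℕ) : ℝ) ^ 2 * ((M : ℝ) * w / q)) ?_ ?_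
    · -- size of q
      have h1 : ((qB N w : ℕ) : ℝ) ≤ q := by
        rw [hqdef]
        exact_mod_cast hq
      have h2 : (2 * (N + 1) * ((N + 1) * 3 ^ (N + 1)) ^ 2 * M * w : ℝ) < q := by
        have : ((qB N w : ℕ) : ℝ) =
            (2 * (N + 1) * ((N + 1) * 3 ^ (N + 1)) ^ 2 * M * w : ℝ) + 1 := by
          rw [qB, hM]
          push_cast
          ring
        linarith
      have h3 : 2 * (((N + 1) * 3 ^ (N + 1) : ℕ) : ℝ) ^ 2 * ((M : ℝ) * w / q) * (N + 1) =
          (2 * (N + 1) * ((N + 1) * 3 ^ (N + 1)) ^ 2 * M * w : ℝ) / q := by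
        push_cast
        ring
      rw [h3, div_lt_iff₀ hq0]
      linarith
    · intro r
      -- curry
      have hcur : ∑ v : Fin (N + 1) × Fin 3 → H, (Aop (fun z => L (Fin.cons r z)) v) ^ 2 =
          ∑ v : Fin (N + 1) → Fin 3 → H,
            (∑ s : Fin (N + 1) × (Fin (N + 1) → Fin 3), (-1 : ℝ) ^ (s.1 : ℕ) *
              L (rtup r s.1 s.2 v)) ^ 2 := by
        refine Fintype.sum_equiv (Equiv.curry (Fin (N + 1)) (Fin 3) H) _ _ fun v => ?_
        rw [Fintype.sum_prod_type]
        rfl
      rw [hcur]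
      set Q : ℝ := ∑ z : Fin N → H, L (Fin.cons r z) ^ 2 with hQ
      set D : ℝ := (M : ℝ) * w / q * (Fintype.card H : ℝ) ^ (2 * N + 3) * Q with hD
      have hg0 : ∀ X, 0 ≤ L X ^ 2 := fun X => sq_nonneg _
      have hgb : ∀ X, ¬ Good H W X → L X ^ 2 = 0 := by
        intro X hX
        rw [hL]
        simp only [B5_th]
        rw [if_neg hX]
        norm_num
      have hHp : (0 : ℝ) ≤ (Fintype.card H : ℝ) ^ (3 * (N + 1)) := by positivity
      have hwp : (0 : ℝ) ≤ (w : ℝ) := Nat.cast_nonneg _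
      -- the part where the rows do not cover
      have hP2 : ∀ (i : Fin (N + 1)) (c e : Fin (N + 1) → Fin 3)
          (E : (Fin (N + 1) → Fin 3 → H) → Prop) [DecidablePred E]
          (_ : ∀ v, E v ↔ ¬ Cov H W Finset.univ (rest e v)),
          ∑ v with E v, L (rtup r i c v) ^ 2 ≤ D := by
        intro i c e E _ hE
        have h1 := B5_avg H W 1 ((M : ℝ) * w) q hq0 (fun X => L X ^ 2) hg0 hgb r i c E
          (fun v0 hv0 => by
            have h2 := K1_one H W hW r i c e v0 hv0
            have h3 : Nat.card {v : Fin (N + 1) → Fin 3 → H //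
                (∀ j, j ≠ i → v j (c j) = v0 j (c j)) ∧ E v} =
                Nat.card {v : Fin (N + 1) → Fin 3 → H //
                (∀ j, j ≠ i → v j (c j) = v0 j (c j)) ∧ ¬ Cov H W Finset.univ (rest e v)} := by
              refine Nat.card_congr (Equiv.subtypeEquivRight fun v => ?_)
              rw [hE v]
            rw [h3, one_mul]
            have h4 : ((Nat.card {v : Fin (N + 1) → Fin 3 → H //
                (∀ j, j ≠ i → v j (c j) = v0 j (c j)) ∧ ¬ Cov H W Finset.univ (rest e v)} : ℕ) : ℝ) *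
                q * (Fintype.card H : ℝ) ^ N ≤ 2 * w * (Fintype.card H : ℝ) ^ (3 * (N + 1)) := by
              rw [hqdef]
              exact_mod_cast h2
            refine h4.trans ?_
            refine mul_le_mul_of_nonneg_right ?_ hHp
            refine mul_le_mul_of_nonneg_right ?_ hwp
            rw [hM]
            push_cast
            have : (0 : ℝ) ≤ 20 * (N + 1) * 3 ^ (N + 1) := by positivity
            linarith)
        rw [one_mul] at h1
        exact h1
      -- the bad part
      have hP3 : ∀ (i : Fin (N + 1)) (c e : Fin (N + 1) → Fin 3) (_ : ∀ j, e j ≠ c j)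
          (E : (Fin (N + 1) → Fin 3 → H) → Prop) [DecidablePred E]
          (_ : ∀ v, E v ↔ (fsum v = 0 ∧ Cov H W Finset.univ (rest e v) ∧ ¬ Gev H W r v)),
          (Nat.card W : ℝ) * ∑ v with E v, L (rtup r i c v) ^ 2 ≤ D := by
        intro i c e he E _ hE
        refine B5_avg H W (Nat.card W : ℝ) ((M : ℝ) * w) q hq0 (fun X => L X ^ 2) hg0 hgb r i c E
          (fun v0 hv0 => ?_)
        have h2 := K4_two H W hW r i c e he v0 hv0
        have h3 : Nat.card {v : Fin (N + 1) → Fin 3 → H //
            (∀ j, j ≠ i → v j (c j) = v0 j (c j)) ∧ E v} =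
            Nat.card {v : Fin (N + 1) → Fin 3 → H //
            (∀ j, j ≠ i → v j (c j) = v0 j (c j)) ∧ fsum v = 0 ∧
              Cov H W Finset.univ (rest e v) ∧ ¬ Gev H W r v} := by
          refine Nat.card_congr (Equiv.subtypeEquivRight fun v => ?_)
          rw [hE v]
        rw [h3]
        have h4 : (Nat.card W : ℝ) * ((Nat.card {v : Fin (N + 1) → Fin 3 → H //
            (∀ j, j ≠ i → v j (c j) = v0 j (c j)) ∧ fsum v = 0 ∧
              Cov H W Finset.univ (rest e v) ∧ ¬ Gev H W r v} : ℕ) : ℝ) *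
            q * (Fintype.card H : ℝ) ^ N ≤
            (20 * (N + 1) * 3 ^ (N + 1)) * w * (Fintype.card H : ℝ) ^ (3 * (N + 1)) := by
          rw [hqdef]
          exact_mod_cast h2
        refine h4.trans ?_
        refine mul_le_mul_of_nonneg_right ?_ hHp
        refine mul_le_mul_of_nonneg_right ?_ hwp
        rw [hM]
        push_cast
        linarith
      have hB := B3_main (Ω := Fin (N + 1) → Fin 3 → H)
        (S := Fin (N + 1) × (Fin (N + 1) → Fin 3))
        (fun s v => L (rtup r s.1 s.2 v)) (fun s => (-1 : ℝ) ^ (s.1 : ℕ))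
        (fun s => by
          rw [abs_pow, abs_neg, abs_one, one_pow])
        (fun s t v => Cov H W Finset.univ (rest (fun j => fr (s.2 j) (t.2 j)) v))
        (fun v => Gev H W r v) (fun v => fsum v = 0) (Nat.card W : ℝ) D hW0
        (fun s t v hG => hG.2.1 _)
        (fun s t => by
          have h1 := M_master H W hW (fun j => fr (s.2 j) (t.2 j)) Finset.univ
            (fun v => L (rtup r s.1 s.2 v) * L (rtup r t.1 t.2 v))
            (fun v v' h => by
              have h2 : rtup r s.1 s.2 v = rtup r s.1 s.2 v' := by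
                simp only [rtup]
                congr 1
                funext j
                exact h _ _ (fun _ => (hfr1 _ _).symm)
              have h3 : rtup r t.1 t.2 v = rtup r t.1 t.2 v' := by
                simp only [rtup]
                congr 1
                funext j
                exact h _ _ (fun _ => (hfr2 _ _).symm)
              rw [h2, h3])
          rw [Finset.sum_filter, Finset.sum_filter]
          exact (congrArg _ (huniv _ _ _)).trans (h1.trans (huniv _ _ _)))
        (fun s t => ⟨hP2 s.1 s.2 _ _ fun v => Iff.rfl, hP2 t.1 t.2 _ _ fun v => Iff.rfl⟩)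
        (fun s t => ⟨hP3 s.1 s.2 _ (fun j => hfr1 _ _) _ fun v => Iff.rfl,
          hP3 t.1 t.2 _ (fun j => hfr2 _ _) _ fun v => Iff.rfl⟩)
        (fun v hO hG => B5_rel H W lam hS r v hO hG)
      refine hB.trans (le_of_eq ?_)
      rw [hcard, hD]
      ring
  have h1 := hmain X
  rw [hL] at h1
  simp only [B5_th] at h1
  rw [if_pos hX] at h1
  exact h1

end Pool.Agent.MP_b197b4_ntUV
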