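import Mathlib

/-!
# Part D2: differences of maxima of finitely many monomials form a lattice group
-/

set_option autoImplicit false

set_option linter.unusedSectionVars false

noncomputable section

namespace Pool.Agent.MP_b197b4_ntUV

open Finset
open scoped Pointwise

variable {X : Type} {Γ : X → Type} [∀ x, AddCommGroup (Γ x)] [∀ x, LinearOrder (Γ x)]
  [∀ x, IsOrderedAddMonoid (Γ x)] {N : ℕ}

/-- The largest of the values `u x β`, `β ∈ B`. -/
def DMX (u : ∀ x, (Fin N → ℤ) →+ Γ x) (B : Finset (Fin N → ℤ)) (hB : B.Nonempty) (x : X) : Γ x :=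
  B.sup' hB (fun β => u x β)

/-- Differences of two maxima. -/
def DTrop (u : ∀ x, (Fin N → ℤ) →+ Γ x) (φ : ∀ x, Γ x) : Prop :=
  ∃ (P Q : Finset (Fin N → ℤ)) (hP : P.Nonempty) (hQ : Q.Nonempty),
    ∀ x, φ x = DMX u P hP x - DMX u Q hQ x

theorem DMX_add (u : ∀ x, (Fin N → ℤ) →+ Γ x) {P Q : Finset (Fin N → ℤ)} (hP : P.Nonempty)
    (hQ : Q.Nonempty) (x : X) : DMX u (P + Q) (hP.add hQ) x = DMX u P hP x + DMX u Q hQ x := by
  apply le_antisymm
  · apply Finset.sup'_le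
    intro β hβ
    obtain ⟨p, hp, q, hq, rfl⟩ := Finset.mem_add.1 hβ
    rw [map_add]
    exact add_le_add (Finset.le_sup' (fun β => u x β) hp) (Finset.le_sup' (fun β => u x β) hq)
  · obtain ⟨p, hp, hp1⟩ := Finset.exists_mem_eq_sup' hP (fun β => u x β)
    obtain ⟨q, hq, hq1⟩ := Finset.exists_mem_eq_sup' hQ (fun β => u x β)
    unfold DMX
    rw [hp1, hq1]
    have := Finset.le_sup' (fun β => u x β) (Finset.add_mem_add hp hq)
    rw [map_add] at this
    exact this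

theorem DMX_union (u : ∀ x, (Fin N → ℤ) →+ Γ x) {P Q : Finset (Fin N → ℤ)} (hP : P.Nonempty)
    (hQ : Q.Nonempty) (h : (P ∪ Q).Nonempty) (x : X) :
    DMX u (P ∪ Q) h x = max (DMX u P hP x) (DMX u Q hQ x) := by
  unfold DMX
  exact Finset.sup'_union hP hQ _

theorem trop_lin (u : ∀ x, (Fin N → ℤ) →+ Γ x) (β : Fin N → ℤ) : DTrop u (fun x => u x β) :=
  ⟨{β}, {0}, singleton_nonempty _, singleton_nonempty _, fun x => by simp [DMX]⟩

theorem trop_zero (u : ∀ x, (Fin N → ℤ) →+ Γ x) : DTrop u (fun _ => 0) := by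
  have := trop_lin u 0
  simpa using this

theorem trop_add {u : ∀ x, (Fin N → ℤ) →+ Γ x} {φ ψ : ∀ x, Γ x} (h1 : DTrop u φ) (h2 : DTrop u ψ) :
    DTrop u (fun x => φ x + ψ x) := by
  obtain ⟨P, Q, hP, hQ, h⟩ := h1
  obtain ⟨P', Q', hP', hQ', h'⟩ := h2
  refine ⟨P + P', Q + Q', hP.add hP', hQ.add hQ', fun x => ?_⟩
  change φ x + ψ x = _
  rw [DMX_add u hP hP', DMX_add u hQ hQ', h, h']
  abel

theorem trop_neg {u : ∀ x, (Fin N → ℤ) →+ Γ x} {φ : ∀ x, Γ x} (h1 : DTrop u φ) :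
    DTrop u (fun x => - φ x) := by
  obtain ⟨P, Q, hP, hQ, h⟩ := h1
  refine ⟨Q, P, hQ, hP, fun x => ?_⟩
  change -φ x = _
  rw [h]
  abel

theorem trop_sub {u : ∀ x, (Fin N → ℤ) →+ Γ x} {φ ψ : ∀ x, Γ x} (h1 : DTrop u φ) (h2 : DTrop u ψ) :
    DTrop u (fun x => φ x - ψ x) := by
  have := trop_add h1 (trop_neg h2)
  simpa [sub_eq_add_neg] using this

theorem trop_nsmul {u : ∀ x, (Fin N → ℤ) →+ Γ x} {φ : ∀ x, Γ x} (h1 : DTrop u φ) (m : ℕ) :
    DTrop u (fun x => m • φ x) := by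
  induction m with
  | zero => simpa using trop_zero u
  | succ m ih =>
    have := trop_add ih h1
    simpa [succ_nsmul] using this

theorem trop_zsmul {u : ∀ x, (Fin N → ℤ) →+ Γ x} {φ : ∀ x, Γ x} (h1 : DTrop u φ) (m : ℤ) :
    DTrop u (fun x => m • φ x) := by
  obtain ⟨n, rfl | rfl⟩ := m.eq_nat_or_neg
  · simpa using trop_nsmul h1 n
  · simpa using trop_neg (trop_nsmul h1 n)

theorem trop_sum {u : ∀ x, (Fin N → ℤ) →+ Γ x} {ι : Type} (s : Finset ι) (φ : ι → ∀ x, Γ x)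
    (h : ∀ i ∈ s, DTrop u (φ i)) : DTrop u (fun x => ∑ i ∈ s, φ i x) := by
  classical
  induction s using Finset.induction_on with
  | empty => simpa using trop_zero u
  | insert a s ha ih =>
    have := trop_add (h a (mem_insert_self _ _)) (ih fun i hi => h i (mem_insert_of_mem hi))
    simpa [Finset.sum_insert ha] using this

theorem trop_max {u : ∀ x, (Fin N → ℤ) →+ Γ x} {φ ψ : ∀ x, Γ x} (h1 : DTrop u φ) (h2 : DTrop u ψ) :
    DTrop u (fun x => max (φ x) (ψ x)) := by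
  classical
  obtain ⟨P, Q, hP, hQ, h⟩ := h1
  obtain ⟨P', Q', hP', hQ', h'⟩ := h2
  refine ⟨(P + Q') ∪ (P' + Q), Q + Q', (hP.add hQ').mono subset_union_left, hQ.add hQ',
    fun x => ?_⟩
  change max (φ x) (ψ x) = _
  rw [DMX_union u (hP.add hQ') (hP'.add hQ), DMX_add u hP hQ', DMX_add u hP' hQ, DMX_add u hQ hQ', h, h',
    ← max_sub_sub_right]
  congr 1
  · abel
  · abel

theorem trop_min {u : ∀ x, (Fin N → ℤ) →+ Γ x} {φ ψ : ∀ x, Γ x} (h1 : DTrop u φ) (h2 : DTrop u ψ) :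
    DTrop u (fun x => min (φ x) (ψ x)) := by
  have := trop_neg (trop_max (trop_neg h1) (trop_neg h2))
  refine (show (fun x => min (φ x) (ψ x)) = fun x => -max (-φ x) (-ψ x) from ?_) ▸ this
  funext x
  rw [max_neg_neg, neg_neg]

theorem trop_inf' {u : ∀ x, (Fin N → ℤ) →+ Γ x} {ι : Type} (s : Finset ι) (hs : s.Nonempty)
    (φ : ι → ∀ x, Γ x) (h : ∀ i ∈ s, DTrop u (φ i)) :
    DTrop u (fun x => s.inf' hs (fun i => φ i x)) := by
  classical
  induction hs using Finset.Nonempty.cons_induction with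
  | singleton a => simpa using h a (mem_singleton_self a)
  | cons a s ha hs ih =>
    have := trop_min (h a (mem_cons_self a s)) (ih fun i hi => h i (mem_cons.2 (Or.inr hi)))
    have e : (fun x => (Finset.cons a s ha).inf' (Finset.cons_nonempty ha) (fun i => φ i x)) =
        fun x => min (φ a x) (s.inf' hs (fun i => φ i x)) := by
      funext x
      exact Finset.inf'_cons hs _
    rw [e]
    exact this

/-- Non negative functions: the smaller set can be taken inside the larger one. -/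
theorem trop_pos {u : ∀ x, (Fin N → ℤ) →+ Γ x} {φ : ∀ x, Γ x} (h : DTrop u φ)
    (h0 : ∀ x, 0 ≤ φ x) : ∃ (B1 B2 : Finset (Fin N → ℤ)) (h1 : B1.Nonempty) (h2 : B2.Nonempty),
      B1 ⊆ B2 ∧ ∀ x, φ x = DMX u B2 h2 x - DMX u B1 h1 x := by
  classical
  obtain ⟨P, Q, hP, hQ, h⟩ := h
  refine ⟨Q, Q ∪ P, hQ, hQ.mono subset_union_left, subset_union_left, fun x => ?_⟩
  rw [DMX_union u hQ hP, h x]
  have := h0 x
  rw [h x] at this
  rw [max_eq_right (sub_nonneg.1 this)]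

end Pool.Agent.MP_b197b4_ntUV
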