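import Pool.Agent.Lib.MP_b197b4_ntUV.DGor
import Pool.Agent.Lib.MP_b197b4_ntUV.DCalc

/-!
# Part D3: one stage of the tent decomposition
-/

set_option autoImplicit false
set_option linter.unusedSectionVars false

noncomputable section

namespace Pool.Agent.MP_b197b4_ntUV

open Finset

/-- The pairing of integer vectors. -/
def ddot {N : ℕ} (b α : Fin N → ℤ) : ℤ := ∑ j, b j * α j

theorem ddot_add {N : ℕ} (b α β : Fin N → ℤ) : ddot b (α + β) = ddot b α + ddot b β := by
  simp [ddot, mul_add, Finset.sum_add_distrib]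

/-- The integer vector as a rational vector. -/
def dcst {N : ℕ} (α : Fin N → ℤ) : Fin N → ℚ := fun j => (α j : ℚ)

/-- The rank of the set of zeros of `w` in `A`. -/
def drk {N : ℕ} {G : Type} [AddCommGroup G] (A : Finset (Fin N → ℤ)) (w : (Fin N → ℤ) →+ G) : ℕ :=
  Module.finrank ℚ (Submodule.span ℚ (dcst '' {α | α ∈ A ∧ w α = 0}))

/-- The support of `w` in `A`. -/
def dsp {N : ℕ} {G : Type} [AddCommGroup G] [LinearOrder G] (A : Finset (Fin N → ℤ))
    (w : (Fin N → ℤ) →+ G) : Finset (Fin N → ℤ) :=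
  A.filter (fun α => w α ≠ 0)

theorem mem_dsp {N : ℕ} {G : Type} [AddCommGroup G] [LinearOrder G] {A : Finset (Fin N → ℤ)}
    {w : (Fin N → ℤ) →+ G} {α : Fin N → ℤ} : α ∈ dsp A w ↔ α ∈ A ∧ w α ≠ 0 := by
  simp [dsp]

/-- The rank rises if there is a new zero off the zero set of an integer vector. -/
theorem drk_lt {N : ℕ} {G G' : Type} [AddCommGroup G] [AddCommGroup G'] (A : Finset (Fin N → ℤ))
    (w : (Fin N → ℤ) →+ G) (w' : (Fin N → ℤ) →+ G') (b : Fin N → ℤ)
    (h0 : ∀ α ∈ A, w α = 0 → ddot b α = 0) (h1 : ∀ α ∈ A, w α = 0 → w' α = 0)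
    (α0 : Fin N → ℤ) (hα0 : α0 ∈ A) (h2 : w' α0 = 0) (h3 : ddot b α0 ≠ 0) :
    drk A w + 1 ≤ drk A w' := by
  unfold drk
  rw [Nat.add_one_le_iff]
  apply Submodule.finrank_lt_finrank_of_lt
  refine lt_of_le_of_ne ?_ ?_
  · apply Submodule.span_mono
    apply Set.image_mono
    rintro α ⟨h4, h5⟩
    exact ⟨h4, h1 α h4 h5⟩
  · intro he
    let f : (Fin N → ℚ) →ₗ[ℚ] ℚ := ∑ j, (b j : ℚ) • LinearMap.proj j
    have hf : ∀ α : Fin N → ℤ, f (dcst α) = (ddot b α : ℚ) := by
      intro α
      simp [f, dcst, ddot]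
    have h5 : dcst α0 ∈ Submodule.span ℚ (dcst '' {α | α ∈ A ∧ w α = 0}) := by
      rw [he]
      exact Submodule.subset_span ⟨α0, ⟨hα0, h2⟩, rfl⟩
    have h6 : Submodule.span ℚ (dcst '' {α | α ∈ A ∧ w α = 0}) ≤ LinearMap.ker f := by
      apply Submodule.span_le.2
      rintro _ ⟨α, ⟨h7, h8⟩, rfl⟩
      change f (dcst α) = 0
      rw [hf, h0 α h7 h8]
      simp
    have h7 : f (dcst α0) = 0 := h6 h5
    rw [hf] at h7
    exact h3 (by exact_mod_cast h7)

variable {X : Type} {Γ : X → Type} [∀ x, AddCommGroup (Γ x)] [∀ x, LinearOrder (Γ x)]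
  [∀ x, IsOrderedAddMonoid (Γ x)] {N : ℕ}

/-- One stage: the supports lose a member. -/
theorem D_stage (A : Finset (Fin N → ℤ)) (l : ℕ) (u w : ∀ x, (Fin N → ℤ) →+ Γ x)
    (hw : ∀ β, DTrop u (fun x => w x β)) (hl : ∀ x, (dsp A (w x)).card ≤ l + 1) :
    ∃ (S : Type) (_ : Fintype S) (b : S → Fin N → ℤ) (C : S → ∀ x, Γ x) (m : ℕ)
      (w' : ∀ x, (Fin N → ℤ) →+ Γ x), 0 < m ∧ (∀ s, DTrop u (C s)) ∧ (∀ s x, 0 ≤ C s x) ∧
      (∀ β, DTrop u (fun x => w' x β)) ∧ (∀ x, (dsp A (w' x)).card ≤ l) ∧
      (∀ x β, m • w x β = w' x β + ∑ s, ddot (b s) β • C s x) ∧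
      ∀ x, (∑ s, if C s x = 0 then 0 else 1) + drk A (w x) ≤ drk A (w' x) := by
  classical
  let S : Type := {s : A → SignType // (univ.filter (fun α => s α ≠ 0)).card = l + 1 ∧
    ∃ b : Fin N → ℤ, ∀ α : A, SignType.sign (ddot b α.1) = s α}
  let b : S → Fin N → ℤ := fun s => s.2.2.choose
  have hb : ∀ (s : S) (α : A), SignType.sign (ddot (b s) α.1) = s.1 α := fun s => s.2.2.choose_spec
  let nb : S → A → ℕ := fun s α => if s.1 α = 0 then 1 else (ddot (b s) α.1).natAbs
  have hnb : ∀ s α, 0 < nb s α := by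
    intro s α
    by_cases h : s.1 α = 0
    · simp [nb, h]
    · have h1 : ddot (b s) α.1 ≠ 0 := by
        intro h1
        apply h
        rw [← hb, h1, sign_zero]
      simp only [nb, if_neg h]
      omega
  let m : ℕ := ∏ s, ∏ α, nb s α
  have hm : 0 < m := Finset.prod_pos fun s _ => Finset.prod_pos fun α _ => hnb s α
  have hdvd : ∀ s α, nb s α ∣ m := fun s α =>
    (Finset.dvd_prod_of_mem _ (mem_univ α)).trans
      (Finset.dvd_prod_of_mem (fun s => ∏ α, nb s α) (mem_univ s))
  choose q hq using hdvd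
  have hqpos : ∀ s α, 0 < q s α := by
    intro s α
    rcases Nat.eq_zero_or_pos (q s α) with h | h
    · rw [hq s α, h] at hm
      omega
    · exact h
  have hne : ∀ s : S, (univ.filter (fun α => s.1 α ≠ 0)).Nonempty := by
    intro s
    rw [← Finset.card_pos, s.2.1]
    omega
  let C : S → ∀ x, Γ x := fun s x =>
    (univ.filter (fun α => s.1 α ≠ 0)).inf' (hne s)
      (fun α => q s α • max ((s.1 α : ℤ) • w x α.1) 0)
  have hCpos : ∀ s x, 0 ≤ C s x := by
    intro s x
    apply Finset.le_inf'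
    intro α _
    exact nsmul_nonneg (le_max_right _ _) _
  have hCT : ∀ s, DTrop u (C s) := by
    intro s
    apply trop_inf' _ (hne s) (fun α x => q s α • max ((s.1 α : ℤ) • w x α.1) 0)
    intro α _
    apply trop_nsmul
    exact trop_max (trop_zsmul (hw _) _) (trop_zero u)
  -- a non zero `C s x` determines `s`
  have hsgn : ∀ s x, C s x ≠ 0 → ∀ α : A, SignType.sign (w x α.1) = s.1 α := by
    intro s x hC
    have hC' : 0 < C s x := lt_of_le_of_ne (hCpos s x) (Ne.symm hC)
    have h1 : ∀ α : A, s.1 α ≠ 0 → SignType.sign (w x α.1) = s.1 α := by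
      intro α hα
      have h2 : C s x ≤ q s α • max ((s.1 α : ℤ) • w x α.1) 0 :=
        Finset.inf'_le _ (by simp [hα])
      have h3 : 0 < (s.1 α : ℤ) • w x α.1 := by
        by_contra h4
        rw [not_lt] at h4
        rw [max_eq_right h4, smul_zero] at h2
        exact absurd hC' (not_lt.2 h2)
      rcases hs : s.1 α with _ | _ | _
      · exact absurd hs hα
      · rw [hs] at h3
        have h5 : w x α.1 < 0 := by simpa using h3
        exact sign_neg h5
      · rw [hs] at h3
        have h5 : 0 < w x α.1 := by simpa using h3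
        exact sign_pos h5
    have h6 : (univ.filter (fun α => s.1 α ≠ 0)).image (fun α : A => α.1) ⊆ dsp A (w x) := by
      intro β hβ
      obtain ⟨α, hα, rfl⟩ := mem_image.1 hβ
      rw [mem_dsp]
      refine ⟨α.2, fun h7 => ?_⟩
      have h8 := h1 α (mem_filter.1 hα).2
      rw [h7, sign_zero] at h8
      exact (mem_filter.1 hα).2 h8.symm
    have h7 : ((univ.filter (fun α => s.1 α ≠ 0)).image (fun α : A => α.1)).card = l + 1 := by
      rw [Finset.card_image_of_injective _ Subtype.val_injective, s.2.1]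
    have h8 : (univ.filter (fun α => s.1 α ≠ 0)).image (fun α : A => α.1) = dsp A (w x) :=
      Finset.eq_of_subset_of_card_le h6 (by rw [h7]; exact hl x)
    intro α
    by_cases hα : s.1 α = 0
    · rw [hα]
      by_contra h9
      have h10 : w x α.1 ≠ 0 := by
        intro h
        rw [h, sign_zero] at h9
        exact h9 rfl
      have h11 : α.1 ∈ dsp A (w x) := mem_dsp.2 ⟨α.2, h10⟩
      rw [← h8] at h11
      obtain ⟨γ, hγ, hγα⟩ := mem_image.1 h11
      have : γ = α := Subtype.ext hγα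
      subst this
      exact (mem_filter.1 hγ).2 hα
    · exact h1 α hα
  have huniq : ∀ s t x, C s x ≠ 0 → C t x ≠ 0 → s = t := by
    intro s t x hs ht
    apply Subtype.ext
    funext α
    rw [← hsgn s x hs α, ← hsgn t x ht α]
  let w' : ∀ x, (Fin N → ℤ) →+ Γ x := fun x =>
    AddMonoidHom.mk' (fun β => m • w x β - ∑ s, ddot (b s) β • C s x) (by
      intro β γ
      simp only [map_add, smul_add, ddot_add, add_smul, Finset.sum_add_distrib]
      abel)
  have hw' : ∀ x β, w' x β = m • w x β - ∑ s, ddot (b s) β • C s x := fun x β => rfl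
  have hker : ∀ x, ∀ α ∈ A, w x α = 0 → w' x α = 0 := by
    intro x α hα h0
    rw [hw', h0, smul_zero, zero_sub, neg_eq_zero]
    apply Finset.sum_eq_zero
    intro s _
    by_cases hC : C s x = 0
    · rw [hC, smul_zero]
    · have h1 := hsgn s x hC ⟨α, hα⟩
      rw [h0, sign_zero, ← hb s ⟨α, hα⟩] at h1
      have h2 : ddot (b s) α = 0 := sign_eq_zero_iff.1 h1.symm
      rw [h2, zero_smul]
  have hzero : ∀ s x, C s x ≠ 0 →
      ∃ α0 ∈ A, w x α0 ≠ 0 ∧ w' x α0 = 0 ∧ ddot (b s) α0 ≠ 0 := by
    intro s x hC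
    obtain ⟨α, hα, he⟩ := Finset.exists_mem_eq_inf' (hne s)
      (fun α => q s α • max ((s.1 α : ℤ) • w x α.1) 0)
    have hα0 : s.1 α ≠ 0 := (mem_filter.1 hα).2
    have hCe : C s x = q s α • max ((s.1 α : ℤ) • w x α.1) 0 := he
    have hsα := hsgn s x hC α
    have hwα : w x α.1 ≠ 0 := by
      intro h
      rw [h, sign_zero] at hsα
      exact hα0 hsα.symm
    have hdα : ddot (b s) α.1 ≠ 0 := by
      intro h
      have := hb s α
      rw [h, sign_zero] at this
      exact hα0 this.symm
    refine ⟨α.1, α.2, hwα, ?_, hdα⟩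
    rw [hw', Finset.sum_eq_single s]
    · have h1 : (nb s α : ℤ) = (s.1 α : ℤ) * ddot (b s) α.1 := by
        simp only [nb, if_neg hα0]
        rw [← hb s α]
        rw [← Int.abs_eq_natAbs]
        exact (sign_mul_self _).symm
      have h2 : max ((s.1 α : ℤ) • w x α.1) 0 = (s.1 α : ℤ) • w x α.1 := by
        apply max_eq_left
        rw [← hsα]
        rcases lt_trichotomy (w x α.1) 0 with h | h | h
        · rw [sign_neg h]
          simpa using h.le
        · rw [h, smul_zero]
        · rw [sign_pos h]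
          simpa using h.le
      rw [hCe, h2, ← natCast_zsmul, ← natCast_zsmul, smul_smul, smul_smul, sub_eq_zero, hq s α]
      congr 1
      push_cast
      rw [h1]
      ring
    · intro t _ hts
      have : C t x = 0 := by
        by_contra h
        exact hts (huniq t s x h hC)
      rw [this, smul_zero]
    · intro h
      exact absurd (mem_univ s) h
  have hex : ∀ x, (dsp A (w x)).card = l + 1 → ∃ s, C s x ≠ 0 := by
    intro x hx
    obtain ⟨b0, hb0⟩ := D_transfer (w x) A
    have h1 : ∀ α : A, SignType.sign (ddot b0 α.1) = SignType.sign (w x α.1) := by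
      intro α
      obtain ⟨h2, h3, h4⟩ := hb0 α.1 α.2
      rcases lt_trichotomy (w x α.1) 0 with h | h | h
      · rw [sign_neg h, sign_neg (show ddot b0 α.1 < 0 from h4 h)]
      · rw [h, sign_zero, sign_eq_zero_iff]
        exact h3 h
      · rw [sign_pos h, sign_pos (show 0 < ddot b0 α.1 from h2 h)]
    have h5 : (univ.filter (fun α : A => SignType.sign (w x α.1) ≠ 0)).card = l + 1 := by
      rw [← hx, ← Finset.card_image_of_injective _ (Subtype.val_injective (p := fun a => a ∈ A))]
      congr 1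
      ext β
      simp only [mem_image, mem_filter, mem_univ, true_and, mem_dsp]
      constructor
      · rintro ⟨α, hα, rfl⟩
        refine ⟨α.2, fun h => hα ?_⟩
        rw [h, sign_zero]
      · rintro ⟨h6, h7⟩
        refine ⟨⟨β, h6⟩, fun h => h7 (sign_eq_zero_iff.1 h), rfl⟩
    refine ⟨⟨fun α => SignType.sign (w x α.1), h5, b0, h1⟩, ?_⟩
    apply ne_of_gt
    apply (Finset.lt_inf'_iff _).2
    intro α hα
    have hα0 : SignType.sign (w x α.1) ≠ 0 := (mem_filter.1 hα).2
    apply nsmul_pos _ (hqpos _ _).ne'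
    apply lt_max_of_lt_left
    change 0 < ((SignType.sign (w x α.1) : SignType) : ℤ) • w x α.1
    rcases lt_trichotomy (w x α.1) 0 with h | h | h
    · rw [sign_neg h]
      simpa using h
    · rw [h, sign_zero] at hα0
      exact absurd rfl hα0
    · rw [sign_pos h]
      simpa using h
  refine ⟨S, inferInstance, b, C, m, w', hm, hCT, hCpos, ?_, ?_, ?_, ?_⟩
  · intro β
    apply trop_sub (trop_nsmul (hw β) m)
    apply trop_sum
    intro s _
    exact trop_zsmul (hCT s) _
  · intro x
    by_cases h : ∃ s, C s x ≠ 0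
    · obtain ⟨s, hs⟩ := h
      obtain ⟨α0, hα0, h1, h2, h3⟩ := hzero s x hs
      have h4 : dsp A (w' x) ⊆ (dsp A (w x)).erase α0 := by
        intro α hα
        rw [mem_dsp] at hα
        rw [mem_erase, mem_dsp]
        refine ⟨?_, hα.1, fun h => hα.2 (hker x α hα.1 h)⟩
        rintro rfl
        exact hα.2 h2
      have h5 := Finset.card_le_card h4
      rw [Finset.card_erase_of_mem (mem_dsp.2 ⟨hα0, h1⟩)] at h5
      have := hl x
      omega
    · have h1 : (dsp A (w x)).card ≠ l + 1 := fun h1 => h (hex x h1)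
      have h4 : dsp A (w' x) ⊆ dsp A (w x) := by
        intro α hα
        rw [mem_dsp] at hα ⊢
        exact ⟨hα.1, fun h => hα.2 (hker x α hα.1 h)⟩
      have h5 := Finset.card_le_card h4
      have := hl x
      omega
  · intro x β
    rw [hw']
    abel
  · intro x
    by_cases h : ∃ s, C s x ≠ 0
    · obtain ⟨s, hs⟩ := h
      obtain ⟨α0, hα0, h1, h2, h3⟩ := hzero s x hs
      have h4 : (∑ t, if C t x = 0 then 0 else 1) = 1 := by
        rw [Finset.sum_eq_single s]
        · rw [if_neg hs]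
        · intro t _ hts
          rw [if_pos]
          by_contra h
          exact hts (huniq t s x h hs)
        · intro h
          exact absurd (mem_univ s) h
      rw [h4, add_comm]
      apply drk_lt A (w x) (w' x) (b s) ?_ (hker x) α0 hα0 h2 h3
      intro α hα h0
      have h1 := hsgn s x hs ⟨α, hα⟩
      rw [h0, sign_zero, ← hb s ⟨α, hα⟩] at h1
      exact sign_eq_zero_iff.1 h1.symm
    · have h1 : ∀ s, C s x = 0 := fun s => by
        by_contra h2
        exact h ⟨s, h2⟩
      have h4 : (∑ t, if C t x = 0 then 0 else 1) = 0 :=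
        Finset.sum_eq_zero fun t _ => if_pos (h1 t)
      rw [h4, zero_add]
      unfold drk
      apply Submodule.finrank_mono
      apply Submodule.span_mono
      apply Set.image_mono
      rintro α ⟨h5, h6⟩
      exact ⟨h5, hker x α h5 h6⟩

end Pool.Agent.MP_b197b4_ntUV
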