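import Pool.Agent.Lib.MP_b197b4_ntUV.EDefs
import Pool.Agent.Lib.MP_b197b4_ntUV.DStage

/-!
# Part D5: the rank of the zeros of a point
-/

set_option autoImplicit false

noncomputable section

namespace Pool.Agent.MP_b197b4_ntUV

open Finset

/-- Linear algebra: enough zeros supported in few coordinates give a large rank. -/
theorem drk_ge {N n : ℕ} {G : Type} [AddCommGroup G] (A : Finset (Fin N → ℤ))
    (w : (Fin N → ℤ) →+ G)
    (h : ∀ J : Fin (n + 1) ↪ Fin N, ∃ ν ∈ A, ν ≠ 0 ∧ (∀ j, ν j ≠ 0 → j ∈ Set.range J) ∧ w ν = 0) :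
    N ≤ n + drk A w := by
  classical
  by_contra hcon
  rw [not_le] at hcon
  let Z : Submodule ℚ (Fin N → ℚ) := Submodule.span ℚ (dcst '' {α | α ∈ A ∧ w α = 0})
  have hZ : Module.finrank ℚ Z = drk A w := rfl
  have hQ : Module.finrank ℚ ((Fin N → ℚ) ⧸ Z) + Module.finrank ℚ Z = N := by
    rw [Submodule.finrank_quotient_add_finrank]
    simp
  let v : Fin N → ((Fin N → ℚ) ⧸ Z) := fun j => Z.mkQ (Pi.single j 1)
  have hspan : Submodule.span ℚ (Set.range v) = ⊤ := by
    have h1 : Set.range v = Z.mkQ '' (Set.range (fun j => (Pi.single j (1 : ℚ) : Fin N → ℚ))) := by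
      rw [← Set.range_comp]
      rfl
    rw [h1, ← Submodule.map_span]
    have h2 : Submodule.span ℚ (Set.range (fun j => (Pi.single j (1 : ℚ) : Fin N → ℚ))) = ⊤ := by
      have := (Pi.basisFun ℚ (Fin N)).span_eq
      have h3 : (fun j => (Pi.single j (1 : ℚ) : Fin N → ℚ)) = ⇑(Pi.basisFun ℚ (Fin N)) := by
        funext j
        simp
      rw [h3]
      exact this
    rw [h2, Submodule.map_top, Submodule.range_mkQ]
  obtain ⟨κ, a, ha, hsp, hli⟩ := exists_linearIndependent' ℚ v
  have : Finite κ := Finite.of_injective a ha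
  have : Fintype κ := Fintype.ofFinite κ
  have hcard : Fintype.card κ = Module.finrank ℚ ((Fin N → ℚ) ⧸ Z) := by
    rw [← finrank_span_eq_card hli, hsp, hspan, finrank_top]
  have hle : Fintype.card (Fin (n + 1)) ≤ Fintype.card κ := by
    rw [Fintype.card_fin]
    omega
  obtain ⟨e⟩ := Function.Embedding.nonempty_of_card_le hle
  obtain ⟨ν, hνA, hν0, hνJ, hwν⟩ := h (e.trans ⟨a, ha⟩)
  have hli' : LinearIndependent ℚ (fun i => v (a (e i))) := hli.comp e e.injective
  have hsum : ∑ i, (ν (a (e i)) : ℚ) • v (a (e i)) = 0 := by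
    have h1 : Z.mkQ (dcst ν) = 0 := by
      rw [Submodule.mkQ_apply, Submodule.Quotient.mk_eq_zero]
      exact Submodule.subset_span ⟨ν, ⟨hνA, hwν⟩, rfl⟩
    have h2 : dcst ν = ∑ i, (ν (a (e i)) : ℚ) • (Pi.single (a (e i)) (1 : ℚ) : Fin N → ℚ) := by
      ext j
      by_cases hj : ∃ i, a (e i) = j
      · obtain ⟨i, rfl⟩ := hj
        rw [Finset.sum_apply, Finset.sum_eq_single i]
        · simp [dcst]
        · intro i' _ hi'
          have : a (e i) ≠ a (e i') := fun h => hi' (e.injective (ha h)).symm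
          simp [this]
        · intro h
          exact absurd (mem_univ _) h
      · have h3 : ν j = 0 := by
          by_contra h4
          obtain ⟨i, hi⟩ := hνJ j h4
          exact hj ⟨i, hi⟩
        rw [Finset.sum_apply, Finset.sum_eq_zero]
        · simp [dcst, h3]
        · intro i _
          have : j ≠ a (e i) := fun h => hj ⟨i, h.symm⟩
          simp [this]
    rw [← h1, h2, map_sum]
    simp only [map_smul]
    rfl
  have h0 := Fintype.linearIndependent_iff.1 hli' _ hsum
  apply hν0
  funext j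
  by_contra h4
  obtain ⟨i, hi⟩ := hνJ j h4
  have h5 := h0 i
  have h6 : a (e i) = j := hi
  rw [h6] at h5
  exact h4 (by exact_mod_cast h5)

/-- Non zero constants have value `1`. -/
theorem D_val_const {k F : Type} [Field k] [Field F] [Algebra k F] {O : ValuationSubring F}
    (hO : IsPt k O) {c : k} (hc : c ≠ 0) : O.valuation (algebraMap k F c) = 1 := by
  have h1 : O.valuation (algebraMap k F c) ≤ 1 := (O.valuation_le_one_iff _).2 (hO c)
  have h2 : O.valuation (algebraMap k F c⁻¹) ≤ 1 := (O.valuation_le_one_iff _).2 (hO c⁻¹)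
  have h3 : O.valuation (algebraMap k F c) * O.valuation (algebraMap k F c⁻¹) = 1 := by
    rw [← map_mul, ← map_mul, mul_inv_cancel₀ hc, map_one, map_one]
  apply le_antisymm h1
  rw [← h3]
  exact mul_le_of_le_one_right' h2

theorem D_zpow_sum {G ι : Type} [CommGroup G] (s : Finset ι) (f : ι → ℤ) (x : G) :
    x ^ (∑ i ∈ s, f i) = ∏ i ∈ s, x ^ f i := by
  classical
  induction s using Finset.induction_on with
  | empty => simp
  | insert a s ha ih => rw [Finset.sum_insert ha, Finset.prod_insert ha, zpow_add, ih]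

/-- The binomials of the dependence relations. -/
theorem D_dep {k F : Type} [Field k] [Field F] [Algebra k F] {n N : ℕ}
    (htd : TdLt k F (n + 1)) (g : Fin N → Fˣ) :
    ∃ NN : Finset (Fin N → ℤ), ∀ O : ValuationSubring F, IsPt k O → ∀ J : Fin (n + 1) ↪ Fin N,
      ∃ ν ∈ NN, ν ≠ 0 ∧ (∀ j, ν j ≠ 0 → j ∈ Set.range J) ∧ O.valuation (mon g ν : F) = 1 := by
  classical
  have h1 : ∀ J : Fin (n + 1) ↪ Fin N, ∃ P : MvPolynomial (Fin (n + 1)) k, P ≠ 0 ∧
      MvPolynomial.aeval (fun a => ((g (J a) : Fˣ) : F)) P = 0 := by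
    intro J
    have h2 := htd (fun a => ((g (J a) : Fˣ) : F))
    rw [algebraicIndependent_iff] at h2
    simp only [not_forall] at h2
    obtain ⟨P, hP, hP0⟩ := h2
    exact ⟨P, hP0, hP⟩
  choose P hP0 hP using h1
  let ex : (Fin (n + 1) ↪ Fin N) → (Fin (n + 1) →₀ ℕ) → Fin N → ℤ :=
    fun J m j => ∑ a, if J a = j then (m a : ℤ) else 0
  have hex : ∀ (J : Fin (n + 1) ↪ Fin N) m a, ex J m (J a) = m a := by
    intro J m a
    simp only [ex]
    rw [Finset.sum_eq_single a]
    · simp
    · intro b _ hb
      rw [if_neg]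
      intro h
      exact hb (J.injective h)
    · intro h
      exact absurd (mem_univ a) h
  have hex0 : ∀ (J : Fin (n + 1) ↪ Fin N) m j, j ∉ Set.range J → ex J m j = 0 := by
    intro J m j hj
    apply Finset.sum_eq_zero
    intro a _
    rw [if_neg]
    intro h
    exact hj ⟨a, h⟩
  have hmon : ∀ (J : Fin (n + 1) ↪ Fin N) m, (mon g (ex J m) : F) = ∏ a, ((g (J a) : Fˣ) : F) ^ (m a) := by
    intro J m
    have h2 : mon g (ex J m) = ∏ a, g (J a) ^ (m a) := by
      unfold mon
      have h3 : ∀ j, g j ^ ex J m j = ∏ a, if J a = j then g j ^ (m a : ℤ) else 1 := by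
        intro j
        simp only [ex]
        rw [D_zpow_sum]
        apply Finset.prod_congr rfl
        intro a _
        split_ifs
        · rfl
        · exact zpow_zero _
      simp only [h3]
      rw [Finset.prod_comm]
      apply Finset.prod_congr rfl
      intro a _
      rw [Finset.prod_ite_eq]
      simp
    rw [h2]
    push_cast
    rfl
  refine ⟨univ.biUnion fun J => ((P J).support ×ˢ (P J).support).image
    (fun q => ex J q.1 - ex J q.2), ?_⟩
  intro O hO J
  have hsum : ∑ m ∈ (P J).support, algebraMap k F ((P J).coeff m) * (mon g (ex J m) : F) = 0 := by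
    have h2 := hP J
    rw [MvPolynomial.aeval_def, MvPolynomial.eval₂_eq'] at h2
    rw [← h2]
    apply Finset.sum_congr rfl
    intro m _
    rw [hmon]
  have hv : ∀ m ∈ (P J).support,
      O.valuation (algebraMap k F ((P J).coeff m) * (mon g (ex J m) : F)) =
        O.valuation (mon g (ex J m) : F) := by
    intro m hm
    rw [map_mul, D_val_const hO (MvPolynomial.mem_support_iff.1 hm), one_mul]
  have hne : (P J).support.Nonempty := MvPolynomial.support_nonempty.2 (hP0 J)
  obtain ⟨m0, hm0, hmax⟩ := Finset.exists_max_image (P J).support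
    (fun m => O.valuation (mon g (ex J m) : F)) hne
  by_cases hcase : ∃ m ∈ (P J).support, m ≠ m0 ∧
      O.valuation (mon g (ex J m) : F) = O.valuation (mon g (ex J m0) : F)
  · obtain ⟨m, hm, hmm, hval⟩ := hcase
    refine ⟨ex J m - ex J m0, ?_, ?_, ?_, ?_⟩
    · rw [mem_biUnion]
      exact ⟨J, mem_univ _, mem_image.2 ⟨(m, m0), mem_product.2 ⟨hm, hm0⟩, rfl⟩⟩
    · intro h
      apply hmm
      ext a
      have h2 := congrFun h (J a)
      rw [Pi.sub_apply, hex, hex, Pi.zero_apply, sub_eq_zero] at h2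
      exact_mod_cast h2
    · intro j hj
      by_contra h
      apply hj
      rw [Pi.sub_apply, hex0 J m j h, hex0 J m0 j h, sub_zero]
    · have h2 : (mon g (ex J m - ex J m0) : F) = (mon g (ex J m) : F) / (mon g (ex J m0) : F) := by
        have h3 : mon g (ex J m - ex J m0) = mon g (ex J m) / mon g (ex J m0) := by
          unfold mon
          rw [← Finset.prod_div_distrib]
          apply Finset.prod_congr rfl
          intro j _
          rw [Pi.sub_apply, zpow_sub, div_eq_mul_inv]
        rw [h3]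
        push_cast
        rfl
      rw [h2, map_div₀, hval, div_self]
      exact (Valuation.ne_zero_iff _).2 (Units.ne_zero _)
  · exfalso
    have hlt : ∀ m ∈ (P J).support.erase m0,
        O.valuation (algebraMap k F ((P J).coeff m) * (mon g (ex J m) : F)) <
          O.valuation (mon g (ex J m0) : F) := by
      intro m hm
      obtain ⟨h2, h3⟩ := mem_erase.1 hm
      rw [hv m h3]
      exact lt_of_le_of_ne (hmax m h3) (fun h => hcase ⟨m, h3, h2, h⟩)
    have h2 : O.valuation (∑ m ∈ (P J).support.erase m0,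
        algebraMap k F ((P J).coeff m) * (mon g (ex J m) : F)) <
          O.valuation (mon g (ex J m0) : F) :=
      Valuation.map_sum_lt _ ((Valuation.ne_zero_iff _).2 (Units.ne_zero _)) hlt
    rw [← Finset.add_sum_erase _ _ hm0] at hsum
    have h3 := eq_neg_of_add_eq_zero_right hsum
    rw [h3, Valuation.map_neg, hv m0 hm0] at h2
    exact lt_irrefl _ h2

end Pool.Agent.MP_b197b4_ntUV
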