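import Pool.Agent.Lib.MP_b197b4_ntUV.DStage

/-!
# Part D4: all stages of the tent decomposition
-/

set_option autoImplicit false
set_option linter.unusedSectionVars false

noncomputable section

namespace Pool.Agent.MP_b197b4_ntUV

open Finset

variable {X : Type} {Γ : X → Type} [∀ x, AddCommGroup (Γ x)] [∀ x, LinearOrder (Γ x)]
  [∀ x, IsOrderedAddMonoid (Γ x)] {N : ℕ}

/-- All stages. -/
theorem D_stages (A : Finset (Fin N → ℤ)) (hA : ∀ j, Pi.single j (1 : ℤ) ∈ A) (l : ℕ) :
    ∀ (u w : ∀ x, (Fin N → ℤ) →+ Γ x), (∀ β, DTrop u (fun x => w x β)) →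
      (∀ x, (dsp A (w x)).card ≤ l) →
    ∃ (S : Type) (_ : Fintype S) (b : S → Fin N → ℤ) (C : S → ∀ x, Γ x) (D : ℕ), 0 < D ∧
      (∀ s, DTrop u (C s)) ∧ (∀ s x, 0 ≤ C s x) ∧
      (∀ x β, D • w x β = ∑ s, ddot (b s) β • C s x) ∧
      ∀ x, (∑ s, if C s x = 0 then 0 else 1) + drk A (w x) ≤ N := by
  induction l with
  | zero =>
    intro u w _ hl
    refine ⟨Empty, inferInstance, fun s => s.elim, fun s => s.elim, 1, one_pos, fun s => s.elim,
      fun s => s.elim, ?_, ?_⟩
    · intro x β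
      have h0 : ∀ j, w x (Pi.single j 1) = 0 := by
        intro j
        by_contra h
        have h1 : Pi.single j (1 : ℤ) ∈ dsp A (w x) := mem_dsp.2 ⟨hA j, h⟩
        have h2 := Finset.card_pos.2 ⟨_, h1⟩
        have := hl x
        omega
      have h1 : w x β = 0 := by
        have h2 : β = ∑ j, β j • (Pi.single j (1 : ℤ) : Fin N → ℤ) := by
          ext i
          simp [Finset.sum_apply, Pi.single_apply]
        rw [h2, map_sum]
        apply Finset.sum_eq_zero
        intro j _
        rw [map_zsmul, h0, smul_zero]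
      simp [h1]
    · intro x
      simp only [Finset.univ_eq_empty, Finset.sum_empty, zero_add]
      refine le_trans (Submodule.finrank_le _) ?_
      simp
  | succ l ih =>
    intro u w hw hl
    obtain ⟨S, _, b, C, m, w', hm, hCT, hCpos, hw', hl', heq, hrk⟩ := D_stage A l u w hw hl
    obtain ⟨S2, _, b2, C2, D2, hD2, hCT2, hCpos2, heq2, hrk2⟩ := ih u w' hw' hl'
    refine ⟨S ⊕ S2, inferInstance, Sum.elim b b2, Sum.elim (fun s x => D2 • C s x) C2, D2 * m,
      Nat.mul_pos hD2 hm, ?_, ?_, ?_, ?_⟩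
    · rintro (s | s)
      · exact trop_nsmul (hCT s) D2
      · exact hCT2 s
    · rintro (s | s) x
      · exact nsmul_nonneg (hCpos s x) _
      · exact hCpos2 s x
    · intro x β
      rw [Fintype.sum_sum_type, mul_smul, heq, smul_add, heq2, Finset.smul_sum, add_comm]
      simp only [Sum.elim_inl, Sum.elim_inr]
      congr 1
      apply Finset.sum_congr rfl
      intro s _
      rw [smul_comm]
    · intro x
      rw [Fintype.sum_sum_type]
      change (∑ s, if D2 • C s x = 0 then 0 else 1) + (∑ s, if C2 s x = 0 then 0 else 1) +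
        drk A (w x) ≤ N
      have h1 : (∑ s, if D2 • C s x = 0 then 0 else 1) = ∑ s, if C s x = 0 then 0 else 1 := by
        apply Finset.sum_congr rfl
        intro s _
        by_cases h : C s x = 0
        · rw [if_pos h, if_pos (by rw [h, smul_zero])]
        · rw [if_neg h, if_neg]
          intro h2
          rcases smul_eq_zero.1 h2 with h3 | h3
          · omega
          · exact h h3
      rw [h1]
      have := hrk x
      have := hrk2 x
      omega

/-- The abstract tent decomposition. -/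
theorem tents_abs (A : Finset (Fin N → ℤ)) (hA : ∀ j, Pi.single j (1 : ℤ) ∈ A) (n : ℕ)
    (u : ∀ x, (Fin N → ℤ) →+ Γ x) (hr : ∀ x, N ≤ n + drk A (u x)) :
    ∃ (S : Type) (_ : Fintype S) (b : S → Fin N → ℤ) (B1 B2 : S → Finset (Fin N → ℤ))
      (h1 : ∀ s, (B1 s).Nonempty) (h2 : ∀ s, (B2 s).Nonempty) (D : ℕ), 0 < D ∧
      (∀ s, B1 s ⊆ B2 s) ∧
      (∀ x β, D • u x β = ∑ s, ddot (b s) β • (DMX u (B2 s) (h2 s) x - DMX u (B1 s) (h1 s) x)) ∧
      ∀ x, (∑ s, if DMX u (B2 s) (h2 s) x - DMX u (B1 s) (h1 s) x = 0 then 0 else 1) ≤ n := by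
  obtain ⟨S, _, b, C, D, hD, hCT, hCpos, heq, hrk⟩ :=
    D_stages A hA A.card u u (trop_lin u) (fun x => Finset.card_filter_le _ _)
  choose B1 B2 h1 h2 hB hC using fun s => trop_pos (hCT s) (hCpos s)
  refine ⟨S, inferInstance, b, B1, B2, h1, h2, D, hD, hB, ?_, ?_⟩
  · intro x β
    rw [heq]
    simp only [hC]
  · intro x
    have h3 := hrk x
    have h4 := hr x
    simp only [hC] at h3
    omega

end Pool.Agent.MP_b197b4_ntUV
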