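import Pool.Agent.Lib.MP_b197b4_ntUV.EDefs
import Pool.Agent.Lib.MP_b197b4_ntUV.DInd
import Pool.Agent.Lib.MP_b197b4_ntUV.DDep

/-!
# Part D: tents
-/

set_option autoImplicit false

noncomputable section

namespace Pool.Agent.MP_b197b4_ntUV

open Finset

theorem D_mon_add {F : Type} [Field F] {N : ℕ} (g : Fin N → Fˣ) (β γ : Fin N → ℤ) :
    mon g (β + γ) = mon g β * mon g γ := by
  unfold mon
  rw [← Finset.prod_mul_distrib]
  apply Finset.prod_congr rfl
  intro j _
  rw [Pi.add_apply, zpow_add]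

theorem D_mon_single {F : Type} [Field F] {N : ℕ} (g : Fin N → Fˣ) (j : Fin N) :
    mon g (Pi.single j 1) = g j := by
  unfold mon
  rw [Finset.prod_eq_single j]
  · simp
  · intro i _ hi
    simp [Pi.single_eq_of_ne hi]
  · intro h
    exact absurd (mem_univ j) h

/-- The logarithm of the values of the monomials at a point. -/
def D_uO {F : Type} [Field F] {N : ℕ} (g : Fin N → Fˣ) (O : ValuationSubring F) :
    (Fin N → ℤ) →+ Additive (O.ValueGroup)ˣ :=
  AddMonoidHom.mk' (fun β => Additive.ofMul (Units.map (O.valuation : F →* O.ValueGroup) (mon g β)))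
    (by
      intro β γ
      rw [D_mon_add, map_mul, ofMul_mul])

theorem D_uO_val {F : Type} [Field F] {N : ℕ} (g : Fin N → Fˣ) (O : ValuationSubring F)
    (β : Fin N → ℤ) : ((Additive.toMul (D_uO g O β) : (O.ValueGroup)ˣ) : O.ValueGroup) =
      O.valuation (mon g β : F) := rfl

theorem D_val_aux {G S : Type} [CommGroupWithZero G] [Fintype S] (D : ℕ) (a : Additive Gˣ)
    (m : S → ℤ) (p q : S → Additive Gˣ) (h : D • a = ∑ s, m s • (p s - q s)) :
    ((Additive.toMul a : Gˣ) : G) ^ D =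
      ∏ s, (((Additive.toMul (p s) : Gˣ) : G) / ((Additive.toMul (q s) : Gˣ) : G)) ^ (m s) := by
  have h4 := congrArg (fun z : Additive Gˣ => ((Additive.toMul z : Gˣ) : G)) h
  simp only [toMul_nsmul, toMul_sum, toMul_zsmul, toMul_sub, Units.val_pow_eq_pow_val,
    Units.coe_prod, Units.val_zpow_eq_zpow_val, Units.val_div_eq_div_val] at h4
  exact h4

theorem tents {k F : Type} [Field k] [Field F] [Algebra k F] {n N : ℕ} (htd : TdLt k F (n + 1))
    (g : Fin N → Fˣ) :
    ∃ (S : Type) (_ : Fintype S) (_ : DecidableEq S) (b : S → Fin N → ℤ)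
      (B1 B2 : S → Finset (Fin N → ℤ)) (D : ℕ), 0 < D ∧ (∀ s, (B1 s).Nonempty) ∧
      (∀ s, B1 s ⊆ B2 s) ∧ ∀ O : ValuationSubring F, IsPt k O →
        (∀ j, O.valuation (g j : F) ^ D = ∏ s, (MB O g (B2 s) / MB O g (B1 s)) ^ (b s j)) ∧
        {s | MB O g (B1 s) < MB O g (B2 s)}.ncard ≤ n := by
  classical
  obtain ⟨NN, hNN⟩ := D_dep htd g
  let X : Type := {O : ValuationSubring F // IsPt k O}
  let Γ : X → Type := fun x => Additive (x.1.ValueGroup)ˣ
  let u : ∀ x : X, (Fin N → ℤ) →+ Γ x := fun x => D_uO g x.1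
  let A : Finset (Fin N → ℤ) := NN ∪ univ.image (fun j => Pi.single j 1)
  have hA : ∀ j, Pi.single j (1 : ℤ) ∈ A := fun j =>
    mem_union_right _ (mem_image_of_mem _ (mem_univ j))
  have hr : ∀ x, N ≤ n + drk A (u x) := by
    intro x
    apply drk_ge
    intro J
    obtain ⟨ν, h1, h2, h3, h4⟩ := hNN x.1 x.2 J
    refine ⟨ν, mem_union_left _ h1, h2, h3, ?_⟩
    apply Additive.toMul.injective
    apply Units.ext
    exact h4
  obtain ⟨S, _, b, B1, B2, h1, h2, D, hD, hB, heq, hcount⟩ := tents_abs A hA n u hr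
  have hMB : ∀ (x : X) (B : Finset (Fin N → ℤ)) (hB : B.Nonempty),
      ((Additive.toMul (DMX u B hB x) : (x.1.ValueGroup)ˣ) : x.1.ValueGroup) = MB x.1 g B := by
    intro x B hB
    obtain ⟨β, hβ, he⟩ := Finset.exists_mem_eq_sup' hB (fun β => u x β)
    have he' : DMX u B hB x = u x β := he
    rw [he']
    apply le_antisymm
    · exact Finset.le_sup (f := fun β => x.1.valuation (mon g β : F)) hβ
    · apply Finset.sup_le
      intro γ hγ
      have h3 : u x γ ≤ u x β := by
        rw [← he']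
        exact Finset.le_sup' (fun β => u x β) hγ
      exact h3
  refine ⟨S, inferInstance, inferInstance, b, B1, B2, D, hD, h1, hB, ?_⟩
  intro O hO
  refine ⟨?_, ?_⟩
  · intro j
    have h3 := heq ⟨O, hO⟩ (Pi.single j 1)
    have h5 : ∀ s, ddot (b s) (Pi.single j 1) = b s j := by
      intro s
      unfold ddot
      rw [Finset.sum_eq_single j]
      · simp
      · intro i _ hi
        simp [Pi.single_eq_of_ne hi]
      · intro h
        exact absurd (mem_univ j) h
    simp only [h5] at h3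
    have h4 := D_val_aux D (D_uO g O (Pi.single j 1)) (fun s => b s j)
      (fun s => DMX u (B2 s) (h2 s) ⟨O, hO⟩) (fun s => DMX u (B1 s) (h1 s) ⟨O, hO⟩) h3
    have h6 : ((Additive.toMul (D_uO g O (Pi.single j 1)) : (O.ValueGroup)ˣ) : O.ValueGroup) =
        O.valuation (g j : F) := by
      have := D_uO_val g O (Pi.single j 1)
      rw [D_mon_single] at this
      exact this
    rw [h6] at h4
    rw [h4]
    apply Finset.prod_congr rfl
    intro s _
    rw [hMB ⟨O, hO⟩ (B2 s) (h2 s), hMB ⟨O, hO⟩ (B1 s) (h1 s)]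
  · have h3 := hcount ⟨O, hO⟩
    rw [Set.ncard_eq_toFinset_card']
    refine le_trans ?_ h3
    have h4 : {s | MB O g (B1 s) < MB O g (B2 s)}.toFinset =
        univ.filter (fun s => MB O g (B1 s) < MB O g (B2 s)) := by
      ext s
      simp
    rw [h4, Finset.card_filter]
    apply Finset.sum_le_sum
    intro s _
    by_cases h5 : MB O g (B1 s) < MB O g (B2 s)
    · rw [if_pos h5, if_neg]
      intro h6
      rw [sub_eq_zero] at h6
      have h7 := hMB ⟨O, hO⟩ (B2 s) (h2 s)
      rw [h6, hMB ⟨O, hO⟩ (B1 s) (h1 s)] at h7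
      exact h5.ne h7
    · rw [if_neg h5]
      exact Nat.zero_le _

end Pool.Agent.MP_b197b4_ntUV
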