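import Pool.Agent.Lib.MP_b197b4_ntUV.EDim

/-!
# UV, leaf EGP: general position
-/

set_option autoImplicit false
set_option linter.unusedSectionVars false

noncomputable section

namespace Pool.Agent.MP_b197b4_ntUV

variable {k F : Type} [Field k] [Field F] [Algebra k F]

section

open Module

variable {G : Type} (W : G → Submodule k F) [hW : ∀ i, FiniteDimensional k (W i)]

/-- the element `l` of the basis of `W i` -/
private def EGP_b (i : G) (l : Fin (finrank k (W i))) : F := (finBasis k (W i) l : F)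

private theorem EGP_b_mem (i : G) (l : Fin (finrank k (W i))) : EGP_b W i l ∈ W i :=
  (finBasis k (W i) l).2

private theorem EGP_b_ne (i : G) (l : Fin (finrank k (W i))) : EGP_b W i l ≠ 0 := fun h =>
  (finBasis k (W i)).ne_zero l (Subtype.ext h)

/-- the elements are combinations of the basis -/
private theorem EGP_sum (i : G) (w : W i) :
    (w : F) = ∑ l, (finBasis k (W i)).repr w l • EGP_b W i l := by
  have h1 := congrArg Subtype.val ((finBasis k (W i)).sum_repr w)
  rw [← h1, Submodule.coe_sum]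
  rfl

variable [Finite G]

/-- the algebra of the chart `x` -/
private def EGP_A (x : ∀ i, Fin (finrank k (W i))) : Subalgebra k F :=
  Algebra.adjoin k (Set.range fun p : Σ i : G, Fin (finrank k (W i)) =>
    EGP_b W p.1 p.2 / EGP_b W p.1 (x p.1))

private theorem EGP_noeth (x : ∀ i, Fin (finrank k (W i))) : IsNoetherianRing (EGP_A W x) := by
  have h1 : Algebra.FiniteType k (EGP_A W x) := Algebra.FiniteType.adjoin_of_finite (Set.finite_range _)
  exact Algebra.FiniteType.isNoetherianRing k _

private theorem EGP_mem (x : ∀ i, Fin (finrank k (W i))) (r : G) (w : W r) :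
    (w : F) / EGP_b W r (x r) ∈ EGP_A W x := by
  rw [EGP_sum W r w, Finset.sum_div]
  refine Subalgebra.sum_mem _ fun l _ => ?_
  rw [smul_div_assoc]
  have h1 : EGP_b W r l / EGP_b W r (x r) ∈ EGP_A W x := Algebra.subset_adjoin ⟨⟨r, l⟩, rfl⟩
  exact Subalgebra.smul_mem _ h1 _

/-- division by the element of the basis -/
private def EGP_q (x : ∀ i, Fin (finrank k (W i))) (r : G) : W r →ₗ[k] EGP_A W x where
  toFun w := ⟨(w : F) / EGP_b W r (x r), EGP_mem W x r w⟩
  map_add' _ _ := Subtype.ext (add_div _ _ _)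
  map_smul' c _ := Subtype.ext (smul_div_assoc c _ _)

private theorem EGP_q_self (x : ∀ i, Fin (finrank k (W i))) (r : G) :
    EGP_q W x r ⟨EGP_b W r (x r), EGP_b_mem W r (x r)⟩ = 1 :=
  Subtype.ext (div_self (EGP_b_ne W r (x r)))

/-- The property of the elements `s i`, `i ∈ S`. -/
private def EGP_Phi (n : ℕ) (S : Finset G) (s : ∀ i, W i) : Prop :=
  ∀ (x : ∀ i, Fin (finrank k (W i))) (J : Finset G), J ⊆ S → ∀ P : Ideal (EGP_A W x), P.IsPrime →
    (∀ j ∈ J, EGP_q W x j (s j) ∈ P) → ∀ m, m + J.card = n + 1 → TdLt k (EGP_A W x ⧸ P) m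

private theorem EGP_base {n : ℕ} (htd : TdLt k F (n + 1)) (s : ∀ i, W i) :
    EGP_Phi W n ∅ s := by
  intro x J hJ P _ _ m hm
  rw [Finset.subset_empty.1 hJ, Finset.card_empty, add_zero] at hm
  subst hm
  exact (htd.of_injective (EGP_A W x).val Subtype.val_injective).quotient P

/-- A vector of `W r` outside finitely many proper subspaces. -/
private theorem EGP_choose [Infinite k] (h0 : ∀ i, W i ≠ ⊥) (r : G) (s : ∀ i, W i) :
    ∃ w : W r, w ≠ 0 ∧ ∀ (x : ∀ i, Fin (finrank k (W i))) (J : Finset G),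
      ∀ P ∈ (Ideal.span ((fun j => EGP_q W x j (s j)) '' (J : Set G))).minimalPrimes,
        EGP_q W x r w ∉ P := by
  classical
  have hfin : ∀ i, Finite (Fin (finrank k (W i))) := fun i => inferInstance
  let T : Set (Submodule k (W r)) := {⊥} ∪ ⋃ (x : ∀ i, Fin (finrank k (W i))) (J : Finset G),
    (fun P : Ideal (EGP_A W x) => (P.restrictScalars k).comap (EGP_q W x r)) ''
      (Ideal.span ((fun j => EGP_q W x j (s j)) '' (J : Set G))).minimalPrimes
  have hT : T.Finite := by
    refine (Set.finite_singleton _).union (Set.finite_iUnion fun x => Set.finite_iUnion fun J => ?_)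
    have := EGP_noeth W x
    exact (Ideal.finite_minimalPrimes_of_isNoetherianRing _ _).image _
  have hne : Nontrivial (W r) := (Submodule.nontrivial_iff_ne_bot).2 (h0 r)
  have htop : (⊤ : Submodule k (W r)) ∉ hT.toFinset := by
    rw [Set.Finite.mem_toFinset]
    rintro (h | h)
    · exact bot_ne_top (α := Submodule k (W r)) (Set.mem_singleton_iff.1 h).symm
    · obtain ⟨x, h⟩ := Set.mem_iUnion.1 h
      obtain ⟨J, h⟩ := Set.mem_iUnion.1 h
      obtain ⟨P, hP, h⟩ := h
      have hPp : P.IsPrime := hP.1.1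
      have h1 : (⟨EGP_b W r (x r), EGP_b_mem W r (x r)⟩ : W r) ∈
          (P.restrictScalars k).comap (EGP_q W x r) := by
        rw [show (P.restrictScalars k).comap (EGP_q W x r) = ⊤ from h]
        exact Submodule.mem_top
      have h2 : EGP_q W x r ⟨EGP_b W r (x r), EGP_b_mem W r (x r)⟩ ∈ P := h1
      rw [EGP_q_self] at h2
      exact hPp.ne_top ((Ideal.eq_top_iff_one P).2 h2)
  have hcov := Subspace.biUnion_ne_univ_of_top_notMem htop
  obtain ⟨w, hw⟩ := (Set.ne_univ_iff_exists_notMem _).1 hcov
  have hw' : ∀ p ∈ T, w ∉ p := fun p hp hwp =>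
    hw (Set.mem_iUnion₂.2 ⟨p, (Set.Finite.mem_toFinset _).2 hp, hwp⟩)
  refine ⟨w, fun h => hw' ⊥ (Or.inl rfl) ?_, fun x J P hP h => ?_⟩
  · rw [h]
    exact Submodule.zero_mem _
  · exact hw' _ (Or.inr (Set.mem_iUnion.2 ⟨x, Set.mem_iUnion.2 ⟨J, P, hP, rfl⟩⟩)) h

private theorem EGP_step [Infinite k] [DecidableEq G] (h0 : ∀ i, W i ≠ ⊥) {n : ℕ} {S : Finset G}
    {r : G} (hr : r ∉ S) {s : ∀ i, W i} (hs : ∀ i, s i ≠ 0) (hPhi : EGP_Phi W n S s) :
    ∃ s' : ∀ i, W i, (∀ i, s' i ≠ 0) ∧ EGP_Phi W n (insert r S) s' := by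
  obtain ⟨w, hw0, hw⟩ := EGP_choose W h0 r s
  refine ⟨Function.update s r w, fun i => ?_, ?_⟩
  · by_cases h : i = r
    · subst h
      rw [Function.update_self]
      exact hw0
    · rw [Function.update_of_ne h]
      exact hs i
  · intro x J hJ P hP hmem m hm
    by_cases hrJ : r ∈ J
    · -- the prime is not minimal over the others
      have hsub : J.erase r ⊆ S := by
        intro j hj
        obtain ⟨h1, h2⟩ := Finset.mem_erase.1 hj
        exact (Finset.mem_insert.1 (hJ h2)).resolve_left h1
      have hle : Ideal.span ((fun j => EGP_q W x j (s j)) '' ((J.erase r : Finset G) : Set G)) ≤ P := by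
        rw [Ideal.span_le]
        rintro _ ⟨j, hj, rfl⟩
        obtain ⟨h1, h2⟩ := Finset.mem_erase.1 (Finset.mem_coe.1 hj)
        have h3 := hmem j h2
        rw [Function.update_of_ne h1] at h3
        exact h3
      obtain ⟨P', hP', hPP⟩ := Ideal.exists_minimalPrimes_le hle
      have hP'p : P'.IsPrime := hP'.1.1
      have hin : ∀ j ∈ J.erase r, EGP_q W x j (s j) ∈ P' := fun j hj =>
        hP'.1.2 (Ideal.subset_span ⟨j, hj, rfl⟩)
      have hcard : m + 1 + (J.erase r).card = n + 1 := by
        rw [Finset.card_erase_of_mem hrJ]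
        have h1 : 0 < J.card := Finset.card_pos.2 ⟨r, hrJ⟩
        omega
      have htd := hPhi x (J.erase r) hsub P' hP'p hin (m + 1) hcard
      have hlt : P' < P := by
        refine lt_of_le_of_ne hPP fun h => ?_
        have h1 := hmem r hrJ
        rw [Function.update_self, ← h] at h1
        exact hw x (J.erase r) P' hP' h1
      exact td_drop hP'p hlt htd
    · refine hPhi x J (fun j hj => ?_) P hP (fun j hj => ?_) m hm
      · exact (Finset.mem_insert.1 (hJ hj)).resolve_left fun h => hrJ (by rw [← h]; exact hj)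
      · have h3 := hmem j hj
        rw [Function.update_of_ne (fun h => hrJ (by rw [← h]; exact hj))] at h3
        exact h3

private theorem EGP_all [Infinite k] (h0 : ∀ i, W i ≠ ⊥) {n : ℕ} (htd : TdLt k F (n + 1))
    (S : Finset G) : ∃ s : ∀ i, W i, (∀ i, s i ≠ 0) ∧ EGP_Phi W n S s := by
  classical
  induction S using Finset.induction_on with
  | empty =>
    have h1 : ∀ i, ∃ w : W i, w ≠ 0 := fun i => by
      have : Nontrivial (W i) := (Submodule.nontrivial_iff_ne_bot).2 (h0 i)
      exact exists_ne 0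
    choose s hs using h1
    exact ⟨s, hs, EGP_base W htd s⟩
  | insert r S hr ih =>
    obtain ⟨s, hs, hPhi⟩ := ih
    exact EGP_step W h0 hr hs hPhi

/-- The chart of a point. -/
private theorem EGP_chart (h0 : ∀ i, W i ≠ ⊥) {O : ValuationSubring F} (hO : IsPt k O) :
    ∃ x : ∀ i, Fin (finrank k (W i)), (∀ i, ∀ w : W i, O.valuation (w : F) ≤
      O.valuation (EGP_b W i (x i))) ∧ ∀ a ∈ EGP_A W x, a ∈ O := by
  have h1 : ∀ i, ∃ l : Fin (finrank k (W i)), ∀ l', O.valuation (EGP_b W i l') ≤
      O.valuation (EGP_b W i l) := by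
    intro i
    have : Nontrivial (W i) := (Submodule.nontrivial_iff_ne_bot).2 (h0 i)
    have : 0 < finrank k (W i) := finrank_pos
    have : Nonempty (Fin (finrank k (W i))) := ⟨⟨0, this⟩⟩
    exact Finite.exists_max _
  choose x hx using h1
  have h2 : ∀ i, ∀ w : W i, O.valuation (w : F) ≤ O.valuation (EGP_b W i (x i)) := by
    intro i w
    rw [EGP_sum W i w]
    refine Valuation.map_sum_le _ fun l _ => ?_
    rw [Algebra.smul_def, map_mul]
    have h3 : O.valuation (algebraMap k F ((finBasis k (W i)).repr w l)) ≤ 1 :=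
      (O.valuation_le_one_iff _).2 (hO _)
    calc _ ≤ 1 * O.valuation (EGP_b W i l) := mul_le_mul_left h3 _
      _ ≤ _ := by
        rw [one_mul]
        exact hx i l
  refine ⟨x, h2, fun a ha => ?_⟩
  let B : Subalgebra k F := { O.toSubring with algebraMap_mem' := hO }
  have h4 : EGP_A W x ≤ B := by
    refine Algebra.adjoin_le ?_
    rintro _ ⟨⟨i, l⟩, rfl⟩
    show _ ∈ O
    rw [← O.valuation_le_one_iff, map_div₀]
    have h5 : O.valuation (EGP_b W i (x i)) ≠ 0 := (Valuation.ne_zero_iff _).2 (EGP_b_ne W i (x i))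
    rw [div_le_iff₀ (zero_lt_iff.2 h5), one_mul]
    exact hx i l
  exact h4 ha

end

/-- General position: there are elements of the finite dimensional spaces `W i` such that at every point at most `n` of
them vanish.
PROOF. Number the indices: `G ≃ Fin R`. A chart is a choice `x` of an element `x i` of a basis of `W i` for every `i`
(finitely many); `A_x = Algebra.adjoin k {w / x i | w ∈ W i}` (or `w` in the basis) is a finitely generated
subalgebra of `F`, Noetherian. By induction on `r ≤ R` there are `s i ∈ W i`, `s i ≠ 0`, `i < r`, with the property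
(Phi) for all charts `x`, all sets `J` of indices `< r` and all prime ideals `P` of `A_x` which contain the `s j / x j`,
`j ∈ J`: `TdLt k (A_x ⧸ P) m` for `m + #J = n + 1`. `r = 0`: `htd`, `TdLt.of_injective`, `TdLt.quotient`. Step: choose
`s r ∈ W r` outside the proper subspaces `⊥` and `{w | w / x r ∈ P'}`, for all charts `x`, all `J` and all the
(finitely many) minimal primes `P'` over `(s j / x j)_(j ∈ J)` (proper because `x r / x r = 1 ∉ P'`; a vector space over
an infinite field is not a finite union of proper subspaces: `Subspace.biUnion_ne_univ_of_top_notMem`, see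
`Mathlib/LinearAlgebra/Basis/VectorSpace`, `Mathlib/GroupTheory/CosetCover`). If
`r ∈ J`, `J' = J \ {r}`, `P` contains a minimal prime `P'` over `J'`, `P' < P` because of `s r / x r`, and
`td_drop` gives (Phi) for `P` from (Phi) for `P'`, `J'`.
At a point `O` let `x i` be the element of the basis of `W i` with the largest valuation: then `v w ≤ v (x i)` for all
`w ∈ W i`, `A_x ⊆ O`, and `P = {a ∈ A_x | v a < 1}` is a prime ideal which contains `s j / x j` for all the `j` with
`Van O (W j) (s j)`. If there were more than `n` such `j`, (Phi) with `#J = n + 1`, `m = 0` contradicts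
`not_tdLt_zero`. -/
theorem general_position [Infinite k] {n : ℕ} (htd : TdLt k F (n + 1)) {G : Type} [Finite G]
    (W : G → Submodule k F) (hW : ∀ i, FiniteDimensional k (W i)) (h0 : ∀ i, W i ≠ ⊥) :
    ∃ s : G → F, (∀ i, s i ∈ W i) ∧ (∀ i, s i ≠ 0) ∧
      ∀ O : ValuationSubring F, IsPt k O → {i | Van O (W i) (s i)}.ncard ≤ n := by
  classical
  have := Fintype.ofFinite G
  obtain ⟨s, hs, hPhi⟩ := EGP_all W h0 htd (Finset.univ : Finset G)
  refine ⟨fun i => (s i : F), fun i => (s i).2, fun i h => hs i (Subtype.ext h), fun O hO => ?_⟩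
  obtain ⟨x, hx, hA⟩ := EGP_chart W h0 hO
  by_contra hcon
  rw [not_le, ← Nat.succ_le_iff] at hcon
  have hfin : {i | Van O (W i) (s i : F)}.Finite := Set.toFinite _
  rw [Set.ncard_eq_toFinset_card _ hfin] at hcon
  obtain ⟨J, hJ, hcard⟩ := Finset.exists_subset_card_eq hcon
  let φ : EGP_A W x →+* O :=
    { toFun := fun a => ⟨a.1, hA a.1 a.2⟩
      map_one' := rfl
      map_mul' := fun _ _ => rfl
      map_zero' := rfl
      map_add' := fun _ _ => rfl }
  let P : Ideal (EGP_A W x) := (IsLocalRing.maximalIdeal O).comap φ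
  have hP : P.IsPrime := Ideal.IsPrime.comap φ
  refine not_tdLt_zero (hPhi x J (Finset.subset_univ _) P hP (fun j hj => ?_) 0 (by omega))
  obtain ⟨w, hw, hlt⟩ : Van O (W j) (s j : F) := (Set.Finite.mem_toFinset hfin).1 (hJ hj)
  show φ (EGP_q W x j (s j)) ∈ IsLocalRing.maximalIdeal O
  rw [O.valuation_lt_one_iff]
  show O.valuation ((s j : F) / EGP_b W j (x j)) < 1
  have h5 : O.valuation (EGP_b W j (x j)) ≠ 0 := (Valuation.ne_zero_iff _).2 (EGP_b_ne W j (x j))
  rw [map_div₀, div_lt_iff₀ (zero_lt_iff.2 h5), one_mul]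
  exact hlt.trans_le (hx j ⟨w, hw⟩)

end Pool.Agent.MP_b197b4_ntUV
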