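import Pool.Agent.Lib.MP_b197b4_ntUV.ERow2
import Pool.Agent.Lib.MP_b197b4_ntUV.EGP
import Pool.Agent.Lib.MP_b197b4_ntUV.DMain

/-!
# UV, part E: every symbol is a sum of symbols in good position
-/

set_option autoImplicit false
set_option linter.unusedSectionVars false
set_option linter.unusedVariables false

noncomputable section

open scoped Pointwise

namespace Pool.Agent.MP_b197b4_ntUV

variable {k F : Type} [Field k] [Field F] [Algebra k F] {N : ℕ}

/-- The chain. -/
theorem chain (lam : (Additive Fˣ) [⋀^Fin N]→ₗ[ℤ] ℝ) (x : Fin N → Fˣ) (p : Fin N → Option (Fin N))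
    (hp : ∀ j i, p j = some i → i < j) :
    lam (fun j => Additive.ofMul (x j)) = lam fun j => Additive.ofMul (match p j with
      | none => x j
      | some i => x j / x i) := by
  classical
  let w : Fin N → Fˣ := fun j => match p j with
    | none => x j
    | some i => x j / x i
  have key : ∀ m : ℕ, m ≤ N → lam (fun j => Additive.ofMul (x j)) =
      lam fun j => Additive.ofMul (if N - m ≤ (j : ℕ) then w j else x j) := by
    intro m
    induction m with
    | zero =>
      intro _
      congr 1
      funext j
      rw [if_neg (by have := j.2; omega)]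
    | succ m ih =>
      intro hm
      rw [ih (by omega)]
      let l : Fin N := ⟨N - (m + 1), by omega⟩
      have h1 : (fun j : Fin N => Additive.ofMul (if N - (m + 1) ≤ (j : ℕ) then w j else x j)) =
          Function.update (fun j : Fin N => Additive.ofMul (if N - m ≤ (j : ℕ) then w j else x j)) l
            (Additive.ofMul (w l)) := by
        funext j
        by_cases hj : j = l
        · subst hj
          rw [Function.update_self, if_pos (le_refl _)]
        · rw [Function.update_of_ne hj]
          have hj' : (j : ℕ) ≠ N - (m + 1) := fun h => hj (Fin.ext h)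
          by_cases h2 : N - m ≤ (j : ℕ)
          · rw [if_pos h2, if_pos (by omega)]
          · rw [if_neg h2, if_neg (by omega)]
      have h2 : Function.update (fun j : Fin N => Additive.ofMul (if N - m ≤ (j : ℕ) then w j else x j)) l
          (Additive.ofMul (x l)) = fun j : Fin N => Additive.ofMul (if N - m ≤ (j : ℕ) then w j else x j) := by
        rw [Function.update_eq_self_iff, if_neg (by show ¬ N - m ≤ N - (m + 1); omega)]
      rw [h1]
      rcases hl : p l with _ | i
      · have h3 : w l = x l := by
          show (match p l with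
            | none => x l
            | some i => x l / x i) = x l
          rw [hl]
        rw [h3, h2]
      · have h3 : w l = x l / x i := by
          show (match p l with
            | none => x l
            | some i => x l / x i) = x l / x i
          rw [hl]
        have hil : i < l := hp l i hl
        have h4 : Additive.ofMul (w l) = Additive.ofMul (x l) + (-1 : ℤ) • Additive.ofMul (x i) := by
          rw [h3, ofMul_div, neg_one_smul, sub_eq_add_neg]
        rw [h4, AlternatingMap.map_update_add, AlternatingMap.map_update_smul, h2]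
        have h5 : lam (Function.update (fun j : Fin N => Additive.ofMul (if N - m ≤ (j : ℕ) then w j else x j)) l
            (Additive.ofMul (x i))) = 0 := by
          refine lam.map_eq_zero_of_eq _ (i := i) (j := l) ?_ hil.ne
          rw [Function.update_self, Function.update_of_ne hil.ne, if_neg]
          have hil' : (i : ℕ) < N - (m + 1) := hil
          omega
        rw [h5, smul_zero, add_zero]
  rw [key N le_rfl]
  congr 1
  funext j
  rw [if_pos (by omega)]

theorem sum_yy {S : Type} [Fintype S] [DecidableEq S] (g : Fin N → Fˣ) (b : S → Fin N → ℤ) (D : ℕ)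
    (z : GG N S → Fˣ) (j : Fin N) :
    Additive.ofMul (g j ^ D) =
      ∑ τ : Option S, (τ.elim 1 fun s => b s j : ℤ) • Additive.ofMul (yy g b D z j τ) := by
  have h1 : g j ^ D = ∏ τ : Option S, yy g b D z j τ ^ (τ.elim 1 fun s => b s j : ℤ) := by
    rw [Fintype.prod_option]
    show g j ^ D = (PP g b D z j / QQ b z j) ^ (1 : ℤ) *
      ∏ s, (z (Sum.inl (j, s, true)) / z (Sum.inl (j, s, false))) ^ (b s j)
    unfold PP QQ
    rw [zpow_one, mul_div_assoc, ← Finset.prod_div_distrib, mul_assoc, ← Finset.prod_mul_distrib]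
    have h2 : ∏ s, (z (Sum.inl (j, s, false)) ^ (b s j).toNat * z (Sum.inl (j, s, true)) ^ (-(b s j)).toNat /
        (z (Sum.inl (j, s, true)) ^ (b s j).toNat * z (Sum.inl (j, s, false)) ^ (-(b s j)).toNat) *
        (z (Sum.inl (j, s, true)) / z (Sum.inl (j, s, false))) ^ (b s j)) = 1 := by
      refine Finset.prod_eq_one fun s _ => ?_
      rcases le_total 0 (b s j) with h | h
      · obtain ⟨m, hm⟩ := Int.eq_ofNat_of_zero_le h
        rw [hm]
        have e1 : (-((m : ℕ) : ℤ)).toNat = 0 := by omega
        rw [e1, Int.toNat_natCast, pow_zero, mul_one, pow_zero, mul_one, zpow_natCast, div_pow,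
          div_mul_div_cancel, div_self']
      · obtain ⟨m, hm⟩ := Int.eq_ofNat_of_zero_le (neg_nonneg.2 h)
        have hm' : b s j = -((m : ℕ) : ℤ) := by omega
        rw [hm']
        have e1 : (-((m : ℕ) : ℤ)).toNat = 0 := by omega
        have e2 : (-(-((m : ℕ) : ℤ))).toNat = m := by omega
        rw [e1, e2, pow_zero, one_mul, pow_zero, one_mul, zpow_neg, zpow_natCast, div_pow, inv_div,
          div_mul_div_cancel, div_self']
    rw [h2, mul_one]
  rw [h1, ofMul_prod]
  refine Finset.sum_congr rfl fun τ _ => ?_
  rw [ofMul_zpow]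

/-- PART E: if all the symbols in good position vanish, then all symbols vanish. -/
theorem part_E [Infinite k] {n : ℕ} (htd : TdLt k F (n + 1)) (lam : (Additive Fˣ) [⋀^Fin N]→ₗ[ℤ] ℝ)
    (hBC : ∀ (V : Submodule k F), FiniteDimensional k V → ∀ A B : Fin N → Fˣ, (∀ j, (A j : F) ∈ V) →
      (∀ j, (B j : F) ∈ V) → (∀ O : ValuationSubring F, IsPt k O → ∀ e : Fin N → Bool,
        {j | Van O V (if e j then (A j : F) else B j)}.ncard ≤ 3 * n) →
      lam (fun j => Additive.ofMul (A j / B j)) = 0) (g : Fin N → Fˣ) :
    lam (fun j => Additive.ofMul (g j)) = 0 := by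
  classical
  obtain ⟨S, _, _, b, B1, B2, D, hD0, h1, h12, hO⟩ := tents htd g
  -- the generic elements
  have hBB : ∀ γ : GG N S, (BB b B1 B2 D γ).Nonempty := by
    rintro (⟨j, s, e⟩ | ⟨j, c⟩)
    · rcases e with _ | _
      · exact h1 s
      · exact (h1 s).mono (h12 s)
    · exact ne_sum _ fun i _ => ER_ne b B1 B2 D h1 h12 c i
  obtain ⟨z0, hz, hz0, hgp⟩ := general_position htd (fun γ : GG N S => HB k g (BB b B1 B2 D γ))
    (fun γ => HB_fin _) fun γ => HB_ne (hBB γ)
  let z : GG N S → Fˣ := fun γ => Units.mk0 (z0 γ) (hz0 γ)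
  have hzm : ∀ γ, (z γ : F) ∈ HB k g (BB b B1 B2 D γ) := hz
  -- the symbols in good position
  have key : ∀ c : Fin N → Option S, lam (fun j => Additive.ofMul (yy g b D z j (c j))) = 0 := by
    intro c
    let Δ : Finset (Fin N → ℤ) := ∑ j, ER b B1 B2 D c j
    have hΔ : ∀ j, ER b B1 B2 D c j + BB b B1 B2 D (Sum.inr (j, c)) = Δ := fun j =>
      Finset.add_sum_erase Finset.univ (fun i => ER b B1 B2 D c i) (Finset.mem_univ j)
    let A : Fin N → Fˣ := fun j => nn g b D z c j * z (Sum.inr (j, c))
    let B : Fin N → Fˣ := fun j => dd b z c j * z (Sum.inr (j, c))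
    have hrow : ∀ j, Rep k g (BB b B1 B2 D) z (A j : F) Δ (UU c j) (XX g B1 B2 c j) ∧
        Rep k g (BB b B1 B2 D) z (B j : F) Δ (UU c j) (XX g B1 B2 c j) := by
      intro j
      obtain ⟨r1, r2⟩ := rep_row hzm h1 h12 (fun O hO' => (hO O hO').1) c j
      have r3 : Rep k g (BB b B1 B2 D) z (z (Sum.inr (j, c)) : F) (BB b B1 B2 D (Sum.inr (j, c))) (UU c j)
          (XX g B1 B2 c j) := Rep.gen (hzm _) (Or.inr (Or.inr rfl))
      have r4 := r1.mul r3
      have r5 := r2.mul r3
      rw [hΔ j] at r4 r5
      exact ⟨r4, r5⟩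
    have h2 := hBC (HB k g Δ) (HB_fin _) A B (fun j => (hrow j).1.mem) (fun j => (hrow j).2.mem) ?_
    · have h3 : (fun j => Additive.ofMul (A j / B j)) = fun j => Additive.ofMul (ww g b D z c j) := by
        funext j
        show Additive.ofMul (nn g b D z c j * z (Sum.inr (j, c)) / (dd b z c j * z (Sum.inr (j, c)))) = _
        rw [mul_div_mul_right_eq_div, nn_dd]
      rw [h3] at h2
      rw [chain lam (fun j => yy g b D z j (c j)) (pr c) fun j i h => (pr_lt h).1]
      exact h2
    · intro O hO' e
      refine le_trans (Set.ncard_le_ncard ?_ (Set.toFinite _))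
        (card_bad (g := g) (B1 := B1) (B2 := B2) c {γ | Van O (HB k g (BB b B1 B2 D γ)) (z0 γ)} (hgp O hO')
          (hO O hO').2)
      intro j hj
      by_contra hcon
      have hcon1 : ¬ ((∃ γ ∈ {γ | Van O (HB k g (BB b B1 B2 D γ)) (z0 γ)}, γ ∈ UU c j) ∨
          XX g B1 B2 c j O) := hcon
      rw [not_or] at hcon1
      obtain ⟨hc1, hc2⟩ := hcon1
      have h3 : ∀ γ ∈ UU c j, O.valuation (z γ : F) = MB O g (BB b B1 B2 D γ) := by
        intro γ hγ
        refine le_antisymm (le_MB hO' (hzm γ)) ?_
        by_contra h4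
        exact hc1 ⟨γ, (van_iff hO').2 (not_le.1 h4), hγ⟩
      have h4 : O.valuation (if e j then (A j : F) else B j) = MB O g Δ := by
        split
        · exact (hrow j).1.val O hO' h3 hc2
        · exact (hrow j).2.val O hO' h3 hc2
      have h5 : Van O (HB k g Δ) (if e j then (A j : F) else B j) := hj
      rw [van_iff hO', h4] at h5
      exact lt_irrefl _ h5
  -- the expansion
  have h2 : lam (fun j => Additive.ofMul (g j ^ D)) = 0 := by
    have h3 : (fun j => Additive.ofMul (g j ^ D)) = fun j =>
        ∑ τ : Option S, (τ.elim 1 fun s => b s j : ℤ) • Additive.ofMul (yy g b D z j τ) :=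
      funext fun j => sum_yy g b D z j
    rw [h3]
    have h4 := lam.toMultilinearMap.map_sum
      (g := fun (j : Fin N) (τ : Option S) => (τ.elim 1 fun s => b s j : ℤ) • Additive.ofMul (yy g b D z j τ))
    refine h4.trans ?_
    refine Finset.sum_eq_zero fun c _ => ?_
    have h5 := lam.toMultilinearMap.map_smul_univ
      (fun j => ((c j).elim 1 fun s => b s j : ℤ)) (fun j => Additive.ofMul (yy g b D z j (c j)))
    refine h5.trans ?_
    have h6 := key c
    rw [show lam.toMultilinearMap (fun j => Additive.ofMul (yy g b D z j (c j))) = 0 from h6, smul_zero]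
  have h3 : (fun j => Additive.ofMul (g j ^ D)) = fun j => (D : ℤ) • Additive.ofMul (g j) := by
    funext j
    rw [ofMul_pow, natCast_zsmul]
  rw [h3] at h2
  have h4 := lam.toMultilinearMap.map_smul_univ (fun _ => (D : ℤ)) (fun j => Additive.ofMul (g j))
  have h5 : (∏ _j : Fin N, (D : ℤ)) • lam (fun j => Additive.ofMul (g j)) = 0 := h4.symm.trans h2
  rw [smul_eq_zero] at h5
  refine h5.resolve_left ?_
  rw [Finset.prod_const]
  exact pow_ne_zero _ (by exact_mod_cast hD0.ne')

end Pool.Agent.MP_b197b4_ntUV
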