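import Pool.Agent.Lib.MP_b197b4_ntUV.C5
import Pool.Agent.Lib.MP_b197b4_ntUV.EGP

/-!
# THEOREM BC
-/

set_option autoImplicit false

namespace Pool.Agent.MP_b197b4_ntUV

open scoped BigOperators

variable {k F : Type} [Field k] [Field F] [Algebra k F]

theorem LocFin.infinite (hk : LocFin k) : Infinite k := by
  by_contra h
  rw [not_infinite_iff_finite] at h
  obtain ⟨K, hK, hq, -⟩ := hk ∅ (Nat.card k + 1)
  have : Nat.card K ≤ Nat.card k := Nat.card_le_card_of_injective _ Subtype.val_injective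
  omega

/-- THEOREM BC. -/
theorem BC (hk : LocFin k) {n t N : ℕ} (htd : TdLt k F (n + 1)) (hN : N0 n t ≤ N)
    (V : Submodule k F) (hV : FiniteDimensional k V)
    (lam : (Additive Fˣ) [⋀^Fin N]→ₗ[ℤ] ℝ) (hS : Steinberg lam)
    (A B : Fin N → Fˣ) (hA : ∀ j, (A j : F) ∈ V) (hB : ∀ j, (B j : F) ∈ V)
    (hv : ∀ O : ValuationSubring F, IsPt k O → ∀ e : Fin N → Bool,
      {j | Van O V (if e j then (A j : F) else (B j : F))}.ncard ≤ t) :
    lam (fun j => Additive.ofMul (A j / B j)) = 0 := by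
  have := hk.infinite
  have hN' : 0 < N := by
    have h1 : 0 < (3 * n + 1).choose n := Nat.choose_pos (by omega)
    exact lt_of_lt_of_le (by unfold N0; positivity) hN
  have hV0 : V ≠ ⊥ := by
    intro h
    have := hA ⟨0, hN'⟩
    rw [h, Submodule.mem_bot] at this
    exact (A ⟨0, hN'⟩).ne_zero this
  obtain ⟨T, hT, hT0, hTv⟩ := general_position (k := k) htd (G := Fin (n + 1)) (fun _ => V)
    (fun _ => hV) (fun _ => hV0)
  refine C5_BC hk hN V T hT hT0 ?_ lam hS A B hA hB hv
  intro O hO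
  by_contra hcon
  push Not at hcon
  have h1 := hTv O hO
  have h2 : {i | Van O V (T i)} = Set.univ := by
    ext i; simp [hcon i]
  rw [h2, Set.ncard_univ, Nat.card_fin] at h1
  omega

end Pool.Agent.MP_b197b4_ntUV
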