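import Pool.Agent.Lib.MP_b197b4_ntUV.P

/-!
# Leaf C2: the list of exponents (combinatorics of natural numbers only)

Let `L = 2n+1`, `M = 2K-1`.  For `c` in `Lam n` (`c_0 + .. + c_n = L`) let `a_i` be the difference of the floors of
`M (c_0 + .. + c_i) / L`, so `|a| = M` and `a_i <= h c_i` for `h = M/L + 2`.  If `|b| + d0 >= 3K` and `K` is large then
the sum of the `b_i / h` (floors) is at least `L`, so there is `c` with `h c_i <= b_i`.
-/

set_option autoImplicit false

namespace Pool.Agent.MP_b197b4_ntUV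

open scoped BigOperators

private theorem C2_split {n : ℕ} (a : Fin (n + 1) → ℕ) (m : ℕ) (h : m ≤ ∑ i, a i) :
    ∃ a' : Fin (n + 1) → ℕ, (∀ i, a' i ≤ a i) ∧ ∑ i, a' i = m := by
  induction m with
  | zero => exact ⟨fun _ => 0, fun _ => Nat.zero_le _, by simp⟩
  | succ m ih =>
    obtain ⟨a', h1, h2⟩ := ih (by omega)
    obtain ⟨i, hi⟩ : ∃ i, a' i < a i := by
      by_contra hcon
      push Not at hcon
      have : ∑ i, a i ≤ ∑ i, a' i := Finset.sum_le_sum fun i _ => hcon i
      omega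
    refine ⟨Function.update a' i (a' i + 1), fun j => ?_, ?_⟩
    · by_cases hj : j = i
      · subst hj; rw [Function.update_self]; omega
      · rw [Function.update_of_ne hj]; exact h1 j
    · rw [Finset.sum_update_of_mem (Finset.mem_univ i)]
      have := Finset.add_sum_erase Finset.univ a' (Finset.mem_univ i)
      rw [Finset.sdiff_singleton_eq_erase]
      omega

/-- partial sums of the multiplicities -/
private def C2_S {n : ℕ} (l : Lam n) (j : ℕ) : ℕ :=
  ∑ i ∈ Finset.univ.filter (fun i : Fin (n + 1) => (i : ℕ) < j), Multiset.count i l.1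

private theorem C2_S_succ {n : ℕ} (l : Lam n) (i : Fin (n + 1)) :
    C2_S l ((i : ℕ) + 1) = C2_S l i + Multiset.count i l.1 := by
  unfold C2_S
  have : Finset.univ.filter (fun j : Fin (n + 1) => (j : ℕ) < (i : ℕ) + 1) =
      insert i (Finset.univ.filter (fun j : Fin (n + 1) => (j : ℕ) < (i : ℕ))) := by
    ext j
    simp only [Finset.mem_filter, Finset.mem_univ, true_and, Finset.mem_insert, Fin.ext_iff]
    omega
  rw [this, Finset.sum_insert (by simp), add_comm]

private theorem C2_S_top {n : ℕ} (l : Lam n) : C2_S l (n + 1) = 2 * n + 1 := by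
  unfold C2_S
  have : Finset.univ.filter (fun j : Fin (n + 1) => (j : ℕ) < n + 1) = Finset.univ := by
    ext j
    simp only [Finset.mem_filter, Finset.mem_univ, true_and, iff_true]
    exact j.isLt
  rw [this]
  have h1 := Multiset.toFinset_sum_count_eq l.1
  rw [l.2] at h1
  refine Eq.trans ?_ h1
  symm
  apply Finset.sum_subset (Finset.subset_univ _)
  intro x _ hx
  rw [Multiset.mem_toFinset] at hx
  exact Multiset.count_eq_zero.2 hx

private def C2_a {n : ℕ} (M : ℕ) (l : Lam n) (i : Fin (n + 1)) : ℕ :=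
  M * C2_S l ((i : ℕ) + 1) / (2 * n + 1) - M * C2_S l i / (2 * n + 1)

private theorem C2_sum {n : ℕ} (M : ℕ) (l : Lam n) : ∑ i, C2_a M l i = M := by
  have hmono : ∀ i : Fin (n + 1), M * C2_S l i / (2 * n + 1) ≤ M * C2_S l ((i : ℕ) + 1) / (2 * n + 1) := by
    intro i
    apply Nat.div_le_div_right
    apply Nat.mul_le_mul_left
    rw [C2_S_succ]
    omega
  have h1 : ∀ m : ℕ, (hm : m ≤ n + 1) → ∑ i : Fin m, C2_a M l ⟨i, by omega⟩ =
      M * C2_S l m / (2 * n + 1) := by
    intro m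
    induction m with
    | zero => intro _; simp [C2_S]
    | succ m ih =>
      intro hm
      rw [Fin.sum_univ_castSucc]
      have h2 := ih (by omega)
      simp only [Fin.val_castSucc, Fin.val_last]
      rw [h2]
      have h3 := hmono ⟨m, by omega⟩
      unfold C2_a
      simp only at h3 ⊢
      omega
  have h2 := h1 (n + 1) le_rfl
  rw [C2_S_top, Nat.mul_div_cancel _ (by omega)] at h2
  exact h2

private theorem C2_le {n : ℕ} (M : ℕ) (l : Lam n) (i : Fin (n + 1)) :
    C2_a M l i ≤ (M / (2 * n + 1) + 2) * Multiset.count i l.1 := by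
  unfold C2_a
  rw [C2_S_succ]
  generalize C2_S l i = s
  rcases Nat.eq_zero_or_pos (Multiset.count i l.1) with h | h
  · rw [h]; simp
  generalize Multiset.count i l.1 = c at h
  have hL : 0 < 2 * n + 1 := by omega
  generalize 2 * n + 1 = L at hL
  have h1 : M < L * (M / L + 1) := Nat.lt_mul_div_succ M hL
  have h2 : M * (s + c) / L ≤ M * s / L + (M / L + 2) * c := by
    apply Nat.le_of_lt_succ
    rw [Nat.div_lt_iff_lt_mul hL, Nat.succ_eq_add_one]
    have h3 : M * s < L * (M * s / L + 1) := Nat.lt_mul_div_succ _ hL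
    have h4 : M * c ≤ L * ((M / L + 1) * c) := by
      calc M * c ≤ L * (M / L + 1) * c := Nat.mul_le_mul_right _ h1.le
        _ = _ := by ring
    calc M * (s + c) = M * s + M * c := by ring
      _ < L * (M * s / L + 1) + L * ((M / L + 1) * c) := by omega
      _ = L * (M * s / L + (M / L + 1) * c + 1) := by ring
      _ ≤ L * (M * s / L + (M / L + 2) * c + 1) := by
        apply Nat.mul_le_mul_left
        have : (M / L + 1) * c ≤ (M / L + 2) * c := Nat.mul_le_mul_right _ (by omega)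
        omega
      _ = _ := by ring
  omega

private theorem C2_exists {n : ℕ} (c : Fin (n + 1) → ℕ) (hc : ∑ i, c i = 2 * n + 1) :
    ∃ l : Lam n, ∀ i, Multiset.count i l.1 = c i := by
  classical
  refine ⟨⟨∑ i, Multiset.replicate (c i) i, ?_⟩, fun i => ?_⟩
  · rw [Multiset.card_sum]
    simp [hc]
  · simp only
    rw [Multiset.count_sum']
    simp [Multiset.count_replicate]

private theorem C2_find {n K d0 : ℕ} (hK : (2 * n + 1) * (5 * n + 1 + d0) + 1 ≤ K)
    (b : Fin (n + 1) → ℕ) (hb : 3 * K ≤ ∑ i, b i + d0) :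
    ∃ l : Lam n, ∀ i, C2_a (2 * K - 1) l i ≤ b i := by
  obtain ⟨g, hg'⟩ : ∃ g, g = (2 * K - 1) / (2 * n + 1) := ⟨_, rfl⟩
  obtain ⟨h, hg⟩ : ∃ h, h = g + 2 := ⟨_, rfl⟩
  have hh0 : 0 < h := by omega
  have h1 : 2 * n + 1 ≤ ∑ i, b i / h := by
    by_contra hcon
    push Not at hcon
    have h2 : ∑ i, b i ≤ ∑ i : Fin (n + 1), (h * (b i / h) + (h - 1)) := by
      refine Finset.sum_le_sum fun i _ => ?_
      have := Nat.div_add_mod (b i) h
      have := Nat.mod_lt (b i) hh0
      omega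
    rw [Finset.sum_add_distrib, ← Finset.mul_sum, Finset.sum_const, Finset.card_univ,
      Fintype.card_fin, smul_eq_mul] at h2
    have h3 : h * ∑ i, b i / h ≤ h * (2 * n) := Nat.mul_le_mul_left _ (by omega)
    have h4 : (2 * n + 1) * ((2 * K - 1) / (2 * n + 1)) ≤ 2 * K - 1 := Nat.mul_div_le _ _
    have h5 : ∑ i, b i ≤ h * (2 * n) + (n + 1) * (h - 1) := by omega
    rw [← hg'] at h4
    rw [hg] at h5
    have h6 : (g + 2) * (2 * n) + (n + 1) * (g + 2 - 1) = g * (3 * n + 1) + (5 * n + 1) := by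
      have : g + 2 - 1 = g + 1 := by omega
      rw [this]; ring
    rw [h6] at h5
    have h7 : 3 * K ≤ g * (3 * n + 1) + (5 * n + 1) + d0 := by omega
    have h8 : (2 * n + 1) * (3 * K) ≤ (3 * n + 1) * ((2 * n + 1) * g) + (2 * n + 1) * (5 * n + 1 + d0) := by
      calc (2 * n + 1) * (3 * K) ≤ (2 * n + 1) * (g * (3 * n + 1) + (5 * n + 1) + d0) :=
            Nat.mul_le_mul_left _ h7
        _ = _ := by ring
    have h9 : (3 * n + 1) * ((2 * n + 1) * g) ≤ (3 * n + 1) * (2 * K) :=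
      Nat.mul_le_mul_left _ (by omega)
    have h10 : (2 * n + 1) * (3 * K) = (3 * n + 1) * (2 * K) + K := by ring
    omega
  obtain ⟨c, hc1, hc2⟩ := C2_split (fun i => b i / h) (2 * n + 1) h1
  obtain ⟨l, hl⟩ := C2_exists c hc2
  refine ⟨l, fun i => (C2_le _ l i).trans ?_⟩
  rw [hl i, ← hg', ← hg]
  exact (Nat.mul_le_mul_left _ (hc1 i)).trans (Nat.mul_div_le _ _)

theorem C2_grid (n : ℕ) : ∃ a' a'' : ℕ → Lam n → Fin (n + 1) → ℕ,
    (∀ K l, 1 ≤ K → ∑ i, a' K l i = K - 1) ∧ (∀ K l, ∑ i, a'' K l i = K) ∧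
    ∀ d0 : ℕ, ∃ K0 : ℕ, ∀ K, K0 ≤ K → ∀ b : Fin (n + 1) → ℕ, 3 * K ≤ ∑ i, b i + d0 →
      ∃ l, ∀ i, a' K l i + a'' K l i ≤ b i := by
  have h1 : ∀ (K : ℕ) (l : Lam n), ∃ a' a'' : Fin (n + 1) → ℕ, (1 ≤ K → ∑ i, a' i = K - 1) ∧
      ∑ i, a'' i = K ∧ (1 ≤ K → ∀ i, a' i + a'' i ≤ C2_a (2 * K - 1) l i) := by
    intro K l
    rcases Nat.eq_zero_or_pos K with hK | hK
    · subst hK
      exact ⟨fun _ => 0, fun _ => 0, fun h => absurd h (by omega), by simp, fun h => absurd h (by omega)⟩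
    · obtain ⟨a', h2, h3⟩ := C2_split (C2_a (2 * K - 1) l) (K - 1) (by
        rw [C2_sum]
        omega)
      refine ⟨a', fun i => C2_a (2 * K - 1) l i - a' i, fun _ => h3, ?_, fun _ i => ?_⟩
      · have h4 : ∑ i, (C2_a (2 * K - 1) l i - a' i) + ∑ i, a' i = 2 * K - 1 := by
          rw [← Finset.sum_add_distrib]
          refine (Finset.sum_congr rfl fun i _ => Nat.sub_add_cancel (h2 i)).trans ?_
          exact C2_sum (2 * K - 1) l
        show ∑ i, (C2_a (2 * K - 1) l i - a' i) = K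
        omega
      · show a' i + (C2_a (2 * K - 1) l i - a' i) ≤ _
        have := h2 i
        omega
  choose a' a'' h2 h3 h4 using h1
  refine ⟨a', a'', fun K l hK => h2 K l hK, h3,
    fun d0 => ⟨(2 * n + 1) * (5 * n + 1 + d0) + 1, fun K hK b hb => ?_⟩⟩
  obtain ⟨l, hl⟩ := C2_find hK b hb
  exact ⟨l, fun i => (h4 K l (by omega) i).trans (hl i)⟩

end Pool.Agent.MP_b197b4_ntUV
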