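import Pool.Agent.Lib.MP_b197b4_ntUV.C1

/-!
# Leaf C3: the covering lemma

`T_0..T_n in V` without common zero: `V^(m+1) = sum T_i V^m` for `m >= m0` (`C1_pow`), so (induction)
`V^(3K)` is the sum of the `T^b V^(m0)`, `|b| = 3K - m0`.  By `hgrid` (with `d0 = m0`) `b >= a K l` for some `l`, so
`T^b V^(m0) < T^(a K l) V^(K+1)` (`|b| - |a| + m0 = K+1`).  For every `l` the elements `eps j l` (`j in Fin (t+1)`) have no common
zero, so `V^(K+1) = sum_j (eps j l) V^K` for `K >= m1(l)`.
-/

set_option autoImplicit false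

namespace Pool.Agent.MP_b197b4_ntUV

open scoped BigOperators

variable {k F : Type} [Field k] [Field F] [Algebra k F]

theorem C3_mono_mem {n : ℕ} (V : Submodule k F) (T : Fin (n + 1) → F) (hT : ∀ i, T i ∈ V)
    (a : Fin (n + 1) → ℕ) : mono T a ∈ V ^ (∑ i, a i) := by
  unfold mono
  have h : ∀ s : Finset (Fin (n + 1)), ∏ i ∈ s, T i ^ a i ∈ V ^ (∑ i ∈ s, a i) := by
    intro s
    induction s using Finset.induction_on with
    | empty =>
      rw [Finset.prod_empty, Finset.sum_empty, pow_zero]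
      exact Submodule.one_le.mp le_rfl
    | insert x s hx ih =>
      rw [Finset.prod_insert hx, Finset.sum_insert hx, pow_add]
      exact Submodule.mul_mem_mul (Submodule.pow_mem_pow V (hT x) (a x)) ih
  exact h Finset.univ

theorem C3_mono_add {n : ℕ} (T : Fin (n + 1) → F) (a b : Fin (n + 1) → ℕ) :
    mono T (fun i => a i + b i) = mono T a * mono T b := by
  unfold mono
  rw [← Finset.prod_mul_distrib]
  exact Finset.prod_congr rfl fun i _ => pow_add _ _ _

theorem C3_mono_single {n : ℕ} (T : Fin (n + 1) → F) (i : Fin (n + 1)) :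
    mono T (Pi.single i 1) = T i := by
  unfold mono
  rw [Finset.prod_eq_single i]
  · rw [Pi.single_eq_same, pow_one]
  · intro j _ hj
    rw [Pi.single_eq_of_ne hj, pow_zero]
  · intro h
    exact absurd (Finset.mem_univ _) h

/-- `V^(m0+d)` is the sum of the `T^b V^(m0)`, `|b| = d`. -/
theorem C3_ind {n : ℕ} (V : Submodule k F) (T : Fin (n + 1) → F) (m0 : ℕ)
    (hm0 : ∀ m, m0 ≤ m → ∀ w ∈ V ^ (m + 1), ∃ u : Fin (n + 1) → F, (∀ j, u j ∈ V ^ m) ∧
      ∑ j, T j * u j = w) (d : ℕ) :
    ∀ (Q : F → Prop), Q 0 → (∀ x y, Q x → Q y → Q (x + y)) →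
      (∀ b : Fin (n + 1) → ℕ, ∑ i, b i = d → ∀ z ∈ V ^ m0, Q (mono T b * z)) →
      ∀ w ∈ V ^ (m0 + d), Q w := by
  induction d with
  | zero =>
    intro Q h0 hadd h w hw
    have h1 := h (fun _ => 0) (by simp) w hw
    have h2 : mono T (fun _ => 0) = 1 := by
      unfold mono
      simp
    rw [h2, one_mul] at h1
    exact h1
  | succ d ih =>
    intro Q h0 hadd h w hw
    obtain ⟨u, hu, rfl⟩ := hm0 (m0 + d) (Nat.le_add_right _ _) w hw
    have h1 : ∀ i, Q (T i * u i) := by
      intro i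
      refine ih (fun x => Q (T i * x)) ?_ ?_ ?_ (u i) (hu i)
      · rw [mul_zero]
        exact h0
      · intro x y hx hy
        rw [mul_add]
        exact hadd _ _ hx hy
      · intro b hb z hz
        have h2 := h (fun j => (Pi.single i 1 : Fin (n + 1) → ℕ) j + b j) (by
          rw [Finset.sum_add_distrib, hb, Finset.sum_pi_single', if_pos (Finset.mem_univ _)]
          omega) z hz
        rw [C3_mono_add, C3_mono_single, mul_assoc] at h2
        exact h2
    have h2 : ∀ s : Finset (Fin (n + 1)), Q (∑ i ∈ s, T i * u i) := by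
      intro s
      induction s using Finset.induction_on with
      | empty => simpa using h0
      | insert x s hx ih =>
        rw [Finset.sum_insert hx]
        exact hadd _ _ (h1 x) ih
    exact h2 Finset.univ

theorem C3_cover {n t : ℕ} (V : Submodule k F) [FiniteDimensional k V] (T : Fin (n + 1) → F)
    (hT : ∀ i, T i ∈ V) (hTp : ∀ O : ValuationSubring F, IsPt k O → ∃ i, ¬ Van O V (T i))
    (a : ℕ → Lam n → Fin (n + 1) → ℕ) (ha : ∀ K l, 1 ≤ K → ∑ i, a K l i = 2 * K - 1)
    (hgrid : ∀ d0 : ℕ, ∃ K0 : ℕ, ∀ K, K0 ≤ K → ∀ b : Fin (n + 1) → ℕ, 3 * K ≤ ∑ i, b i + d0 →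
      ∃ l, ∀ i, a K l i ≤ b i)
    (eps : Fin (t + 1) → Lam n → F) (heps : ∀ j l, eps j l ∈ V)
    (hp : ∀ O : ValuationSubring F, IsPt k O → ∀ l, ∃ j, ¬ Van O V (eps j l)) :
    ∃ K0 : ℕ, ∀ K, K0 ≤ K → ∀ w ∈ V ^ (3 * K), ∃ u : Fin (t + 1) × Lam n → F,
      (∀ x, u x ∈ V ^ K) ∧ ∑ x, eps x.1 x.2 * mono T (a K x.2) * u x = w := by
  classical
  obtain ⟨m0, hm0⟩ := C1_pow V T hT hTp
  obtain ⟨K1, hK1⟩ := hgrid m0
  have h1 : ∀ l : Lam n, ∃ m1 : ℕ, ∀ m, m1 ≤ m → ∀ w ∈ V ^ (m + 1),
      ∃ u : Fin (t + 1) → F, (∀ j, u j ∈ V ^ m) ∧ ∑ j, eps j l * u j = w := fun l =>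
    C1_pow V (fun j => eps j l) (fun j => heps j l) (fun O hO => hp O hO l)
  choose m1 hm1 using h1
  refine ⟨1 + m0 + K1 + ∑ l, m1 l, ?_⟩
  intro K hK w hw
  have hKm : ∀ l, m1 l ≤ K := fun l =>
    (Finset.single_le_sum (f := m1) (fun _ _ => Nat.zero_le _) (Finset.mem_univ l)).trans
      (le_trans (by omega) hK)
  have hd : 3 * K = m0 + (3 * K - m0) := by omega
  rw [hd] at hw
  refine C3_ind V T m0 hm0 (3 * K - m0)
    (fun w => ∃ u : Fin (t + 1) × Lam n → F, (∀ x, u x ∈ V ^ K) ∧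
      ∑ x, eps x.1 x.2 * mono T (a K x.2) * u x = w) ?_ ?_ ?_ w hw
  · refine ⟨fun _ => 0, fun _ => Submodule.zero_mem _, ?_⟩
    simp
  · rintro x y ⟨u, hu, rfl⟩ ⟨u', hu', rfl⟩
    refine ⟨fun x => u x + u' x, fun x => Submodule.add_mem _ (hu x) (hu' x), ?_⟩
    rw [← Finset.sum_add_distrib]
    exact Finset.sum_congr rfl fun x _ => by ring
  · intro b hb z hz
    obtain ⟨l, hl⟩ := hK1 K (by omega) b (by omega)
    have hsplit : mono T b = mono T (a K l) * mono T (fun i => b i - a K l i) := by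
      rw [← C3_mono_add]
      congr 1
      funext i
      have := hl i
      omega
    have hsum : ∑ i, (b i - a K l i) = 3 * K - m0 - (2 * K - 1) := by
      have e1 : ∑ i, (b i - a K l i) + ∑ i, a K l i = ∑ i, b i := by
        rw [← Finset.sum_add_distrib]
        refine Finset.sum_congr rfl fun i _ => ?_
        have := hl i
        omega
      rw [hb, ha K l (by omega)] at e1
      omega
    have hmem : mono T (fun i => b i - a K l i) * z ∈ V ^ (K + 1) := by
      have e1 := Submodule.mul_mem_mul (C3_mono_mem V T hT (fun i => b i - a K l i)) hz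
      rw [← pow_add, hsum] at e1
      have e2 : 3 * K - m0 - (2 * K - 1) + m0 = K + 1 := by omega
      rw [e2] at e1
      exact e1
    obtain ⟨u, hu, huw⟩ := hm1 l K (hKm l) _ hmem
    refine ⟨fun x => if x.2 = l then u x.1 else 0, ?_, ?_⟩
    · intro x
      dsimp only
      split_ifs
      · exact hu _
      · exact Submodule.zero_mem _
    · rw [Fintype.sum_prod_type]
      have e1 : ∀ j : Fin (t + 1), ∑ l' : Lam n, eps j l' * mono T (a K l') *
          (if l' = l then u j else 0) = mono T (a K l) * (eps j l * u j) := by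
        intro j
        rw [Finset.sum_eq_single l]
        · rw [if_pos rfl]
          ring
        · intro l' _ hl'
          rw [if_neg hl', mul_zero]
        · intro h
          exact absurd (Finset.mem_univ _) h
      rw [Finset.sum_congr rfl fun j _ => e1 j, ← Finset.mul_sum, huw, hsplit]
      ring

end Pool.Agent.MP_b197b4_ntUV
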