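import Pool.Agent.Lib.MP_b197b4_ntUV.B5
import Pool.Agent.Lib.MP_b197b4_ntUV.C2
import Pool.Agent.Lib.MP_b197b4_ntUV.C3
import Pool.Agent.Lib.MP_b197b4_ntUV.C4

/-!
# Leaf C5: THEOREM BC with given `T_0, .., T_n`

Three disjoint injections `Fin (t+1) × Lam n -> Fin N` (rows of the blocks).  `a', a''` from `C2_grid`, `a = a' + a''`.
For every choice `eps : Fin N -> {A_j, B_j}` (finitely many) and every block apply `C3_cover` (at each point at most `t` of all the
`eps_j` vanish, so among the `t+1` rows with the same `l` one does not vanish); take `K >= 1` larger than all the `K0`.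
`H = V^K`, `W = V^(3K)`, `eta_j = T^(a' K l)` for `j` in a block with label `l` (and `eta_j = T_0^(K-1)` for the other rows),
`y_j = T^(a'' K l)` (other rows: `T_0^K`).  `x_j = A_j eta_j`, `x_j' = B_j eta_j`, `r = T_0^K`.
`C4_descent` with `S` = all `A_j eta_j, B_j eta_j, y_j, r` and `q = qB N (finrank W)`; for every choice the family
`(r, (eps_j eta_j))` is `Good` over `K` (index `j.succ` for the row `j`; `y = (r, y_j)`), so by `B5_main`
`ev lam (eps_j eta_j / r) = 0`, and `A_div` gives `ev lam (A_j eta_j / (B_j eta_j)) = 0`, that is `ev lam (A_j / B_j) = 0`.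
-/

set_option autoImplicit false

namespace Pool.Agent.MP_b197b4_ntUV

open scoped BigOperators

variable {k F : Type} [Field k] [Field F] [Algebra k F]

theorem C5_mono_mem {n : ℕ} (V : Submodule k F) (T : Fin (n + 1) → F) (hT : ∀ i, T i ∈ V)
    (a : Fin (n + 1) → ℕ) : mono T a ∈ V ^ (∑ i, a i) := by
  unfold mono
  have h : ∀ s : Finset (Fin (n + 1)), ∏ i ∈ s, T i ^ a i ∈ V ^ (∑ i ∈ s, a i) := by
    intro s
    induction s using Finset.induction_on with
    | empty =>
      rw [Finset.prod_empty, Finset.sum_empty, pow_zero]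
      exact Submodule.one_le.mp le_rfl
    | insert x s hx ih =>
      rw [Finset.prod_insert hx, Finset.sum_insert hx, pow_add]
      exact Submodule.mul_mem_mul (Submodule.pow_mem_pow V (hT x) (a x)) ih
  exact h Finset.univ

theorem C5_mono_ne {n : ℕ} (T : Fin (n + 1) → F) (hT0 : ∀ i, T i ≠ 0)
    (a : Fin (n + 1) → ℕ) : mono T a ≠ 0 :=
  Finset.prod_ne_zero_iff.mpr fun i _ => pow_ne_zero _ (hT0 i)

theorem C5_mono_add {n : ℕ} (T : Fin (n + 1) → F) (a b : Fin (n + 1) → ℕ) :
    mono T (fun i => a i + b i) = mono T a * mono T b := by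
  unfold mono
  rw [← Finset.prod_mul_distrib]
  exact Finset.prod_congr rfl fun i _ => pow_add _ _ _

/-- THEOREM BC with given `T`. -/
theorem C5_BC (hk : LocFin k) {n t N : ℕ} (hN : N0 n t ≤ N)
    (V : Submodule k F) [FiniteDimensional k V] (T : Fin (n + 1) → F)
    (hT : ∀ i, T i ∈ V) (hT0 : ∀ i, T i ≠ 0)
    (hTp : ∀ O : ValuationSubring F, IsPt k O → ∃ i, ¬ Van O V (T i))
    (lam : (Additive Fˣ) [⋀^Fin N]→ₗ[ℤ] ℝ) (hS : Steinberg lam)
    (A B : Fin N → Fˣ) (hA : ∀ j, (A j : F) ∈ V) (hB : ∀ j, (B j : F) ∈ V)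
    (hv : ∀ O : ValuationSubring F, IsPt k O → ∀ e : Fin N → Bool,
      {j | Van O V (if e j then (A j : F) else (B j : F))}.ncard ≤ t) :
    lam (fun j => Additive.ofMul (A j / B j)) = 0 := by
  classical
  obtain ⟨a', a'', ha', ha'', hgrid⟩ := C2_grid n
  -- the blocks
  have hcard : Fintype.card (Fin 3 × (Fin (t + 1) × Lam n)) ≤ Fintype.card (Fin N) := by
    rw [Fintype.card_prod, Fintype.card_prod, card_Lam, Fintype.card_fin, Fintype.card_fin,
      Fintype.card_fin]
    exact hN
  obtain ⟨g⟩ := Function.Embedding.nonempty_of_card_le hcard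
  -- the covering lemma for every choice and every block
  have hcov : ∀ x : (Fin N → Bool) × Fin 3, ∃ K0 : ℕ, ∀ K, K0 ≤ K → ∀ w ∈ V ^ (3 * K),
      ∃ u : Fin (t + 1) × Lam n → F, (∀ y, u y ∈ V ^ K) ∧
        ∑ y, (if x.1 (g (x.2, y)) then (A (g (x.2, y)) : F) else (B (g (x.2, y)) : F)) *
          mono T (fun i => a' K y.2 i + a'' K y.2 i) * u y = w := by
    rintro ⟨e, b⟩
    refine C3_cover V T hT hTp (fun K l i => a' K l i + a'' K l i) ?_ hgrid
      (fun s l => if e (g (b, (s, l))) then (A (g (b, (s, l))) : F) else (B (g (b, (s, l))) : F))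
      ?_ ?_
    · intro K l hK
      rw [Finset.sum_add_distrib, ha' K l hK, ha'']
      omega
    · intro s l
      split_ifs
      · exact hA _
      · exact hB _
    · intro O hO l
      by_contra hcon
      push Not at hcon
      have h1 := hv O hO e
      have h2 : (Set.range fun s : Fin (t + 1) => g (b, (s, l))) ⊆
          {j | Van O V (if e j then (A j : F) else (B j : F))} := by
        rintro _ ⟨s, rfl⟩
        exact hcon s
      have h3 := Set.ncard_le_ncard h2 (Set.toFinite _)
      have h4 : (Set.range fun s : Fin (t + 1) => g (b, (s, l))).ncard = t + 1 := by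
        rw [← Set.image_univ, Set.ncard_image_of_injective, Set.ncard_univ, Nat.card_fin]
        intro s s' hss
        have := g.injective hss
        simpa using this
      omega
  choose K0 hK0 using hcov
  obtain ⟨K, hK1, hK⟩ : ∃ K, 1 ≤ K ∧ ∀ x, K0 x ≤ K :=
    ⟨1 + ∑ x, K0 x, by omega, fun x => (Finset.single_le_sum (f := K0) (fun _ _ => Nat.zero_le _)
      (Finset.mem_univ x)).trans (Nat.le_add_left _ _)⟩
  -- the multipliers
  set eta : Fin N → F := Function.extend g (fun x => mono T (a' K x.2.2))
    (fun _ => T 0 ^ (K - 1)) with heta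
  set yy : Fin N → F := Function.extend g (fun x => mono T (a'' K x.2.2))
    (fun _ => T 0 ^ K) with hyy
  have heta_g : ∀ x, eta (g x) = mono T (a' K x.2.2) := fun x => by
    rw [heta, g.injective.extend_apply]
  have hyy_g : ∀ x, yy (g x) = mono T (a'' K x.2.2) := fun x => by
    rw [hyy, g.injective.extend_apply]
  have heta_mem : ∀ j, eta j ∈ V ^ (K - 1) := by
    intro j
    by_cases hj : ∃ x, g x = j
    · obtain ⟨x, rfl⟩ := hj
      rw [heta_g]
      have := C5_mono_mem V T hT (a' K x.2.2)
      rwa [ha' K _ hK1] at this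
    · rw [heta, Function.extend_apply' _ _ _ hj]
      exact Submodule.pow_mem_pow V (hT 0) _
  have heta_ne : ∀ j, eta j ≠ 0 := by
    intro j
    by_cases hj : ∃ x, g x = j
    · obtain ⟨x, rfl⟩ := hj
      rw [heta_g]
      exact C5_mono_ne T hT0 _
    · rw [heta, Function.extend_apply' _ _ _ hj]
      exact pow_ne_zero _ (hT0 0)
  have hyy_mem : ∀ j, yy j ∈ V ^ K := by
    intro j
    by_cases hj : ∃ x, g x = j
    · obtain ⟨x, rfl⟩ := hj
      rw [hyy_g]
      have := C5_mono_mem V T hT (a'' K x.2.2)
      rwa [ha''] at this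
    · rw [hyy, Function.extend_apply' _ _ _ hj]
      exact Submodule.pow_mem_pow V (hT 0) _
  have hmulK : ∀ x y : F, x ∈ V → y ∈ V ^ (K - 1) → x * y ∈ V ^ K := by
    intro x y hx hy
    have h1 : V ^ K = V ^ 1 * V ^ (K - 1) := by
      rw [← pow_add]
      congr 1
      omega
    rw [h1, pow_one]
    exact Submodule.mul_mem_mul hx hy
  have hr_mem : T 0 ^ K ∈ V ^ K := Submodule.pow_mem_pow V (hT 0) _
  have hr_ne : T 0 ^ K ≠ 0 := pow_ne_zero _ (hT0 0)
  have hfd : ∀ m : ℕ, FiniteDimensional k (V ^ m : Submodule k F) := by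
    intro m
    rw [← Submodule.fg_iff_finiteDimensional]
    exact Submodule.FG.pow (Submodule.fg_iff_finiteDimensional V |>.mpr inferInstance) m
  have := hfd K
  have := hfd (3 * K)
  -- descent
  obtain ⟨K', H0, W0, hK'fin, hq, hH0fin, hW0fin, hrk, hS0, hHW0, hdesc⟩ :=
    C4_descent hk (V ^ K) (V ^ (3 * K))
      (by
        intro a b c ha hb hc
        have h1 : V ^ (3 * K) = V ^ K * V ^ K * V ^ K := by
          rw [← pow_add, ← pow_add]
          congr 1
          ring
        rw [h1]
        exact Submodule.mul_mem_mul (Submodule.mul_mem_mul ha hb) hc)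
      ((Finset.univ.image fun j => (A j : F) * eta j) ∪
        (Finset.univ.image fun j => (B j : F) * eta j) ∪
        (Finset.univ.image yy) ∪ {T 0 ^ K})
      (by
        intro x hx
        simp only [Finset.mem_union, Finset.mem_image, Finset.mem_univ, true_and,
          Finset.mem_singleton] at hx
        rcases hx with ((⟨j, rfl⟩ | ⟨j, rfl⟩) | ⟨j, rfl⟩) | rfl
        · exact hmulK _ _ (hA j) (heta_mem j)
        · exact hmulK _ _ (hB j) (heta_mem j)
        · exact hyy_mem j
        · exact hr_mem)
      (qB N (Module.finrank k (V ^ (3 * K) : Submodule k F)))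
  have hSA : ∀ j, (A j : F) * eta j ∈ H0 := fun j => hS0 _ (by simp)
  have hSB : ∀ j, (B j : F) * eta j ∈ H0 := fun j => hS0 _ (by simp)
  have hSy : ∀ j, yy j ∈ H0 := fun j => hS0 _ (by simp)
  have hSr : T 0 ^ K ∈ H0 := hS0 _ (by simp)
  have : Fintype K' := Fintype.ofFinite K'
  -- all the choices vanish
  have hzero : ∀ e : Fin N → Bool,
      ev lam (fun j => (if e j then (A j : F) * eta j else (B j : F) * eta j) / (T 0 ^ K)) = 0 := by
    intro e
    have hmem : ∀ j, (if e j then (A j : F) * eta j else (B j : F) * eta j) ∈ H0 := by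
      intro j
      split_ifs
      · exact hSA j
      · exact hSB j
    have hne : ∀ j, (if e j then (A j : F) * eta j else (B j : F) * eta j) ≠ 0 := by
      intro j
      split_ifs
      · exact mul_ne_zero (A j).ne_zero (heta_ne j)
      · exact mul_ne_zero (B j).ne_zero (heta_ne j)
    let X : Fin (N + 1) → H0 := Fin.cons ⟨T 0 ^ K, hSr⟩ (fun j => ⟨_, hmem j⟩)
    let Y : Fin (N + 1) → H0 := Fin.cons ⟨T 0 ^ K, hSr⟩ (fun j => ⟨_, hSy j⟩)
    let gb : Fin 3 → (Fin (t + 1) × Lam n) ↪ Fin (N + 1) := fun b =>
      ⟨fun x => (g (b, x)).succ, fun x x' h => by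
        have h1 := g.injective (Fin.succ_injective _ h)
        exact (Prod.mk.inj h1).2⟩
    have hX : Good H0 W0 X := by
      refine ⟨?_, Y, fun b => Finset.univ.map (gb b), ?_, ?_⟩
      · intro j
        refine Fin.cases ?_ (fun j => ?_) j
        · intro h
          exact hr_ne (congrArg Subtype.val h)
        · intro h
          exact hne j (congrArg Subtype.val h)
      · intro b b' hbb
        rw [Finset.disjoint_left]
        intro j hj hj'
        obtain ⟨x, _, hx⟩ := Finset.mem_map.mp hj
        obtain ⟨x', _, hx'⟩ := Finset.mem_map.mp hj'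
        rw [← hx'] at hx
        have h1 := g.injective (Fin.succ_injective _ hx)
        exact hbb (Prod.mk.inj h1).1
      · intro b
        have h1 := hdesc (Fin (N + 1)) (Finset.univ.map (gb b)) (fun j => (X j : F))
          (fun j => (Y j : F)) (fun j => ⟨(X j).2, (Y j).2⟩) (by
            intro w hw
            obtain ⟨u, hu, huw⟩ := hK0 (e, b) K (hK _) w hw
            refine ⟨Function.extend (gb b) u (fun _ => 0), ?_, ?_⟩
            · intro j
              by_cases hj : ∃ x, gb b x = j
              · obtain ⟨x, rfl⟩ := hj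
                rw [(gb b).injective.extend_apply]
                exact hu x
              · rw [Function.extend_apply' _ _ _ hj]
                exact Submodule.zero_mem _
            · rw [Finset.sum_map, ← huw]
              refine Finset.sum_congr rfl fun x _ => ?_
              rw [(gb b).injective.extend_apply]
              have e1 : (X (gb b x) : F) = (if e (g (b, x)) then (A (g (b, x)) : F) * eta (g (b, x))
                  else (B (g (b, x)) : F) * eta (g (b, x))) := rfl
              have e2 : (Y (gb b x) : F) = yy (g (b, x)) := rfl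
              rw [e1, e2, heta_g, hyy_g, C5_mono_add]
              dsimp only
              split_ifs <;> ring)
        intro w hw
        obtain ⟨u, hu, huw⟩ := h1 w hw
        exact ⟨fun j => ⟨u j, hu j⟩, huw⟩
    have hB5 := B5_main H0 W0 (fun a b c => hHW0 _ _ _ a.2 b.2 c.2)
      (by rw [hrk, ← Nat.card_eq_fintype_card]; exact hq) lam hS X hX
    exact hB5
  have hdiv := A_div lam (fun j => (A j : F) * eta j) (fun j => (B j : F) * eta j)
    (fun j => mul_ne_zero (A j).ne_zero (heta_ne j))
    (fun j => mul_ne_zero (B j).ne_zero (heta_ne j)) (T 0 ^ K) hr_ne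
  rw [Finset.sum_eq_zero (fun c _ => by rw [hzero c, mul_zero])] at hdiv
  rw [← A_ev_units lam (fun j => A j / B j), ← hdiv]
  congr 1
  funext j
  rw [Units.val_div_eq_div_val, mul_div_mul_right _ _ (heta_ne j)]

end Pool.Agent.MP_b197b4_ntUV
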