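import Mathlib

/-!
# UV: a field of finite transcendence degree over a finite field is countable
-/

set_option autoImplicit false

noncomputable section

namespace Pool.Agent.MP_b197b4_ntUV

theorem countable_of_trdeg {k F : Type*} [Field k] [Finite k] [Field F] [Algebra k F] {n : ℕ}
    (h : Algebra.trdeg k F ≤ n) : Countable F := by
  obtain ⟨s, hs⟩ := exists_isTranscendenceBasis k F
  have h1 : Cardinal.mk s = Algebra.trdeg k F := hs.cardinalMk_eq_trdeg
  have hfin : Finite s := by
    rw [← Cardinal.lt_aleph0_iff_finite, h1]
    exact lt_of_le_of_lt h (Cardinal.natCast_lt_aleph0)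
  have h2 : Countable (MvPolynomial s k) := by
    have : Countable k := Finite.to_countable
    rw [← Cardinal.mk_le_aleph0_iff]
    refine MvPolynomial.cardinalMk_le_max_lift.trans ?_
    simp
  have h3 : Countable (Algebra.adjoin k (Set.range ((↑) : s → F))) := by
    rw [Algebra.adjoin_range_eq_range_aeval]
    exact (MvPolynomial.aeval ((↑) : s → F)).rangeRestrict_surjective.countable
  have h4 := hs.isAlgebraic
  have h5 : Set.Countable {x : F | IsAlgebraic (Algebra.adjoin k (Set.range ((↑) : s → F))) x} :=
    Algebraic.countable _ _
  have h6 : {x : F | IsAlgebraic (Algebra.adjoin k (Set.range ((↑) : s → F))) x} = Set.univ := by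
    ext x
    simp only [Set.mem_ofPred_eq, Set.mem_univ, iff_true]
    exact h4.isAlgebraic x
  rw [h6] at h5
  exact Set.countable_univ_iff.1 h5

end Pool.Agent.MP_b197b4_ntUV
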