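import Mathlib

/-!
# UV: high Milnor K-groups of fields of characteristic p vanish rationally.  Definitions.
See T_UV_helper62.md.
-/

set_option autoImplicit false

namespace Pool.Agent.MP_b197b4_ntUV

open scoped BigOperators

/-- An alternating functional on `(F^*)^N` which kills the Steinberg symbols. -/
def Steinberg {F : Type*} [Field F] {N : ℕ}
    (lam : (Additive Fˣ) [⋀^Fin N]→ₗ[ℤ] ℝ) : Prop :=
  ∀ (a : Fin N → Fˣ) (i j : Fin N), i ≠ j → (a i : F) + (a j : F) = 1 →
    lam (fun l => Additive.ofMul (a l)) = 0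

open Classical in
/-- `lam` on families of elements of `F`, zero if an entry is zero. -/
noncomputable def ev {F : Type*} [Field F] {N : ℕ}
    (lam : (Additive Fˣ) [⋀^Fin N]→ₗ[ℤ] ℝ) (a : Fin N → F) : ℝ :=
  if h : ∀ i, a i ≠ 0 then lam (fun i => Additive.ofMul (Units.mk0 (a i) (h i))) else 0

section B

variable {K F : Type*} [Field K] [Field F] [Algebra K F]

/-- `sum_(j in I) p_j H` is all of `W`. -/
def Cov {ι : Type*} (H W : Submodule K F) (I : Finset ι) (p : ι → F) : Prop :=
  ∀ w ∈ W, ∃ u : ι → H, ∑ j ∈ I, p j * (u j : F) = w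

/-- Good families: no zero entry, and for some multipliers `y` three disjoint sets of indices cover `W`. -/
def Good {ι : Type*} (H W : Submodule K F) (X : ι → H) : Prop :=
  (∀ j, X j ≠ 0) ∧ ∃ (y : ι → H) (I : Fin 3 → Finset ι),
    (∀ a b, a ≠ b → Disjoint (I a) (I b)) ∧
    ∀ a, Cov H W (I a) (fun j => (X j : F) * (y j : F))

end B

end Pool.Agent.MP_b197b4_ntUV
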