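import Mathlib
import Pool.Agent.Lib.MP_b197b4_ntUV.Defs

/-!
# UV part N: extension of Steinberg functionals to algebraic extensions.  Definitions.

Free model of the group of non-zero rational functions: `MM F = Additive Fˣ × (Pl F →₀ ℤ)`, where
`Pl F` is the set of monic irreducible polynomials; `io a` is the class of the polynomial `a`.
-/

set_option autoImplicit false

namespace Pool.Agent.MP_b197b4_ntUV

open Polynomial UniqueFactorizationMonoid

/-- The wedge of a linear form `v` and the pull back of `lam` along `s`. -/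
noncomputable def wedge {M : Type*} [AddCommGroup M] {k : Type*} [Field k] {N : ℕ}
    (v : M →ₗ[ℤ] ℤ) (s : M →ₗ[ℤ] Additive kˣ)
    (lam : (Additive kˣ) [⋀^Fin N]→ₗ[ℤ] ℝ) : M [⋀^Fin (N + 1)]→ₗ[ℤ] ℝ :=
  AlternatingMap.alternatizeUncurryFin (v.smulRight (lam.compLinearMap s))

variable (F : Type*) [Field F]

/-- Finite places of `F(t)`: the monic irreducible polynomials. -/
abbrev Pl : Type _ := {p : F[X] // p.Monic ∧ Irreducible p}

/-- The free model of `F(t)ˣ`. -/
abbrev MM : Type _ := Additive Fˣ × (Pl F →₀ ℤ)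

variable {F}

instance instFactPl (π : Pl F) : Fact (Irreducible π.1) := ⟨π.2.2⟩

open Classical in
/-- Divisor of a polynomial (zero for the zero polynomial). -/
noncomputable def dv (a : F[X]) : Pl F →₀ ℤ :=
  Finsupp.ofSupportFinite (fun π : Pl F => (((normalizedFactors a).count π.1 : ℕ) : ℤ)) (by
    refine Set.Finite.subset (Set.Finite.preimage (Set.injOn_of_injective Subtype.val_injective)
      (normalizedFactors a).toFinset.finite_toSet) ?_
    intro π hπ
    simp only [Function.mem_support, ne_eq, Int.natCast_eq_zero] at hπ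
    simp only [Set.mem_preimage, Finset.mem_coe, Multiset.mem_toFinset]
    exact Multiset.count_ne_zero.mp hπ)

open Classical in
/-- Class of a polynomial in the free model (zero for the zero polynomial). -/
noncomputable def io (a : F[X]) : MM F :=
  (if h : a = 0 then 0 else Additive.ofMul (Units.mk0 a.leadingCoeff (leadingCoeff_ne_zero.mpr h)),
    dv a)

/-- Valuation at `π`. -/
noncomputable def vp (π : Pl F) : MM F →ₗ[ℤ] ℤ :=
  (Finsupp.lapply π) ∘ₗ (LinearMap.snd ℤ (Additive Fˣ) (Pl F →₀ ℤ))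

open Classical in
/-- Class of `ρ` in the residue field at `π`, and `0` (that is, the unit 1) if `ρ = π`. -/
noncomputable def cls (π ρ : Pl F) : Additive (AdjoinRoot π.1)ˣ :=
  if h : AdjoinRoot.mk π.1 ρ.1 = 0 then 0 else Additive.ofMul (Units.mk0 (AdjoinRoot.mk π.1 ρ.1) h)

/-- Restriction of units to the residue field. -/
noncomputable def resU (π : Pl F) : Additive Fˣ →ₗ[ℤ] Additive (AdjoinRoot π.1)ˣ :=
  (MonoidHom.toAdditive (Units.map ((AdjoinRoot.of π.1) : F →* AdjoinRoot π.1))).toIntLinearMap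

/-- Residue at `π`. -/
noncomputable def sp (π : Pl F) : MM F →ₗ[ℤ] Additive (AdjoinRoot π.1)ˣ :=
  LinearMap.coprod (resU π) (Finsupp.linearCombination ℤ (cls π))

/-- Valuation at infinity. -/
noncomputable def vinf : MM F →ₗ[ℤ] ℤ :=
  (Finsupp.linearCombination ℤ (fun π : Pl F => - ((π.1.natDegree : ℕ) : ℤ))) ∘ₗ
    (LinearMap.snd ℤ (Additive Fˣ) (Pl F →₀ ℤ))

/-- Residue at infinity. -/
noncomputable def sinf : MM F →ₗ[ℤ] Additive Fˣ := LinearMap.fst ℤ (Additive Fˣ) (Pl F →₀ ℤ)

variable (F) in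
/-- Span of the classes of the non-zero polynomials of degree `< d`. -/
noncomputable def VV (d : ℕ) : Submodule ℤ (MM F) :=
  Submodule.span ℤ (io '' {g : F[X] | g ≠ 0 ∧ g.natDegree < d})

/-- Families of functionals on the residue fields. -/
abbrev Fam (F : Type*) [Field F] (N : ℕ) : Type _ :=
  ∀ π : Pl F, (Additive (AdjoinRoot π.1)ˣ) [⋀^Fin N]→ₗ[ℤ] ℝ

/-- The functional part of `RR` coming from the places of degree `< d`. -/
noncomputable def Gf {N : ℕ} (d : ℕ) (L : Fam F N) : MM F →ₗ[ℤ] (MM F [⋀^Fin N]→ₗ[ℤ] ℝ) :=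
  (Finsupp.linearCombination ℤ
    (fun π : Pl F => if π.1.natDegree < d then (L π).compLinearMap (sp π) else 0)) ∘ₗ
    (LinearMap.snd ℤ (Additive Fˣ) (Pl F →₀ ℤ))

/-- Sum of the residue functionals at infinity and at the places of degree `< d`. -/
noncomputable def RR {N : ℕ} (d : ℕ) (lam : (Additive Fˣ) [⋀^Fin N]→ₗ[ℤ] ℝ) (L : Fam F N) :
    MM F [⋀^Fin (N + 1)]→ₗ[ℤ] ℝ :=
  wedge vinf sinf lam + AlternatingMap.alternatizeUncurryFin (Gf d L)

/-- Homogeneous form of the Steinberg relation: `{a / c, b / c} = 0` if `a + b = c`. -/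
def HSt {N : ℕ} (R : MM F [⋀^Fin N]→ₗ[ℤ] ℝ) : Prop :=
  ∀ (a b c : F[X]), a ≠ 0 → b ≠ 0 → c ≠ 0 → a + b = c → ∀ (i j : Fin N), i ≠ j →
    ∀ w : Fin N → MM F, w i = io a - io c → w j = io b - io c → R w = 0

/-- `R` kills the symbols of polynomials of degree `< d`. -/
def Kills {N : ℕ} (d : ℕ) (R : MM F [⋀^Fin N]→ₗ[ℤ] ℝ) : Prop :=
  ∀ w : Fin N → MM F, (∀ k, w k ∈ VV F d) → R w = 0

end Pool.Agent.MP_b197b4_ntUV
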