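import Mathlib
import Pool.Agent.Lib.MP_b197b4_ntUV.NDefs

/-! # UV part N, N1: wedge of a linear form and a Steinberg functional. -/

set_option autoImplicit false

namespace Pool.Agent.MP_b197b4_ntUV

open Polynomial

variable {M : Type*} [AddCommGroup M] {k : Type*} [Field k] {N : ℕ}

theorem wedge_apply (v : M →ₗ[ℤ] ℤ) (s : M →ₗ[ℤ] Additive kˣ)
    (lam : (Additive kˣ) [⋀^Fin N]→ₗ[ℤ] ℝ) (w : Fin (N + 1) → M) :
    wedge v s lam w = ∑ i : Fin (N + 1), (-1 : ℝ) ^ (i : ℕ) * ((v (w i) : ℝ) *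
      lam (fun l => s (w (i.succAbove l)))) := by
  unfold wedge
  rw [AlternatingMap.alternatizeUncurryFin_apply]
  refine Finset.sum_congr rfl fun i _ => ?_
  rw [LinearMap.smulRight_apply, AlternatingMap.smul_apply, AlternatingMap.compLinearMap_apply,
    zsmul_eq_mul, zsmul_eq_mul]
  push_cast
  rfl

theorem wedge_cons (v : M →ₗ[ℤ] ℤ) (s : M →ₗ[ℤ] Additive kˣ)
    (lam : (Additive kˣ) [⋀^Fin N]→ₗ[ℤ] ℝ) (x : M) (w : Fin N → M)
    (hw : ∀ i, v (w i) = 0) :
    wedge v s lam (Fin.cons x w) = (v x : ℝ) * lam (fun l => s (w l)) := by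
  rw [wedge_apply, Fin.sum_univ_succ]
  have h0 : ∑ i : Fin N, (-1 : ℝ) ^ ((i.succ : Fin (N + 1)) : ℕ) *
      ((v ((Fin.cons x w : Fin (N + 1) → M) i.succ) : ℝ) *
      lam (fun l => s ((Fin.cons x w : Fin (N + 1) → M) (i.succ.succAbove l)))) = 0 := by
    refine Finset.sum_eq_zero fun i _ => ?_
    rw [Fin.cons_succ, hw i]
    simp
  rw [h0, add_zero]
  simp

theorem wedge_zero (v : M →ₗ[ℤ] ℤ) (s : M →ₗ[ℤ] Additive kˣ)
    (lam : (Additive kˣ) [⋀^Fin N]→ₗ[ℤ] ℝ) (w : Fin (N + 1) → M)
    (hw : ∀ i, v (w i) = 0) :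
    wedge v s lam w = 0 := by
  rw [wedge_apply]
  refine Finset.sum_eq_zero fun i _ => ?_
  rw [hw i]
  simp

theorem wedge_one (v : M →ₗ[ℤ] ℤ) (s : M →ₗ[ℤ] Additive kˣ)
    (lam : (Additive kˣ) [⋀^Fin N]→ₗ[ℤ] ℝ) (w : Fin (N + 1) → M) (i : Fin (N + 1))
    (h1 : v (w i) = 0) (h2 : s (w i) = 0) :
    wedge v s lam w = 0 := by
  rw [wedge_apply]
  refine Finset.sum_eq_zero fun l _ => ?_
  by_cases hl : i = l
  · subst hl
    rw [h1]
    simp
  · obtain ⟨z, hz⟩ := Fin.exists_succAbove_eq hl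
    have h3 : lam (fun m => s (w (l.succAbove m))) = 0 := by
      apply lam.map_coord_zero z
      show s (w (l.succAbove z)) = 0
      rw [hz, h2]
    rw [h3]
    simp

/-- Steinberg relation for the wedge, in the four possible cases. -/
theorem wedge_st (v : M →ₗ[ℤ] ℤ) (s : M →ₗ[ℤ] Additive kˣ)
    (lam : (Additive kˣ) [⋀^Fin N]→ₗ[ℤ] ℝ) (hS : Steinberg lam)
    (w : Fin (N + 1) → M) (i j : Fin (N + 1)) (hij : i ≠ j)
    (h : (v (w i) = 0 ∧ v (w j) = 0 ∧
          (((s (w i)).toMul : kˣ) : k) + (((s (w j)).toMul : kˣ) : k) = 1)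
      ∨ (v (w i) = 0 ∧ s (w i) = 0) ∨ (v (w j) = 0 ∧ s (w j) = 0)
      ∨ (v (w i) = v (w j) ∧ s (w i) = s (w j) + Additive.ofMul (-1))) :
    wedge v s lam w = 0 := by
  rcases h with ⟨h1, h2, h3⟩ | ⟨h1, h2⟩ | ⟨h1, h2⟩ | ⟨h1, h2⟩
  · rw [wedge_apply]
    refine Finset.sum_eq_zero fun l _ => ?_
    by_cases hi : i = l
    · subst hi
      rw [h1]
      simp
    · by_cases hj : j = l
      · subst hj
        rw [h2]
        simp
      · obtain ⟨z, hz⟩ := Fin.exists_succAbove_eq hi
        obtain ⟨y, hy⟩ := Fin.exists_succAbove_eq hj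
        have hzy : z ≠ y := by
          rintro rfl
          exact hij (hz.symm.trans hy)
        have h4 : lam (fun m => s (w (l.succAbove m))) = 0 := by
          have h5 := hS (fun m => (s (w (l.succAbove m))).toMul) z y hzy (by
            show (((s (w (l.succAbove z))).toMul : kˣ) : k) + (((s (w (l.succAbove y))).toMul : kˣ) : k) = 1
            rw [hz, hy]
            exact h3)
          exact h5
        rw [h4]
        simp
  · exact wedge_one v s lam w i h1 h2
  · exact wedge_one v s lam w j h1 h2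
  · classical
    have e1 : w = Function.update w i (w j + (w i - w j)) := by
      rw [add_sub_cancel, Function.update_eq_self]
    rw [e1, AlternatingMap.map_update_add]
    have h3 : wedge v s lam (Function.update w i (w j)) = 0 := by
      apply AlternatingMap.map_eq_zero_of_eq (wedge v s lam) _ _ hij
      rw [Function.update_self, Function.update_of_ne hij.symm]
    have h4 : wedge v s lam (Function.update w i ((2 : ℤ) • (w i - w j))) = 0 := by
      apply wedge_one v s lam _ i
      · rw [Function.update_self, map_smul, map_sub, h1, sub_self, smul_zero]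
      · rw [Function.update_self, map_smul, map_sub, h2, add_sub_cancel_left, ← ofMul_zpow]
        have : ((-1 : kˣ)) ^ (2 : ℤ) = 1 := by
          rw [zpow_ofNat]
          exact neg_one_sq
        rw [this, ofMul_one]
    rw [AlternatingMap.map_update_smul] at h4
    have h5 : wedge v s lam (Function.update w i (w i - w j)) = 0 := by
      rw [zsmul_eq_mul] at h4
      rcases mul_eq_zero.1 h4 with h6 | h6
      · norm_num at h6
      · exact h6
    rw [h3, h5, add_zero]

end Pool.Agent.MP_b197b4_ntUV
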