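import Mathlib
import Pool.Agent.Lib.MP_b197b4_ntUV.NDefs

/-! # UV part N, N2: classes of polynomials in the free model. -/

set_option autoImplicit false

namespace Pool.Agent.MP_b197b4_ntUV

open Polynomial UniqueFactorizationMonoid

variable {F : Type*} [Field F]

open Classical in
theorem N2_dv (a : F[X]) (π : Pl F) : dv a π = (((normalizedFactors a).count π.1 : ℕ) : ℤ) := rfl

theorem N2_fst (a : F[X]) (h : a ≠ 0) :
    (io a).1 = Additive.ofMul (Units.mk0 a.leadingCoeff (leadingCoeff_ne_zero.mpr h)) := by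
  unfold io
  simp only [h, dite_false]

theorem N2_snd (a : F[X]) : (io a).2 = dv a := rfl

theorem io_mul (a b : F[X]) (ha : a ≠ 0) (hb : b ≠ 0) : io (a * b) = io a + io b := by
  classical
  refine Prod.ext ?_ ?_
  · rw [Prod.fst_add, N2_fst _ (mul_ne_zero ha hb), N2_fst _ ha, N2_fst _ hb, ← ofMul_mul]
    refine congrArg Additive.ofMul (Units.ext ?_)
    rw [Units.val_mul, Units.val_mk0, Units.val_mk0, Units.val_mk0, leadingCoeff_mul]
  · rw [Prod.snd_add, N2_snd, N2_snd, N2_snd]
    ext π
    rw [Finsupp.add_apply, N2_dv, N2_dv, N2_dv, normalizedFactors_mul ha hb, Multiset.count_add, Nat.cast_add]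

theorem N2_unit {a : F[X]} (h : IsUnit a) : dv a = 0 := by
  classical
  ext π
  rw [N2_dv, Finsupp.zero_apply, Nat.cast_eq_zero, Multiset.count_eq_zero]
  intro hm
  have h1 := dvd_of_mem_normalizedFactors hm
  exact π.2.2.not_isUnit (isUnit_of_dvd_unit h1 h)

theorem io_C (c : Fˣ) : io (C (c : F)) = (Additive.ofMul c, 0) := by
  have h0 : (C (c : F) : F[X]) ≠ 0 := C_ne_zero.2 c.ne_zero
  refine Prod.ext ?_ ?_
  · rw [N2_fst _ h0]
    refine congrArg Additive.ofMul (Units.ext ?_)
    rw [Units.val_mk0, leadingCoeff_C]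
  · rw [N2_snd]
    exact N2_unit (isUnit_C.2 c.isUnit)

theorem io_pl (π : Pl F) : io π.1 = (0, Finsupp.single π 1) := by
  classical
  have h0 : π.1 ≠ 0 := π.2.2.ne_zero
  refine Prod.ext ?_ ?_
  · rw [N2_fst _ h0, ← ofMul_one]
    refine congrArg Additive.ofMul (Units.ext ?_)
    rw [Units.val_mk0, Units.val_one]
    exact π.2.1
  · rw [N2_snd]
    ext ρ
    rw [N2_dv, normalizedFactors_irreducible π.2.2, π.2.1.normalize_eq_self, Multiset.count_singleton,
      Finsupp.single_apply]
    by_cases h : π = ρ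
    · rw [if_pos h, if_pos (by rw [h])]
      rfl
    · rw [if_neg h, if_neg (fun h' => h (Subtype.ext h').symm)]
      rfl

theorem io_one : io (1 : F[X]) = 0 := by
  have h := io_C (1 : Fˣ)
  rw [Units.val_one, C_1, ofMul_one] at h
  exact h

/-- Every non-constant polynomial is a unit times a place or a product
of two polynomials of smaller degrees. -/
theorem split_or (a : F[X]) (ha : a ≠ 0) (hd : 0 < a.natDegree) :
    (∃ (c : Fˣ) (π : Pl F), a = C (c : F) * π.1) ∨
    (∃ b c : F[X], b ≠ 0 ∧ c ≠ 0 ∧ b.natDegree < a.natDegree ∧ c.natDegree < a.natDegree ∧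
      a = b * c) := by
  by_cases hirr : Irreducible a
  · left
    have hl : a.leadingCoeff ≠ 0 := leadingCoeff_ne_zero.2 ha
    refine ⟨Units.mk0 a.leadingCoeff hl, ⟨a * C a.leadingCoeff⁻¹, monic_mul_leadingCoeff_inv ha,
      irreducible_mul_leadingCoeff_inv.2 hirr⟩, ?_⟩
    show a = C a.leadingCoeff * (a * C a.leadingCoeff⁻¹)
    rw [mul_left_comm, ← C_mul, mul_inv_cancel₀ hl, C_1, mul_one]
  · right
    have hu : ¬ IsUnit a := fun h => by
      have := natDegree_eq_zero_of_isUnit h
      omega
    rw [irreducible_iff] at hirr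
    push Not at hirr
    obtain ⟨b, c, habc, hb, hc⟩ := hirr hu
    have hb0 : b ≠ 0 := by
      rintro rfl
      exact ha (by rw [habc, zero_mul])
    have hc0 : c ≠ 0 := by
      rintro rfl
      exact ha (by rw [habc, mul_zero])
    have hpos : ∀ x : F[X], x ≠ 0 → ¬ IsUnit x → 0 < x.natDegree := by
      intro x hx hxu
      by_contra h
      apply hxu
      rw [isUnit_iff_degree_eq_zero, degree_eq_natDegree hx]
      have : x.natDegree = 0 := by omega
      rw [this]
      rfl
    have h1 := hpos b hb0 hb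
    have h2 := hpos c hc0 hc
    have h3 : a.natDegree = b.natDegree + c.natDegree := by rw [habc, natDegree_mul hb0 hc0]
    exact ⟨b, c, hb0, hc0, by omega, by omega, habc⟩

end Pool.Agent.MP_b197b4_ntUV
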