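import Mathlib
import Pool.Agent.Lib.MP_b197b4_ntUV.N2

/-! # UV part N, N2b: valuations and residues of classes of polynomials. -/

set_option autoImplicit false

namespace Pool.Agent.MP_b197b4_ntUV

open Polynomial UniqueFactorizationMonoid

variable {F : Type*} [Field F]

theorem vp_io (π : Pl F) (a : F[X]) (ha : ¬ π.1 ∣ a) : vp π (io a) = 0 := by
  classical
  have h1 : vp π (io a) = (((normalizedFactors a).count π.1 : ℕ) : ℤ) := by
    show (dv a) π = _
    simp only [dv, Finsupp.ofSupportFinite_coe]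
  have h2 : (normalizedFactors a).count π.1 = 0 := by
    rw [Multiset.count_eq_zero]
    intro h
    exact ha (dvd_of_mem_normalizedFactors h)
  rw [h1, h2]
  simp

/-- Induction on non-zero polynomials: constants, places, products. -/
theorem N2b_ind (P : F[X] → Prop) (hC : ∀ c : Fˣ, P (C (c : F))) (hpl : ∀ π : Pl F, P π.1)
    (hmul : ∀ a b : F[X], a ≠ 0 → b ≠ 0 → P a → P b → P (a * b)) :
    ∀ (n : ℕ) (a : F[X]), a.natDegree ≤ n → a ≠ 0 → P a := by
  have hconst : ∀ a : F[X], a.natDegree = 0 → a ≠ 0 → P a := by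
    intro a hd ha
    rw [Polynomial.natDegree_eq_zero] at hd
    obtain ⟨x, hx⟩ := hd
    have hx0 : x ≠ 0 := by
      rintro rfl
      apply ha
      rw [← hx, C_0]
    have h := hC (Units.mk0 x hx0)
    rw [Units.val_mk0, hx] at h
    exact h
  intro n
  induction n with
  | zero =>
    intro a hd ha
    exact hconst a (Nat.le_zero.mp hd) ha
  | succ n ih =>
    intro a hd ha
    rcases Nat.eq_zero_or_pos a.natDegree with h0 | h0
    · exact hconst a h0 ha
    · rcases split_or a ha h0 with ⟨c, π, h⟩ | ⟨b, c, hb, hc, hbd, hcd, h⟩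
      · rw [h]
        refine hmul _ _ ?_ π.2.2.ne_zero (hC c) (hpl π)
        exact C_ne_zero.mpr c.ne_zero
      · rw [h]
        exact hmul b c hb hc (ih b (by omega) hb) (ih c (by omega) hc)

theorem N2b_spC (π : Pl F) (c : Fˣ) (h : AdjoinRoot.mk π.1 (C (c : F)) ≠ 0) :
    sp π (io (C (c : F))) = Additive.ofMul (Units.mk0 (AdjoinRoot.mk π.1 (C (c : F))) h) := by
  rw [io_C]
  have h1 : sp π ((Additive.ofMul c, 0) : MM F) = resU π (Additive.ofMul c) := by
    simp only [sp, LinearMap.coprod_apply, map_zero, add_zero]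
  rw [h1]
  show Additive.ofMul (Units.map ((AdjoinRoot.of π.1) : F →* AdjoinRoot π.1) c) = _
  exact congrArg Additive.ofMul (Units.ext rfl)

theorem N2b_spP (π ρ : Pl F) (h : AdjoinRoot.mk π.1 ρ.1 ≠ 0) :
    sp π (io ρ.1) = Additive.ofMul (Units.mk0 (AdjoinRoot.mk π.1 ρ.1) h) := by
  rw [io_pl]
  have h1 : sp π ((0, Finsupp.single ρ 1) : MM F) = cls π ρ := by
    simp only [sp, LinearMap.coprod_apply, map_zero, zero_add, Finsupp.linearCombination_single,
      one_smul]
  rw [h1, cls, dif_neg h]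

theorem sp_io (π : Pl F) (a : F[X]) (h : AdjoinRoot.mk π.1 a ≠ 0) :
    sp π (io a) = Additive.ofMul (Units.mk0 (AdjoinRoot.mk π.1 a) h) := by
  have ha : a ≠ 0 := by
    rintro rfl
    exact h (map_zero _)
  revert h
  refine N2b_ind (fun a => ∀ h : AdjoinRoot.mk π.1 a ≠ 0,
    sp π (io a) = Additive.ofMul (Units.mk0 (AdjoinRoot.mk π.1 a) h)) (fun c h => N2b_spC π c h)
    (fun ρ h => N2b_spP π ρ h) ?_ a.natDegree a le_rfl ha
  intro a b ha hb iha ihb h
  have hm : AdjoinRoot.mk π.1 (a * b) = AdjoinRoot.mk π.1 a * AdjoinRoot.mk π.1 b := map_mul _ _ _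
  have h1 : AdjoinRoot.mk π.1 a ≠ 0 := by
    intro h0
    apply h
    rw [hm, h0, zero_mul]
  have h2 : AdjoinRoot.mk π.1 b ≠ 0 := by
    intro h0
    apply h
    rw [hm, h0, mul_zero]
  rw [io_mul a b ha hb, map_add, iha h1, ihb h2, ← ofMul_mul]
  congr 1
  exact Units.ext (by simp [hm])

theorem vinf_io (a : F[X]) (ha : a ≠ 0) : vinf (io a) = - ((a.natDegree : ℕ) : ℤ) := by
  refine N2b_ind (fun a => vinf (io a) = - ((a.natDegree : ℕ) : ℤ)) ?_ ?_ ?_ a.natDegree a
    le_rfl ha
  · intro c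
    rw [io_C, natDegree_C]
    simp [vinf]
  · intro π
    rw [io_pl]
    simp [vinf, Finsupp.linearCombination_single]
  · intro a b ha hb iha ihb
    rw [io_mul a b ha hb, map_add, iha, ihb, natDegree_mul ha hb]
    push_cast
    ring

theorem sinf_io (a : F[X]) (ha : a ≠ 0) :
    sinf (io a) = Additive.ofMul (Units.mk0 a.leadingCoeff (leadingCoeff_ne_zero.mpr ha)) := by
  show (io a).1 = _
  simp only [io]
  rw [dif_neg ha]

end Pool.Agent.MP_b197b4_ntUV
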