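import Mathlib
import Pool.Agent.Lib.MP_b197b4_ntUV.N1
import Pool.Agent.Lib.MP_b197b4_ntUV.N2b

/-! # UV part N, N3: Steinberg relation for the residue functional at a finite place. -/

set_option autoImplicit false

namespace Pool.Agent.MP_b197b4_ntUV

open Polynomial

variable {F : Type*} [Field F] {N : ℕ}

/-- The case where `π` does not divide all the three polynomials. -/
private theorem N3_prim (π : Pl F) (mu : (Additive (AdjoinRoot π.1)ˣ) [⋀^Fin N]→ₗ[ℤ] ℝ)
    (hS : Steinberg mu) (a b c : F[X]) (hab : a + b = c)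
    (hp : ¬ (π.1 ∣ a ∧ π.1 ∣ b)) (i j : Fin (N + 1)) (hij : i ≠ j)
    (w : Fin (N + 1) → MM F) (hi : w i = io a - io c) (hj : w j = io b - io c) :
    wedge (vp π) (sp π) mu w = 0 := by
  have hmk : AdjoinRoot.mk π.1 a + AdjoinRoot.mk π.1 b = AdjoinRoot.mk π.1 c := by
    rw [← map_add, hab]
  refine wedge_st (vp π) (sp π) mu hS w i j hij ?_
  by_cases hc : π.1 ∣ c
  · have ha : ¬ π.1 ∣ a := fun h => hp ⟨h, (dvd_add_right h).1 (hab ▸ hc)⟩
    have hb : ¬ π.1 ∣ b := fun h => hp ⟨(dvd_add_left h).1 (hab ▸ hc), h⟩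
    have ha' : AdjoinRoot.mk π.1 a ≠ 0 := fun h => ha (AdjoinRoot.mk_eq_zero.1 h)
    have hb' : AdjoinRoot.mk π.1 b ≠ 0 := fun h => hb (AdjoinRoot.mk_eq_zero.1 h)
    have hc' : AdjoinRoot.mk π.1 c = 0 := AdjoinRoot.mk_eq_zero.2 hc
    right; right; right
    refine ⟨?_, ?_⟩
    · rw [hi, hj, map_sub, map_sub, vp_io π a ha, vp_io π b hb]
    · rw [hi, hj, map_sub, map_sub, sp_io π a ha', sp_io π b hb', sub_add_eq_add_sub, ← ofMul_mul]
      congr 2
      ext
      rw [Units.val_mk0, Units.val_mul, Units.val_mk0, Units.val_neg, Units.val_one, mul_neg, mul_one]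
      rw [hc'] at hmk
      exact eq_neg_of_add_eq_zero_left hmk
  · have hc' : AdjoinRoot.mk π.1 c ≠ 0 := fun h => hc (AdjoinRoot.mk_eq_zero.1 h)
    by_cases ha : π.1 ∣ a
    · have hb : ¬ π.1 ∣ b := fun h => hp ⟨ha, h⟩
      have hb' : AdjoinRoot.mk π.1 b ≠ 0 := fun h => hb (AdjoinRoot.mk_eq_zero.1 h)
      have ha' : AdjoinRoot.mk π.1 a = 0 := AdjoinRoot.mk_eq_zero.2 ha
      right; right; left
      refine ⟨?_, ?_⟩
      · rw [hj, map_sub, vp_io π b hb, vp_io π c hc, sub_zero]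
      · rw [hj, map_sub, sp_io π b hb', sp_io π c hc', sub_eq_zero]
        congr 1
        ext
        rw [Units.val_mk0, Units.val_mk0, ← hmk, ha', zero_add]
    · have ha' : AdjoinRoot.mk π.1 a ≠ 0 := fun h => ha (AdjoinRoot.mk_eq_zero.1 h)
      by_cases hb : π.1 ∣ b
      · have hb' : AdjoinRoot.mk π.1 b = 0 := AdjoinRoot.mk_eq_zero.2 hb
        right; left
        refine ⟨?_, ?_⟩
        · rw [hi, map_sub, vp_io π a ha, vp_io π c hc, sub_zero]
        · rw [hi, map_sub, sp_io π a ha', sp_io π c hc', sub_eq_zero]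
          congr 1
          ext
          rw [Units.val_mk0, Units.val_mk0, ← hmk, hb', add_zero]
      · have hb' : AdjoinRoot.mk π.1 b ≠ 0 := fun h => hb (AdjoinRoot.mk_eq_zero.1 h)
        left
        refine ⟨?_, ?_, ?_⟩
        · rw [hi, map_sub, vp_io π a ha, vp_io π c hc, sub_zero]
        · rw [hj, map_sub, vp_io π b hb, vp_io π c hc, sub_zero]
        · have h1 : sp π (w i) = Additive.ofMul (Units.mk0 (AdjoinRoot.mk π.1 a) ha' /
              Units.mk0 (AdjoinRoot.mk π.1 c) hc') := by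
            rw [hi, map_sub, sp_io π a ha', sp_io π c hc', ofMul_div]
          have h2 : sp π (w j) = Additive.ofMul (Units.mk0 (AdjoinRoot.mk π.1 b) hb' /
              Units.mk0 (AdjoinRoot.mk π.1 c) hc') := by
            rw [hj, map_sub, sp_io π b hb', sp_io π c hc', ofMul_div]
          rw [h1, h2, toMul_ofMul, toMul_ofMul, Units.val_div_eq_div_val,
            Units.val_div_eq_div_val, Units.val_mk0, Units.val_mk0, Units.val_mk0, ← add_div, hmk,
            div_self hc']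

private theorem N3_aux (π : Pl F) (mu : (Additive (AdjoinRoot π.1)ˣ) [⋀^Fin N]→ₗ[ℤ] ℝ)
    (hS : Steinberg mu) (n : ℕ) : ∀ (a b c : F[X]), c.natDegree = n → a ≠ 0 → b ≠ 0 → c ≠ 0 →
    a + b = c → ∀ (i j : Fin (N + 1)), i ≠ j → ∀ w : Fin (N + 1) → MM F,
    w i = io a - io c → w j = io b - io c → wedge (vp π) (sp π) mu w = 0 := by
  induction n using Nat.strong_induction_on with
  | _ n ih =>
    intro a b c hn ha hb hc hab i j hij w hi hj
    by_cases hp : π.1 ∣ a ∧ π.1 ∣ b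
    · obtain ⟨⟨a', rfl⟩, ⟨b', rfl⟩⟩ := hp
      have h1 : c = π.1 * (a' + b') := by
        rw [← hab]
        ring
      subst h1
      have hπ : π.1 ≠ 0 := π.2.2.ne_zero
      have ha' : a' ≠ 0 := right_ne_zero_of_mul ha
      have hb' : b' ≠ 0 := right_ne_zero_of_mul hb
      have hc' : a' + b' ≠ 0 := right_ne_zero_of_mul hc
      rw [io_mul _ _ hπ ha', io_mul _ _ hπ hc', add_sub_add_left_eq_sub] at hi
      rw [io_mul _ _ hπ hb', io_mul _ _ hπ hc', add_sub_add_left_eq_sub] at hj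
      rw [natDegree_mul hπ hc'] at hn
      have hd : 0 < π.1.natDegree := π.2.2.natDegree_pos
      exact ih (a' + b').natDegree (by omega) a' b' (a' + b') rfl ha' hb' hc' rfl i j hij w hi hj
    · exact N3_prim π mu hS a b c hab hp i j hij w hi hj

theorem HSt_pl (π : Pl F) (mu : (Additive (AdjoinRoot π.1)ˣ) [⋀^Fin N]→ₗ[ℤ] ℝ)
    (hS : Steinberg mu) : HSt (wedge (vp π) (sp π) mu) :=
  fun a b c ha hb hc hab i j hij w hi hj =>
    N3_aux π mu hS c.natDegree a b c rfl ha hb hc hab i j hij w hi hj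

end Pool.Agent.MP_b197b4_ntUV
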