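import Mathlib
import Pool.Agent.Lib.MP_b197b4_ntUV.N1
import Pool.Agent.Lib.MP_b197b4_ntUV.N2b

/-! # UV part N, N4: Steinberg relation for the residue functional at infinity. -/

set_option autoImplicit false

namespace Pool.Agent.MP_b197b4_ntUV

open Polynomial

variable {F : Type*} [Field F] {N : ℕ}

private theorem N4_lt {a b c : F[X]} (hc : c ≠ 0) (h : a + b = c)
    (hd : a.natDegree < c.natDegree) :
    b.natDegree = c.natDegree ∧ b.leadingCoeff = c.leadingCoeff := by
  have h1 : b = c - a := by rw [← h]; ring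
  have h2 : b.coeff c.natDegree = c.leadingCoeff := by
    rw [h1, coeff_sub, coeff_eq_zero_of_natDegree_lt hd, sub_zero]
    rfl
  have h3 : c.natDegree ≤ b.natDegree := by
    apply le_natDegree_of_ne_zero
    rw [h2]
    exact leadingCoeff_ne_zero.mpr hc
  have h4 : b.natDegree ≤ c.natDegree := by
    rw [h1]
    exact (natDegree_sub_le c a).trans (max_le le_rfl hd.le)
  have h5 : b.natDegree = c.natDegree := le_antisymm h4 h3
  refine ⟨h5, ?_⟩
  rw [← h2, ← h5]
  rfl

private theorem N4_gt {a b c : F[X]} (ha : a ≠ 0) (h : a + b = c)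
    (hd : c.natDegree < a.natDegree) :
    b.natDegree = a.natDegree ∧ b.leadingCoeff = - a.leadingCoeff := by
  have h1 : b = c - a := by rw [← h]; ring
  have h2 : b.coeff a.natDegree = - a.leadingCoeff := by
    rw [h1, coeff_sub, coeff_eq_zero_of_natDegree_lt hd, zero_sub]
    rfl
  have h3 : a.natDegree ≤ b.natDegree := by
    apply le_natDegree_of_ne_zero
    rw [h2]
    exact neg_ne_zero.mpr (leadingCoeff_ne_zero.mpr ha)
  have h4 : b.natDegree ≤ a.natDegree := by
    rw [h1]
    exact (natDegree_sub_le c a).trans (max_le hd.le le_rfl)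
  have h5 : b.natDegree = a.natDegree := le_antisymm h4 h3
  refine ⟨h5, ?_⟩
  rw [← h2, ← h5]
  rfl

theorem HSt_inf (lam : (Additive Fˣ) [⋀^Fin N]→ₗ[ℤ] ℝ) (hS : Steinberg lam) :
    HSt (wedge vinf sinf lam) := by
  intro a b c ha hb hc habc i j hij w hwi hwj
  apply wedge_st vinf sinf lam hS w i j hij
  have hvi : vinf (w i) = ((c.natDegree : ℕ) : ℤ) - ((a.natDegree : ℕ) : ℤ) := by
    rw [hwi, map_sub, vinf_io a ha, vinf_io c hc]
    ring
  have hvj : vinf (w j) = ((c.natDegree : ℕ) : ℤ) - ((b.natDegree : ℕ) : ℤ) := by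
    rw [hwj, map_sub, vinf_io b hb, vinf_io c hc]
    ring
  have hsi : sinf (w i) = Additive.ofMul (Units.mk0 a.leadingCoeff (leadingCoeff_ne_zero.mpr ha) /
      Units.mk0 c.leadingCoeff (leadingCoeff_ne_zero.mpr hc)) := by
    rw [hwi, map_sub, sinf_io a ha, sinf_io c hc, ofMul_div]
  have hsj : sinf (w j) = Additive.ofMul (Units.mk0 b.leadingCoeff (leadingCoeff_ne_zero.mpr hb) /
      Units.mk0 c.leadingCoeff (leadingCoeff_ne_zero.mpr hc)) := by
    rw [hwj, map_sub, sinf_io b hb, sinf_io c hc, ofMul_div]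
  have hlc : c.leadingCoeff ≠ 0 := leadingCoeff_ne_zero.mpr hc
  by_cases h1 : a.natDegree < c.natDegree
  · obtain ⟨h2, h3⟩ := N4_lt hc habc h1
    right; right; left
    refine ⟨by rw [hvj, h2, sub_self], ?_⟩
    rw [hsj]
    have h4 : Units.mk0 b.leadingCoeff (leadingCoeff_ne_zero.mpr hb) =
        Units.mk0 c.leadingCoeff (leadingCoeff_ne_zero.mpr hc) := Units.ext h3
    rw [h4, div_self', ofMul_one]
  by_cases h1' : b.natDegree < c.natDegree
  · obtain ⟨h2, h3⟩ := N4_lt hc (by rw [add_comm]; exact habc) h1'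
    right; left
    refine ⟨by rw [hvi, h2, sub_self], ?_⟩
    rw [hsi]
    have h4 : Units.mk0 a.leadingCoeff (leadingCoeff_ne_zero.mpr ha) =
        Units.mk0 c.leadingCoeff (leadingCoeff_ne_zero.mpr hc) := Units.ext h3
    rw [h4, div_self', ofMul_one]
  have hcase4 : a.natDegree = b.natDegree → a.leadingCoeff = - b.leadingCoeff →
      vinf (w i) = vinf (w j) ∧ sinf (w i) = sinf (w j) + Additive.ofMul (-1) := by
    intro h2 h3
    refine ⟨by rw [hvi, hvj, h2], ?_⟩
    rw [hsi, hsj, ← ofMul_mul]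
    congr 1
    apply Units.ext
    push_cast
    rw [Units.val_mk0, Units.val_mk0, Units.val_mk0, h3]
    ring
  by_cases h2 : c.natDegree < a.natDegree
  · obtain ⟨h3, h4⟩ := N4_gt ha habc h2
    right; right; right
    exact hcase4 h3.symm (by rw [h4, neg_neg])
  by_cases h2' : c.natDegree < b.natDegree
  · obtain ⟨h3, h4⟩ := N4_gt hb (by rw [add_comm]; exact habc) h2'
    right; right; right
    exact hcase4 h3 h4
  have h3 : a.natDegree = c.natDegree := by omega
  have h4 : b.natDegree = c.natDegree := by omega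
  left
  refine ⟨by rw [hvi, h3, sub_self], by rw [hvj, h4, sub_self], ?_⟩
  have h5 : a.leadingCoeff + b.leadingCoeff = c.leadingCoeff := by
    have h6 : a.coeff a.natDegree + b.coeff b.natDegree = c.coeff c.natDegree := by
      rw [h3, h4, ← habc, coeff_add]
    exact h6
  rw [hsi, hsj, toMul_ofMul, toMul_ofMul, Units.val_div_eq_div_val, Units.val_div_eq_div_val,
    Units.val_mk0, Units.val_mk0, Units.val_mk0, ← add_div, h5, div_self hlc]

end Pool.Agent.MP_b197b4_ntUV
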