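import Mathlib
import Pool.Agent.Lib.MP_b197b4_ntUV.N3
import Pool.Agent.Lib.MP_b197b4_ntUV.N4

/-! # UV part N, N5: the sum of the residue functionals. -/

set_option autoImplicit false

namespace Pool.Agent.MP_b197b4_ntUV

open Polynomial

variable {F : Type*} [Field F] {N : ℕ}

private theorem N5_Gf (d : ℕ) (L : Fam F N) (x : MM F) (S : Finset (Pl F)) (hx : x.2.support ⊆ S) :
    Gf d L x = ∑ π ∈ S, x.2 π • (if π.1.natDegree < d then (L π).compLinearMap (sp π) else 0) := by
  unfold Gf
  rw [LinearMap.comp_apply, LinearMap.snd_apply, Finsupp.linearCombination_apply]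
  exact Finsupp.sum_of_support_subset _ hx _ (fun _ _ => zero_smul _ _)

private theorem N5_sum {M : Type*} [AddCommGroup M] {ι : Type*} (S : Finset ι) (f : ι → M [⋀^Fin N]→ₗ[ℤ] ℝ)
    (w : Fin N → M) : (∑ x ∈ S, f x) w = ∑ x ∈ S, f x w := by
  classical
  induction S using Finset.induction_on with
  | empty => simp
  | insert a S ha ih => rw [Finset.sum_insert ha, Finset.sum_insert ha, AlternatingMap.add_apply, ih]

theorem RR_apply (d : ℕ) (lam : (Additive Fˣ) [⋀^Fin N]→ₗ[ℤ] ℝ) (L : Fam F N)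
    (w : Fin (N + 1) → MM F) (S : Finset (Pl F)) (hw : ∀ k, (w k).2.support ⊆ S) :
    RR d lam L w = wedge vinf sinf lam w +
      ∑ π ∈ S, if π.1.natDegree < d then wedge (vp π) (sp π) (L π) w else 0 := by
  unfold RR
  rw [AlternatingMap.add_apply]
  congr 1
  rw [AlternatingMap.alternatizeUncurryFin_apply]
  have h1 : ∀ i : Fin (N + 1), (-1 : ℤ) ^ (i : ℕ) • Gf d L (w i) (i.removeNth w) =
      ∑ π ∈ S, if π.1.natDegree < d then
        (-1 : ℤ) ^ (i : ℕ) • ((vp π).smulRight ((L π).compLinearMap (sp π))) (w i) (i.removeNth w) else 0 := by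
    intro i
    rw [N5_Gf d L (w i) S (hw i), N5_sum, Finset.smul_sum]
    refine Finset.sum_congr rfl fun π _ => ?_
    split_ifs
    · rfl
    · simp
  rw [Finset.sum_congr rfl (fun i _ => h1 i), Finset.sum_comm]
  refine Finset.sum_congr rfl fun π _ => ?_
  split_ifs
  · unfold wedge
    rw [AlternatingMap.alternatizeUncurryFin_apply]
  · simp

theorem RR_HSt (d : ℕ) (lam : (Additive Fˣ) [⋀^Fin N]→ₗ[ℤ] ℝ) (hS : Steinberg lam) (L : Fam F N)
    (hL : ∀ π : Pl F, π.1.natDegree < d → Steinberg (L π)) : HSt (RR d lam L) := by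
  classical
  intro a b c ha hb hc hab i j hij w hi hj
  rw [RR_apply d lam L w (Finset.univ.biUnion (fun k => (w k).2.support))
    (fun k => Finset.subset_biUnion_of_mem (fun k => (w k).2.support) (Finset.mem_univ k)),
    HSt_inf lam hS a b c ha hb hc hab i j hij w hi hj, zero_add]
  refine Finset.sum_eq_zero fun π _ => ?_
  split_ifs with h
  · exact HSt_pl π (L π) (hL π h) a b c ha hb hc hab i j hij w hi hj
  · rfl

end Pool.Agent.MP_b197b4_ntUV
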