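import Mathlib
import Pool.Agent.Lib.MP_b197b4_ntUV.N2

/-! # UV part N, N6: the new functional on the residue field of a place of degree `d`. -/

set_option autoImplicit false

namespace Pool.Agent.MP_b197b4_ntUV

open Polynomial

variable {F : Type*} [Field F] {N : ℕ}

theorem io_mem_VV (d : ℕ) (g : F[X]) (hg : g ≠ 0) (hd : g.natDegree < d) : io g ∈ VV F d :=
  Submodule.subset_span ⟨g, ⟨hg, hd⟩, rfl⟩

/-- Representative of degree `< deg π` of a class. -/
private noncomputable def N6_rep (π : Pl F) (x : AdjoinRoot π.1) : F[X] :=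
  AdjoinRoot.modByMonicHom π.2.1 x

private theorem N6_mk_rep (π : Pl F) (x : AdjoinRoot π.1) :
    AdjoinRoot.mk π.1 (N6_rep π x) = x :=
  AdjoinRoot.mk_leftInverse π.2.1 x

private theorem N6_rep_mk (π : Pl F) (f : F[X]) :
    N6_rep π (AdjoinRoot.mk π.1 f) = f %ₘ π.1 :=
  AdjoinRoot.modByMonicHom_mk π.2.1 f

private theorem N6_pos (π : Pl F) : 0 < π.1.natDegree :=
  Irreducible.natDegree_pos π.2.2

private theorem N6_rep_of_lt (π : Pl F) (f : F[X]) (hf : f.natDegree < π.1.natDegree) :
    N6_rep π (AdjoinRoot.mk π.1 f) = f := by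
  rw [N6_rep_mk]
  exact (modByMonic_eq_self_iff π.2.1).mpr (degree_lt_degree hf)

private theorem N6_rep_ne (π : Pl F) (x : AdjoinRoot π.1) (hx : x ≠ 0) : N6_rep π x ≠ 0 := by
  intro h
  apply hx
  have h1 := N6_mk_rep π x
  rw [h, map_zero] at h1
  exact h1.symm

private theorem N6_mod_deg (π : Pl F) (f : F[X]) : (f %ₘ π.1).natDegree < π.1.natDegree := by
  have h1 : π.1 ≠ 1 := by
    intro h
    have h2 := N6_pos π
    rw [h, natDegree_one] at h2
    exact lt_irrefl 0 h2
  exact natDegree_modByMonic_lt f π.2.1 h1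

private theorem N6_rep_deg (π : Pl F) (x : AdjoinRoot π.1) :
    (N6_rep π x).natDegree < π.1.natDegree := by
  have h1 := N6_mk_rep π x
  rw [← h1, N6_rep_mk]
  exact N6_mod_deg π _

private theorem N6_cons_update {M : Type*} {N : ℕ} [DecidableEq (Fin N)] (x : M) (W : Fin N → M)
    (i : Fin N) (y : M) :
    (Fin.cons x (Function.update W i y) : Fin (N + 1) → M) =
      Function.update (Fin.cons x W : Fin (N + 1) → M) i.succ y := by
  funext k
  refine Fin.cases ?_ ?_ k
  · rw [Fin.cons_zero, Function.update_of_ne (Fin.succ_ne_zero i).symm, Fin.cons_zero]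
  · intro l
    rw [Fin.cons_succ]
    by_cases hl : l = i
    · rw [hl, Function.update_self, Function.update_self]
    · rw [Function.update_of_ne hl, Function.update_of_ne
        (fun h => hl (Fin.succ_injective _ h)), Fin.cons_succ]

/-- Additivity in one slot. -/
private theorem N6_add (d : ℕ) (R : MM F [⋀^Fin (N + 1)]→ₗ[ℤ] ℝ) (hR : HSt R) (hk : Kills d R)
    (π : Pl F) (hπ : π.1.natDegree = d) [DecidableEq (Fin N)] (W : Fin N → MM F) (i : Fin N)
    (hW : ∀ l, l ≠ i → W l ∈ VV F d) (g g' : F[X]) (hg : g ≠ 0) (hg' : g' ≠ 0)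
    (hd : g.natDegree < d) (hd' : g'.natDegree < d) (hm : (g * g') %ₘ π.1 ≠ 0) :
    R (Fin.cons (io π.1) (Function.update W i (io ((g * g') %ₘ π.1)))) =
      R (Fin.cons (io π.1) (Function.update W i (io g))) +
      R (Fin.cons (io π.1) (Function.update W i (io g'))) := by
  classical
  have hgg : g * g' ≠ 0 := mul_ne_zero hg hg'
  have hc : io (g * g') = io g + io g' := io_mul g g' hg hg'
  have key : R (Fin.cons (io π.1) (Function.update W i (io g + io g'))) =
      R (Fin.cons (io π.1) (Function.update W i (io g))) +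
      R (Fin.cons (io π.1) (Function.update W i (io g'))) := by
    rw [N6_cons_update, N6_cons_update, N6_cons_update, R.map_update_add]
  have hdiv : (g * g') %ₘ π.1 + π.1 * ((g * g') /ₘ π.1) = g * g' :=
    modByMonic_add_div (g * g') π.1
  by_cases hf : (g * g') /ₘ π.1 = 0
  · rw [hf, mul_zero, add_zero] at hdiv
    rw [hdiv, hc]
    exact key
  · have hdf : ((g * g') /ₘ π.1).natDegree < d := by
      rw [natDegree_divByMonic _ π.2.1, natDegree_mul hg hg', hπ]
      omega
    have ha : π.1 * ((g * g') /ₘ π.1) ≠ 0 := mul_ne_zero π.2.1.ne_zero hf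
    have hda : io (π.1 * ((g * g') /ₘ π.1)) = io π.1 + io ((g * g') /ₘ π.1) :=
      io_mul _ _ π.2.1.ne_zero hf
    have hdm : ((g * g') %ₘ π.1).natDegree < d := by
      rw [← hπ]
      exact N6_mod_deg π _
    have h0 := hR (π.1 * ((g * g') /ₘ π.1)) ((g * g') %ₘ π.1) (g * g') ha hm hgg
      (by rw [add_comm]; exact hdiv) 0 i.succ (Fin.succ_ne_zero i).symm
      (Fin.cons (io (π.1 * ((g * g') /ₘ π.1)) - io (g * g'))
        (Function.update W i (io ((g * g') %ₘ π.1) - io (g * g'))))
      (by rw [Fin.cons_zero]) (by rw [Fin.cons_succ, Function.update_self])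
    have hV : io ((g * g') %ₘ π.1) - io (g * g') ∈ VV F d := by
      rw [hc]
      exact Submodule.sub_mem _ (io_mem_VV d _ hm hdm)
        (Submodule.add_mem _ (io_mem_VV d _ hg hd) (io_mem_VV d _ hg' hd'))
    have hV0 : io ((g * g') /ₘ π.1) - io (g * g') ∈ VV F d := by
      rw [hc]
      exact Submodule.sub_mem _ (io_mem_VV d _ hf hdf)
        (Submodule.add_mem _ (io_mem_VV d _ hg hd) (io_mem_VV d _ hg' hd'))
    have h1 : R (Fin.cons (io ((g * g') /ₘ π.1) - io (g * g'))
        (Function.update W i (io ((g * g') %ₘ π.1) - io (g * g')))) = 0 := by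
      apply hk
      intro k
      refine Fin.cases ?_ ?_ k
      · rw [Fin.cons_zero]
        exact hV0
      · intro l
        rw [Fin.cons_succ]
        by_cases hl : l = i
        · rw [hl, Function.update_self]
          exact hV
        · rw [Function.update_of_ne hl]
          exact hW l hl
    have h2 : R (Fin.cons (io π.1)
        (Function.update W i (io ((g * g') %ₘ π.1) - io (g * g')))) = 0 := by
      have e1 : io (π.1 * ((g * g') /ₘ π.1)) - io (g * g') =
          io π.1 + (io ((g * g') /ₘ π.1) - io (g * g')) := by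
        rw [hda, add_sub_assoc]
      rw [e1] at h0
      have e2 := MultilinearMap.cons_add R.toMultilinearMap
        (Function.update W i (io ((g * g') %ₘ π.1) - io (g * g')))
        (io π.1) (io ((g * g') /ₘ π.1) - io (g * g'))
      simp only [AlternatingMap.coe_multilinearMap] at e2
      rw [e2, h1, add_zero] at h0
      exact h0
    have h3 : R (Fin.cons (io π.1) (Function.update W i (io ((g * g') %ₘ π.1)))) =
        R (Fin.cons (io π.1) (Function.update W i (io (g * g')))) := by
      rw [N6_cons_update, R.map_update_sub] at h2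
      rw [N6_cons_update, N6_cons_update]
      exact sub_eq_zero.mp h2
    rw [h3, hc]
    exact key

/-- The functional as a function. -/
private noncomputable def N6_phi (R : MM F [⋀^Fin (N + 1)]→ₗ[ℤ] ℝ) (π : Pl F)
    (u : Fin N → Additive (AdjoinRoot π.1)ˣ) : ℝ :=
  - R (Fin.cons (io π.1)
    (fun l => io (N6_rep π (((u l).toMul : (AdjoinRoot π.1)ˣ) : AdjoinRoot π.1))))

private theorem N6_phi_update (R : MM F [⋀^Fin (N + 1)]→ₗ[ℤ] ℝ) (π : Pl F)
    [DecidableEq (Fin N)] (m : Fin N → Additive (AdjoinRoot π.1)ˣ) (i : Fin N)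
    (x : Additive (AdjoinRoot π.1)ˣ) :
    N6_phi R π (Function.update m i x) = - R (Fin.cons (io π.1) (Function.update
      (fun l => io (N6_rep π (((m l).toMul : (AdjoinRoot π.1)ˣ) : AdjoinRoot π.1))) i
      (io (N6_rep π ((x.toMul : (AdjoinRoot π.1)ˣ) : AdjoinRoot π.1))))) := by
  unfold N6_phi
  congr 3
  funext l
  by_cases hl : l = i
  · subst hl
    rw [Function.update_self, Function.update_self]
  · rw [Function.update_of_ne hl, Function.update_of_ne hl]

private theorem N6_phi_add (d : ℕ) (R : MM F [⋀^Fin (N + 1)]→ₗ[ℤ] ℝ) (hR : HSt R)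
    (hk : Kills d R) (π : Pl F) (hπ : π.1.natDegree = d) [DecidableEq (Fin N)]
    (m : Fin N → Additive (AdjoinRoot π.1)ˣ) (i : Fin N) (x y : Additive (AdjoinRoot π.1)ˣ) :
    N6_phi R π (Function.update m i (x + y)) =
      N6_phi R π (Function.update m i x) + N6_phi R π (Function.update m i y) := by
  rw [N6_phi_update, N6_phi_update, N6_phi_update]
  have e : N6_rep π (((x + y).toMul : (AdjoinRoot π.1)ˣ) : AdjoinRoot π.1) =
      (N6_rep π ((x.toMul : (AdjoinRoot π.1)ˣ) : AdjoinRoot π.1) *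
        N6_rep π ((y.toMul : (AdjoinRoot π.1)ˣ) : AdjoinRoot π.1)) %ₘ π.1 := by
    rw [← N6_rep_mk, map_mul, N6_mk_rep, N6_mk_rep, toMul_add, Units.val_mul]
  have hne : ∀ z : Additive (AdjoinRoot π.1)ˣ,
      N6_rep π ((z.toMul : (AdjoinRoot π.1)ˣ) : AdjoinRoot π.1) ≠ 0 :=
    fun z => N6_rep_ne π _ (Units.ne_zero _)
  have hlt : ∀ z : Additive (AdjoinRoot π.1)ˣ,
      (N6_rep π ((z.toMul : (AdjoinRoot π.1)ˣ) : AdjoinRoot π.1)).natDegree < d := by
    intro z
    rw [← hπ]
    exact N6_rep_deg π _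
  have h := N6_add d R hR hk π hπ
    (fun l => io (N6_rep π (((m l).toMul : (AdjoinRoot π.1)ˣ) : AdjoinRoot π.1))) i
    (fun l _ => io_mem_VV d _ (hne (m l)) (hlt (m l))) _ _ (hne x) (hne y) (hlt x) (hlt y)
    (by rw [← e]; exact hne (x + y))
  rw [e, h]
  ring

theorem newform (d : ℕ) (R : MM F [⋀^Fin (N + 1)]→ₗ[ℤ] ℝ) (hR : HSt R) (hk : Kills d R)
    (π : Pl F) (hπ : π.1.natDegree = d) :
    ∃ mu : (Additive (AdjoinRoot π.1)ˣ) [⋀^Fin N]→ₗ[ℤ] ℝ, Steinberg mu ∧
      ∀ (g : Fin N → F[X]) (hg : ∀ l, g l ≠ 0) (hd : ∀ l, (g l).natDegree < d)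
        (u : Fin N → Additive (AdjoinRoot π.1)ˣ)
        (hu : ∀ l, (((u l).toMul : (AdjoinRoot π.1)ˣ) : AdjoinRoot π.1) = AdjoinRoot.mk π.1 (g l)),
        mu u = - R (Fin.cons (io π.1) (fun l => io (g l))) := by
  let mu : (Additive (AdjoinRoot π.1)ˣ) [⋀^Fin N]→ₗ[ℤ] ℝ :=
    { toFun := N6_phi R π
      map_update_add' := by
        intro _ m i x y
        exact N6_phi_add d R hR hk π hπ m i x y
      map_update_smul' := by
        intro _ m i c x
        exact map_zsmul (AddMonoidHom.mk' (fun z => N6_phi R π (Function.update m i z))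
          (fun z z' => N6_phi_add d R hR hk π hπ m i z z')) c x
      map_eq_zero_of_eq' := by
        intro v i j hv hij
        unfold N6_phi
        rw [R.map_eq_zero_of_eq _ (i := i.succ) (j := j.succ)
          (by rw [Fin.cons_succ, Fin.cons_succ, hv]) (fun h => hij (Fin.succ_injective _ h)),
          neg_zero] }
  have hmu : ∀ u, mu u = N6_phi R π u := fun _ => rfl
  refine ⟨mu, ?_, ?_⟩
  · intro a i j hij hsum
    rw [hmu]
    unfold N6_phi
    simp only [toMul_ofMul]
    have hadd : N6_rep π (a i : AdjoinRoot π.1) + N6_rep π (a j : AdjoinRoot π.1) = 1 := by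
      have h1 : N6_rep π ((a i : AdjoinRoot π.1) + (a j : AdjoinRoot π.1)) =
          N6_rep π (a i : AdjoinRoot π.1) + N6_rep π (a j : AdjoinRoot π.1) :=
        map_add (AdjoinRoot.modByMonicHom π.2.1) _ _
      rw [← h1, hsum, ← map_one (AdjoinRoot.mk π.1)]
      apply N6_rep_of_lt
      rw [natDegree_one]
      exact N6_pos π
    rw [neg_eq_zero]
    refine hR _ _ 1 (N6_rep_ne π _ (Units.ne_zero (a i))) (N6_rep_ne π _ (Units.ne_zero (a j)))
      one_ne_zero hadd i.succ j.succ (fun h => hij (Fin.succ_injective _ h)) _ ?_ ?_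
    · rw [Fin.cons_succ, io_one, sub_zero]
    · rw [Fin.cons_succ, io_one, sub_zero]
  · intro g hg hd u hu
    rw [hmu]
    unfold N6_phi
    congr 3
    funext l
    rw [hu l, N6_rep_of_lt π (g l) (by rw [hπ]; exact hd l)]

end Pool.Agent.MP_b197b4_ntUV
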