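import Mathlib
import Pool.Agent.Lib.MP_b197b4_ntUV.N2

/-! # UV part N, N7: a functional which kills the symbols of polynomials of degree `< d` and the
symbols `{π, g_1, .., g_N}`, `deg π = d`, `deg g_l < d`, kills all symbols of degree `< d + 1`. -/

set_option autoImplicit false

namespace Pool.Agent.MP_b197b4_ntUV

open Polynomial

variable {F : Type*} [Field F] {N : ℕ}

theorem kill_span {M : Type*} [AddCommGroup M] {n : ℕ} (R : M [⋀^Fin n]→ₗ[ℤ] ℝ) (S : Set M)
    (h : ∀ w : Fin n → M, (∀ k, w k ∈ S) → R w = 0) (w : Fin n → M)
    (hw : ∀ k, w k ∈ Submodule.span ℤ S) : R w = 0 := by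
  have key : ∀ t : Finset (Fin n), ∀ w : Fin n → M, (∀ k ∈ t, w k ∈ Submodule.span ℤ S) →
      (∀ k, k ∉ t → w k ∈ S) → R w = 0 := by
    intro t
    induction t using Finset.induction_on with
    | empty => exact fun w _ h2 => h w fun k => h2 k (Finset.notMem_empty k)
    | insert k0 t hk0 ih =>
      intro w h1 h2
      have hx : ∀ x ∈ Submodule.span ℤ S, R (Function.update w k0 x) = 0 := by
        intro x hx
        induction hx using Submodule.span_induction with
        | mem x hx =>
          refine ih _ (fun k hk => ?_) (fun k hk => ?_)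
          · have hne : k ≠ k0 := fun h => hk0 (h ▸ hk)
            rw [Function.update_of_ne hne]
            exact h1 k (Finset.mem_insert_of_mem hk)
          · by_cases hne : k = k0
            · subst hne
              rw [Function.update_self]
              exact hx
            · rw [Function.update_of_ne hne]
              exact h2 k fun hk' => (Finset.mem_insert.1 hk').elim hne hk
        | zero => exact R.map_update_zero w k0
        | add x y _ _ hx hy => rw [R.map_update_add, hx, hy, add_zero]
        | smul a x _ hx => rw [R.map_update_smul, hx, smul_zero]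
      have h3 := hx (w k0) (h1 k0 (Finset.mem_insert_self k0 t))
      rwa [Function.update_eq_self] at h3
  exact key Finset.univ w (fun k _ => hw k) fun k hk => absurd (Finset.mem_univ k) hk

/-- generators of `VV F (d + 1)` -/
private theorem N7_le (d : ℕ) (hd : 0 < d) : VV F (d + 1) ≤
    Submodule.span ℤ ((io '' {g : F[X] | g ≠ 0 ∧ g.natDegree < d}) ∪
      {x : MM F | ∃ π : Pl F, π.1.natDegree = d ∧ x = io π.1}) := by
  unfold VV
  rw [Submodule.span_le]
  rintro x ⟨g, ⟨hg, hgd⟩, rfl⟩
  have hlow : ∀ b : F[X], b ≠ 0 → b.natDegree < d → io b ∈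
      Submodule.span ℤ ((io '' {g : F[X] | g ≠ 0 ∧ g.natDegree < d}) ∪
      {x : MM F | ∃ π : Pl F, π.1.natDegree = d ∧ x = io π.1}) :=
    fun b hb hbd => Submodule.subset_span (Or.inl ⟨b, ⟨hb, hbd⟩, rfl⟩)
  rcases Nat.lt_or_ge g.natDegree d with hlt | hge
  · exact hlow g hg hlt
  · have hgd' : g.natDegree = d := by omega
    rcases split_or g hg (by omega) with ⟨c, π, rfl⟩ | ⟨b, c, hb, hc, hbd, hcd, rfl⟩
    · have hc0 : C (c : F) ≠ 0 := by
        rw [Ne, C_eq_zero]
        exact c.ne_zero
      have hπ0 : π.1 ≠ 0 := π.2.2.ne_zero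
      have hπd : π.1.natDegree = d := by
        rw [natDegree_mul hc0 hπ0, natDegree_C, zero_add] at hgd'
        exact hgd'
      show io (C (c : F) * π.1) ∈ _
      rw [io_mul _ _ hc0 hπ0]
      refine Submodule.add_mem _ (hlow _ hc0 (by rw [natDegree_C]; exact hd)) ?_
      exact Submodule.subset_span (Or.inr ⟨π, hπd, rfl⟩)
    · show io (b * c) ∈ _
      rw [io_mul _ _ hb hc]
      exact Submodule.add_mem _ (hlow b hb (by omega)) (hlow c hc (by omega))

/-- the main induction -/
private theorem N7_ind (d : ℕ) (R : MM F [⋀^Fin (N + 1)]→ₗ[ℤ] ℝ) (hR : HSt R)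
    (hk : Kills d R)
    (hn : ∀ π : Pl F, π.1.natDegree = d → ∀ g : Fin N → F[X], (∀ l, g l ≠ 0) →
      (∀ l, (g l).natDegree < d) → R (Fin.cons (io π.1) (fun l => io (g l))) = 0) (m : ℕ) :
    ∀ T : Finset (Fin (N + 1)), T.card = m → ∀ w : Fin (N + 1) → MM F,
      (∀ k ∈ T, ∃ π : Pl F, π.1.natDegree = d ∧ w k = io π.1) →
      (∀ k, k ∉ T → ∃ g : F[X], g ≠ 0 ∧ g.natDegree < d ∧ w k = io g) → R w = 0 := by
  induction m with
  | zero =>
    intro T hT w _ h2
    have hT0 : T = ∅ := Finset.card_eq_zero.1 hT
    subst hT0
    refine hk w fun k => ?_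
    obtain ⟨g, hg, hgd, hw⟩ := h2 k (Finset.notMem_empty k)
    rw [hw]
    exact Submodule.subset_span ⟨g, ⟨hg, hgd⟩, rfl⟩
  | succ m ih =>
    intro T hT w h1 h2
    rcases Nat.eq_zero_or_pos m with hm | hm
    · -- one entry
      subst hm
      obtain ⟨k0, hk0⟩ := Finset.card_eq_one.1 hT
      subst hk0
      have hcons : ∀ w' : Fin (N + 1) → MM F, (∃ π : Pl F, π.1.natDegree = d ∧ w' 0 = io π.1) →
          (∀ l : Fin N, ∃ g : F[X], g ≠ 0 ∧ g.natDegree < d ∧ w' l.succ = io g) → R w' = 0 := by
        rintro w' ⟨π, hπ, hw0⟩ h3
        choose g hg hgd hgw using h3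
        have h4 : w' = Fin.cons (io π.1) (fun l => io (g l)) := by
          funext k
          refine Fin.cases ?_ (fun l => ?_) k
          · rw [Fin.cons_zero]
            exact hw0
          · rw [Fin.cons_succ]
            exact hgw l
        rw [h4]
        exact hn π hπ g hg hgd
      by_cases hk00 : k0 = 0
      · subst hk00
        exact hcons w (h1 0 (Finset.mem_singleton_self 0)) fun l =>
          h2 l.succ fun h => Fin.succ_ne_zero l (Finset.mem_singleton.1 h)
      · have h5 : R (w ∘ Equiv.swap 0 k0) = - R w := R.map_swap w (fun h => hk00 h.symm)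
        have h6 : R (w ∘ Equiv.swap 0 k0) = 0 := by
          refine hcons _ ?_ fun l => ?_
          · rw [Function.comp_apply, Equiv.swap_apply_left]
            exact h1 k0 (Finset.mem_singleton_self k0)
          · rw [Function.comp_apply]
            refine h2 _ fun h => ?_
            have h7 := Finset.mem_singleton.1 h
            have h8 : l.succ = 0 := by
              have h9 := congrArg (Equiv.swap 0 k0) h7
              rwa [Equiv.swap_apply_self, Equiv.swap_apply_right] at h9
            exact Fin.succ_ne_zero l h8
        rw [h6] at h5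
        linarith
    · -- at least two entries
      obtain ⟨i, hi, j, hj, hij⟩ := Finset.one_lt_card.1 (show 1 < T.card by omega)
      obtain ⟨π, hπ, hwi⟩ := h1 i hi
      obtain ⟨ρ, hρ, hwj⟩ := h1 j hj
      by_cases hπρ : π.1 = ρ.1
      · exact R.map_eq_zero_of_eq w (by rw [hwi, hwj, hπρ]) hij
      · have hg0 : ρ.1 - π.1 ≠ 0 := fun h => hπρ (sub_eq_zero.1 h).symm
        have hgd : (ρ.1 - π.1).natDegree < d := by
          have hdeg : ρ.1.degree = π.1.degree := by
            rw [degree_eq_natDegree ρ.2.1.ne_zero, degree_eq_natDegree π.2.1.ne_zero, hρ, hπ]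
          have h3 := degree_sub_lt_left hdeg ρ.2.1.ne_zero (by rw [ρ.2.1.leadingCoeff, π.2.1.leadingCoeff])
          have h4 := natDegree_lt_natDegree hg0 h3
          rwa [hρ] at h4
        -- the functional of two entries
        have hf1 : ∀ x y z : MM F, R (Function.update (Function.update w i x) j (y - z)) =
            R (Function.update (Function.update w i x) j y) - R (Function.update (Function.update w i x) j z) :=
          fun x y z => R.map_update_sub _ _ _ _
        have hf2 : ∀ x y z : MM F, R (Function.update (Function.update w i (x - y)) j z) =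
            R (Function.update (Function.update w i x) j z) - R (Function.update (Function.update w i y) j z) := by
          intro x y z
          rw [Function.update_comm hij, Function.update_comm hij, Function.update_comm hij]
          exact R.map_update_sub _ _ _ _
        have hst := hR π.1 (ρ.1 - π.1) ρ.1 π.2.2.ne_zero hg0 ρ.2.2.ne_zero (by ring) i j hij
          (Function.update (Function.update w i (io π.1 - io ρ.1)) j (io (ρ.1 - π.1) - io ρ.1))
          (by rw [Function.update_of_ne hij, Function.update_self]) (by rw [Function.update_self])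
        rw [hf1, hf2, hf2] at hst
        have hsmall : ∀ τ : Pl F, τ.1.natDegree = d →
            R (Function.update (Function.update w i (io τ.1)) j (io (ρ.1 - π.1))) = 0 := by
          intro τ hτ
          refine ih (T.erase j) (by rw [Finset.card_erase_of_mem hj, hT]; rfl) _ (fun k hk => ?_) (fun k hk => ?_)
          · rw [Finset.mem_erase] at hk
            rw [Function.update_of_ne hk.1]
            by_cases hki : k = i
            · subst hki
              rw [Function.update_self]
              exact ⟨τ, hτ, rfl⟩
            · rw [Function.update_of_ne hki]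
              exact h1 k hk.2
          · by_cases hkj : k = j
            · subst hkj
              rw [Function.update_self]
              exact ⟨_, hg0, hgd, rfl⟩
            · have hkT : k ∉ T := fun h => hk (Finset.mem_erase.2 ⟨hkj, h⟩)
              have hki : k ≠ i := fun h => hkT (h ▸ hi)
              rw [Function.update_of_ne hkj, Function.update_of_ne hki]
              exact h2 k hkT
        have hcc : R (Function.update (Function.update w i (io ρ.1)) j (io ρ.1)) = 0 := by
          refine R.map_eq_zero_of_eq _ ?_ hij
          rw [Function.update_of_ne hij, Function.update_self, Function.update_self]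
        have hww : Function.update (Function.update w i (io π.1)) j (io ρ.1) = w := by
          rw [← hwi, ← hwj, Function.update_eq_self, Function.update_eq_self]
        rw [hsmall π hπ, hsmall ρ hρ, hcc, hww] at hst
        linarith

theorem kills_succ (d : ℕ) (hd : 0 < d) (R : MM F [⋀^Fin (N + 1)]→ₗ[ℤ] ℝ) (hR : HSt R)
    (hk : Kills d R)
    (hn : ∀ π : Pl F, π.1.natDegree = d → ∀ g : Fin N → F[X], (∀ l, g l ≠ 0) →
      (∀ l, (g l).natDegree < d) → R (Fin.cons (io π.1) (fun l => io (g l))) = 0) :
    Kills (d + 1) R := by
  classical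
  intro w hw
  refine kill_span R _ (fun w' hw' => ?_) w fun k => N7_le d hd (hw k)
  refine N7_ind d R hR hk hn _ (Finset.univ.filter fun k => ∃ π : Pl F, π.1.natDegree = d ∧ w' k = io π.1) rfl w'
    (fun k hk => (Finset.mem_filter.1 hk).2) fun k hk => ?_
  rcases hw' k with ⟨g, ⟨hg, hgd⟩, hgw⟩ | h
  · exact ⟨g, hg, hgd, hgw.symm⟩
  · exact absurd (Finset.mem_filter.2 ⟨Finset.mem_univ k, h⟩) hk

end Pool.Agent.MP_b197b4_ntUV
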