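import Mathlib
import Pool.Agent.Lib.MP_b197b4_ntUV.N5
import Pool.Agent.Lib.MP_b197b4_ntUV.N6
import Pool.Agent.Lib.MP_b197b4_ntUV.N7

/-! # UV part N, N8: induction on the degree. -/

set_option autoImplicit false

namespace Pool.Agent.MP_b197b4_ntUV

open Polynomial

variable {F : Type*} [Field F] {N : ℕ}

/-- The induction hypothesis. -/
def PInd (d : ℕ) (lam : (Additive Fˣ) [⋀^Fin N]→ₗ[ℤ] ℝ) : Prop :=
  ∃ L : Fam F N, (∀ π : Pl F, π.1.natDegree < d → Steinberg (L π) ∧
      ∀ a : Fin N → Additive Fˣ, L π (fun l => resU π (a l)) = (π.1.natDegree : ℝ) * lam a) ∧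
    Kills d (RR d lam L)

theorem vp_VV (π : Pl F) (d : ℕ) (hd : d ≤ π.1.natDegree) (x : MM F) (hx : x ∈ VV F d) :
    vp π x = 0 := by
  have h : VV F d ≤ LinearMap.ker (vp π) := by
    refine Submodule.span_le.mpr ?_
    rintro _ ⟨g, ⟨hg0, hgd⟩, rfl⟩
    have h1 : ¬ π.1 ∣ g := fun hdiv =>
      absurd (Polynomial.natDegree_le_of_dvd hdiv hg0) (by omega)
    exact vp_io π g h1
  exact h hx

theorem vp_pl (π ρ : Pl F) (h : ρ ≠ π) : vp ρ (io π.1) = 0 := by
  rw [io_pl]
  exact Finsupp.single_eq_of_ne h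

theorem vp_pl_self (π : Pl F) : vp π (io π.1) = 1 := by
  rw [io_pl]
  exact Finsupp.single_eq_same

theorem pl_pos (π : Pl F) : 0 < π.1.natDegree := π.2.2.natDegree_pos

theorem PP_one (lam : (Additive Fˣ) [⋀^Fin N]→ₗ[ℤ] ℝ) : PInd 1 lam := by
  refine ⟨fun π => 0, fun π hπ => ?_, ?_⟩
  · have := pl_pos π
    omega
  · intro w hw
    have h : VV F 1 ≤ LinearMap.ker (LinearMap.snd ℤ (Additive Fˣ) (Pl F →₀ ℤ)) := by
      refine Submodule.span_le.mpr ?_
      rintro _ ⟨g, ⟨hg0, hgd⟩, rfl⟩
      have h0 : g.natDegree = 0 := by omega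
      obtain ⟨c, hc⟩ := Polynomial.natDegree_eq_zero.mp h0
      have hc0 : c ≠ 0 := by
        rintro rfl
        exact hg0 (by rw [← hc, C_0])
      have h2 : io g = (Additive.ofMul (Units.mk0 c hc0), 0) := by
        rw [← hc]
        exact io_C (Units.mk0 c hc0)
      change (io g).2 = 0
      rw [h2]
    have h2 : ∀ k, (w k).2 = 0 := fun k => h (hw k)
    rw [RR_apply 1 lam _ w ∅ (fun k => by rw [h2 k]; simp)]
    rw [wedge_zero _ _ _ _ (fun k => ?_)]
    · simp
    · change Finsupp.linearCombination ℤ (fun π : Pl F => - ((π.1.natDegree : ℕ) : ℤ)) (w k).2 = 0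
      rw [h2 k, map_zero]

theorem PP_succ (d : ℕ) (hd : 0 < d) (lam : (Additive Fˣ) [⋀^Fin N]→ₗ[ℤ] ℝ) (hS : Steinberg lam)
    (h : PInd d lam) : PInd (d + 1) lam := by
  classical
  obtain ⟨L, hL, hk⟩ := h
  have hH : HSt (RR d lam L) := RR_HSt d lam hS L (fun π hπ => (hL π hπ).1)
  have hnew : ∀ π : Pl F, ∃ mu : (Additive (AdjoinRoot π.1)ˣ) [⋀^Fin N]→ₗ[ℤ] ℝ,
      π.1.natDegree = d → (Steinberg mu ∧
      ∀ (g : Fin N → F[X]) (hg : ∀ l, g l ≠ 0) (hd : ∀ l, (g l).natDegree < d)
        (u : Fin N → Additive (AdjoinRoot π.1)ˣ)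
        (hu : ∀ l, (((u l).toMul : (AdjoinRoot π.1)ˣ) : AdjoinRoot π.1) = AdjoinRoot.mk π.1 (g l)),
        mu u = - RR d lam L (Fin.cons (io π.1) (fun l => io (g l)))) := by
    intro π
    by_cases h : π.1.natDegree = d
    · obtain ⟨mu, h1, h2⟩ := newform d (RR d lam L) hH hk π h
      exact ⟨mu, fun _ => ⟨h1, h2⟩⟩
    · exact ⟨0, fun h' => absurd h' h⟩
  choose nu hnu using hnew
  let L' : Fam F N := fun π => if π.1.natDegree = d then nu π else L π
  have hL1 : ∀ π : Pl F, π.1.natDegree < d → L' π = L π := fun π hπ => if_neg (by omega)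
  have hL2 : ∀ π : Pl F, π.1.natDegree = d → L' π = nu π := fun π hπ => if_pos hπ
  have hSt : ∀ π : Pl F, π.1.natDegree < d + 1 → Steinberg (L' π) := by
    intro π hπ
    rcases Nat.lt_or_ge π.1.natDegree d with h1 | h1
    · rw [hL1 π h1]
      exact (hL π h1).1
    · have h2 : π.1.natDegree = d := by omega
      rw [hL2 π h2]
      exact (hnu π h2).1
  have hres : ∀ π : Pl F, π.1.natDegree = d → ∀ a : Fin N → Additive Fˣ,
      nu π (fun l => resU π (a l)) = (π.1.natDegree : ℝ) * lam a := by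
    intro π hπ a
    have h1 := (hnu π hπ).2 (fun l => C (((a l).toMul : Fˣ) : F))
      (fun l => by simp) (fun l => by rw [natDegree_C]; exact hd) (fun l => resU π (a l))
      (fun l => rfl)
    rw [h1]
    have hio : ∀ l, io (C (((a l).toMul : Fˣ) : F)) = (a l, 0) := fun l => io_C (a l).toMul
    rw [RR_apply d lam L _ {π} ?_]
    · rw [wedge_cons _ _ _ _ _ (fun l => ?_)]
      · have h3 : vinf (io π.1) = - ((π.1.natDegree : ℕ) : ℤ) := vinf_io π.1 π.2.2.ne_zero
        rw [h3]
        have h4 : (fun l => sinf (io (C (((a l).toMul : Fˣ) : F)))) = a := by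
          funext l
          rw [hio l]
          rfl
        rw [h4, Finset.sum_singleton, if_neg (by omega)]
        push_cast
        ring
      · rw [hio l]
        change Finsupp.linearCombination ℤ (fun π : Pl F => - ((π.1.natDegree : ℕ) : ℤ)) 0 = 0
        rw [map_zero]
    · intro k
      refine Fin.cases ?_ (fun l => ?_) k
      · rw [Fin.cons_zero, io_pl]
        exact Finsupp.support_single_subset
      · rw [Fin.cons_succ, hio l]
        simp
  refine ⟨L', fun π hπ => ⟨hSt π hπ, ?_⟩, ?_⟩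
  · rcases Nat.lt_or_ge π.1.natDegree d with h1 | h1
    · rw [hL1 π h1]
      exact (hL π h1).2
    · have h2 : π.1.natDegree = d := by omega
      rw [hL2 π h2]
      exact hres π h2
  · refine kills_succ d hd _ (RR_HSt (d + 1) lam hS L' hSt) ?_ ?_
    · intro w hw
      have hS' : ∀ k, (w k).2.support ⊆
          (Finset.univ : Finset (Fin (N + 1))).biUnion (fun k => (w k).2.support) :=
        fun k => Finset.subset_biUnion_of_mem (fun k => (w k).2.support) (Finset.mem_univ k)
      rw [← hk w hw, RR_apply (d + 1) lam L' w _ hS', RR_apply d lam L w _ hS']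
      congr 1
      refine Finset.sum_congr rfl (fun π _ => ?_)
      rcases Nat.lt_trichotomy π.1.natDegree d with h1 | h1 | h1
      · rw [if_pos (by omega), if_pos h1, hL1 π h1]
      · rw [if_pos (by omega), if_neg (by omega)]
        exact wedge_zero _ _ _ _ (fun k => vp_VV π d (by omega) (w k) (hw k))
      · rw [if_neg (by omega), if_neg (by omega)]
    · intro π hπ g hg hgd
      set w : Fin (N + 1) → MM F := Fin.cons (io π.1) (fun l => io (g l)) with hwdef
      set S : Finset (Pl F) := insert π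
        ((Finset.univ : Finset (Fin (N + 1))).biUnion (fun k => (w k).2.support)) with hSdef
      have hS' : ∀ k, (w k).2.support ⊆ S := fun k =>
        (Finset.subset_biUnion_of_mem (fun k => (w k).2.support) (Finset.mem_univ k)).trans
          (Finset.subset_insert _ _)
      have hv : ∀ (ρ : Pl F) (l : Fin N), ρ.1.natDegree = d → vp ρ (io (g l)) = 0 := by
        intro ρ l hρ
        exact vp_VV ρ d hρ.ge _ (io_mem_VV d (g l) (hg l) (hgd l))
      have hmain : ∀ ρ ∈ S, (if ρ.1.natDegree < d + 1 then wedge (vp ρ) (sp ρ) (L' ρ) w else 0)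
          = (if ρ.1.natDegree < d then wedge (vp ρ) (sp ρ) (L ρ) w else 0) +
            (if ρ = π then - RR d lam L w else 0) := by
        intro ρ _
        by_cases hρπ : ρ = π
        · subst hρπ
          rw [if_pos (by omega), if_neg (by omega), if_pos rfl, hL2 ρ hπ, zero_add]
          rw [hwdef, wedge_cons _ _ _ _ _ (fun l => hv ρ l hπ), vp_pl_self]
          have h1 := (hnu ρ hπ).2 g hg hgd (fun l => sp ρ (io (g l))) (fun l => ?_)
          · rw [h1]
            simp
          · have hne : AdjoinRoot.mk ρ.1 (g l) ≠ 0 := by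
              intro h0
              have h2 : ρ.1 ∣ g l := AdjoinRoot.mk_eq_zero.mp h0
              have h3 := Polynomial.natDegree_le_of_dvd h2 (hg l)
              have h4 := hgd l
              omega
            rw [sp_io ρ (g l) hne]
            rfl
        · rw [if_neg hρπ, add_zero]
          rcases Nat.lt_trichotomy ρ.1.natDegree d with h1 | h1 | h1
          · rw [if_pos (by omega), if_pos h1, hL1 ρ h1]
          · rw [if_pos (by omega), if_neg (by omega)]
            refine wedge_zero _ _ _ _ (fun k => ?_)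
            refine Fin.cases ?_ (fun l => ?_) k
            · rw [hwdef, Fin.cons_zero]
              exact vp_pl π ρ hρπ
            · rw [hwdef, Fin.cons_succ]
              exact hv ρ l h1
          · rw [if_neg (by omega), if_neg (by omega)]
      rw [RR_apply (d + 1) lam L' w S hS', Finset.sum_congr rfl hmain, Finset.sum_add_distrib,
        ← add_assoc, ← RR_apply d lam L w S hS', Finset.sum_ite_eq' S π,
        if_pos (Finset.mem_insert_self _ _)]
      exact add_neg_cancel _

theorem PP_all (d : ℕ) (lam : (Additive Fˣ) [⋀^Fin N]→ₗ[ℤ] ℝ) (hS : Steinberg lam) :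
    PInd (d + 1) lam := by
  induction d with
  | zero => exact PP_one lam
  | succ d ih => exact PP_succ (d + 1) (Nat.succ_pos d) lam hS ih

/-- The transfer functional on the residue field of one place. -/
theorem ext_place (π : Pl F) (lam : (Additive Fˣ) [⋀^Fin N]→ₗ[ℤ] ℝ) (hS : Steinberg lam) :
    ∃ mu : (Additive (AdjoinRoot π.1)ˣ) [⋀^Fin N]→ₗ[ℤ] ℝ, Steinberg mu ∧
      ∀ a : Fin N → Additive Fˣ, mu (fun l => resU π (a l)) = (π.1.natDegree : ℝ) * lam a := by
  obtain ⟨L, hL, -⟩ := PP_all π.1.natDegree lam hS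
  exact ⟨L π, hL π (Nat.lt_succ_self _)⟩

end Pool.Agent.MP_b197b4_ntUV
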