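import Mathlib
import Pool.Agent.Lib.MP_b197b4_ntUV.N8

/-! # UV part N, N9: simple algebraic extensions. -/

set_option autoImplicit false

namespace Pool.Agent.MP_b197b4_ntUV

open Polynomial

/-- `lam'` on `L` extends `lam` on `K`. -/
def Extends {K L : Type*} [Field K] [Field L] [Algebra K L] {N : ℕ}
    (lam : (Additive Kˣ) [⋀^Fin N]→ₗ[ℤ] ℝ) (lam' : (Additive Lˣ) [⋀^Fin N]→ₗ[ℤ] ℝ) : Prop :=
  ∀ a : Fin N → Kˣ, lam' (fun i => Additive.ofMul (Units.map (algebraMap K L) (a i))) =
    lam (fun i => Additive.ofMul (a i))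

theorem step_simple {K L : Type*} [Field K] [Field L] [Algebra K L] {N : ℕ} (x : L)
    (hx : IsIntegral K x) (e : AdjoinRoot (minpoly K x) ≃ₐ[K] L)
    (lam : (Additive Kˣ) [⋀^Fin N]→ₗ[ℤ] ℝ) (hS : Steinberg lam) :
    ∃ lam' : (Additive Lˣ) [⋀^Fin N]→ₗ[ℤ] ℝ, Steinberg lam' ∧ Extends lam lam' := by
  let π : Pl K := ⟨minpoly K x, minpoly.monic hx, minpoly.irreducible hx⟩
  obtain ⟨mu, hmu, hr⟩ := ext_place π lam hS
  have hdeg : (π.1.natDegree : ℝ) ≠ 0 := by
    have h1 : 0 < π.1.natDegree := minpoly.natDegree_pos hx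
    exact_mod_cast h1.ne'
  let f : L →* AdjoinRoot π.1 := ((e.symm : L ≃ₐ[K] AdjoinRoot (minpoly K x)) :
    L →* AdjoinRoot (minpoly K x))
  have hf : ∀ y : L, f y = e.symm y := fun y => rfl
  let s : Additive Lˣ →ₗ[ℤ] Additive (AdjoinRoot π.1)ˣ :=
    (MonoidHom.toAdditive (Units.map f)).toIntLinearMap
  have hs : ∀ u : Lˣ, s (Additive.ofMul u) = Additive.ofMul (Units.map f u) := fun u => rfl
  refine ⟨(1 / (π.1.natDegree : ℝ)) • mu.compLinearMap s, ?_, ?_⟩
  · intro a i j hij hab
    have h1 : mu (fun l => Additive.ofMul (Units.map f (a l))) = 0 := by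
      refine hmu (fun l => Units.map f (a l)) i j hij ?_
      have h2 : ∀ l, ((Units.map f (a l) : (AdjoinRoot π.1)ˣ) : AdjoinRoot π.1)
          = e.symm ((a l : Lˣ) : L) := fun l => rfl
      rw [h2, h2]
      have h3 : e.symm ((a i : L) + (a j : L)) = e.symm (1 : L) := by rw [hab]
      rw [map_add, map_one] at h3
      exact h3
    have h4 : ((1 / (π.1.natDegree : ℝ)) • mu.compLinearMap s) (fun l => Additive.ofMul (a l))
        = (1 / (π.1.natDegree : ℝ)) • mu (fun l => Additive.ofMul (Units.map f (a l))) := rfl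
    rw [h4, h1, smul_zero]
  · intro a
    have h4 : ((1 / (π.1.natDegree : ℝ)) • mu.compLinearMap s)
        (fun l => Additive.ofMul (Units.map (algebraMap K L) (a l)))
        = (1 / (π.1.natDegree : ℝ)) •
          mu (fun l => Additive.ofMul (Units.map f (Units.map (algebraMap K L) (a l)))) := rfl
    have h5 : (fun l => Additive.ofMul (Units.map f (Units.map (algebraMap K L) (a l))))
        = fun l => resU π (Additive.ofMul (a l)) := by
      funext l
      refine congrArg Additive.ofMul (Units.ext ?_)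
      change f (algebraMap K L (a l : K)) = AdjoinRoot.of π.1 (a l : K)
      rw [hf, AlgEquiv.commutes]
      rfl
    rw [h4, h5, hr]
    rw [smul_eq_mul, ← mul_assoc, one_div, inv_mul_cancel₀ hdeg, one_mul]

end Pool.Agent.MP_b197b4_ntUV
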