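import Mathlib
import Pool.Agent.Lib.MP_b197b4_ntUV.N9

/-! # UV part N, NMain: arbitrary algebraic extensions (Zorn). -/

set_option autoImplicit false

namespace Pool.Agent.MP_b197b4_ntUV

open Polynomial

section NM

variable {F E : Type*} [Field F] [Field E] [Algebra F E] {N : ℕ}

/-- `φ` is an alternating Steinberg functional on the elements of `K`, which extends `lam`. -/
structure NM_Good (lam : (Additive Fˣ) [⋀^Fin N]→ₗ[ℤ] ℝ) (K : IntermediateField F E)
    (φ : (Fin N → Eˣ) → ℝ) : Prop where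
  mul : ∀ (a : Fin N → Eˣ) (i : Fin N) (x y : Eˣ), (∀ k, (a k : E) ∈ K) → (x : E) ∈ K →
    (y : E) ∈ K →
    φ (Function.update a i (x * y)) = φ (Function.update a i x) + φ (Function.update a i y)
  alt : ∀ a : Fin N → Eˣ, (∀ k, (a k : E) ∈ K) → ∀ i j, i ≠ j → a i = a j → φ a = 0
  st : ∀ a : Fin N → Eˣ, (∀ k, (a k : E) ∈ K) → ∀ i j, i ≠ j → (a i : E) + (a j : E) = 1 →
    φ a = 0
  ext : ∀ a : Fin N → Fˣ, φ (fun k => Units.map (algebraMap F E : F →* E) (a k)) =
    lam (fun k => Additive.ofMul (a k))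

theorem NM_update {L : Type*} [Field L] (ι : L →+* E) (b : Fin N → Lˣ) (i : Fin N) (z : Lˣ) :
    (fun k => Units.map (ι : L →* E) (Function.update b i z k)) =
      Function.update (fun k => Units.map (ι : L →* E) (b k)) i (Units.map (ι : L →* E) z) := by
  funext k
  by_cases hk : k = i
  · subst hk
    rw [Function.update_self, Function.update_self]
  · rw [Function.update_of_ne hk, Function.update_of_ne hk]

/-- The alternating map on the units of `L`, for `ι : L → K ⊂ E`. -/
noncomputable def NM_pull {lam : (Additive Fˣ) [⋀^Fin N]→ₗ[ℤ] ℝ} {K : IntermediateField F E}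
    {φ : (Fin N → Eˣ) → ℝ} (h : NM_Good lam K φ) {L : Type*} [Field L] (ι : L →+* E)
    (hι : ∀ b, ι b ∈ K) : (Additive Lˣ) [⋀^Fin N]→ₗ[ℤ] ℝ where
  toFun v := φ (fun k => Units.map (ι : L →* E) (v k).toMul)
  map_update_add' := by
    intro inst v i x y
    obtain rfl : inst = instDecidableEqFin N := Subsingleton.elim _ _
    have e : ∀ z : Additive Lˣ, (fun k => Units.map (ι : L →* E) (Function.update v i z k).toMul) =
        Function.update (fun k => Units.map (ι : L →* E) (v k).toMul) i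
          (Units.map (ι : L →* E) z.toMul) := fun z => NM_update ι (fun k => (v k).toMul) i z.toMul
    rw [e, e, e, toMul_add, map_mul]
    exact h.mul _ i _ _ (fun k => hι _) (hι _) (hι _)
  map_update_smul' := by
    intro inst v i c x
    obtain rfl : inst = instDecidableEqFin N := Subsingleton.elim _ _
    have e : ∀ z : Additive Lˣ, (fun k => Units.map (ι : L →* E) (Function.update v i z k).toMul) =
        Function.update (fun k => Units.map (ι : L →* E) (v k).toMul) i
          (Units.map (ι : L →* E) z.toMul) := fun z => NM_update ι (fun k => (v k).toMul) i z.toMul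
    let f : Additive Lˣ →+ ℝ := AddMonoidHom.mk'
      (fun z => φ (fun k => Units.map (ι : L →* E) (Function.update v i z k).toMul)) (by
        intro x y
        rw [e, e, e, toMul_add, map_mul]
        exact h.mul _ i _ _ (fun k => hι _) (hι _) (hι _))
    exact map_zsmul f c x
  map_eq_zero_of_eq' := by
    intro v i j hij hne
    exact h.alt _ (fun k => hι _) i j hne (by rw [hij])

theorem NM_pull_st {lam : (Additive Fˣ) [⋀^Fin N]→ₗ[ℤ] ℝ} {K : IntermediateField F E}
    {φ : (Fin N → Eˣ) → ℝ} (h : NM_Good lam K φ) {L : Type*} [Field L] (ι : L →+* E)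
    (hι : ∀ b, ι b ∈ K) : Steinberg (NM_pull h ι hι) := by
  intro a i j hij hs
  refine h.st _ (fun k => hι _) i j hij ?_
  show ι (a i) + ι (a j) = 1
  rw [← map_add, hs, map_one]

theorem NM_pull_apply {lam : (Additive Fˣ) [⋀^Fin N]→ₗ[ℤ] ℝ} {K : IntermediateField F E}
    {φ : (Fin N → Eˣ) → ℝ} (h : NM_Good lam K φ) {L : Type*} [Field L] (ι : L →+* E)
    (hι : ∀ b, ι b ∈ K) (b : Fin N → Lˣ) : NM_pull h ι hι (fun k => Additive.ofMul (b k)) =
      φ (fun k => Units.map (ι : L →* E) (b k)) := rfl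

open Classical in
/-- The functional on the tuples of `E` with entries in the image of `L`. -/
noncomputable def NM_push {L : Type*} [Field L] (ι : L →+* E)
    (μ : (Additive Lˣ) [⋀^Fin N]→ₗ[ℤ] ℝ) (a : Fin N → Eˣ) : ℝ :=
  if h : ∀ k, ∃ b : Lˣ, Units.map (ι : L →* E) b = a k then
    μ (fun k => Additive.ofMul (h k).choose) else 0

theorem NM_push_apply {L : Type*} [Field L] (ι : L →+* E)
    (μ : (Additive Lˣ) [⋀^Fin N]→ₗ[ℤ] ℝ) (b : Fin N → Lˣ) :
    NM_push ι μ (fun k => Units.map (ι : L →* E) (b k)) = μ (fun k => Additive.ofMul (b k)) := by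
  have h : ∀ k, ∃ c : Lˣ, Units.map (ι : L →* E) c = Units.map (ι : L →* E) (b k) :=
    fun k => ⟨b k, rfl⟩
  rw [NM_push, dif_pos h]
  congr 1
  funext k
  exact congrArg Additive.ofMul (Units.map_injective ι.injective (h k).choose_spec)

theorem NM_lift {L : Type*} [Field L] (ι : L →+* E) {x : Eˣ} {b : L} (h : ι b = x) :
    ∃ c : Lˣ, Units.map (ι : L →* E) c = x := by
  have hb : b ≠ 0 := by
    rintro rfl
    rw [map_zero] at h
    exact x.ne_zero h.symm
  exact ⟨Units.mk0 b hb, Units.ext h⟩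

theorem NM_push_good {lam : (Additive Fˣ) [⋀^Fin N]→ₗ[ℤ] ℝ} {K : IntermediateField F E}
    {L : Type*} [Field L] (ι : L →+* E) (hK : ∀ x ∈ K, ∃ b, ι b = x)
    (μ : (Additive Lˣ) [⋀^Fin N]→ₗ[ℤ] ℝ) (hS : Steinberg μ)
    (hext : ∀ a : Fin N → Fˣ, NM_push ι μ (fun k => Units.map (algebraMap F E : F →* E) (a k)) =
      lam (fun k => Additive.ofMul (a k))) : NM_Good lam K (NM_push ι μ) := by
  have hl : ∀ x : Eˣ, (x : E) ∈ K → ∃ c : Lˣ, Units.map (ι : L →* E) c = x := by
    intro x hx
    obtain ⟨b, hb⟩ := hK x hx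
    exact NM_lift ι hb
  refine ⟨?_, ?_, ?_, hext⟩
  · intro a i x y ha hx hy
    choose b hb using fun k => hl (a k) (ha k)
    obtain ⟨x', rfl⟩ := hl x hx
    obtain ⟨y', rfl⟩ := hl y hy
    obtain rfl : (fun k => Units.map (ι : L →* E) (b k)) = a := funext hb
    rw [← map_mul, ← NM_update, ← NM_update, ← NM_update, NM_push_apply, NM_push_apply,
      NM_push_apply]
    have e : ∀ z : Lˣ, (fun k => Additive.ofMul (Function.update b i z k)) =
        Function.update (fun k => Additive.ofMul (b k)) i (Additive.ofMul z) := by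
      intro z
      funext k
      by_cases hk : k = i
      · subst hk
        rw [Function.update_self, Function.update_self]
      · rw [Function.update_of_ne hk, Function.update_of_ne hk]
    rw [e, e, e, ofMul_mul, μ.map_update_add]
  · intro a ha i j hij h
    choose b hb using fun k => hl (a k) (ha k)
    obtain rfl : (fun k => Units.map (ι : L →* E) (b k)) = a := funext hb
    rw [NM_push_apply]
    have h1 : b i = b j := Units.map_injective ι.injective h
    exact μ.map_eq_zero_of_eq _ (congrArg Additive.ofMul h1) hij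
  · intro a ha i j hij h
    choose b hb using fun k => hl (a k) (ha k)
    obtain rfl : (fun k => Units.map (ι : L →* E) (b k)) = a := funext hb
    rw [NM_push_apply]
    refine hS b i j hij (ι.injective ?_)
    rw [map_add, map_one]
    exact h

open IntermediateField in
theorem NM_step [Algebra.IsAlgebraic F E] {lam : (Additive Fˣ) [⋀^Fin N]→ₗ[ℤ] ℝ}
    {K : IntermediateField F E} {φ : (Fin N → Eˣ) → ℝ} (h : NM_Good lam K φ) (x : E) :
    ∃ (K' : IntermediateField F E) (φ' : (Fin N → Eˣ) → ℝ), NM_Good lam K' φ' ∧ K ≤ K' ∧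
      (∀ a : Fin N → Eˣ, (∀ k, (a k : E) ∈ K) → φ a = φ' a) ∧ x ∈ K' := by
  have hx : IsIntegral K x := (Algebra.IsIntegral.isIntegral (R := F) x).tower_top
  obtain ⟨e⟩ : Nonempty (AdjoinRoot (minpoly K (AdjoinSimple.gen K x)) ≃ₐ[K] K⟮x⟯) := by
    rw [minpoly_gen]
    exact ⟨adjoinRootEquivAdjoin K hx⟩
  obtain ⟨μ', hS', hext⟩ := step_simple (K := K) (L := K⟮x⟯) (AdjoinSimple.gen K x)
    ((AdjoinSimple.isIntegral_gen K x).2 hx) e (NM_pull h (algebraMap K E) fun b => b.2)
    (NM_pull_st h _ _)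
  have hcomp : ∀ b : Fin N → Kˣ, NM_push (algebraMap K⟮x⟯ E) μ'
      (fun k => Units.map (algebraMap K E : K →* E) (b k)) =
      φ (fun k => Units.map (algebraMap K E : K →* E) (b k)) := by
    intro b
    have e1 : (fun k => Units.map (algebraMap K E : K →* E) (b k)) =
        fun k => Units.map (algebraMap K⟮x⟯ E : K⟮x⟯ →* E)
          (Units.map (algebraMap K K⟮x⟯ : K →* K⟮x⟯) (b k)) := by
      funext k
      exact Units.ext rfl
    rw [← NM_pull_apply h (algebraMap K E) (fun b => b.2), ← hext b, e1, NM_push_apply]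
  refine ⟨(K⟮x⟯).restrictScalars F, NM_push (algebraMap K⟮x⟯ E) μ', ?_, ?_, ?_, ?_⟩
  · refine NM_push_good _ (fun y hy => ⟨⟨y, hy⟩, rfl⟩) μ' hS' fun a => ?_
    have e1 : (fun k => Units.map (algebraMap F E : F →* E) (a k)) =
        fun k => Units.map (algebraMap K E : K →* E)
          (Units.map (algebraMap F K : F →* K) (a k)) := by
      funext k
      exact Units.ext rfl
    rw [← h.ext a, e1, hcomp]
  · intro y hy
    exact (K⟮x⟯).algebraMap_mem (⟨y, hy⟩ : K)
  · intro a ha
    choose b hb using fun k => NM_lift (algebraMap K E) (x := a k) (b := ⟨a k, ha k⟩) rfl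
    obtain rfl : (fun k => Units.map (algebraMap K E : K →* E) (b k)) = a := funext hb
    exact (hcomp b).symm
  · exact mem_adjoin_simple_self K x

end NM

theorem extend_all {F E : Type*} [Field F] [Field E] [Algebra F E] [Algebra.IsAlgebraic F E]
    {N : ℕ} (lam : (Additive Fˣ) [⋀^Fin N]→ₗ[ℤ] ℝ) (hS : Steinberg lam) :
    ∃ lam' : (Additive Eˣ) [⋀^Fin N]→ₗ[ℤ] ℝ, Steinberg lam' ∧ Extends lam lam' := by
  classical
  let α : Type _ := {p : IntermediateField F E × ((Fin N → Eˣ) → ℝ) // NM_Good lam p.1 p.2}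
  let r : α → α → Prop := fun p q => p.1.1 ≤ q.1.1 ∧
    ∀ a : Fin N → Eˣ, (∀ k, (a k : E) ∈ p.1.1) → p.1.2 a = q.1.2 a
  have hne : Nonempty α := by
    refine ⟨⟨(⊥, NM_push (algebraMap F E) lam), ?_⟩⟩
    refine NM_push_good _ (fun y hy => ?_) lam hS fun a => NM_push_apply _ _ _
    rw [IntermediateField.mem_bot] at hy
    exact hy
  have htr : ∀ {p q s : α}, r p q → r q s → r p s := by
    intro p q s h1 h2
    exact ⟨h1.1.trans h2.1, fun a ha => (h1.2 a ha).trans (h2.2 a fun k => h1.1 (ha k))⟩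
  have hch : ∀ c : Set α, IsChain r c → c.Nonempty → ∃ ub, ∀ p ∈ c, r p ub := by
    intro c hc hcne
    have : Nonempty c := hcne.to_subtype
    have hcmp : ∀ p q : c, r p.1 q.1 ∨ r q.1 p.1 := by
      intro p q
      by_cases hpq : p.1 = q.1
      · left
        rw [hpq]
        exact ⟨le_rfl, fun _ _ => rfl⟩
      · exact hc p.2 q.2 hpq
    have hdir : Directed (· ≤ ·) fun p : c => p.1.1.1 := by
      intro p q
      rcases hcmp p q with h | h
      · exact ⟨q, h.1, le_rfl⟩
      · exact ⟨p, le_rfl, h.1⟩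
    let K : IntermediateField F E := ⨆ p : c, p.1.1.1
    have hmem : ∀ x : E, x ∈ K ↔ ∃ p : c, x ∈ p.1.1.1 := by
      intro x
      rw [← SetLike.mem_coe, IntermediateField.coe_iSup_of_directed hdir, Set.mem_iUnion]
      rfl
    have hall : ∀ a : Fin N → Eˣ, (∀ k, (a k : E) ∈ K) → ∃ p : c, ∀ k, (a k : E) ∈ p.1.1.1 := by
      intro a ha
      choose g hg using fun k => (hmem _).1 (ha k)
      obtain ⟨z, hz⟩ := hdir.finite_le g
      exact ⟨z, fun k => hz k (hg k)⟩
    let φ : (Fin N → Eˣ) → ℝ := fun a =>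
      if h : ∃ p : c, ∀ k, (a k : E) ∈ p.1.1.1 then h.choose.1.1.2 a else 0
    have hφ : ∀ (p : c) (a : Fin N → Eˣ), (∀ k, (a k : E) ∈ p.1.1.1) → φ a = p.1.1.2 a := by
      intro p a ha
      have h : ∃ p : c, ∀ k, (a k : E) ∈ p.1.1.1 := ⟨p, ha⟩
      have e : φ a = h.choose.1.1.2 a := dif_pos h
      rw [e]
      rcases hcmp h.choose p with h1 | h1
      · exact h1.2 a h.choose_spec
      · exact (h1.2 a ha).symm
    have hup : ∀ (p : c) (a : Fin N → Eˣ) (i : Fin N) (x : Eˣ), (∀ k, (a k : E) ∈ p.1.1.1) →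
        (x : E) ∈ p.1.1.1 → ∀ k, (Function.update a i x k : E) ∈ p.1.1.1 := by
      intro p a i x ha hx k
      by_cases hk : k = i
      · subst hk
        rw [Function.update_self]
        exact hx
      · rw [Function.update_of_ne hk]
        exact ha k
    refine ⟨⟨(K, φ), ?_, ?_, ?_, ?_⟩, ?_⟩
    · intro a i x y ha hx hy
      obtain ⟨p1, h1⟩ := hall a ha
      obtain ⟨p2, h2⟩ := (hmem _).1 hx
      obtain ⟨p3, h3⟩ := (hmem _).1 hy
      obtain ⟨q, hq1, hq2⟩ := hdir p1 p2
      obtain ⟨s, hs1, hs2⟩ := hdir q p3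
      have ka : ∀ k, (a k : E) ∈ s.1.1.1 := fun k => hs1 (hq1 (h1 k))
      have kx : (x : E) ∈ s.1.1.1 := hs1 (hq2 h2)
      have ky : (y : E) ∈ s.1.1.1 := hs2 h3
      have kxy : ((x * y : Eˣ) : E) ∈ s.1.1.1 := by
        rw [Units.val_mul]
        exact mul_mem kx ky
      show φ _ = φ _ + φ _
      rw [hφ s _ (hup s a i _ ka kxy), hφ s _ (hup s a i _ ka kx), hφ s _ (hup s a i _ ka ky)]
      exact s.1.2.mul a i x y ka kx ky
    · intro a ha i j hij h
      obtain ⟨p, hp⟩ := hall a ha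
      show φ a = 0
      rw [hφ p a hp]
      exact p.1.2.alt a hp i j hij h
    · intro a ha i j hij h
      obtain ⟨p, hp⟩ := hall a ha
      show φ a = 0
      rw [hφ p a hp]
      exact p.1.2.st a hp i j hij h
    · intro a
      obtain ⟨p⟩ := this
      show φ _ = _
      rw [hφ p _ fun k => p.1.1.1.algebraMap_mem (a k : F)]
      exact p.1.2.ext a
    · intro p hp
      refine ⟨fun x hx => (hmem x).2 ⟨⟨p, hp⟩, hx⟩, fun a ha => (hφ ⟨p, hp⟩ a ha).symm⟩
  obtain ⟨m, hm⟩ := exists_maximal_of_nonempty_chains_bounded hch htr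
  have htop : ∀ x : E, x ∈ m.1.1 := by
    intro x
    obtain ⟨K', φ', hg, hle, heq, hx⟩ := NM_step m.2 x
    exact (hm ⟨(K', φ'), hg⟩ ⟨hle, heq⟩).1 hx
  refine ⟨NM_pull m.2 (RingHom.id E) fun b => htop _, NM_pull_st _ _ _, fun a => ?_⟩
  exact m.2.ext a

end Pool.Agent.MP_b197b4_ntUV
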