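import Pool.Agent.Lib.MP_b197b4_ntUV.Fin
import Pool.Agent.Lib.MP_b197b4_ntUV.NMain
import Pool.Agent.Lib.MP_b197b4_ntUV.FCard

/-!
# UV: the theorem for all fields of characteristic p
-/

set_option autoImplicit false

noncomputable section

namespace Pool.Agent.MP_b197b4_ntUV

/-- all alternating Steinberg maps of large degree vanish -/
theorem lam_zero_all (p : ℕ) [Fact p.Prime] (F : Type) [Field F] [Algebra (ZMod p) F] {n m : ℕ}
    (hF : Algebra.trdeg (ZMod p) F ≤ n) (hm : N0 n (3 * n) ≤ m)
    (lam : (Additive Fˣ) [⋀^Fin m]→ₗ[ℤ] ℝ) (hS : Steinberg lam) (g : Fin m → Additive Fˣ) :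
    lam g = 0 := by
  let E := AlgebraicClosure F
  let k := algebraicClosure (ZMod p) E
  have hk : IsAlgClosed k := IsAlgClosure.isAlgClosed (ZMod p)
  have hk' : Infinite k := inferInstance
  have h1 : Algebra.trdeg k E ≤ n := by
    have h2 : Algebra.trdeg (ZMod p) F + Algebra.trdeg F E = Algebra.trdeg (ZMod p) E :=
      trdeg_add_eq (ZMod p) F
    have h3 : Algebra.trdeg (ZMod p) k + Algebra.trdeg k E = Algebra.trdeg (ZMod p) E :=
      trdeg_add_eq (ZMod p) k
    have h4 : Algebra.trdeg F E = 0 := trdeg_eq_zero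
    have h5 : Algebra.trdeg (ZMod p) k = 0 := trdeg_eq_zero
    rw [h4, add_zero] at h2
    rw [h5, zero_add] at h3
    rw [h3, ← h2]
    exact hF
  obtain ⟨lam', hS', hE⟩ := extend_all (E := E) lam hS
  have h2 := lam_zero (locFin_of_algebraic p k) (tdLt_of_trdeg_le h1) hm lam' hS'
    (fun i => Additive.ofMul (Units.map (algebraMap F E) (Additive.toMul (g i))))
  rw [hE (fun i => Additive.toMul (g i))] at h2
  exact h2

universe u

/-- the theorem for all fields of characteristic `p`, in every universe -/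
theorem milnorK_high_all (p : ℕ) [Fact p.Prime] (F : Type u) [Field F] [Algebra (ZMod p) F] {n m : ℕ}
    (hF : Algebra.trdeg (ZMod p) F ≤ n) (hm : 3 * ((3 * n + 1) * (3 * n + 1).choose n) ≤ m)
    (x : MilnorK F m) : ∃ N : ℕ, 0 < N ∧ N • x = 0 := by
  refine milnorK_torsion (fun lam hS g => ?_) x
  have hc : Countable F := countable_of_trdeg hF
  let F' : Type := Shrink.{0} F
  let e : F' ≃+* F := Shrink.ringEquiv.{0} F
  letI : Algebra (ZMod p) F' := (e.symm.toRingHom.comp (algebraMap (ZMod p) F)).toAlgebra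
  have hF' : Algebra.trdeg (ZMod p) F' ≤ n := by
    let e' : F' ≃ₐ[ZMod p] F := AlgEquiv.ofRingEquiv (f := e) (fun r => by
      show e (e.symm (algebraMap (ZMod p) F r)) = _
      exact e.apply_symm_apply _)
    have h1 := e'.lift_trdeg_eq
    have h2 : Cardinal.lift.{u} (Algebra.trdeg (ZMod p) F') ≤ (n : Cardinal) := by
      rw [h1]
      simpa using hF
    exact_mod_cast Cardinal.lift_le_nat_iff.1 h2
  let u : F'ˣ ≃* Fˣ := Units.mapEquiv e.toMulEquiv
  let lam' : (Additive F'ˣ) [⋀^Fin m]→ₗ[ℤ] ℝ := lam.compLinearMap u.toAdditive.toAddMonoidHom.toIntLinearMap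
  have hS' : Steinberg lam' := by
    intro a i j hij h
    refine hS (fun l => u (a l)) i j hij ?_
    show e (a i) + e (a j) = 1
    rw [← map_add, h, map_one]
  have h2 := lam_zero_all p F' hF' hm lam' hS' (fun i => Additive.ofMul (u.symm (Additive.toMul (g i))))
  have h3 : lam' (fun i => Additive.ofMul (u.symm (Additive.toMul (g i)))) = lam g := by
    show lam _ = lam g
    congr 1
    funext i
    show Additive.ofMul (u (u.symm (Additive.toMul (g i)))) = g i
    rw [MulEquiv.apply_symm_apply]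
    rfl
  rw [← h3]
  exact h2

end Pool.Agent.MP_b197b4_ntUV
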