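import Pool.Agent.Lib.MP_b197b4_ntUV.P

/-!
# Leaf C1: no common zero implies covering in high degrees

`q_j in V` (`j` in a finite type), at every point one of the `q_j` does not vanish.  Then `V^(m+1) = sum_j q_j V^m` for large `m`.

Proof.  Let `V /= 0` and let `X` be a finite basis of `V`.  For `x0 in X` let `A = k[V/x0] = union_d V^d / x0^d`
(subring of `F`, increasing union since `x0 in V`).  The ideal of `A` generated by the `q_j/x0` is `A`: otherwise
`Ideal.image_subset_nonunits_valuationSubring` gives a valuation ring `O >= A` with all `q_j/x0` non units, so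
`v(q_j) < v(x0)` for all `j`, and `O` contains `k`: all `q_j` vanish at `O`.  Hence `1 = sum (q_j/x0) (f_j/x0^d)`, i.e.
`x0^(d+1) in sum_j q_j V^d`, with one `d` for all `x0 in X`.  A product of `m+1 >= card X * (d+1)` elements of `X`
contains a factor `x0^(d+1)`, so it is in `sum_j q_j V^m`; these products span `V^(m+1)`.
-/

set_option autoImplicit false

namespace Pool.Agent.MP_b197b4_ntUV

open scoped BigOperators

variable {k F : Type} [Field k] [Field F] [Algebra k F]

/-- membership in `sum_j q_j V^m` -/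
private def C1_In (V : Submodule k F) {ι : Type} [Fintype ι] (q : ι → F) (m : ℕ) (w : F) : Prop :=
  ∃ u : ι → F, (∀ j, u j ∈ V ^ m) ∧ ∑ j, q j * u j = w

private theorem C1_zero (V : Submodule k F) {ι : Type} [Fintype ι] (q : ι → F) (m : ℕ) :
    C1_In V q m 0 :=
  ⟨fun _ => 0, fun _ => (V ^ m).zero_mem, by simp⟩

private theorem C1_add {V : Submodule k F} {ι : Type} [Fintype ι] {q : ι → F} {m : ℕ} {w z : F}
    (hw : C1_In V q m w) (hz : C1_In V q m z) : C1_In V q m (w + z) := by
  obtain ⟨u, hu, rfl⟩ := hw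
  obtain ⟨t, ht, rfl⟩ := hz
  refine ⟨fun j => u j + t j, fun j => (V ^ m).add_mem (hu j) (ht j), ?_⟩
  rw [← Finset.sum_add_distrib]
  exact Finset.sum_congr rfl fun j _ => mul_add _ _ _

private theorem C1_smul {V : Submodule k F} {ι : Type} [Fintype ι] {q : ι → F} {m : ℕ} {w : F}
    (c : k) (hw : C1_In V q m w) : C1_In V q m (c • w) := by
  obtain ⟨u, hu, rfl⟩ := hw
  refine ⟨fun j => c • u j, fun j => (V ^ m).smul_mem c (hu j), ?_⟩
  rw [Finset.smul_sum]
  exact Finset.sum_congr rfl fun j _ => mul_smul_comm _ _ _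

private theorem C1_mul {V : Submodule k F} {ι : Type} [Fintype ι] {q : ι → F} {d e : ℕ} {w z : F}
    (hw : C1_In V q d w) (hz : z ∈ V ^ e) : C1_In V q (d + e) (w * z) := by
  obtain ⟨u, hu, rfl⟩ := hw
  refine ⟨fun j => u j * z, fun j => ?_, ?_⟩
  · rw [pow_add]
    exact Submodule.mul_mem_mul (hu j) hz
  · rw [Finset.sum_mul]
    exact Finset.sum_congr rfl fun j _ => (mul_assoc _ _ _).symm

private theorem C1_powmem (V : Submodule k F) {x : F} (hx : x ∈ V) (n : ℕ) : x ^ n ∈ V ^ n :=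
  Submodule.pow_mem_pow V hx n

private theorem C1_up {V : Submodule k F} {x0 y : F} (hx : x0 ∈ V) {d D : ℕ} (h : d ≤ D)
    (hy : y * x0 ^ d ∈ V ^ d) : y * x0 ^ D ∈ V ^ D := by
  obtain ⟨e, rfl⟩ := Nat.exists_eq_add_of_le h
  have e1 : y * x0 ^ (d + e) = (y * x0 ^ d) * x0 ^ e := by rw [pow_add, mul_assoc]
  rw [e1, pow_add]
  exact Submodule.mul_mem_mul hy (C1_powmem V hx e)

/-- the algebra `k[V / x0]` -/
private def C1_alg (V : Submodule k F) (x0 : F) (hx : x0 ∈ V) : Subalgebra k F where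
  carrier := {y | ∃ d : ℕ, y * x0 ^ d ∈ V ^ d}
  mul_mem' := by
    rintro a b ⟨d, hd⟩ ⟨e, he⟩
    refine ⟨d + e, ?_⟩
    have e1 : a * b * x0 ^ (d + e) = (a * x0 ^ d) * (b * x0 ^ e) := by rw [pow_add]; ring
    rw [e1, pow_add]
    exact Submodule.mul_mem_mul hd he
  add_mem' := by
    rintro a b ⟨d, hd⟩ ⟨e, he⟩
    refine ⟨d + e, ?_⟩
    rw [add_mul]
    exact (V ^ (d + e)).add_mem (C1_up hx (Nat.le_add_right d e) hd) (C1_up hx (Nat.le_add_left e d) he)
  algebraMap_mem' := fun r => ⟨0, by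
    simp only [pow_zero, mul_one]
    exact Submodule.algebraMap_mem r⟩

private theorem C1_one (V : Submodule k F) {ι : Type} [Fintype ι] (q : ι → F)
    (hq : ∀ j, q j ∈ V) (h : ∀ O : ValuationSubring F, IsPt k O → ∃ j, ¬ Van O V (q j))
    (x0 : F) (hx : x0 ∈ V) (hx0 : x0 ≠ 0) : ∃ d : ℕ, C1_In V q d (x0 ^ (d + 1)) := by
  have hmem : ∀ j, q j / x0 ∈ (C1_alg V x0 hx).toSubring := fun j => by
    refine ⟨1, ?_⟩
    rw [pow_one, pow_one, div_mul_cancel₀ _ hx0]
    exact hq j
  obtain ⟨I, hIdef⟩ : ∃ I : Ideal (C1_alg V x0 hx).toSubring,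
      I = Ideal.span (Set.range fun j => (⟨q j / x0, hmem j⟩ : (C1_alg V x0 hx).toSubring)) := ⟨_, rfl⟩
  by_cases hI : I = ⊤
  · have h1 : (1 : (C1_alg V x0 hx).toSubring) ∈ I := by
      rw [hI]
      exact Submodule.mem_top
    rw [hIdef] at h1
    obtain ⟨c, hc⟩ := Ideal.mem_span_range_iff_exists_fun.1 h1
    have hcA : ∀ j, ∃ d : ℕ, (c j : F) * x0 ^ d ∈ V ^ d := fun j => (c j).2
    choose d hd using hcA
    have hD : ∀ j, d j ≤ Finset.univ.sup d := fun j => Finset.le_sup (Finset.mem_univ j)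
    refine ⟨Finset.univ.sup d, fun j => (c j : F) * x0 ^ Finset.univ.sup d, fun j => C1_up hx (hD j) (hd j), ?_⟩
    have h2 : ∑ j, (c j : F) * (q j / x0) = 1 := by
      have h3 := congrArg (Subring.subtype (C1_alg V x0 hx).toSubring) hc
      rw [map_sum, map_one] at h3
      exact h3
    calc ∑ j, q j * ((c j : F) * x0 ^ Finset.univ.sup d)
        = x0 ^ (Finset.univ.sup d + 1) * ∑ j, (c j : F) * (q j / x0) := by
          rw [Finset.mul_sum]
          refine Finset.sum_congr rfl fun j _ => ?_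
          rw [pow_succ]
          field_simp
      _ = _ := by rw [h2, mul_one]
  · exfalso
    obtain ⟨B, hB1, hB2⟩ := Ideal.image_subset_nonunits_valuationSubring I hI
    obtain ⟨j, hj⟩ := h B (fun c => hB1 ((C1_alg V x0 hx).algebraMap_mem c))
    apply hj
    refine ⟨x0, hx, ?_⟩
    have h3 : q j / x0 ∈ B.nonunits := by
      refine hB2 ⟨⟨q j / x0, hmem j⟩, ?_, rfl⟩
      rw [hIdef]
      exact Ideal.subset_span ⟨j, rfl⟩
    rw [ValuationSubring.mem_nonunits_iff, map_div₀] at h3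
    have h4 : B.valuation x0 ≠ 0 := (Valuation.ne_zero_iff _).2 hx0
    exact (div_lt_one₀ (zero_lt_iff.2 h4)).1 h3

private theorem C1_prod (V : Submodule k F) {α : Type} (s : Finset α) (f : α → F)
    (hf : ∀ i ∈ s, f i ∈ V) : ∏ i ∈ s, f i ∈ V ^ s.card := by
  classical
  induction s using Finset.induction_on with
  | empty =>
    rw [Finset.prod_empty, Finset.card_empty, pow_zero]
    exact Submodule.one_le.1 le_rfl
  | insert a s ha ih =>
    rw [Finset.prod_insert ha, Finset.card_insert_of_notMem ha, pow_succ']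
    exact Submodule.mul_mem_mul (hf a (Finset.mem_insert_self a s))
      (ih fun i hi => hf i (Finset.mem_insert_of_mem hi))

open scoped Pointwise in
private theorem C1_span (N n : ℕ) (b : Fin N → F) (w : F)
    (hw : w ∈ (Submodule.span k (Set.range b)) ^ n) :
    w ∈ Submodule.span k (Set.range fun g : Fin n → Fin N => ∏ i, b (g i)) := by
  rw [Submodule.span_pow] at hw
  refine Submodule.span_mono ?_ hw
  intro y hy
  obtain ⟨f, hf⟩ := Set.mem_pow.1 hy
  rw [List.prod_ofFn] at hf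
  choose g hg using fun i : Fin n => (f i).2
  exact ⟨g, by rw [← hf]; exact Finset.prod_congr rfl fun i _ => hg i⟩

theorem C1_pow (V : Submodule k F) [FiniteDimensional k V] {ι : Type} [Fintype ι] (q : ι → F)
    (hq : ∀ j, q j ∈ V) (h : ∀ O : ValuationSubring F, IsPt k O → ∃ j, ¬ Van O V (q j)) :
    ∃ m0 : ℕ, ∀ m, m0 ≤ m → ∀ w ∈ V ^ (m + 1), ∃ u : ι → F, (∀ j, u j ∈ V ^ m) ∧
      ∑ j, q j * u j = w := by
  classical
  obtain ⟨N, hN⟩ : ∃ N, N = Module.finrank k V := ⟨_, rfl⟩
  have b : Module.Basis (Fin N) k V := hN ▸ Module.finBasis k V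
  have hb0 : ∀ i, (b i : F) ≠ 0 := fun i h0 => b.ne_zero i (Subtype.ext h0)
  choose d hd using fun i : Fin N => C1_one V q hq h (b i : F) (b i).2 (hb0 i)
  obtain ⟨D, hD⟩ : ∃ D, D = Finset.univ.sup d := ⟨_, rfl⟩
  have hdD : ∀ i, C1_In V q D ((b i : F) ^ (D + 1)) := fun i => by
    have h1 : d i ≤ D := hD ▸ Finset.le_sup (Finset.mem_univ i)
    obtain ⟨e, he⟩ := Nat.exists_eq_add_of_le h1
    have h2 := C1_mul (hd i) (C1_powmem V (b i).2 e)
    rw [← he, ← pow_add] at h2
    have h3 : d i + 1 + e = D + 1 := by omega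
    rwa [h3] at h2
  have hVs : V = Submodule.span k (Set.range fun i => (b i : F)) := by
    have h1 := congrArg (Submodule.map V.subtype) b.span_eq
    rw [Submodule.map_span, Submodule.map_subtype_top] at h1
    refine h1.symm.trans ?_
    rw [← Set.range_comp]
    rfl
  refine ⟨N * D, fun m hm w hw => ?_⟩
  change C1_In V q m w
  have hw2 : w ∈ Submodule.span k (Set.range fun g : Fin (m + 1) → Fin N => ∏ i, (b (g i) : F)) := by
    refine C1_span N (m + 1) (fun i => (b i : F)) w ?_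
    rw [← hVs]
    exact hw
  refine Submodule.span_induction ?_ (C1_zero V q m) (fun _ _ _ _ h1 h2 => C1_add h1 h2)
    (fun c _ _ h1 => C1_smul c h1) hw2
  rintro y ⟨g, hf⟩
  have hpig : ∃ i0 ∈ (Finset.univ : Finset (Fin N)), D < (Finset.univ.filter fun i => g i = i0).card := by
    refine Finset.exists_lt_card_fiber_of_mul_lt_card_of_maps_to (fun i _ => Finset.mem_univ _) ?_
    rw [Finset.card_univ, Finset.card_univ, Fintype.card_fin, Fintype.card_fin]
    omega
  obtain ⟨i0, -, hi0⟩ := hpig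
  obtain ⟨c, hc⟩ : ∃ c, c = (Finset.univ.filter fun i => g i = i0).card := ⟨_, rfl⟩
  have hsplit : y = (b i0 : F) ^ c * ∏ i ∈ Finset.univ.filter (fun i => ¬ g i = i0), (b (g i) : F) := by
    have hf' : ∏ i, (b (g i) : F) = y := hf
    rw [← hf', ← Finset.prod_filter_mul_prod_filter_not Finset.univ (fun i => g i = i0)]
    congr 1
    rw [hc, ← Finset.prod_const]
    refine Finset.prod_congr rfl fun i hi => ?_
    rw [(Finset.mem_filter.1 hi).2]
  have hcard : c + (Finset.univ.filter fun i => ¬ g i = i0).card = m + 1 := by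
    rw [hc, Finset.card_filter_add_card_filter_not, Finset.card_univ, Fintype.card_fin]
  have hP := C1_prod V (Finset.univ.filter fun i => ¬ g i = i0) (fun i => (b (g i) : F))
    (fun i _ => (b (g i)).2)
  rw [← hc] at hi0
  obtain ⟨e, he⟩ := Nat.exists_eq_add_of_le hi0
  have h5 : (b i0 : F) ^ e * ∏ i ∈ Finset.univ.filter (fun i => ¬ g i = i0), (b (g i) : F) ∈
      V ^ (e + (Finset.univ.filter fun i => ¬ g i = i0).card) := by
    rw [pow_add]
    exact Submodule.mul_mem_mul (C1_powmem V (b i0).2 e) hP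
  have h6 := C1_mul (hdD i0) h5
  have h7 : D + (e + (Finset.univ.filter fun i => ¬ g i = i0).card) = m := by omega
  rw [h7] at h6
  have h8 : (b i0 : F) ^ (D + 1) * ((b i0 : F) ^ e *
      ∏ i ∈ Finset.univ.filter (fun i => ¬ g i = i0), (b (g i) : F)) = y := by
    rw [hsplit, ← mul_assoc, ← pow_add]
    congr 2
    omega
  rwa [h8] at h6

end Pool.Agent.MP_b197b4_ntUV
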