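import Mathlib

/-!
# Part D1: sign vectors realised in an ordered group are realised by integer vectors
-/

namespace Pool.Agent.MP_b197b4_ntUV

open Finset

/-- A theorem of Gordan over the rational numbers, relative to a subspace `W`. -/
theorem D_gordan {V : Type*} [AddCommGroup V] [Module ℚ V] (P : Finset V) : ∀ (W : Submodule ℚ V),
    (∀ c : V → ℚ, (∀ p ∈ P, 0 ≤ c p) → ∑ p ∈ P, c p • p ∈ W → ∀ p ∈ P, c p = 0) →
    ∃ f : V →ₗ[ℚ] ℚ, (∀ w ∈ W, f w = 0) ∧ ∀ p ∈ P, 0 < f p := by
  classical
  induction P using Finset.induction_on with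
  | empty => intro W _; exact ⟨0, by simp, by simp⟩
  | insert p P hp ih =>
    intro W h
    have hpW : p ∉ W := by
      intro hpW
      have h1 := h (fun x => if x = p then 1 else 0) (by intro x _; split_ifs <;> norm_num)
        (by
          rw [Finset.sum_insert hp]
          have h2 : ∑ x ∈ P, (if x = p then (1 : ℚ) else 0) • x = 0 := by
            apply Finset.sum_eq_zero
            intro x hx
            have : x ≠ p := by rintro rfl; exact hp hx
            simp [this]
          rw [h2]
          simpa using hpW) p (mem_insert_self _ _)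
      simp at h1
    obtain ⟨c0, hc0, hcW0⟩ := W.exists_dual_map_eq_bot_of_notMem hpW inferInstance
    have hcW1 : ∀ w ∈ W, c0 w = 0 := by
      intro w hw
      have : c0 w ∈ W.map c0 := Submodule.mem_map_of_mem hw
      rw [hcW0] at this
      exact (Submodule.mem_bot ℚ).1 this
    obtain ⟨c, hc, hcW⟩ : ∃ c : V →ₗ[ℚ] ℚ, 0 < c p ∧ ∀ w ∈ W, c w = 0 := by
      rcases lt_or_gt_of_ne hc0 with h0 | h0
      · exact ⟨-c0, by simpa using h0, fun w hw => by simp [hcW1 w hw]⟩
      · exact ⟨c0, h0, hcW1⟩
    obtain ⟨f1, hf1W, hf1P⟩ := ih W (by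
      intro d hd hdW x hx
      have h1 := h (fun x => if x = p then 0 else d x)
        (by
          intro y hy
          split_ifs with hyp
          · exact le_refl _
          · exact hd y ((mem_insert.1 hy).resolve_left hyp))
        (by
          rw [Finset.sum_insert hp]
          have h2 : ∑ x ∈ P, (if x = p then (0 : ℚ) else d x) • x = ∑ x ∈ P, d x • x := by
            apply Finset.sum_congr rfl
            intro x hx
            have : x ≠ p := by rintro rfl; exact hp hx
            simp [this]
          rw [h2]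
          simpa using hdW) x (mem_insert_of_mem hx)
      have : x ≠ p := by rintro rfl; exact hp hx
      simpa [this] using h1)
    have key : (0 < f1 p) ∨ ∃ f2 : V →ₗ[ℚ] ℚ, (∀ w ∈ W, f2 w = 0) ∧ f2 p = 0 ∧ ∀ x ∈ P, 0 < f2 x := by
      rcases lt_trichotomy (f1 p) 0 with h0 | h0 | h0
      · right
        obtain ⟨f2, hf2W, hf2P⟩ := ih (W ⊔ Submodule.span ℚ {p}) (by
          intro d hd hdW
          obtain ⟨w, hw, z, hz, hwz⟩ := Submodule.mem_sup.1 hdW
          obtain ⟨μ, rfl⟩ := Submodule.mem_span_singleton.1 hz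
          have hμ : μ ≤ 0 := by
            by_contra hμ
            rw [not_le] at hμ
            have h3 : f1 (∑ x ∈ P, d x • x) = μ * f1 p := by
              rw [← hwz, map_add, hf1W w hw, map_smul, zero_add, smul_eq_mul]
            have h4 : 0 ≤ f1 (∑ x ∈ P, d x • x) := by
              rw [map_sum]
              apply Finset.sum_nonneg
              intro x hx
              rw [map_smul, smul_eq_mul]
              exact mul_nonneg (hd x hx) (hf1P x hx).le
            rw [h3] at h4
            nlinarith
          intro x hx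
          have h1 := h (fun x => if x = p then -μ else d x)
            (by
              intro y hy
              split_ifs with hyp
              · linarith
              · exact hd y ((mem_insert.1 hy).resolve_left hyp))
            (by
              rw [Finset.sum_insert hp]
              have h2 : ∑ x ∈ P, (if x = p then (-μ : ℚ) else d x) • x = ∑ x ∈ P, d x • x := by
                apply Finset.sum_congr rfl
                intro x hx
                have : x ≠ p := by rintro rfl; exact hp hx
                simp [this]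
              rw [h2, ← hwz]
              have h5 : (if p = p then (-μ : ℚ) else d p) • p + (w + μ • p) = w := by
                rw [if_pos rfl, neg_smul]; abel
              rw [h5]
              exact hw) x (mem_insert_of_mem hx)
          have : x ≠ p := by rintro rfl; exact hp hx
          simpa [this] using h1)
        exact ⟨f2, fun w hw => hf2W w (Submodule.mem_sup_left hw),
          hf2W p (Submodule.mem_sup_right (Submodule.mem_span_singleton_self p)), hf2P⟩
      · right
        exact ⟨f1, hf1W, h0, hf1P⟩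
      · left
        exact h0
    rcases key with h0 | ⟨f2, hf2W, hf2p, hf2P⟩
    · refine ⟨f1, hf1W, ?_⟩
      intro x hx
      rcases mem_insert.1 hx with rfl | hx
      · exact h0
      · exact hf1P x hx
    · have hM0 : ∀ x ∈ P, 0 ≤ (|c x| + 1) / f2 x := fun x hx =>
        div_nonneg (by positivity) (hf2P x hx).le
      refine ⟨(∑ x ∈ P, (|c x| + 1) / f2 x) • f2 + c, ?_, ?_⟩
      · intro w hw
        simp [hf2W w hw, hcW w hw]
      · intro x hx
        rcases mem_insert.1 hx with rfl | hx
        · simpa [hf2p] using hc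
        · have h1 : (|c x| + 1) / f2 x ≤ ∑ x ∈ P, (|c x| + 1) / f2 x :=
            Finset.single_le_sum (f := fun x => (|c x| + 1) / f2 x) hM0 hx
          have h2 : |c x| + 1 ≤ (∑ x ∈ P, (|c x| + 1) / f2 x) * f2 x := by
            rw [div_le_iff₀ (hf2P x hx)] at h1
            exact h1
          have h3 := neg_abs_le (c x)
          simp only [LinearMap.add_apply, LinearMap.smul_apply, smul_eq_mul]
          linarith

/-- Every system of signs realised by a homomorphism to an ordered group is realised by an integer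
vector. -/
theorem D_transfer {N : ℕ} {Γ : Type*} [AddCommGroup Γ] [LinearOrder Γ] [IsOrderedAddMonoid Γ]
    (u : (Fin N → ℤ) →+ Γ) (A : Finset (Fin N → ℤ)) :
    ∃ b : Fin N → ℤ, ∀ α ∈ A, (0 < u α → 0 < ∑ j, b j * α j) ∧ (u α = 0 → ∑ j, b j * α j = 0) ∧
      (u α < 0 → ∑ j, b j * α j < 0) := by
  classical
  -- the extension to `ℚ`
  let U : (Fin N → ℚ) →ₗ[ℚ] DivisibleHull Γ :=
    { toFun := fun x => ∑ j, x j • ((u (Pi.single j 1) : Γ) : DivisibleHull Γ)
      map_add' := by intro x y; simp [add_smul, Finset.sum_add_distrib]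
      map_smul' := by intro c x; simp [mul_smul, Finset.smul_sum] }
  let κ : (Fin N → ℤ) → (Fin N → ℚ) := fun α j => (α j : ℚ)
  have hU : ∀ α, U (κ α) = ((u α : Γ) : DivisibleHull Γ) := by
    intro α
    have h1 : u α = ∑ j, α j • u (Pi.single j 1) := by
      have h2 : α = ∑ j, α j • (Pi.single j (1 : ℤ) : Fin N → ℤ) := by
        ext i
        simp [Finset.sum_apply, Pi.single_apply]
      conv_lhs => rw [h2]
      rw [map_sum]
      apply Finset.sum_congr rfl
      intro j _
      rw [map_zsmul]
    have h3 : ((u α : Γ) : DivisibleHull Γ) =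
        ∑ j, α j • ((u (Pi.single j 1) : Γ) : DivisibleHull Γ) := by
      have h4 := congrArg (DivisibleHull.coeAddMonoidHom Γ) h1
      rw [map_sum] at h4
      simp only [map_zsmul, DivisibleHull.coeAddMonoidHom_apply] at h4
      exact h4
    rw [h3]
    change ∑ j, (α j : ℚ) • ((u (Pi.single j 1) : Γ) : DivisibleHull Γ) = _
    apply Finset.sum_congr rfl
    intro j _
    rw [Int.cast_smul_eq_zsmul]
  have hpos : ∀ α, 0 < u α → 0 < U (κ α) := by
    intro α h
    rw [hU]
    have h1 : DivisibleHull.mk (0 : Γ) 1 < DivisibleHull.mk (u α) 1 := by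
      rw [DivisibleHull.mk_lt_mk]
      simpa using h
    rw [DivisibleHull.mk_zero] at h1
    exact h1
  let P : Finset (Fin N → ℚ) := ((A.filter (fun α => 0 < u α)).image κ) ∪
    ((A.filter (fun α => u α < 0)).image (fun α => κ (-α)))
  have hP : ∀ p ∈ P, 0 < U p := by
    intro p hp
    rcases mem_union.1 hp with hp | hp
    · obtain ⟨α, hα, rfl⟩ := mem_image.1 hp
      exact hpos α (mem_filter.1 hα).2
    · obtain ⟨α, hα, rfl⟩ := mem_image.1 hp
      apply hpos
      rw [map_neg]
      exact neg_pos.2 (mem_filter.1 hα).2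
  let W : Submodule ℚ (Fin N → ℚ) := Submodule.span ℚ (κ '' {α | α ∈ A ∧ u α = 0})
  have hW : ∀ w ∈ W, U w = 0 := by
    intro w hw
    have : W ≤ LinearMap.ker U := by
      apply Submodule.span_le.2
      rintro _ ⟨α, ⟨_, hα⟩, rfl⟩
      change U (κ α) = 0
      rw [hU, hα]
      simp
    exact this hw
  obtain ⟨f, hfW, hfP⟩ := D_gordan P W (by
    intro c hc hcW p hp
    have h1 := hW _ hcW
    rw [map_sum] at h1
    have h2 : ∀ x ∈ P, 0 ≤ U (c x • x) := by
      intro x hx
      rw [map_smul]
      exact smul_nonneg (hc x hx) (hP x hx).le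
    have h3 := (Finset.sum_eq_zero_iff_of_nonneg h2).1 h1 p hp
    rw [map_smul, smul_eq_zero] at h3
    exact h3.resolve_right (hP p hp).ne')
  -- clear the denominators
  let D : ℕ := ∏ j, (f (Pi.single j 1)).den
  have hD : 0 < D := Finset.prod_pos fun j _ => (f (Pi.single j 1)).den_pos
  have hb : ∀ j, ∃ b : ℤ, (b : ℚ) = D * f (Pi.single j 1) := by
    intro j
    obtain ⟨m, hm⟩ : (f (Pi.single j 1)).den ∣ D := Finset.dvd_prod_of_mem _ (mem_univ j)
    refine ⟨m * (f (Pi.single j 1)).num, ?_⟩
    have h1 := Rat.mul_den_eq_num (f (Pi.single j 1))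
    rw [hm]
    push_cast
    rw [← h1]
    ring
  choose b hb using hb
  have hf : ∀ α : Fin N → ℤ, ((∑ j, b j * α j : ℤ) : ℚ) = D * f (κ α) := by
    intro α
    have h2 : κ α = ∑ j, (α j : ℚ) • (Pi.single j (1 : ℚ) : Fin N → ℚ) := by
      ext i
      simp [κ, Finset.sum_apply, Pi.single_apply]
    rw [h2, map_sum, Finset.mul_sum]
    push_cast
    apply Finset.sum_congr rfl
    intro j _
    rw [hb, map_smul, smul_eq_mul]
    ring
  have hDq : (0 : ℚ) < D := by exact_mod_cast hD
  refine ⟨b, fun α hα => ⟨?_, ?_, ?_⟩⟩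
  · intro h
    have h1 : 0 < f (κ α) := hfP _ (mem_union_left _ (mem_image_of_mem _ (mem_filter.2 ⟨hα, h⟩)))
    have h2 : (0 : ℚ) < ((∑ j, b j * α j : ℤ) : ℚ) := by
      rw [hf]
      exact mul_pos hDq h1
    exact_mod_cast h2
  · intro h
    have h1 : f (κ α) = 0 := hfW _ (Submodule.subset_span ⟨α, ⟨hα, h⟩, rfl⟩)
    have h2 : ((∑ j, b j * α j : ℤ) : ℚ) = 0 := by
      rw [hf, h1, mul_zero]
    exact_mod_cast h2
  · intro h
    have h1 : 0 < f (κ (-α)) := hfP _ (mem_union_right _ (mem_image.2 ⟨α, mem_filter.2 ⟨hα, h⟩, rfl⟩))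
    have h3 : κ (-α) = -κ α := by
      ext j
      simp [κ]
    rw [h3, map_neg] at h1
    have h2 : ((∑ j, b j * α j : ℤ) : ℚ) < 0 := by
      rw [hf]
      exact mul_neg_of_pos_of_neg hDq (by linarith)
    exact_mod_cast h2

end Pool.Agent.MP_b197b4_ntUV
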