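import Mathlib

/-!
# UV, parts D and E: points, vanishing, monomials

`F` is a field over `k`. A point of `F` is a valuation subring of `F` which contains `k`.
-/

set_option autoImplicit false

noncomputable section

namespace Pool.Agent.MP_b197b4_ntUV

/-- The valuation subring `O` of `F` is a point of `F` over `k`: it contains `k`. -/
def IsPt (k : Type) {F : Type} [Field k] [Field F] [Algebra k F] (O : ValuationSubring F) : Prop :=
  ∀ c : k, algebraMap k F c ∈ O

/-- The element `e` vanishes at the point `O` in the space `W`. -/
def Van {k F : Type} [Field k] [Field F] [Algebra k F] (O : ValuationSubring F) (W : Submodule k F)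
    (e : F) : Prop :=
  ∃ x ∈ W, O.valuation e < O.valuation x

/-- The transcendence degree of `A` over `k` is less than `m`. -/
def TdLt (k A : Type) [Field k] [CommRing A] [Algebra k A] (m : ℕ) : Prop :=
  ∀ x : Fin m → A, ¬ AlgebraicIndependent k x

/-- The monomial `g ^ β`. -/
def mon {F : Type} [Field F] {N : ℕ} (g : Fin N → Fˣ) (β : Fin N → ℤ) : Fˣ := ∏ j, g j ^ β j

/-- The space spanned by the monomials `g ^ β`, `β ∈ B`. -/
def HB (k : Type) {F : Type} [Field k] [Field F] [Algebra k F] {N : ℕ} (g : Fin N → Fˣ)
    (B : Finset (Fin N → ℤ)) : Submodule k F :=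
  Submodule.span k ((fun β => (mon g β : F)) '' (B : Set (Fin N → ℤ)))

/-- The largest value of the monomials `g ^ β`, `β ∈ B`, at `O` (`0` if `B` is empty). -/
def MB {F : Type} [Field F] {N : ℕ} (O : ValuationSubring F) (g : Fin N → Fˣ)
    (B : Finset (Fin N → ℤ)) : O.ValueGroup :=
  B.sup fun β => O.valuation (mon g β : F)

end Pool.Agent.MP_b197b4_ntUV
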