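import Pool.Agent.Lib.MP_b197b4_ntUV.EDefs

/-!
# UV, leaf EDim: the transcendence degree
-/

set_option autoImplicit false

noncomputable section

namespace Pool.Agent.MP_b197b4_ntUV

variable {k A : Type} [Field k] [CommRing A] [Algebra k A]

/-- PROOF. The empty family is algebraically independent if `k → A` is injective. -/
theorem not_tdLt_zero [Nontrivial A] : ¬ TdLt k A 0 := fun h =>
  h Fin.elim0 (algebraicIndependent_empty_type_iff.2 (algebraMap k A).injective)

/-- PROOF. An algebraically independent family in a subalgebra is algebraically independent in `B`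
(`AlgebraicIndependent.map'` for the injective map `A → B`). -/
theorem TdLt.of_injective {B : Type} [CommRing B] [Algebra k B] {m : ℕ} (h : TdLt k B m) (f : A →ₐ[k] B)
    (hf : Function.Injective f) : TdLt k A m := fun x hx => h (f ∘ x) (hx.map' hf)

/-- PROOF. Lift an algebraically independent family of the quotient
(`AlgebraicIndependent.of_aeval` / `AlgebraicIndependent.of_map`). -/
theorem TdLt.quotient {m : ℕ} (h : TdLt k A m) (P : Ideal A) : TdLt k (A ⧸ P) m := by
  intro x hx
  choose y hy using fun i => Ideal.Quotient.mk_surjective (I := P) (x i)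
  refine h y (AlgebraicIndependent.of_comp (Ideal.Quotient.mkₐ k P) ?_)
  have e : (Ideal.Quotient.mkₐ k P) ∘ y = x := funext hy
  rw [e]
  exact hx

/-- The transcendence degree drops.
PROOF. Let `x̄_1, …, x̄_m` be algebraically independent in `A ⧸ Q`, `x_j` lifts in `A`, `p ∈ Q`, `p ∉ P`. By `h` the
`m + 1` elements `p, x_1, …, x_m` of the domain `A ⧸ P` satisfy a relation `f (p, x) = 0`, `f ≠ 0`. Choose `f` of the
least total degree (or with the least number of factors `X_0`): if `f = X_0 f'` then `p f' (p, x) = 0` in `A ⧸ P`, so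
`f' (p, x) = 0`; so `X_0` does not divide `f`, and `f₀ = f (0, X_1, …, X_m) ≠ 0`, `f₀ (x̄) = f (p, x) = 0` in `A ⧸ Q`, a
contradiction. (With `MvPolynomial.finSuccEquiv`: `f` is a polynomial in `X_0` over `k [X_1, …, X_m]`; divide by the
greatest power of `X_0`: `Polynomial.exists_eq_pow_rootMultiplicity_mul_and_not_dvd` or induction on `natDegree` with
`Polynomial.divX`; `f₀` is the constant coefficient.) -/
theorem td_drop {P Q : Ideal A} (hP : P.IsPrime) (h : P < Q) {m : ℕ} (hm : TdLt k (A ⧸ P) (m + 1)) :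
    TdLt k (A ⧸ Q) m := by
  intro x hx
  obtain ⟨hle, p, hpQ, hpP⟩ := SetLike.lt_iff_le_and_exists.1 h
  have hdom : IsDomain (A ⧸ P) := Ideal.Quotient.isDomain P
  choose y hy using fun i => Ideal.Quotient.mk_surjective (I := Q) (x i)
  obtain ⟨φ, hφ⟩ : ∃ φ : (A ⧸ P) →ₐ[k] (A ⧸ Q), ∀ a : A, φ (Ideal.Quotient.mk P a) = Ideal.Quotient.mk Q a :=
    ⟨Ideal.Quotient.factorₐ k hle, fun a => rfl⟩
  obtain ⟨z, hz⟩ : ∃ z : Fin m → A ⧸ P, ∀ i, z i = Ideal.Quotient.mk P (y i) := ⟨_, fun i => rfl⟩
  have hzx : φ ∘ z = x := by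
    funext i
    show φ (z i) = x i
    rw [hz, hφ, hy]
  have hz1 : AlgebraicIndependent k z := AlgebraicIndependent.of_comp φ (by rw [hzx]; exact hx)
  have hp0 : Ideal.Quotient.mk P p ≠ 0 := fun h0 => hpP (Ideal.Quotient.eq_zero_iff_mem.1 h0)
  have hφp : φ (Ideal.Quotient.mk P p) = 0 := by
    rw [hφ]
    exact Ideal.Quotient.eq_zero_iff_mem.2 hpQ
  have halg : IsAlgebraic (Algebra.adjoin k (Set.range z)) (Ideal.Quotient.mk P p) := by
    by_contra hcon
    have h1 := (hz1.option_iff_transcendental (Ideal.Quotient.mk P p)).2 hcon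
    exact hm _ (h1.comp _ (finSuccEquiv m).injective)
  obtain ⟨q, hq0, hq⟩ := halg.exists_nonzero_coeff_and_aeval_eq_zero
    (mem_nonZeroDivisors_of_ne_zero hp0)
  have hφq : φ (q.coeff 0 : A ⧸ P) = 0 := by
    have h1 := Polynomial.divX_mul_X_add q
    have h2 : Polynomial.aeval (Ideal.Quotient.mk P p) q.divX * Ideal.Quotient.mk P p +
        (q.coeff 0 : A ⧸ P) = 0 := by
      have h3 := congrArg (Polynomial.aeval (Ideal.Quotient.mk P p)) h1
      rw [map_add, map_mul, Polynomial.aeval_X, Polynomial.aeval_C, hq] at h3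
      exact h3
    have h4 := congrArg φ h2
    rw [map_add, map_mul, hφp, mul_zero, zero_add, map_zero] at h4
    exact h4
  obtain ⟨F, hF⟩ : ∃ F : MvPolynomial (Fin m) k, MvPolynomial.aeval z F = (q.coeff 0 : A ⧸ P) := by
    have h1 : ∀ c : A ⧸ P, c ∈ Algebra.adjoin k (Set.range z) →
        ∃ F : MvPolynomial (Fin m) k, MvPolynomial.aeval z F = c := by
      intro c hc
      rw [Algebra.adjoin_range_eq_range_aeval] at hc
      exact hc
    exact h1 _ (q.coeff 0).2
  have hF0 : F = 0 := by
    refine (algebraicIndependent_iff.1 hx) F ?_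
    rw [← hzx]
    have h1 : MvPolynomial.aeval (φ ∘ z) F = φ (MvPolynomial.aeval z F) := by
      rw [MvPolynomial.comp_aeval_apply]
      rfl
    rw [h1, hF, hφq]
  rw [hF0, map_zero] at hF
  exact hq0 (Subtype.ext hF.symm)

end Pool.Agent.MP_b197b4_ntUV
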