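import Pool.Agent.Lib.MP_b197b4_ntUV.EVal

/-!
# UV, leaf ERow: the rows, their generic elements and the chain
-/

set_option autoImplicit false
set_option linter.unusedSectionVars false
set_option linter.unusedVariables false

noncomputable section

open scoped Pointwise

namespace Pool.Agent.MP_b197b4_ntUV

variable {k F : Type} [Field k] [Field F] [Algebra k F] {N : ℕ} {g : Fin N → Fˣ}

/-! ### Elements with the largest possible value -/

/-- The element `a` of `HB k g E` has the largest possible value at the points at which the generic elements with the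
indices in `U` do not vanish and `X` does not hold. -/
structure Rep (k : Type) {F : Type} [Field k] [Field F] [Algebra k F] {N : ℕ} (g : Fin N → Fˣ) {G : Type}
    (𝔅 : G → Finset (Fin N → ℤ)) (s : G → Fˣ) (a : F) (E : Finset (Fin N → ℤ)) (U : Set G)
    (X : ValuationSubring F → Prop) : Prop where
  mem : a ∈ HB k g E
  val : ∀ O : ValuationSubring F, IsPt k O → (∀ γ ∈ U, O.valuation (s γ : F) = MB O g (𝔅 γ)) → ¬ X O →
    O.valuation a = MB O g E

section rep

variable {G : Type} {𝔅 : G → Finset (Fin N → ℤ)} {s : G → Fˣ}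

theorem Rep.gen {γ : G} (h : (s γ : F) ∈ HB k g (𝔅 γ)) {U : Set G} (hU : γ ∈ U) {X : ValuationSubring F → Prop} :
    Rep k g 𝔅 s (s γ : F) (𝔅 γ) U X :=
  ⟨h, fun _ _ hγ _ => hγ γ hU⟩

theorem Rep.mul {a a' : F} {E E' : Finset (Fin N → ℤ)} {U : Set G} {X : ValuationSubring F → Prop}
    (h : Rep k g 𝔅 s a E U X) (h' : Rep k g 𝔅 s a' E' U X) : Rep k g 𝔅 s (a * a') (E + E') U X :=
  ⟨HB_mul h.mem h'.mem, fun O hO hγ hX => by
    rw [map_mul, MB_add, h.val O hO hγ hX, h'.val O hO hγ hX]⟩

theorem Rep.mon (β : Fin N → ℤ) {U : Set G} {X : ValuationSubring F → Prop} :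
    Rep k g 𝔅 s (mon g β : F) {β} U X :=
  ⟨mon_mem (Finset.mem_singleton_self β), fun O _ _ _ => (MB_singleton β).symm⟩

theorem Rep.one {U : Set G} {X : ValuationSubring F → Prop} : Rep k g 𝔅 s 1 0 U X := by
  have h : Rep k g 𝔅 s (Pool.Agent.MP_b197b4_ntUV.mon g 0 : F) {0} U X := Rep.mon 0
  rw [mon_zero, Units.val_one] at h
  exact h

theorem Rep.prod {I : Type} (T : Finset I) {a : I → F} {E : I → Finset (Fin N → ℤ)} {U : Set G}
    {X : ValuationSubring F → Prop} (h : ∀ i ∈ T, Rep k g 𝔅 s (a i) (E i) U X) :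
    Rep k g 𝔅 s (∏ i ∈ T, a i) (∑ i ∈ T, E i) U X := by
  classical
  induction T using Finset.induction_on with
  | empty =>
    rw [Finset.prod_empty, Finset.sum_empty]
    exact Rep.one
  | insert i T hi ih =>
    rw [Finset.prod_insert hi, Finset.sum_insert hi]
    exact (h i (Finset.mem_insert_self i T)).mul (ih fun l hl => h l (Finset.mem_insert_of_mem hl))

theorem Rep.mono {a : F} {E E' : Finset (Fin N → ℤ)} {U : Set G} {X : ValuationSubring F → Prop}
    (h : Rep k g 𝔅 s a E U X) (hE : E ⊆ E')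
    (hM : ∀ O : ValuationSubring F, IsPt k O → ¬ X O → MB O g E' ≤ MB O g E) : Rep k g 𝔅 s a E' U X :=
  ⟨HB_mono hE h.mem, fun O hO hγ hX => by
    rw [h.val O hO hγ hX]
    exact le_antisymm (MB_mono hE) (hM O hO hX)⟩

end rep

/-! ### The sets of exponents -/

section sets

variable {S : Type} [Fintype S] [DecidableEq S]

/-- The sum of `m` copies of `B`. -/
def pw (m : ℕ) (B : Finset (Fin N → ℤ)) : Finset (Fin N → ℤ) := ∑ _i ∈ Finset.range m, B

theorem MB_zero (O : ValuationSubring F) (g : Fin N → Fˣ) : MB O g 0 = 1 := by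
  have h : MB O g {0} = O.valuation (mon g 0 : F) := MB_singleton 0
  rw [mon_zero, Units.val_one, map_one] at h
  exact h

theorem MB_sum (O : ValuationSubring F) (g : Fin N → Fˣ) {I : Type} (T : Finset I) (E : I → Finset (Fin N → ℤ)) :
    MB O g (∑ i ∈ T, E i) = ∏ i ∈ T, MB O g (E i) := by
  classical
  induction T using Finset.induction_on with
  | empty => rw [Finset.prod_empty, Finset.sum_empty, MB_zero]
  | insert i T hi ih => rw [Finset.prod_insert hi, Finset.sum_insert hi, MB_add, ih]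

theorem MB_pw (O : ValuationSubring F) (g : Fin N → Fˣ) (m : ℕ) (B : Finset (Fin N → ℤ)) :
    MB O g (pw m B) = MB O g B ^ m := by
  unfold pw
  rw [MB_sum, Finset.prod_const, Finset.card_range]

theorem ne_sum {I : Type} (T : Finset I) {E : I → Finset (Fin N → ℤ)} (h : ∀ i ∈ T, (E i).Nonempty) :
    (∑ i ∈ T, E i).Nonempty := by
  classical
  induction T using Finset.induction_on with
  | empty =>
    rw [Finset.sum_empty]
    exact Finset.zero_nonempty
  | insert i T hi ih =>
    rw [Finset.sum_insert hi]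
    exact (h i (Finset.mem_insert_self i T)).add (ih fun l hl => h l (Finset.mem_insert_of_mem hl))

theorem ne_pw (m : ℕ) {B : Finset (Fin N → ℤ)} (h : B.Nonempty) : (pw m B).Nonempty :=
  ne_sum _ fun _ _ => h

variable (b : S → Fin N → ℤ) (B1 B2 : S → Finset (Fin N → ℤ)) (D : ℕ)

/-- The exponents of the numerator of the row without special part. -/
def EP (j : Fin N) : Finset (Fin N → ℤ) :=
  {Pi.single j (D : ℤ)} + ∑ s, (pw (b s j).toNat (B1 s) + pw (-(b s j)).toNat (B2 s))

/-- The exponents of the denominator of the row without special part. -/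
def EQ (j : Fin N) : Finset (Fin N → ℤ) :=
  ∑ s, (pw (b s j).toNat (B2 s) + pw (-(b s j)).toNat (B1 s))

omit [Fintype S] in
/-- The previous row with the same special part. -/
def pr (c : Fin N → Option S) (j : Fin N) : Option (Fin N) :=
  if c j = none then none else (Finset.univ.filter fun i => i < j ∧ c i = c j).max

omit [Fintype S] in
theorem pr_lt {c : Fin N → Option S} {i j : Fin N} (h : pr c j = some i) : i < j ∧ c i = c j := by
  unfold pr at h
  split_ifs at h with h1
  have h2 := Finset.mem_of_max h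
  rw [Finset.mem_filter] at h2
  exact h2.2

omit [Fintype S] in
theorem pr_ge {c : Fin N → Option S} {i j : Fin N} (h1 : i < j) (h2 : c i = c j) (h3 : c j ≠ none) :
    ∃ l, pr c j = some l ∧ i ≤ l := by
  unfold pr
  rw [if_neg h3]
  obtain ⟨l, hl⟩ := Finset.max_of_mem (s := Finset.univ.filter fun i => i < j ∧ c i = c j)
    (Finset.mem_filter.2 ⟨Finset.mem_univ i, h1, h2⟩)
  refine ⟨l, hl, ?_⟩
  exact Finset.le_max_of_eq (Finset.mem_filter.2 ⟨Finset.mem_univ i, h1, h2⟩) hl

omit [Fintype S] in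
theorem pr_none {c : Fin N → Option S} {j : Fin N} (h : c j = none) : pr c j = none := by
  unfold pr
  rw [if_pos h]

omit [Fintype S] in
theorem pr_inj {c : Fin N → Option S} {i j j' : Fin N} (h : pr c j = some i) (h' : pr c j' = some i) : j = j' := by
  obtain ⟨h1, h2⟩ := pr_lt h
  obtain ⟨h1', h2'⟩ := pr_lt h'
  have h3 : c j ≠ none := by
    intro h4
    rw [pr_none h4] at h
    cases h
  have h3' : c j' ≠ none := by
    rw [← h2', h2]
    exact h3
  rcases lt_trichotomy j j' with h4 | h4 | h4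
  · obtain ⟨l, hl, hl'⟩ := pr_ge h4 (h2.symm.trans h2') h3'
    rw [h', Option.some.injEq] at hl
    rw [← hl] at hl'
    exact absurd (lt_of_lt_of_le h1 hl') (lt_irrefl i)
  · exact h4
  · obtain ⟨l, hl, hl'⟩ := pr_ge h4 (h2'.symm.trans h2) h3
    rw [h, Option.some.injEq] at hl
    rw [← hl] at hl'
    exact absurd (lt_of_lt_of_le h1' hl') (lt_irrefl i)

omit [Fintype S] in
theorem pr_first {c : Fin N → Option S} {j j' : Fin N} {s : S} (h : c j = some s) (h' : c j' = some s)
    (hj : pr c j = none) (hj' : pr c j' = none) : j = j' := by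
  rcases lt_trichotomy j j' with h4 | h4 | h4
  · obtain ⟨l, hl, _⟩ := pr_ge h4 (h.trans h'.symm) (by rw [h']; exact Option.some_ne_none s)
    rw [hj'] at hl
    cases hl
  · exact h4
  · obtain ⟨l, hl, _⟩ := pr_ge h4 (h'.trans h.symm) (by rw [h]; exact Option.some_ne_none s)
    rw [hj] at hl
    cases hl

/-- The exponents of the row `j`. -/
def ER (c : Fin N → Option S) (j : Fin N) : Finset (Fin N → ℤ) :=
  match c j with
  | none => EP b B1 B2 D j ∪ EQ b B1 B2 j
  | some s => match pr c j with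
    | none => B2 s
    | some _ => B2 s + B1 s

theorem ER_ne (h1 : ∀ s, (B1 s).Nonempty) (h12 : ∀ s, B1 s ⊆ B2 s) (c : Fin N → Option S) (j : Fin N) :
    (ER b B1 B2 D c j).Nonempty := by
  have h2 : ∀ s, (B2 s).Nonempty := fun s => (h1 s).mono (h12 s)
  unfold ER
  split
  · refine Finset.Nonempty.mono Finset.subset_union_right ?_
    exact ne_sum _ fun s _ => (ne_pw _ (h2 s)).add (ne_pw _ (h1 s))
  · split
    · exact h2 _
    · exact (h2 _).add (h1 _)

theorem EP_EQ {O : ValuationSubring F} (hD : ∀ j, O.valuation (g j : F) ^ D =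
      ∏ s, (MB O g (B2 s) / MB O g (B1 s)) ^ (b s j)) (h1 : ∀ s, (B1 s).Nonempty) (h12 : ∀ s, B1 s ⊆ B2 s)
    (j : Fin N) : MB O g (EP b B1 B2 D j) = MB O g (EQ b B1 B2 j) := by
  have k1 : ∀ s, MB O g (B1 s) ≠ 0 := fun s => (MB_pos (h1 s)).ne'
  have k2 : ∀ s, MB O g (B2 s) ≠ 0 := fun s => (MB_pos ((h1 s).mono (h12 s))).ne'
  unfold EP EQ
  rw [MB_add, MB_singleton, mon_single, Units.val_pow_eq_pow_val, map_pow, hD j, MB_sum, MB_sum,
    ← Finset.prod_mul_distrib]
  refine Finset.prod_congr rfl fun s _ => ?_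
  rw [MB_add, MB_add, MB_pw, MB_pw, MB_pw, MB_pw]
  rcases le_total 0 (b s j) with h | h
  · obtain ⟨m, hm⟩ := Int.eq_ofNat_of_zero_le h
    rw [hm]
    have e1 : (-((m : ℕ) : ℤ)).toNat = 0 := by omega
    rw [e1, Int.toNat_natCast, pow_zero, mul_one, pow_zero, mul_one, zpow_natCast, div_pow,
      div_mul_cancel₀ _ (pow_ne_zero _ (k1 s))]
  · obtain ⟨m, hm⟩ := Int.eq_ofNat_of_zero_le (neg_nonneg.2 h)
    have hm' : b s j = -((m : ℕ) : ℤ) := by omega
    rw [hm']
    have e1 : (-((m : ℕ) : ℤ)).toNat = 0 := by omega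
    have e2 : (-(-((m : ℕ) : ℤ))).toNat = m := by omega
    rw [e1, e2, pow_zero, one_mul, pow_zero, one_mul, zpow_neg, zpow_natCast, div_pow, inv_div,
      div_mul_cancel₀ _ (pow_ne_zero _ (k2 s))]

end sets

end Pool.Agent.MP_b197b4_ntUV
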