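import Pool.Agent.Lib.MP_b197b4_ntUV.ERow

/-!
# UV, leaf ERow2: the elements of the rows and the number of the rows which vanish at a point
-/

set_option autoImplicit false
set_option linter.unusedSectionVars false
set_option linter.unusedVariables false

noncomputable section

open scoped Pointwise

namespace Pool.Agent.MP_b197b4_ntUV

variable {k F : Type} [Field k] [Field F] [Algebra k F] {N : ℕ}

theorem Rep.pow {g : Fin N → Fˣ} {G : Type} {𝔅 : G → Finset (Fin N → ℤ)} {s : G → Fˣ} {a : F}
    {E : Finset (Fin N → ℤ)} {U : Set G} {X : ValuationSubring F → Prop} (h : Rep k g 𝔅 s a E U X) (m : ℕ) :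
    Rep k g 𝔅 s (a ^ m) (pw m E) U X := by
  have h1 := Rep.prod (Finset.range m) (a := fun _ => a) (E := fun _ => E) fun _ _ => h
  rw [Finset.prod_const, Finset.card_range] at h1
  exact h1

section elts

variable {S : Type} [Fintype S] [DecidableEq S] (g : Fin N → Fˣ) (b : S → Fin N → ℤ)
  (B1 B2 : S → Finset (Fin N → ℤ)) (D : ℕ)

/-- The indices of the generic elements: `inl (j, s, false)` and `inl (j, s, true)` are the two generic elements of the
row `j` with the support functions of `B1 s` and `B2 s`; `inr (j, c)` is the filler of the row `j` for `c`. -/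
abbrev GG (N : ℕ) (S : Type) : Type := (Fin N × S × Bool) ⊕ (Fin N × (Fin N → Option S))

/-- The exponents of the generic elements. -/
def BB : GG N S → Finset (Fin N → ℤ)
  | Sum.inl (_, s, false) => B1 s
  | Sum.inl (_, s, true) => B2 s
  | Sum.inr (j, c) => ∑ i ∈ Finset.univ.erase j, ER b B1 B2 D c i

variable (z : GG N S → Fˣ)

/-- The numerator of the row without special part. -/
def PP (j : Fin N) : Fˣ :=
  g j ^ D * ∏ s, (z (Sum.inl (j, s, false)) ^ (b s j).toNat * z (Sum.inl (j, s, true)) ^ (-(b s j)).toNat)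

/-- The denominator of the row without special part. -/
def QQ (j : Fin N) : Fˣ :=
  ∏ s, (z (Sum.inl (j, s, true)) ^ (b s j).toNat * z (Sum.inl (j, s, false)) ^ (-(b s j)).toNat)

/-- The element of the row `j` for the choice `τ`. -/
def yy (j : Fin N) : Option S → Fˣ
  | none => PP g b D z j / QQ b z j
  | some s => z (Sum.inl (j, s, true)) / z (Sum.inl (j, s, false))

/-- The numerator of the row `j` of the chain. -/
def nn (c : Fin N → Option S) (j : Fin N) : Fˣ :=
  match c j with
  | none => PP g b D z j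
  | some s => match pr c j with
    | none => z (Sum.inl (j, s, true))
    | some i => z (Sum.inl (j, s, true)) * z (Sum.inl (i, s, false))

/-- The denominator of the row `j` of the chain. -/
def dd (c : Fin N → Option S) (j : Fin N) : Fˣ :=
  match c j with
  | none => QQ b z j
  | some s => match pr c j with
    | none => z (Sum.inl (j, s, false))
    | some i => z (Sum.inl (i, s, true)) * z (Sum.inl (j, s, false))

/-- The row `j` of the chain. -/
def ww (c : Fin N → Option S) (j : Fin N) : Fˣ :=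
  match pr c j with
  | none => yy g b D z j (c j)
  | some i => yy g b D z j (c j) / yy g b D z i (c i)

theorem nn_dd (c : Fin N → Option S) (j : Fin N) : nn g b D z c j / dd b z c j = ww g b D z c j := by
  unfold nn dd ww
  rcases hc : c j with _ | s
  · rw [pr_none hc]
    rfl
  · rcases hp : pr c j with _ | i
    · rfl
    · have h1 : c i = some s := (pr_lt hp).2.trans hc
      simp only [h1, yy]
      rw [div_div_div_eq, mul_comm (z (Sum.inl (j, s, false)))]

/-- The generic elements of the row `j`. -/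
def UU (c : Fin N → Option S) (j : Fin N) : Set (GG N S) :=
  {γ | (∃ s e, γ = Sum.inl (j, s, e)) ∨ (∃ i s e, pr c j = some i ∧ γ = Sum.inl (i, s, e)) ∨ γ = Sum.inr (j, c)}

/-- The special part of the row `j` vanishes at `O`. -/
def XX (c : Fin N → Option S) (j : Fin N) (O : ValuationSubring F) : Prop :=
  ∃ s, c j = some s ∧ pr c j = none ∧ MB O g (B1 s) < MB O g (B2 s)

variable {g b B1 B2 D z}

theorem rep_PP (hz : ∀ γ, (z γ : F) ∈ HB k g (BB b B1 B2 D γ)) {j : Fin N} {U : Set (GG N S)}
    (hU : ∀ s e, Sum.inl (j, s, e) ∈ U) {X : ValuationSubring F → Prop} :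
    Rep k g (BB b B1 B2 D) z (PP g b D z j : F) (EP b B1 B2 D j) U X := by
  have h1 : (PP g b D z j : F) = (mon g (Pi.single j (D : ℤ)) : F) *
      ∏ s, ((z (Sum.inl (j, s, false)) : F) ^ (b s j).toNat * (z (Sum.inl (j, s, true)) : F) ^ (-(b s j)).toNat) := by
    unfold PP
    rw [mon_single, Units.val_mul, Units.coe_prod]
    simp only [Units.val_mul, Units.val_pow_eq_pow_val]
  rw [h1]
  refine (Rep.mon _).mul (Rep.prod _ fun s _ => ?_)
  exact ((Rep.gen (γ := (Sum.inl (j, s, false) : GG N S)) (hz _) (hU s false)).pow _).mul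
    ((Rep.gen (γ := (Sum.inl (j, s, true) : GG N S)) (hz _) (hU s true)).pow _)

theorem rep_QQ (hz : ∀ γ, (z γ : F) ∈ HB k g (BB b B1 B2 D γ)) {j : Fin N} {U : Set (GG N S)}
    (hU : ∀ s e, Sum.inl (j, s, e) ∈ U) {X : ValuationSubring F → Prop} :
    Rep k g (BB b B1 B2 D) z (QQ b z j : F) (EQ b B1 B2 j) U X := by
  have h1 : (QQ b z j : F) =
      ∏ s, ((z (Sum.inl (j, s, true)) : F) ^ (b s j).toNat * (z (Sum.inl (j, s, false)) : F) ^ (-(b s j)).toNat) := by
    unfold QQ
    rw [Units.coe_prod]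
    simp only [Units.val_mul, Units.val_pow_eq_pow_val]
  rw [h1]
  refine Rep.prod _ fun s _ => ?_
  exact ((Rep.gen (γ := (Sum.inl (j, s, true) : GG N S)) (hz _) (hU s true)).pow _).mul
    ((Rep.gen (γ := (Sum.inl (j, s, false) : GG N S)) (hz _) (hU s false)).pow _)

theorem rep_row (hz : ∀ γ, (z γ : F) ∈ HB k g (BB b B1 B2 D γ)) (h1 : ∀ s, (B1 s).Nonempty)
    (h12 : ∀ s, B1 s ⊆ B2 s)
    (hD : ∀ O : ValuationSubring F, IsPt k O → ∀ j, O.valuation (g j : F) ^ D =
      ∏ s, (MB O g (B2 s) / MB O g (B1 s)) ^ (b s j)) (c : Fin N → Option S) (j : Fin N) :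
    Rep k g (BB b B1 B2 D) z (nn g b D z c j : F) (ER b B1 B2 D c j) (UU c j) (XX g B1 B2 c j) ∧
      Rep k g (BB b B1 B2 D) z (dd b z c j : F) (ER b B1 B2 D c j) (UU c j) (XX g B1 B2 c j) := by
  have hU : ∀ s e, (Sum.inl (j, s, e) : GG N S) ∈ UU c j := fun s e => Or.inl ⟨s, e, rfl⟩
  rcases hc : c j with _ | s
  · have e1 : nn g b D z c j = PP g b D z j := by unfold nn; rw [hc]
    have e2 : dd b z c j = QQ b z j := by unfold dd; rw [hc]
    have e3 : ER b B1 B2 D c j = EP b B1 B2 D j ∪ EQ b B1 B2 j := by unfold ER; rw [hc]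
    rw [e1, e2, e3]
    constructor
    · refine (rep_PP hz hU).mono Finset.subset_union_left fun O hO _ => ?_
      rw [MB_union, EP_EQ b B1 B2 D (hD O hO) h1 h12 j, max_self]
    · refine (rep_QQ hz hU).mono Finset.subset_union_right fun O hO _ => ?_
      rw [MB_union, EP_EQ b B1 B2 D (hD O hO) h1 h12 j, max_self]
  · rcases hp : pr c j with _ | i
    · have e1 : nn g b D z c j = z (Sum.inl (j, s, true)) := by unfold nn; rw [hc]; simp only [hp]
      have e2 : dd b z c j = z (Sum.inl (j, s, false)) := by unfold dd; rw [hc]; simp only [hp]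
      have e3 : ER b B1 B2 D c j = B2 s := by unfold ER; rw [hc]; simp only [hp]
      rw [e1, e2, e3]
      refine ⟨Rep.gen (γ := (Sum.inl (j, s, true) : GG N S)) (hz _) (hU s true), ?_⟩
      refine (Rep.gen (γ := (Sum.inl (j, s, false) : GG N S)) (hz _) (hU s false)).mono (h12 s) fun O hO hX => ?_
      by_contra hlt
      exact hX ⟨s, hc, hp, not_le.1 hlt⟩
    · have e1 : nn g b D z c j = z (Sum.inl (j, s, true)) * z (Sum.inl (i, s, false)) := by
        unfold nn; rw [hc]; simp only [hp]
      have e2 : dd b z c j = z (Sum.inl (i, s, true)) * z (Sum.inl (j, s, false)) := by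
        unfold dd; rw [hc]; simp only [hp]
      have e3 : ER b B1 B2 D c j = B2 s + B1 s := by unfold ER; rw [hc]; simp only [hp]
      have hU' : ∀ e, (Sum.inl (i, s, e) : GG N S) ∈ UU c j := fun e => Or.inr (Or.inl ⟨i, s, e, hp, rfl⟩)
      rw [e1, e2, e3, Units.val_mul, Units.val_mul]
      exact ⟨(Rep.gen (γ := (Sum.inl (j, s, true) : GG N S)) (hz _) (hU s true)).mul
          (Rep.gen (γ := (Sum.inl (i, s, false) : GG N S)) (hz _) (hU' false)),
        (Rep.gen (γ := (Sum.inl (i, s, true) : GG N S)) (hz _) (hU' true)).mul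
          (Rep.gen (γ := (Sum.inl (j, s, false) : GG N S)) (hz _) (hU s false))⟩

/-- The generic element `γ` is in at most two rows. -/
theorem card_rows (c : Fin N → Option S) (γ : GG N S) : {j | γ ∈ UU c j}.ncard ≤ 2 := by
  classical
  rcases γ with ⟨i, s, e⟩ | ⟨i, c'⟩
  · have h1 : {j | pr c j = some i}.ncard ≤ 1 := by
      rw [Set.ncard_le_one (Set.toFinite _)]
      exact fun j hj j' hj' => pr_inj hj hj'
    have h2 : {j | (Sum.inl (i, s, e) : GG N S) ∈ UU c j} ⊆ insert i {j | pr c j = some i} := by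
      rintro j (⟨s', e', h⟩ | ⟨i', s', e', hp, h⟩ | h)
      · rw [Sum.inl.injEq, Prod.mk.injEq] at h
        exact Or.inl h.1.symm
      · rw [Sum.inl.injEq, Prod.mk.injEq] at h
        rw [← h.1] at hp
        exact Or.inr hp
      · cases h
    refine (Set.ncard_le_ncard h2 (Set.toFinite _)).trans ((Set.ncard_insert_le _ _).trans ?_)
    omega
  · have h2 : {j | (Sum.inr (i, c') : GG N S) ∈ UU c j} ⊆ {i} := by
      rintro j (⟨s', e', h⟩ | ⟨i', s', e', hp, h⟩ | h)
      · cases h
      · cases h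
      · rw [Sum.inr.injEq, Prod.mk.injEq] at h
        exact h.1.symm
    refine (Set.ncard_le_ncard h2 (Set.toFinite _)).trans ?_
    rw [Set.ncard_singleton]
    omega

theorem card_special (c : Fin N → Option S) {O : ValuationSubring F} {n : ℕ}
    (h : {s | MB O g (B1 s) < MB O g (B2 s)}.ncard ≤ n) : {j | XX g B1 B2 c j O}.ncard ≤ n := by
  classical
  have h1 : (some '' {s | MB O g (B1 s) < MB O g (B2 s)} : Set (Option S)).ncard ≤ n := by
    rw [Set.ncard_image_of_injective _ (Option.some_injective S)]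
    exact h
  refine le_trans ?_ h1
  refine Set.ncard_le_ncard_of_injOn c ?_ ?_ (Set.toFinite _)
  · rintro j ⟨s, hc, _, hlt⟩
    exact ⟨s, hlt, hc.symm⟩
  · rintro j ⟨s, hc, hp, _⟩ j' ⟨s', hc', hp', _⟩ he
    have hss : s = s' := by
      rw [hc, hc', Option.some.injEq] at he
      exact he
    rw [← hss] at hc'
    exact pr_first hc hc' hp hp'

theorem card_bad (c : Fin N → Option S) {O : ValuationSubring F} {n : ℕ} (T : Set (GG N S)) (hT : T.ncard ≤ n)
    (h : {s | MB O g (B1 s) < MB O g (B2 s)}.ncard ≤ n) :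
    {j | (∃ γ ∈ T, γ ∈ UU c j) ∨ XX g B1 B2 c j O}.ncard ≤ 3 * n := by
  classical
  have h1 : {j | ∃ γ ∈ T, γ ∈ UU c j}.ncard ≤ 2 * n := by
    have hTf : T.Finite := Set.toFinite T
    have h2 : {j | ∃ γ ∈ T, γ ∈ UU c j} =
        ((hTf.toFinset.biUnion fun γ => (Set.toFinite {j | γ ∈ UU c j}).toFinset : Finset (Fin N)) : Set (Fin N)) := by
      ext j
      rw [Finset.mem_coe, Finset.mem_biUnion]
      constructor
      · rintro ⟨γ, hγ, hj⟩
        exact ⟨γ, hTf.mem_toFinset.2 hγ, (Set.Finite.mem_toFinset _).2 hj⟩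
      · rintro ⟨γ, hγ, hj⟩
        have hj' : j ∈ {j | γ ∈ UU c j} := (Set.Finite.mem_toFinset _).1 hj
        exact ⟨γ, hTf.mem_toFinset.1 hγ, hj'⟩
    rw [h2, Set.ncard_coe_finset]
    refine (Finset.card_biUnion_le_card_mul _ _ 2 fun γ _ => ?_).trans ?_
    · rw [← Set.ncard_eq_toFinset_card]
      exact card_rows c γ
    · rw [← Set.ncard_eq_toFinset_card, mul_comm]
      exact Nat.mul_le_mul_left 2 hT
  have h2 := card_special c h
  have h3 : {j | (∃ γ ∈ T, γ ∈ UU c j) ∨ XX g B1 B2 c j O} =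
      {j | ∃ γ ∈ T, γ ∈ UU c j} ∪ {j | XX g B1 B2 c j O} := rfl
  rw [h3]
  refine (Set.ncard_union_le _ _).trans ?_
  omega

end elts

end Pool.Agent.MP_b197b4_ntUV
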