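import Pool.Agent.Lib.MP_b197b4_ntUV.EDefs

/-!
# UV, leaf EVal: the spaces spanned by monomials and their valuations
-/

set_option autoImplicit false

noncomputable section

open scoped Pointwise

namespace Pool.Agent.MP_b197b4_ntUV

variable {k F : Type} [Field k] [Field F] [Algebra k F] {N : ℕ} {g : Fin N → Fˣ} {O : ValuationSubring F}

theorem mon_add (g : Fin N → Fˣ) (β γ : Fin N → ℤ) : mon g (β + γ) = mon g β * mon g γ := by
  unfold mon
  rw [← Finset.prod_mul_distrib]
  refine Finset.prod_congr rfl fun j _ => ?_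
  rw [Pi.add_apply, zpow_add]

theorem mon_zero (g : Fin N → Fˣ) : mon g 0 = 1 := by
  unfold mon
  refine Finset.prod_eq_one fun j _ => ?_
  rw [Pi.zero_apply, zpow_zero]

theorem mon_single (g : Fin N → Fˣ) (j : Fin N) (D : ℕ) : mon g (Pi.single j (D : ℤ)) = g j ^ D := by
  unfold mon
  rw [Finset.prod_eq_single j]
  · rw [Pi.single_eq_same, zpow_natCast]
  · intro b _ hb
    rw [Pi.single_eq_of_ne hb, zpow_zero]
  · intro h
    exact absurd (Finset.mem_univ j) h

theorem HB_fin (B : Finset (Fin N → ℤ)) : FiniteDimensional k (HB k g B) :=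
  FiniteDimensional.span_of_finite k (B.finite_toSet.image _)

theorem mon_mem {B : Finset (Fin N → ℤ)} {β : Fin N → ℤ} (h : β ∈ B) : (mon g β : F) ∈ HB k g B :=
  Submodule.subset_span ⟨β, h, rfl⟩

theorem HB_ne {B : Finset (Fin N → ℤ)} (hB : B.Nonempty) : HB k g B ≠ ⊥ := by
  obtain ⟨β, hβ⟩ := hB
  intro h
  have h1 : (mon g β : F) ∈ HB k g B := mon_mem hβ
  rw [h, Submodule.mem_bot] at h1
  exact (mon g β).ne_zero h1

theorem HB_mono {B B' : Finset (Fin N → ℤ)} (h : B ⊆ B') : HB k g B ≤ HB k g B' :=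
  Submodule.span_mono (Set.image_mono (Finset.coe_subset.2 h))

theorem HB_mul {B B' : Finset (Fin N → ℤ)} {x y : F} (hx : x ∈ HB k g B) (hy : y ∈ HB k g B') :
    x * y ∈ HB k g (B + B') := by
  have h1 := Submodule.mul_mem_mul hx hy
  unfold HB at h1 ⊢
  rw [Submodule.span_mul_span] at h1
  refine Submodule.span_mono ?_ h1
  rintro _ ⟨_, ⟨β, hβ, rfl⟩, _, ⟨γ, hγ, rfl⟩, rfl⟩
  refine ⟨β + γ, Finset.mem_coe.2 (Finset.add_mem_add hβ hγ), ?_⟩
  change ((mon g (β + γ) : Fˣ) : F) = (mon g β : F) * (mon g γ : F)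
  rw [mon_add, Units.val_mul]

theorem MB_pos {B : Finset (Fin N → ℤ)} (hB : B.Nonempty) : 0 < MB O g B := by
  obtain ⟨β, hβ⟩ := hB
  have h1 : O.valuation (mon g β : F) ≤ MB O g B :=
    Finset.le_sup (f := fun β => O.valuation (mon g β : F)) hβ
  refine lt_of_lt_of_le ?_ h1
  exact zero_lt_iff.2 ((Valuation.ne_zero_iff _).2 (mon g β).ne_zero)

theorem MB_mono {B B' : Finset (Fin N → ℤ)} (h : B ⊆ B') : MB O g B ≤ MB O g B' :=
  Finset.sup_mono h

theorem MB_union (B B' : Finset (Fin N → ℤ)) : MB O g (B ∪ B') = max (MB O g B) (MB O g B') := by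
  classical
  unfold MB
  exact Finset.sup_union

theorem MB_singleton (β : Fin N → ℤ) : MB O g {β} = O.valuation (mon g β : F) :=
  Finset.sup_singleton

theorem MB_add (B B' : Finset (Fin N → ℤ)) : MB O g (B + B') = MB O g B * MB O g B' := by
  have hbot : (⊥ : O.ValueGroup) = 0 := le_antisymm bot_le zero_le
  rcases B.eq_empty_or_nonempty with rfl | hB
  · rw [Finset.empty_add]
    change (⊥ : O.ValueGroup) = ⊥ * MB O g B'
    rw [hbot]
    exact (zero_mul (MB O g B')).symm
  rcases B'.eq_empty_or_nonempty with rfl | hB'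
  · rw [Finset.add_empty]
    change (⊥ : O.ValueGroup) = MB O g B * ⊥
    rw [hbot]
    exact (mul_zero (MB O g B)).symm
  refine le_antisymm ?_ ?_
  · refine Finset.sup_le fun δ hδ => ?_
    obtain ⟨β, hβ, γ, hγ, rfl⟩ := Finset.mem_add.1 hδ
    rw [mon_add, Units.val_mul, map_mul]
    exact mul_le_mul' (Finset.le_sup (f := fun β => O.valuation (mon g β : F)) hβ)
      (Finset.le_sup (f := fun β => O.valuation (mon g β : F)) hγ)
  · obtain ⟨β, hβ, h1⟩ := Finset.exists_mem_eq_sup B hB fun β => O.valuation (mon g β : F)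
    obtain ⟨γ, hγ, h2⟩ := Finset.exists_mem_eq_sup B' hB' fun β => O.valuation (mon g β : F)
    have h3 : MB O g B = O.valuation (mon g β : F) := h1
    have h4 : MB O g B' = O.valuation (mon g γ : F) := h2
    rw [h3, h4, ← map_mul, ← Units.val_mul, ← mon_add]
    exact Finset.le_sup (f := fun β => O.valuation (mon g β : F)) (Finset.add_mem_add hβ hγ)

theorem le_MB (hO : IsPt k O) {B : Finset (Fin N → ℤ)} {x : F} (hx : x ∈ HB k g B) :
    O.valuation x ≤ MB O g B := by
  unfold HB at hx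
  induction hx using Submodule.span_induction with
  | mem x hx =>
    obtain ⟨β, hβ, rfl⟩ := hx
    exact Finset.le_sup (f := fun β => O.valuation (mon g β : F)) hβ
  | zero =>
    rw [map_zero]
    exact zero_le
  | add x y _ _ h1 h2 => exact (Valuation.map_add _ x y).trans (max_le h1 h2)
  | smul c x _ h1 =>
    rw [Algebra.smul_def, map_mul]
    have h2 : O.valuation (algebraMap k F c) ≤ 1 := (O.valuation_le_one_iff _).2 (hO c)
    calc O.valuation (algebraMap k F c) * O.valuation x ≤ 1 * MB O g B := mul_le_mul' h2 h1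
      _ = MB O g B := one_mul _

/-- PROOF. `le_MB`, and the supremum is attained (`B` is not empty if `v e < MB`). -/
theorem van_iff (hO : IsPt k O) {B : Finset (Fin N → ℤ)} {e : F} :
    Van O (HB k g B) e ↔ O.valuation e < MB O g B := by
  constructor
  · rintro ⟨x, hx, h⟩
    exact lt_of_lt_of_le h (le_MB hO hx)
  · intro h
    rcases B.eq_empty_or_nonempty with rfl | hB
    · have h1 : MB O g (∅ : Finset (Fin N → ℤ)) = ⊥ := rfl
      rw [h1] at h
      exact absurd h not_lt_bot
    · obtain ⟨β, hβ, h1⟩ := Finset.exists_mem_eq_sup B hB fun β => O.valuation (mon g β : F)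
      have h3 : MB O g B = O.valuation (mon g β : F) := h1
      rw [h3] at h
      exact ⟨_, mon_mem hβ, h⟩

end Pool.Agent.MP_b197b4_ntUV
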