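import Mathlib

/-!
# UV, final part: Milnor K-groups
-/

set_option autoImplicit false

noncomputable section

namespace Pool.Agent.MP_b197b4_ntUV

open scoped TensorProduct

/-- The Steinberg relations: the symbols `a_1 ⊗ … ⊗ a_m` with `a_i + a_(i+1) = 1` for some `i`. -/
def steinbergRel (F : Type*) [Field F] (m : ℕ) : Submodule ℤ (⨂[ℤ] _ : Fin m, Additive Fˣ) :=
  Submodule.span ℤ {x | ∃ (a : Fin m → Fˣ) (i j : Fin m), (j : ℕ) = (i : ℕ) + 1 ∧ (a i : F) + (a j : F) = 1 ∧
    x = PiTensorProduct.tprod ℤ (fun l => Additive.ofMul (a l))}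

/-- The Milnor K-group `K_m^M(F)`: the `m`-th tensor power over `ℤ` of the multiplicative group `F^*` modulo the
symbols `a_1 ⊗ … ⊗ a_m` with `a_i + a_(i+1) = 1` for some `i`. -/
abbrev MilnorK (F : Type*) [Field F] (m : ℕ) : Type _ := (⨂[ℤ] _ : Fin m, Additive Fˣ) ⧸ steinbergRel F m

end Pool.Agent.MP_b197b4_ntUV
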