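import Mathlib

/-!
# UV, final part: an element of an abelian group which is killed by all real functionals is torsion
-/

set_option autoImplicit false

noncomputable section

namespace Pool.Agent.MP_b197b4_ntUV

theorem torsion_of_dual {M : Type*} [AddCommGroup M] (x : M) (h : ∀ φ : M →ₗ[ℤ] ℝ, φ x = 0) :
    ∃ N : ℕ, 0 < N ∧ N • x = 0 := by
  classical
  by_contra hcon
  push Not at hcon
  have hinj : Function.Injective (LinearMap.toSpanSingleton ℤ M x) := by
    rw [← LinearMap.ker_eq_bot, LinearMap.ker_eq_bot']
    intro a ha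
    rw [LinearMap.toSpanSingleton_apply] at ha
    by_contra ha0
    refine hcon a.natAbs (Int.natAbs_pos.2 ha0) ?_
    rcases Int.natAbs_eq a with h1 | h1
    · rw [h1] at ha
      rwa [natCast_zsmul] at ha
    · rw [h1, neg_smul, neg_eq_zero] at ha
      rwa [natCast_zsmul] at ha
  obtain ⟨φ, hφ⟩ := (Module.Baer.of_divisible ℝ).extension_property _ hinj
    (LinearMap.toSpanSingleton ℤ ℝ 1)
  have h1 : φ x = 1 := by
    have := LinearMap.congr_fun hφ 1
    simpa using this
  rw [h φ] at h1
  exact zero_ne_one h1

end Pool.Agent.MP_b197b4_ntUV
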