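import Pool.Agent.Lib.MP_b197b4_ntUV.Defs
import Pool.Agent.Lib.MP_b197b4_ntUV.FDefs
import Pool.Agent.Lib.MP_b197b4_ntUV.FTor

/-!
# UV, final part: functionals on the Milnor K-group are alternating Steinberg maps
-/

set_option autoImplicit false

noncomputable section

namespace Pool.Agent.MP_b197b4_ntUV

variable {F : Type*} [Field F]

theorem symbol_antisymm (c : Fˣ → Fˣ → ℝ) (h1 : ∀ x y z, c (x * y) z = c x z + c y z)
    (h2 : ∀ x y z, c x (y * z) = c x y + c x z)
    (h3 : ∀ x y : Fˣ, (x : F) + y = 1 → c x y = 0) (x y : Fˣ) : c x y = - c y x := by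
  have one_left : ∀ z, c 1 z = 0 := by
    intro z; have := h1 1 1 z; rw [mul_one] at this; linarith
  have one_right : ∀ z, c z 1 = 0 := by
    intro z; have := h2 z 1 1; rw [mul_one] at this; linarith
  have inv_left : ∀ z w, c z⁻¹ w = - c z w := by
    intro z w; have := h1 z z⁻¹ w; rw [mul_inv_cancel, one_left] at this; linarith
  have inv_right : ∀ z w, c z w⁻¹ = - c z w := by
    intro z w; have := h2 z w w⁻¹; rw [mul_inv_cancel, one_right] at this; linarith
  have hneg : ∀ z, c z (-z) = 0 := by
    intro z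
    by_cases hz : (z : F) = 1
    · have : z = 1 := Units.ext hz
      rw [this, one_left]
    · have h4 : (1 : F) - z ≠ 0 := sub_ne_zero.2 (Ne.symm hz)
      have h5 : (1 : F) - (z : F)⁻¹ ≠ 0 := by
        intro h
        apply hz
        have := sub_eq_zero.1 h
        rw [eq_comm, inv_eq_one] at this
        exact this
      have h6 : -z = Units.mk0 _ h4 * (Units.mk0 _ h5)⁻¹ := by
        apply Units.ext
        simp only [Units.val_neg, Units.val_mul, Units.val_mk0, Units.val_inv_eq_inv_val]
        rw [eq_mul_inv_iff_mul_eq₀ h5]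
        have := z.ne_zero
        field_simp
        ring
      rw [h6, h2, inv_right]
      have h7 : c z (Units.mk0 _ h4) = 0 := h3 _ _ (by simp)
      have h8 : c z⁻¹ (Units.mk0 _ h5) = 0 := h3 _ _ (by simp)
      rw [inv_left] at h8
      linarith
  have h9 := hneg (x * y)
  rw [h1] at h9
  have h10 : -(x * y) = (-x) * y := by rw [neg_mul]
  have h11 : -(x * y) = x * (-y) := by rw [mul_neg]
  rw [h10, h2, hneg, ← h10, h11, h2, hneg] at h9
  linarith

section alt

variable {m : ℕ} (μ : MultilinearMap ℤ (fun _ : Fin m => Additive Fˣ) ℝ)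
  (hμ : ∀ (a : Fin m → Fˣ) (i j : Fin m), (j : ℕ) = (i : ℕ) + 1 → (a i : F) + (a j : F) = 1 →
    μ (fun l => Additive.ofMul (a l)) = 0)

include hμ

theorem mu_swap (a : Fin m → Additive Fˣ) (i j : Fin m) (hij : (j : ℕ) = (i : ℕ) + 1) :
    μ (a ∘ Equiv.swap i j) = - μ a := by
  classical
  have hne : i ≠ j := by
    intro h; rw [h] at hij; omega
  let c : Fˣ → Fˣ → ℝ := fun x y =>
    μ (Function.update (Function.update a i (Additive.ofMul x)) j (Additive.ofMul y))
  have h1 : ∀ x y z, c (x * y) z = c x z + c y z := by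
    intro x y z
    simp only [c]
    rw [Function.update_comm hne, Function.update_comm hne, Function.update_comm hne, ofMul_mul,
      μ.map_update_add]
  have h2 : ∀ x y z, c x (y * z) = c x y + c x z := by
    intro x y z
    simp only [c]
    rw [ofMul_mul, μ.map_update_add]
  have h3 : ∀ x y : Fˣ, (x : F) + y = 1 → c x y = 0 := by
    intro x y hxy
    have := hμ (fun l => Additive.toMul (Function.update (Function.update a i (Additive.ofMul x)) j
      (Additive.ofMul y) l)) i j hij (by
        rw [Function.update_self, Function.update_of_ne hne, Function.update_self]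
        exact hxy)
    exact this
  have h4 := symbol_antisymm c h1 h2 h3 (Additive.toMul (a j)) (Additive.toMul (a i))
  have h5 : c (Additive.toMul (a i)) (Additive.toMul (a j)) = μ a := by
    simp only [c]
    congr 1
    ext l
    simp
  have h6 : c (Additive.toMul (a j)) (Additive.toMul (a i)) = μ (a ∘ Equiv.swap i j) := by
    simp only [c]
    congr 1
    funext l
    rw [Function.comp_apply]
    by_cases hlj : l = j
    · subst hlj; simp
    · by_cases hli : l = i
      · subst hli; simp [Function.update_of_ne hlj]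
      · rw [Function.update_of_ne hlj, Function.update_of_ne hli, Equiv.swap_apply_of_ne_of_ne hli hlj]
  rw [← h6, h4, h5]

theorem mu_perm (a : Fin m → Additive Fˣ) (σ : Equiv.Perm (Fin m)) :
    μ (a ∘ σ) = ((Equiv.Perm.sign σ : ℤˣ) : ℤ) * μ a := by
  obtain _ | n := m
  · have : σ = 1 := Subsingleton.elim _ _
    subst this
    simp
  · have hσ : σ ∈ Submonoid.closure (Set.range fun i : Fin n ↦ Equiv.swap i.castSucc i.succ) := by
      rw [Equiv.Perm.mclosure_swap_castSucc_succ]; trivial
    induction hσ using Submonoid.closure_induction generalizing a with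
    | mem x hx =>
      obtain ⟨i, rfl⟩ := hx
      rw [mu_swap μ hμ a i.castSucc i.succ (by simp)]
      rw [Equiv.Perm.sign_swap (Fin.castSucc_lt_succ).ne]
      simp
    | one => simp
    | mul x y _ _ hx hy =>
      have : a ∘ ⇑(x * y) = (a ∘ x) ∘ y := rfl
      rw [this, hy, hx, Equiv.Perm.sign_mul]
      push_cast
      ring

theorem mu_alt (a : Fin m → Additive Fˣ) (i j : Fin m) (h : a i = a j) (hij : i ≠ j) : μ a = 0 := by
  have h1 := mu_perm μ hμ a (Equiv.swap i j)
  have h2 : a ∘ Equiv.swap i j = a := by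
    funext l
    rw [Function.comp_apply]
    by_cases hlj : l = j
    · subst hlj; simp [h]
    · by_cases hli : l = i
      · subst hli; simp [h]
      · rw [Equiv.swap_apply_of_ne_of_ne hli hlj]
  rw [h2, Equiv.Perm.sign_swap hij] at h1
  simp at h1
  linarith

theorem mu_steinberg (a : Fin m → Fˣ) (i j : Fin m) (hij : i ≠ j) (h : (a i : F) + (a j : F) = 1) :
    μ (fun l => Additive.ofMul (a l)) = 0 := by
  have hm : 1 < m := by
    have := i.isLt; have := j.isLt
    have : (i : ℕ) ≠ j := fun h => hij (Fin.ext h)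
    omega
  let p : Fin m := ⟨0, by omega⟩
  let q : Fin m := ⟨1, hm⟩
  have hpq : p ≠ q := by simp [p, q]
  obtain ⟨σ, hσp, hσq⟩ : ∃ σ : Equiv.Perm (Fin m), σ p = i ∧ σ q = j := by
    refine ⟨Equiv.swap (Equiv.swap p i q) j * Equiv.swap p i, ?_, ?_⟩
    · rw [Equiv.Perm.mul_apply, Equiv.swap_apply_left, Equiv.swap_apply_of_ne_of_ne _ hij]
      intro h
      have := (Equiv.swap p i).injective (a₁ := p) (a₂ := q) (by rw [Equiv.swap_apply_left]; exact h)
      exact hpq this
    · rw [Equiv.Perm.mul_apply, Equiv.swap_apply_left]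
  have h1 := mu_perm μ hμ (fun l => Additive.ofMul (a l)) σ
  have h2 : μ ((fun l => Additive.ofMul (a l)) ∘ σ) = 0 := by
    refine hμ (fun l => a (σ l)) p q (by simp [p, q]) ?_
    rw [hσp, hσq]; exact h
  rw [h2] at h1
  rcases Int.units_eq_one_or (Equiv.Perm.sign σ) with h3 | h3 <;> rw [h3] at h1 <;> simp at h1 <;>
    linarith

end alt

/-- the alternating map of a functional on the Milnor K-group -/
def funAlt {m : ℕ} (φ : MilnorK F m →ₗ[ℤ] ℝ) : (Additive Fˣ) [⋀^Fin m]→ₗ[ℤ] ℝ :=
  { (φ ∘ₗ (steinbergRel F m).mkQ).compMultilinearMap (PiTensorProduct.tprod ℤ) with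
    map_eq_zero_of_eq' := by
      intro v i j hv hij
      refine mu_alt ((φ ∘ₗ (steinbergRel F m).mkQ).compMultilinearMap (PiTensorProduct.tprod ℤ)) ?_
        v i j hv hij
      intro a i j hij h
      rw [LinearMap.compMultilinearMap_apply, LinearMap.comp_apply]
      have : (steinbergRel F m).mkQ (PiTensorProduct.tprod ℤ fun l => Additive.ofMul (a l)) = 0 := by
        rw [Submodule.mkQ_apply, Submodule.Quotient.mk_eq_zero]
        exact Submodule.subset_span ⟨a, i, j, hij, h, rfl⟩
      rw [this, map_zero] }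

theorem funAlt_apply {m : ℕ} (φ : MilnorK F m →ₗ[ℤ] ℝ) (a : Fin m → Additive Fˣ) :
    funAlt φ a = φ ((steinbergRel F m).mkQ (PiTensorProduct.tprod ℤ a)) := rfl

theorem funAlt_steinberg {m : ℕ} (φ : MilnorK F m →ₗ[ℤ] ℝ) : Steinberg (funAlt φ) := by
  intro a i j hij h
  refine mu_steinberg (funAlt φ).toMultilinearMap ?_ a i j hij h
  intro a i j hij h
  have : (steinbergRel F m).mkQ (PiTensorProduct.tprod ℤ fun l => Additive.ofMul (a l)) = 0 := by
    rw [Submodule.mkQ_apply, Submodule.Quotient.mk_eq_zero]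
    exact Submodule.subset_span ⟨a, i, j, hij, h, rfl⟩
  change φ ((steinbergRel F m).mkQ (PiTensorProduct.tprod ℤ fun l => Additive.ofMul (a l))) = 0
  rw [this, map_zero]

/-- if all alternating Steinberg maps are zero then the Milnor K-group is torsion -/
theorem milnorK_torsion {m : ℕ}
    (h : ∀ lam : (Additive Fˣ) [⋀^Fin m]→ₗ[ℤ] ℝ, Steinberg lam → ∀ g, lam g = 0) (x : MilnorK F m) :
    ∃ N : ℕ, 0 < N ∧ N • x = 0 := by
  refine torsion_of_dual x ?_
  intro φ
  obtain ⟨y, rfl⟩ := (steinbergRel F m).mkQ_surjective x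
  have h1 : φ ∘ₗ (steinbergRel F m).mkQ = 0 := by
    apply PiTensorProduct.ext
    ext a
    exact h (funAlt φ) (funAlt_steinberg φ) a
  exact LinearMap.congr_fun h1 y

end Pool.Agent.MP_b197b4_ntUV
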