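import Pool.Agent.Lib.MP_b197b4_ntUV.P

/-!
# UV, final part: infinite algebraic extensions of F_p, transcendence degree
-/

set_option autoImplicit false

noncomputable section

namespace Pool.Agent.MP_b197b4_ntUV

theorem locFin_of_algebraic (p : ℕ) [Fact p.Prime] (k : Type) [Field k] [Algebra (ZMod p) k]
    [Algebra.IsAlgebraic (ZMod p) k] [Infinite k] : LocFin k := by
  classical
  intro s q
  obtain ⟨T, hT⟩ := Infinite.exists_subset_card_eq k q
  let L : IntermediateField (ZMod p) k := IntermediateField.adjoin (ZMod p) ((s ∪ T : Finset k) : Set k)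
  have hfd : FiniteDimensional (ZMod p) L := by
    apply IntermediateField.finiteDimensional_adjoin
    intro x _
    exact Algebra.IsIntegral.isIntegral x
  have hfin : Finite L := Module.finite_of_finite (ZMod p)
  refine ⟨L.toSubfield, hfin, ?_, ?_⟩
  · have h1 : (T : Set k) ⊆ (L : Set k) := by
      intro x hx
      apply IntermediateField.subset_adjoin
      simp [Finset.mem_coe.1 hx]
    have h2 : (T : Set k).ncard ≤ (L : Set k).ncard := Set.ncard_le_ncard h1 (Set.toFinite _)
    rw [Set.ncard_coe_finset, hT] at h2
    exact h2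
  · intro x hx
    have : x ∈ L := by
      apply IntermediateField.subset_adjoin
      simp [hx]
    exact this

theorem tdLt_of_trdeg_le {k F : Type} [Field k] [Field F] [Algebra k F] {n : ℕ}
    (h : Algebra.trdeg k F ≤ n) : TdLt k F (n + 1) := by
  intro x hx
  have h1 := hx.lift_cardinalMk_le_trdeg
  rw [Cardinal.mk_fin] at h1
  simp only [Cardinal.lift_id, Cardinal.lift_natCast] at h1
  have h2 := h1.trans h
  rw [Nat.cast_le] at h2
  omega

end Pool.Agent.MP_b197b4_ntUV
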