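import Pool.Agent.Lib.MP_b197b4_ntUV.BC
import Pool.Agent.Lib.MP_b197b4_ntUV.EMain
import Pool.Agent.Lib.MP_b197b4_ntUV.FAlt
import Pool.Agent.Lib.MP_b197b4_ntUV.FLoc

/-!
# UV: the theorem over an infinite algebraic extension of a prime field
-/

set_option autoImplicit false

namespace Pool.Agent.MP_b197b4_ntUV

/-- all alternating Steinberg maps of large degree vanish -/
theorem lam_zero {k F : Type} [Field k] [Field F] [Algebra k F] (hk : LocFin k) {n N : ℕ}
    (htd : TdLt k F (n + 1)) (hN : N0 n (3 * n) ≤ N)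
    (lam : (Additive Fˣ) [⋀^Fin N]→ₗ[ℤ] ℝ) (hS : Steinberg lam) (g : Fin N → Additive Fˣ) :
    lam g = 0 := by
  have := hk.infinite
  exact part_E htd lam (fun V hV A B hA hB hv => BC hk htd hN V hV lam hS A B hA hB hv)
    (fun j => Additive.toMul (g j))

/-- the theorem over infinite algebraic extensions of `F_p` -/
theorem milnorK_high (p : ℕ) [Fact p.Prime] {k F : Type} [Field k] [Field F] [Algebra (ZMod p) k]
    [Algebra.IsAlgebraic (ZMod p) k] [Infinite k] [Algebra k F] {n m : ℕ}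
    (htd : Algebra.trdeg k F ≤ n) (hm : 3 * ((3 * n + 1) * (3 * n + 1).choose n) ≤ m)
    (x : MilnorK F m) : ∃ N : ℕ, 0 < N ∧ N • x = 0 :=
  milnorK_torsion (lam_zero (locFin_of_algebraic p k) (tdLt_of_trdeg_le htd) hm) x

end Pool.Agent.MP_b197b4_ntUV
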