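import Pool.Agent.Lib.MP_b197b4_ntUV.Defs

/-!
# Leaf M: the master lemma (uniformity of free variables)

`v j a`: three variables in each row `j : ι`.  `e j` is the free variable of the row `j`, `rest e v j` the product of the
two others, so `fsum v = sum_j rest e v j * v j (e j)`.

(M1) If `Cov H W J p` then the fibres of `u -> sum_j p_j u_j` (from `ι → H` to `W`) are permuted transitively by
translations supported in `J`; so for `Psi` which does not see the coordinates in `J`:
`card W * sum_(u, sum p_j u_j = 0) Psi u = sum_u Psi u`.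

(M2) the same on `ι → Fin 3 → H`, for functions `Phi` which do not see the variables `v j (e j)`, `j in J`;
`rest e v` does not see any of the variables `v j (e j)`.  (Split `v` into the family of the free variables and the others, or
sum (M1) over the others.)
-/

set_option autoImplicit false

namespace Pool.Agent.MP_b197b4_ntUV

open scoped BigOperators

variable {K F : Type*} [Field K] [Field F] [Algebra K F] {H : Submodule K F}

/-- `f_0 + ... + f_N`, `f_j` the product of the three variables of the row `j` -/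
def fsum {ι : Type*} [Fintype ι] (v : ι → Fin 3 → H) : F := ∑ j, ∏ a, (v j a : F)

/-- the product of the variables of the row `j` other than `e j` -/
def rest {ι : Type*} (e : ι → Fin 3) (v : ι → Fin 3 → H) (j : ι) : F :=
  ∏ a ∈ Finset.univ.erase (e j), (v j a : F)

/-- replace the free variables of `v` by `u` -/
private def mUpd {ι : Type*} (e : ι → Fin 3) (v : ι → Fin 3 → H) (u : ι → H) : ι → Fin 3 → H :=
  fun j a => if a = e j then u j else v j a

private theorem mUpd_rest {ι : Type*} (e : ι → Fin 3) (v : ι → Fin 3 → H) (u : ι → H) :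
    rest e (mUpd e v u) = rest e v := by
  funext j
  unfold rest mUpd
  refine Finset.prod_congr rfl fun a ha => ?_
  rw [if_neg (Finset.ne_of_mem_erase ha)]

private theorem mUpd_prod {ι : Type*} (e : ι → Fin 3) (v : ι → Fin 3 → H) (u : ι → H) (j : ι) :
    ∏ a, (mUpd e v u j a : F) = rest e v j * (u j : F) := by
  rw [← Finset.mul_prod_erase Finset.univ _ (Finset.mem_univ (e j)), mul_comm]
  congr 1
  · refine Finset.prod_congr rfl fun a ha => ?_
    unfold mUpd
    rw [if_neg (Finset.ne_of_mem_erase ha)]
  · unfold mUpd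
    rw [if_pos rfl]

private theorem mUpd_fsum {ι : Type*} [Fintype ι] (e : ι → Fin 3) (v : ι → Fin 3 → H) (u : ι → H) :
    fsum (mUpd e v u) = ∑ j, rest e v j * (u j : F) := by
  unfold fsum
  exact Finset.sum_congr rfl fun j _ => mUpd_prod e v u j

private def mEquiv {ι : Type*} (e : ι → Fin 3) :
    ((ι → Fin 3 → H) × (ι → H)) ≃ ((ι → Fin 3 → H) × (ι → H)) where
  toFun x := (mUpd e x.1 x.2, fun j => x.1 j (e j))
  invFun x := (mUpd e x.1 x.2, fun j => x.1 j (e j))
  left_inv := by
    rintro ⟨v, u⟩
    ext j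
    · unfold mUpd
      by_cases h : ‹Fin 3› = e j
      · simp [h]
      · simp [h]
    · simp [mUpd]
  right_inv := by
    rintro ⟨v, u⟩
    ext j
    · unfold mUpd
      by_cases h : ‹Fin 3› = e j
      · simp [h]
      · simp [h]
    · simp [mUpd]

open Classical in
private theorem m_avg [Fintype H] {ι : Type*} [Fintype ι] (e : ι → Fin 3)
    (g : (ι → Fin 3 → H) → ℝ) :
    ∑ v : ι → Fin 3 → H, ∑ u : ι → H, g (mUpd e v u) =
      (Fintype.card (ι → H) : ℝ) * ∑ v : ι → Fin 3 → H, g v := by
  have h1 : ∑ v : ι → Fin 3 → H, ∑ u : ι → H, g (mUpd e v u) =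
      ∑ x : (ι → Fin 3 → H) × (ι → H), g ((mEquiv e x).1) := by
    rw [Fintype.sum_prod_type]
    rfl
  rw [h1, Equiv.sum_comp (mEquiv e) (fun x => g x.1), Fintype.sum_prod_type]
  simp only [Finset.sum_const, Finset.card_univ, nsmul_eq_mul]
  rw [Finset.mul_sum]

open Classical in
theorem M_fiber (H W : Submodule K F) [Fintype H] [Finite W] {ι : Type*} [Fintype ι]
    (p : ι → F) (hp : ∀ (j : ι) (u : H), p j * (u : F) ∈ W) (J : Finset ι) (hJ : Cov H W J p)
    (Psi : (ι → H) → ℝ) (hPsi : ∀ u u' : ι → H, (∀ j, j ∉ J → u j = u' j) → Psi u = Psi u') :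
    (Nat.card W : ℝ) * ∑ u : ι → H, (if ∑ j, p j * (u j : F) = 0 then Psi u else 0) =
      ∑ u : ι → H, Psi u := by
  have : Fintype W := Fintype.ofFinite W
  set sg : (ι → H) → W := fun u => ⟨∑ j, p j * (u j : F), Submodule.sum_mem _ fun j _ => hp j (u j)⟩ with hsg
  have hsec : ∀ w : W, ∃ s : ι → H, (∀ j, j ∉ J → s j = 0) ∧ ∑ j, p j * (s j : F) = (w : F) := by
    intro w
    obtain ⟨u, hu⟩ := hJ w w.2
    refine ⟨fun j => if j ∈ J then u j else 0, fun j hj => if_neg hj, ?_⟩
    rw [← hu]
    rw [← Finset.sum_filter_add_sum_filter_not Finset.univ (fun j => j ∈ J)]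
    have h2 : ∑ j ∈ Finset.univ.filter (fun j => ¬ j ∈ J), p j * (((if j ∈ J then u j else 0 : H)) : F) = 0 := by
      refine Finset.sum_eq_zero fun j hj => ?_
      rw [if_neg (Finset.mem_filter.mp hj).2]
      simp
    rw [h2, add_zero]
    have h3 : Finset.univ.filter (fun j => j ∈ J) = J := by
      ext j; simp
    rw [h3]
    refine Finset.sum_congr rfl fun j hj => ?_
    change p j * ((if j ∈ J then u j else 0 : H) : F) = _
    rw [if_pos hj]
  choose s hs0 hs1 using hsec
  have h1 : ∀ u : ι → H, Psi u = ∑ w : W, (if sg u = w then Psi u else 0) := by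
    intro u
    rw [Finset.sum_ite_eq Finset.univ (sg u) (fun _ => Psi u), if_pos (Finset.mem_univ _)]
  have h2 : ∀ w : W, ∑ u : ι → H, (if sg u = w then Psi u else 0) =
      ∑ u : ι → H, (if ∑ j, p j * (u j : F) = 0 then Psi u else 0) := by
    intro w
    rw [← Equiv.sum_comp (Equiv.addRight (s w)) (fun u : ι → H => (if sg u = w then Psi u else 0))]
    refine Finset.sum_congr rfl fun u _ => ?_
    have h3 : Psi (u + s w) = Psi u := by
      refine hPsi _ _ fun j hj => ?_
      rw [Pi.add_apply, hs0 w j hj, add_zero]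
    have h4 : sg (u + s w) = w ↔ ∑ j, p j * (u j : F) = 0 := by
      rw [← Subtype.coe_inj]
      have h5 : ((sg (u + s w) : W) : F) = ∑ j, p j * (u j : F) + (w : F) := by
        rw [← hs1 w, ← Finset.sum_add_distrib]
        change ∑ j, p j * (((u + s w) j : H) : F) = _
        refine Finset.sum_congr rfl fun j _ => ?_
        rw [Pi.add_apply, Submodule.coe_add, mul_add]
      rw [h5]
      constructor
      · intro h; exact add_eq_right.mp h
      · intro h; rw [h, zero_add]
    simp only [Equiv.coe_addRight, h3, h4]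
  symm
  calc ∑ u : ι → H, Psi u = ∑ u : ι → H, ∑ w : W, (if sg u = w then Psi u else 0) :=
        Finset.sum_congr rfl fun u _ => h1 u
    _ = ∑ w : W, ∑ u : ι → H, (if sg u = w then Psi u else 0) := Finset.sum_comm
    _ = ∑ _w : W, ∑ u : ι → H, (if ∑ j, p j * (u j : F) = 0 then Psi u else 0) :=
        Finset.sum_congr rfl fun w _ => h2 w
    _ = _ := by
        rw [Finset.sum_const, nsmul_eq_mul, Finset.card_univ, Nat.card_eq_fintype_card]

open Classical in
theorem M_master (H W : Submodule K F) [Fintype H] [Finite W]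
    (hW : ∀ a b c : H, (a : F) * (b : F) * (c : F) ∈ W) {ι : Type*} [Fintype ι]
    (e : ι → Fin 3) (J : Finset ι) (Phi : (ι → Fin 3 → H) → ℝ)
    (hPhi : ∀ v v' : ι → Fin 3 → H, (∀ j a, (j ∈ J → a ≠ e j) → v j a = v' j a) → Phi v = Phi v') :
    (Nat.card W : ℝ) * ∑ v : ι → Fin 3 → H,
        (if fsum v = 0 ∧ Cov H W J (rest e v) then Phi v else 0) =
      ∑ v : ι → Fin 3 → H, (if Cov H W J (rest e v) then Phi v else 0) := by
  have hcard : (Fintype.card (ι → H) : ℝ) ≠ 0 := by
    have : 0 < Fintype.card (ι → H) := Fintype.card_pos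
    exact_mod_cast this.ne'
  apply mul_left_cancel₀ hcard
  rw [mul_left_comm, ← m_avg e (fun v => (if fsum v = 0 ∧ Cov H W J (rest e v) then Phi v else 0)),
    ← m_avg e (fun v => (if Cov H W J (rest e v) then Phi v else 0)), Finset.mul_sum]
  refine Finset.sum_congr rfl fun v _ => ?_
  simp only [mUpd_rest, mUpd_fsum]
  by_cases hc : Cov H W J (rest e v)
  · simp only [hc, and_true, if_true]
    refine M_fiber H W (rest e v) ?_ J hc (fun u => Phi (mUpd e v u)) ?_
    · intro j u
      have h1 := mUpd_prod e v (fun _ => u) j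
      rw [← h1, Fin.prod_univ_three]
      exact hW _ _ _
    · intro u u' huu
      refine hPhi _ _ fun j a hja => ?_
      unfold mUpd
      by_cases ha : a = e j
      · rw [if_pos ha, if_pos ha]
        exact huu j fun hj => hja hj ha
      · rw [if_neg ha, if_neg ha]
  · simp only [hc, and_false, if_false, Finset.sum_const_zero, mul_zero]

end Pool.Agent.MP_b197b4_ntUV
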