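import Pool.Agent.Lib.MP_b197b4_ntUV.S
import Pool.Agent.Lib.MP_b197b4_ntUV.M

/-!
# Leaf K0: tools for the bad events

Rows `Fin (N+1)`, one row `i` is missing in a tuple, the index `none : Option (Fin (N+1))` belongs to the section `r`.

`K0_good_iff`: reindexing of `Good` by the bijection `0 -> none`, `j.succ -> some (i.succAbove j)` of `Fin (N+1)` with the
complement of `some i`.

`K0_fix`: an event which does not see the `N` variables `v j (c j)`, `j /= i`: fixing these variables divides its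
number of points by `card H ^ N` (`Equiv.piEquivPiSubtypeProd` on `Fin (N+1) × Fin 3 -> H`, or a translation argument).

`K0_sz`: curried form of `S_cov`, `κ = Fin (N+1) × Fin 3`.

`K0_tool`: `card W * #{same, fsum = 0, Cov univ (rest e), E} <= #{same, not Cov J (rest e)} + #{same, E}` for an event `E` which
does not see the free variables `v j (e j)`, `j in J` (`e` avoids `c`).  Split by `Cov J (rest e v)`:
if it holds use `M_master` for `J` and `Phi = [same, E]`; if not use `M_master` for `univ` and `Phi = [same, not Cov J (rest e)]`.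
-/

set_option autoImplicit false

namespace Pool.Agent.MP_b197b4_ntUV

open scoped BigOperators

variable {K F : Type*} [Field K] [Field F] [Algebra K F] {H : Submodule K F} {N : ℕ}

/-- the section `r` and the chosen variables of the rows other than `i` -/
def rtup (r : H) (i : Fin (N + 1)) (c : Fin (N + 1) → Fin 3) (v : Fin (N + 1) → Fin 3 → H) :
    Fin (N + 1) → H :=
  Fin.cons r (fun j : Fin N => v (i.succAbove j) (c (i.succAbove j)))

/-- the same family, indexed by `Option (Fin (N+1))` (the value at `some i` is irrelevant) -/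
def otup (r : H) (c : Fin (N + 1) → Fin 3) (v : Fin (N + 1) → Fin 3 → H) :
    Option (Fin (N + 1)) → H :=
  fun o => o.elim r (fun j => v j (c j))

/-- `Good` for a family indexed by `Option (Fin (N+1))` with the index `some i` missing -/
def GoodO (H W : Submodule K F) (i : Fin (N + 1)) (Z : Option (Fin (N + 1)) → H) : Prop :=
  (∀ o, o ≠ some i → Z o ≠ 0) ∧ ∃ (y : Option (Fin (N + 1)) → H) (I : Fin 3 → Finset (Option (Fin (N + 1)))),
    (∀ a b, a ≠ b → Disjoint (I a) (I b)) ∧ (∀ a, some i ∉ I a) ∧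
    ∀ a, Cov H W (I a) (fun o => (Z o : F) * (y o : F))

theorem K0_cov_emb (H W : Submodule K F) {ι ι' : Type*} (f : ι ↪ ι') (I : Finset ι)
    (p : ι' → F) : Cov H W (I.map f) p ↔ Cov H W I (fun j => p (f j)) := by
  constructor
  · intro h w hw
    obtain ⟨u, hu⟩ := h w hw
    refine ⟨fun j => u (f j), ?_⟩
    rw [Finset.sum_map] at hu
    exact hu
  · intro h w hw
    obtain ⟨u, hu⟩ := h w hw
    refine ⟨Function.extend f u (fun _ => 0), ?_⟩
    rw [Finset.sum_map, ← hu]
    refine Finset.sum_congr rfl fun j _ => ?_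
    rw [f.injective.extend_apply]

/-- the embedding `0 -> none`, `j.succ -> some (i.succAbove j)` -/
def K0_emb (i : Fin (N + 1)) : Fin (N + 1) ↪ Option (Fin (N + 1)) where
  toFun := Fin.cons none (fun j : Fin N => some (i.succAbove j))
  inj' := by
    intro a b
    refine Fin.cases ?_ (fun a => ?_) a
    · refine Fin.cases ?_ (fun b => ?_) b
      · intro _
        rfl
      · intro h
        simp at h
    · refine Fin.cases ?_ (fun b => ?_) b
      · intro h
        simp at h
      · intro h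
        simp only [Fin.cons_succ, Option.some.injEq] at h
        rw [Fin.succAbove_right_injective h]

theorem K0_emb_zero (i : Fin (N + 1)) : K0_emb i 0 = none := rfl

theorem K0_emb_succ (i : Fin (N + 1)) (j : Fin N) : K0_emb i j.succ = some (i.succAbove j) := rfl

theorem K0_emb_ne (i : Fin (N + 1)) (j : Fin (N + 1)) : K0_emb i j ≠ some i := by
  refine Fin.cases ?_ (fun j => ?_) j
  · rw [K0_emb_zero]
    exact (Option.some_ne_none i).symm
  · rw [K0_emb_succ]
    intro h
    exact Fin.succAbove_ne i j (Option.some.inj h)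

theorem K0_emb_surj (i : Fin (N + 1)) (o : Option (Fin (N + 1))) (ho : o ≠ some i) :
    ∃ j, K0_emb i j = o := by
  cases o with
  | none => exact ⟨0, rfl⟩
  | some l =>
    obtain ⟨j, hj⟩ := Fin.exists_succAbove_eq (fun h => ho (by rw [h]) : l ≠ i)
    exact ⟨j.succ, by rw [K0_emb_succ, hj]⟩

theorem K0_rtup (r : H) (i : Fin (N + 1)) (c : Fin (N + 1) → Fin 3)
    (v : Fin (N + 1) → Fin 3 → H) (j : Fin (N + 1)) :
    rtup r i c v j = otup r c v (K0_emb i j) := by
  refine Fin.cases ?_ (fun j => ?_) j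
  · rfl
  · rfl

theorem K0_good_iff (H W : Submodule K F) (r : H) (i : Fin (N + 1)) (c : Fin (N + 1) → Fin 3)
    (v : Fin (N + 1) → Fin 3 → H) : Good H W (rtup r i c v) ↔ GoodO H W i (otup r c v) := by
  classical
  constructor
  · rintro ⟨h0, y, I, hd, hI⟩
    refine ⟨?_, Function.extend (K0_emb i) y (fun _ => 0), fun a => (I a).map (K0_emb i), ?_, ?_, ?_⟩
    · intro o ho
      obtain ⟨j, rfl⟩ := K0_emb_surj i o ho
      rw [← K0_rtup]
      exact h0 j
    · intro a b hab
      exact (Finset.disjoint_map _).mpr (hd a b hab)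
    · intro a h
      obtain ⟨j, _, hj⟩ := Finset.mem_map.mp h
      exact K0_emb_ne i j hj
    · intro a
      rw [K0_cov_emb]
      intro w hw
      obtain ⟨u, hu⟩ := hI a w hw
      refine ⟨u, ?_⟩
      rw [← hu]
      refine Finset.sum_congr rfl fun j _ => ?_
      dsimp only
      rw [(K0_emb i).injective.extend_apply, K0_rtup]
  · rintro ⟨h0, y, I, hd, hi, hI⟩
    refine ⟨?_, fun j => y (K0_emb i j), fun a => Finset.univ.filter (fun j => K0_emb i j ∈ I a), ?_, ?_⟩
    · intro j
      rw [K0_rtup]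
      exact h0 _ (K0_emb_ne i j)
    · intro a b hab
      rw [Finset.disjoint_left]
      intro j hj hj'
      rw [Finset.mem_filter] at hj hj'
      exact Finset.disjoint_left.mp (hd a b hab) hj.2 hj'.2
    · intro a
      have h1 : (Finset.univ.filter (fun j => K0_emb i j ∈ I a)).map (K0_emb i) = I a := by
        ext o
        rw [Finset.mem_map]
        constructor
        · rintro ⟨j, hj, rfl⟩
          exact (Finset.mem_filter.mp hj).2
        · intro ho
          obtain ⟨j, rfl⟩ := K0_emb_surj i o (fun h => hi a (h ▸ ho))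
          exact ⟨j, Finset.mem_filter.mpr ⟨Finset.mem_univ _, ho⟩, rfl⟩
      have h2 := hI a
      rw [← h1, K0_cov_emb] at h2
      intro w hw
      obtain ⟨u, hu⟩ := h2 w hw
      refine ⟨u, ?_⟩
      rw [← hu]
      refine Finset.sum_congr rfl fun j _ => ?_
      dsimp only
      rw [K0_rtup]

theorem K0_cov_map (H W : Submodule K F) {ι ι' : Type*} (σ : ι ≃ ι') (I : Finset ι) (p : ι → F) :
    Cov H W (I.map σ.toEmbedding) (fun j => p (σ.symm j)) ↔ Cov H W I p := by
  rw [K0_cov_emb]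
  simp

theorem K0_cov_mono (H W : Submodule K F) {ι : Type*} (I J : Finset ι) (h : I ⊆ J) (p : ι → F)
    (hI : Cov H W I p) : Cov H W J p := by
  classical
  intro w hw
  obtain ⟨u, hu⟩ := hI w hw
  refine ⟨fun j => if j ∈ I then u j else 0, ?_⟩
  rw [← hu]
  symm
  rw [← Finset.sum_subset h]
  · refine Finset.sum_congr rfl fun j hj => ?_
    dsimp only
    rw [if_pos hj]
  · intro j _ hj
    dsimp only
    rw [if_neg hj]
    simp

theorem K0_cov_congr (H W : Submodule K F) {ι : Type*} (I : Finset ι) (p q : ι → F)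
    (h : ∀ j ∈ I, p j = q j) : Cov H W I p ↔ Cov H W I q := by
  have h1 : ∀ u : ι → H, ∑ j ∈ I, p j * (u j : F) = ∑ j ∈ I, q j * (u j : F) := fun u =>
    Finset.sum_congr rfl fun j hj => by rw [h j hj]
  unfold Cov
  simp only [h1]

open Classical in
/-- change the variables `v j (c j)`, `j /= i` -/
noncomputable def K0_put (i : Fin (N + 1)) (c : Fin (N + 1) → Fin 3) (v : Fin (N + 1) → Fin 3 → H)
    (w : {j : Fin (N + 1) // j ≠ i} → H) : Fin (N + 1) → Fin 3 → H := fun j a =>
  if h : j ≠ i ∧ a = c j then w ⟨j, h.1⟩ else v j a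

theorem K0_put_neg (i : Fin (N + 1)) (c : Fin (N + 1) → Fin 3) (v : Fin (N + 1) → Fin 3 → H)
    (w : {j : Fin (N + 1) // j ≠ i} → H) (j : Fin (N + 1)) (a : Fin 3) (h : ¬ (j ≠ i ∧ a = c j)) :
    K0_put i c v w j a = v j a := by
  unfold K0_put
  rw [dif_neg h]

theorem K0_put_pos (i : Fin (N + 1)) (c : Fin (N + 1) → Fin 3) (v : Fin (N + 1) → Fin 3 → H)
    (w : {j : Fin (N + 1) // j ≠ i} → H) (j : Fin (N + 1)) (h : j ≠ i) :
    K0_put i c v w j (c j) = w ⟨j, h⟩ := by
  unfold K0_put
  rw [dif_pos (And.intro h rfl)]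

theorem K0_fix [Fintype H] (i : Fin (N + 1)) (c : Fin (N + 1) → Fin 3) (v0 : Fin (N + 1) → Fin 3 → H)
    (E : (Fin (N + 1) → Fin 3 → H) → Prop)
    (hE : ∀ v v' : Fin (N + 1) → Fin 3 → H, (∀ j a, ¬ (j ≠ i ∧ a = c j) → v j a = v' j a) → (E v ↔ E v')) :
    Nat.card {v : Fin (N + 1) → Fin 3 → H // (∀ j, j ≠ i → v j (c j) = v0 j (c j)) ∧ E v} *
      Fintype.card H ^ N = Nat.card {v : Fin (N + 1) → Fin 3 → H // E v} := by
  classical
  let e : {v : Fin (N + 1) → Fin 3 → H // (∀ j, j ≠ i → v j (c j) = v0 j (c j)) ∧ E v} ×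
      ({j : Fin (N + 1) // j ≠ i} → H) ≃ {v : Fin (N + 1) → Fin 3 → H // E v} :=
    { toFun := fun p => ⟨K0_put i c p.1.1 p.2,
        (hE _ _ (fun j a h => (K0_put_neg i c p.1.1 p.2 j a h).symm)).mp p.1.2.2⟩
      invFun := fun v => (⟨K0_put i c v.1 (fun j => v0 j.1 (c j.1)),
        fun j h => K0_put_pos i c v.1 (fun j => v0 j.1 (c j.1)) j h,
        (hE _ _ (fun j a h => (K0_put_neg i c v.1 (fun j => v0 j.1 (c j.1)) j a h).symm)).mp v.2⟩,
        fun j => v.1 j.1 (c j.1))
      left_inv := by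
        rintro ⟨⟨v, hv1, hv2⟩, w⟩
        refine Prod.ext (Subtype.ext ?_) ?_
        · funext j a
          show K0_put i c (K0_put i c v w) (fun j => v0 j.1 (c j.1)) j a = v j a
          by_cases h : j ≠ i ∧ a = c j
          · obtain ⟨h1, rfl⟩ := h
            rw [K0_put_pos _ _ _ _ j h1, hv1 j h1]
          · rw [K0_put_neg _ _ _ _ _ _ h, K0_put_neg _ _ _ _ _ _ h]
        · funext j
          show K0_put i c v w j.1 (c j.1) = w j
          rw [K0_put_pos _ _ _ _ j.1 j.2]
      right_inv := by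
        rintro ⟨v, hv⟩
        apply Subtype.ext
        funext j a
        show K0_put i c (K0_put i c v (fun j => v0 j.1 (c j.1))) (fun j => v j.1 (c j.1)) j a = v j a
        by_cases h : j ≠ i ∧ a = c j
        · obtain ⟨h1, rfl⟩ := h
          rw [K0_put_pos _ _ _ _ j h1]
        · rw [K0_put_neg _ _ _ _ _ _ h, K0_put_neg _ _ _ _ _ _ h] }
  have h1 := Nat.card_congr e
  rw [Nat.card_prod] at h1
  rw [← h1]
  congr 1
  rw [Nat.card_eq_fintype_card, Fintype.card_fun]
  congr 1
  rw [Fintype.card_subtype_compl]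
  simp

open Classical in
/-- indicator of a proposition -/
noncomputable def K0_ind (P : Prop) : ℝ := if P then 1 else 0

theorem K0_ite (P : Prop) [Decidable P] (x : ℝ) : (if P then x else 0) = K0_ind P * x := by
  unfold K0_ind
  by_cases h : P
  · simp [h]
  · simp [h]

theorem K0_ind_pos {P : Prop} (h : P) : K0_ind P = 1 := by
  unfold K0_ind
  rw [if_pos h]

theorem K0_ind_neg {P : Prop} (h : ¬ P) : K0_ind P = 0 := by
  unfold K0_ind
  rw [if_neg h]

theorem K0_ind_nonneg (P : Prop) : 0 ≤ K0_ind P := by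
  by_cases h : P
  · rw [K0_ind_pos h]
    norm_num
  · rw [K0_ind_neg h]

theorem K0_ind_le_one (P : Prop) : K0_ind P ≤ 1 := by
  by_cases h : P
  · rw [K0_ind_pos h]
  · rw [K0_ind_neg h]
    norm_num

theorem K0_card {α : Type*} [Fintype α] (P : α → Prop) :
    ((Nat.card {v : α // P v} : ℕ) : ℝ) = ∑ v, K0_ind (P v) := by
  classical
  rw [Nat.card_eq_fintype_card, Fintype.card_subtype]
  have h : ∀ v, K0_ind (P v) = if P v then (1 : ℝ) else 0 := fun v => by
    rw [K0_ite, mul_one]
  simp only [h, Finset.sum_boole]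

theorem K0_sz [Fintype K] (H W : Submodule K F) [Fintype H] [Finite W]
    (hW : ∀ a b c : H, (a : F) * (b : F) * (c : F) ∈ W) {ι : Type*} (I : Finset ι)
    (p q : ι → H ⊕ (Fin (N + 1) × Fin 3)) (v0 : Fin (N + 1) → Fin 3 → H)
    (h0 : Cov H W I (fun j => ((Sum.elim id (fun x => v0 x.1 x.2) (p j) : H) : F) *
      ((Sum.elim id (fun x => v0 x.1 x.2) (q j) : H) : F))) :
    Nat.card {v : Fin (N + 1) → Fin 3 → H // ¬ Cov H W I
        (fun j => ((Sum.elim id (fun x => v x.1 x.2) (p j) : H) : F) *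
          ((Sum.elim id (fun x => v x.1 x.2) (q j) : H) : F))} * Fintype.card K
      ≤ 2 * Module.finrank K W * Fintype.card H ^ (3 * (N + 1)) := by
  have h1 := S_cov H W hW (κ := Fin (N + 1) × Fin 3) I p q (fun x => v0 x.1 x.2) h0
  have h2 : Fintype.card (Fin (N + 1) × Fin 3) = 3 * (N + 1) := by
    rw [Fintype.card_prod, Fintype.card_fin, Fintype.card_fin, mul_comm]
  rw [h2] at h1
  refine le_trans (le_of_eq ?_) h1
  congr 1
  refine Nat.card_congr ((Equiv.curry (Fin (N + 1)) (Fin 3) H).symm.subtypeEquiv ?_)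
  intro v
  rfl

theorem K0_master (H W : Submodule K F) [Fintype H] [Finite W]
    (hW : ∀ a b c : H, (a : F) * (b : F) * (c : F) ∈ W) {ι : Type*} [Fintype ι]
    [inst : Fintype (ι → Fin 3 → H)]
    (e : ι → Fin 3) (J : Finset ι) (Phi : (ι → Fin 3 → H) → ℝ)
    (hPhi : ∀ v v' : ι → Fin 3 → H, (∀ j a, (j ∈ J → a ≠ e j) → v j a = v' j a) → Phi v = Phi v') :
    (Nat.card W : ℝ) * ∑ v : ι → Fin 3 → H,
        K0_ind (fsum v = 0 ∧ Cov H W J (rest e v)) * Phi v =
      ∑ v : ι → Fin 3 → H, K0_ind (Cov H W J (rest e v)) * Phi v := by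
  classical
  have h := M_master H W hW e J Phi hPhi
  simp only [K0_ite] at h
  have key : ∀ (i1 i2 : Fintype (ι → Fin 3 → H)) (f : (ι → Fin 3 → H) → ℝ),
      @Finset.sum _ _ _ (@Finset.univ _ i1) f = @Finset.sum _ _ _ (@Finset.univ _ i2) f := by
    intro i1 i2 f
    rw [Subsingleton.elim i1 i2]
  exact (congrArg (fun x => (Nat.card W : ℝ) * x) (key _ _ _)).trans (h.trans (key _ _ _))

theorem K0_tool (H W : Submodule K F) [Fintype H] [Finite W]
    (hW : ∀ a b c : H, (a : F) * (b : F) * (c : F) ∈ W)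
    (i : Fin (N + 1)) (c e : Fin (N + 1) → Fin 3) (he : ∀ j, e j ≠ c j)
    (v0 : Fin (N + 1) → Fin 3 → H) (J : Finset (Fin (N + 1)))
    (E : (Fin (N + 1) → Fin 3 → H) → Prop)
    (hE : ∀ v v' : Fin (N + 1) → Fin 3 → H, (∀ j a, (j ∈ J → a ≠ e j) → v j a = v' j a) → (E v ↔ E v')) :
    Nat.card W * Nat.card {v : Fin (N + 1) → Fin 3 → H // (∀ j, j ≠ i → v j (c j) = v0 j (c j)) ∧
        fsum v = 0 ∧ Cov H W Finset.univ (rest e v) ∧ E v} ≤
      Nat.card {v : Fin (N + 1) → Fin 3 → H // (∀ j, j ≠ i → v j (c j) = v0 j (c j)) ∧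
        ¬ Cov H W J (rest e v)} +
      Nat.card {v : Fin (N + 1) → Fin 3 → H // (∀ j, j ≠ i → v j (c j) = v0 j (c j)) ∧ E v} := by
  set Sm : (Fin (N + 1) → Fin 3 → H) → Prop := fun v => ∀ j, j ≠ i → v j (c j) = v0 j (c j) with hSm
  have hSmE : ∀ v v' : Fin (N + 1) → Fin 3 → H, (∀ j, v j (c j) = v' j (c j)) → (Sm v ↔ Sm v') := by
    intro v v' h
    simp only [hSm]
    exact forall_congr' fun j => by rw [h j]
  have hrest : ∀ v v' : Fin (N + 1) → Fin 3 → H, (∀ j a, a ≠ e j → v j a = v' j a) →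
      rest e v = rest e v' := by
    intro v v' h
    funext j
    unfold rest
    refine Finset.prod_congr rfl fun a ha => ?_
    rw [h j a (Finset.ne_of_mem_erase ha)]
  have h1 := K0_master H W hW e J (fun v => K0_ind (Sm v ∧ E v)) (by
    intro v v' h
    have e1 : Sm v ↔ Sm v' := hSmE v v' fun j => h j (c j) fun _ => (he j).symm
    have e2 : E v ↔ E v' := hE v v' h
    simp only [e1, e2])
  have h2 := K0_master H W hW e Finset.univ
    (fun v => K0_ind (Sm v ∧ ¬ Cov H W J (rest e v))) (by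
    intro v v' h
    have e1 : Sm v ↔ Sm v' := hSmE v v' fun j => h j (c j) fun _ => (he j).symm
    have e2 : rest e v = rest e v' := hrest v v' fun j a ha => h j a fun _ => ha
    simp only [e1, e2])
  have hW0 : (0 : ℝ) ≤ (Nat.card W : ℝ) := Nat.cast_nonneg _
  have hgoal : (Nat.card W : ℝ) * ((Nat.card {v : Fin (N + 1) → Fin 3 → H // Sm v ∧
        fsum v = 0 ∧ Cov H W Finset.univ (rest e v) ∧ E v} : ℕ) : ℝ) ≤
      ((Nat.card {v : Fin (N + 1) → Fin 3 → H // Sm v ∧ ¬ Cov H W J (rest e v)} : ℕ) : ℝ) +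
      ((Nat.card {v : Fin (N + 1) → Fin 3 → H // Sm v ∧ E v} : ℕ) : ℝ) := by
    rw [K0_card (fun v : Fin (N + 1) → Fin 3 → H => Sm v ∧
        fsum v = 0 ∧ Cov H W Finset.univ (rest e v) ∧ E v),
      K0_card (fun v : Fin (N + 1) → Fin 3 → H => Sm v ∧ ¬ Cov H W J (rest e v)),
      K0_card (fun v : Fin (N + 1) → Fin 3 → H => Sm v ∧ E v)]
    calc (Nat.card W : ℝ) * ∑ v, K0_ind (Sm v ∧ fsum v = 0 ∧ Cov H W Finset.univ (rest e v) ∧ E v)
        ≤ (Nat.card W : ℝ) * (∑ v : Fin (N + 1) → Fin 3 → H,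
              K0_ind (fsum v = 0 ∧ Cov H W Finset.univ (rest e v)) *
                K0_ind (Sm v ∧ ¬ Cov H W J (rest e v)) +
            ∑ v : Fin (N + 1) → Fin 3 → H, K0_ind (fsum v = 0 ∧ Cov H W J (rest e v)) *
                K0_ind (Sm v ∧ E v)) := by
          refine mul_le_mul_of_nonneg_left ?_ hW0
          rw [← Finset.sum_add_distrib]
          refine Finset.sum_le_sum fun v _ => ?_
          by_cases a1 : Sm v ∧ fsum v = 0 ∧ Cov H W Finset.univ (rest e v) ∧ E v
          · rw [K0_ind_pos a1]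
            obtain ⟨a1, a2, a3, a4⟩ := a1
            by_cases a5 : Cov H W J (rest e v)
            · rw [K0_ind_pos (And.intro a2 a5), K0_ind_pos (And.intro a1 a4)]
              have := mul_nonneg (K0_ind_nonneg (fsum v = 0 ∧ Cov H W Finset.univ (rest e v)))
                (K0_ind_nonneg (Sm v ∧ ¬ Cov H W J (rest e v)))
              linarith
            · rw [K0_ind_pos (And.intro a2 a3), K0_ind_pos (And.intro a1 a5)]
              have := mul_nonneg (K0_ind_nonneg (fsum v = 0 ∧ Cov H W J (rest e v)))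
                (K0_ind_nonneg (Sm v ∧ E v))
              linarith
          · rw [K0_ind_neg a1]
            exact add_nonneg (mul_nonneg (K0_ind_nonneg _) (K0_ind_nonneg _))
              (mul_nonneg (K0_ind_nonneg _) (K0_ind_nonneg _))
      _ = ∑ v : Fin (N + 1) → Fin 3 → H, K0_ind (Cov H W Finset.univ (rest e v)) *
                K0_ind (Sm v ∧ ¬ Cov H W J (rest e v)) +
            ∑ v : Fin (N + 1) → Fin 3 → H, K0_ind (Cov H W J (rest e v)) *
                K0_ind (Sm v ∧ E v) := by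
          rw [mul_add, h1, h2]
      _ ≤ ∑ v : Fin (N + 1) → Fin 3 → H, K0_ind (Sm v ∧ ¬ Cov H W J (rest e v)) +
            ∑ v : Fin (N + 1) → Fin 3 → H, K0_ind (Sm v ∧ E v) := by
          refine add_le_add (Finset.sum_le_sum fun v _ => ?_) (Finset.sum_le_sum fun v _ => ?_)
          · exact mul_le_of_le_one_left (K0_ind_nonneg _) (K0_ind_le_one _)
          · exact mul_le_of_le_one_left (K0_ind_nonneg _) (K0_ind_le_one _)
  exact_mod_cast hgoal

end Pool.Agent.MP_b197b4_ntUV
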