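import Pool.Agent.Lib.MP_b197b4_ntUV.K0

/-!
# Leaf K1: the products `rest` are good for most values (no constraint)

Let `Z = otup r c v0` be good with the row `i` missing, `y, I` a witness, and let `i'` be any row, `σ = swap (some i) (some i')`
on `Option (Fin (N+1))`.  `I_a' = σ(I_a)` does not contain `some i'`, and `Z' = Z ∘ σ`, `y' = y ∘ σ` cover on `I_a'`
(`K0_cov_map`).

`K1_rest`: for a witness set `I` with `none ∉ I` and any choice `e'` : among the `v` with the same `c`-variables as `v0`
(rows `/= i`) the set `{j : some j in σ I}` of rows is covered by `rest e' v` up to a proportion `2 dim W / card K`.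
Proof: `K0_fix` + `K0_sz`; the two atoms of row `j` are the two variables `v j a`, `a /= e' j`, but the one with `a = c j`
(if it is there and `j /= i`) is replaced by the constant `v0 j (c j)`.  Witness point: if `c j /= e' j` and `j /= i` the other
variable is `y' (some j)`; otherwise the two variables are `Z' (some j)` and `y' (some j)`.
`K1_one` is the case `i' = i` and `K0_cov_mono` (a witness set without `none` exists: three disjoint sets).
-/

set_option autoImplicit false

namespace Pool.Agent.MP_b197b4_ntUV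

open scoped BigOperators

variable {K F : Type*} [Field K] [Field F] [Algebra K F] {H : Submodule K F} {N : ℕ}

theorem K1_erase (e : Fin 3) : Finset.univ.erase e = {e + 1, e + 2} := by
  revert e
  decide

theorem K1_ne1 (e : Fin 3) : e + 1 ≠ e := by
  revert e
  decide

theorem K1_ne2 (e : Fin 3) : e + 2 ≠ e := by
  revert e
  decide

theorem K1_ne12 (e : Fin 3) : e + 1 ≠ e + 2 := by
  revert e
  decide

theorem K1_cases (e a : Fin 3) (h : a ≠ e) : a = e + 1 ∨ a = e + 2 := by
  revert h
  revert e a
  decide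

theorem K1_rest_eq {ι : Type*} (e : ι → Fin 3) (v : ι → Fin 3 → H) (j : ι) :
    rest e v j = (v j (e j + 1) : F) * (v j (e j + 2) : F) := by
  unfold rest
  rw [K1_erase, Finset.prod_pair (K1_ne12 _)]

/-- the embedding `j -> swap (some i) (some i') (some j)` -/
def K1_emb (i i' : Fin (N + 1)) : Fin (N + 1) ↪ Option (Fin (N + 1)) where
  toFun := fun j => Equiv.swap (some i) (some i') (some j)
  inj' := fun a b h => Option.some.inj ((Equiv.swap (some i) (some i')).injective h)

theorem K1_map (i i' : Fin (N + 1)) (I : Finset (Option (Fin (N + 1)))) (hn : none ∉ I) :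
    (Finset.univ.filter
      (fun j : Fin (N + 1) => Equiv.swap (some i) (some i') (some j) ∈ I)).map (K1_emb i i') = I := by
  ext o
  rw [Finset.mem_map]
  constructor
  · rintro ⟨j, hj, rfl⟩
    exact (Finset.mem_filter.mp hj).2
  · intro ho
    have h1 : Equiv.swap (some i) (some i') (Equiv.swap (some i) (some i') o) = o :=
      Equiv.swap_apply_self _ _ _
    cases h2 : Equiv.swap (some i) (some i') o with
    | none =>
      rw [h2, Equiv.swap_apply_of_ne_of_ne (Option.some_ne_none _).symm
        (Option.some_ne_none _).symm] at h1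
      rw [← h1] at ho
      exact absurd ho hn
    | some j =>
      rw [h2] at h1
      refine ⟨j, Finset.mem_filter.mpr ⟨Finset.mem_univ _, ?_⟩, h1⟩
      rw [h1]
      exact ho

theorem K1_pick {α : Type*} [DecidableEq α] (I : Fin 3 → Finset α)
    (hd : ∀ a b, a ≠ b → Disjoint (I a) (I b)) (x : α) : ∃ a, x ∉ I a := by
  by_cases h : x ∈ I 0
  · exact ⟨1, fun h1 => Finset.disjoint_left.mp (hd 0 1 (by decide)) h h1⟩
  · exact ⟨0, h⟩

open Classical in
/-- the atom of the variable `(j, a)` -/
noncomputable def K1_atom (i : Fin (N + 1)) (c : Fin (N + 1) → Fin 3) (v0 : Fin (N + 1) → Fin 3 → H)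
    (j : Fin (N + 1)) (a : Fin 3) : H ⊕ (Fin (N + 1) × Fin 3) :=
  if j ≠ i ∧ a = c j then Sum.inl (v0 j (c j)) else Sum.inr (j, a)

theorem K1_atom_same (i : Fin (N + 1)) (c : Fin (N + 1) → Fin 3) (v0 v : Fin (N + 1) → Fin 3 → H)
    (j : Fin (N + 1)) (a : Fin 3) (h : j ≠ i → v j (c j) = v0 j (c j)) :
    (Sum.elim id (fun x : Fin (N + 1) × Fin 3 => v x.1 x.2) (K1_atom i c v0 j a) : H) = v j a := by
  unfold K1_atom
  by_cases h1 : j ≠ i ∧ a = c j
  · rw [if_pos h1]
    obtain ⟨h1, rfl⟩ := h1
    exact (h h1).symm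
  · rw [if_neg h1]
    rfl

theorem K1_atom_congr (i : Fin (N + 1)) (c : Fin (N + 1) → Fin 3) (v0 v v' : Fin (N + 1) → Fin 3 → H)
    (j : Fin (N + 1)) (a : Fin 3) (h : ¬ (j ≠ i ∧ a = c j) → v j a = v' j a) :
    (Sum.elim id (fun x : Fin (N + 1) × Fin 3 => v x.1 x.2) (K1_atom i c v0 j a) : H) =
      (Sum.elim id (fun x : Fin (N + 1) × Fin 3 => v' x.1 x.2) (K1_atom i c v0 j a) : H) := by
  unfold K1_atom
  by_cases h1 : j ≠ i ∧ a = c j
  · rw [if_pos h1]
    rfl
  · rw [if_neg h1]
    exact h h1

theorem K1_rest [Fintype K] (H W : Submodule K F) [Fintype H] [Finite W]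
    (hW : ∀ a b c : H, (a : F) * (b : F) * (c : F) ∈ W)
    (r : H) (i i' : Fin (N + 1)) (c e' : Fin (N + 1) → Fin 3) (v0 : Fin (N + 1) → Fin 3 → H)
    (y : Option (Fin (N + 1)) → H) (I : Finset (Option (Fin (N + 1)))) (hi : some i ∉ I) (hn : none ∉ I)
    (hI : Cov H W I (fun o => (otup r c v0 o : F) * (y o : F))) :
    Nat.card {v : Fin (N + 1) → Fin 3 → H // (∀ j, j ≠ i → v j (c j) = v0 j (c j)) ∧
        ¬ Cov H W (Finset.univ.filter (fun j : Fin (N + 1) => Equiv.swap (some i) (some i') (some j) ∈ I))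
          (rest e' v)} * Fintype.card K * Fintype.card H ^ N
      ≤ 2 * Module.finrank K W * Fintype.card H ^ (3 * (N + 1)) := by
  classical
  set J := Finset.univ.filter
    (fun j : Fin (N + 1) => Equiv.swap (some i) (some i') (some j) ∈ I) with hJ
  -- the event with constants
  let E : (Fin (N + 1) → Fin 3 → H) → Prop := fun v => ¬ Cov H W J (fun j =>
    ((Sum.elim id (fun x : Fin (N + 1) × Fin 3 => v x.1 x.2) (K1_atom i c v0 j (e' j + 1)) : H) : F) *
    ((Sum.elim id (fun x : Fin (N + 1) × Fin 3 => v x.1 x.2) (K1_atom i c v0 j (e' j + 2)) : H) : F))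
  have hE : ∀ v v' : Fin (N + 1) → Fin 3 → H,
      (∀ j a, ¬ (j ≠ i ∧ a = c j) → v j a = v' j a) → (E v ↔ E v') := by
    intro v v' h
    have h1 : ∀ j a,
        (Sum.elim id (fun x : Fin (N + 1) × Fin 3 => v x.1 x.2) (K1_atom i c v0 j a) : H) =
        (Sum.elim id (fun x : Fin (N + 1) × Fin 3 => v' x.1 x.2) (K1_atom i c v0 j a) : H) :=
      fun j a => K1_atom_congr i c v0 v v' j a (h j a)
    simp only [E, h1]
  have hfix := K0_fix i c v0 E hE
  have hcongr : Nat.card {v : Fin (N + 1) → Fin 3 → H // (∀ j, j ≠ i → v j (c j) = v0 j (c j)) ∧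
        ¬ Cov H W J (rest e' v)} =
      Nat.card {v : Fin (N + 1) → Fin 3 → H // (∀ j, j ≠ i → v j (c j) = v0 j (c j)) ∧ E v} := by
    refine Nat.card_congr (Equiv.subtypeEquivRight fun v => ?_)
    refine and_congr_right fun hv => not_congr ?_
    apply K0_cov_congr
    intro j _
    rw [K1_rest_eq, K1_atom_same i c v0 v j _ (hv j), K1_atom_same i c v0 v j _ (hv j)]
  -- the witness point
  let v1 : Fin (N + 1) → Fin 3 → H := fun j a =>
    if j ≠ i ∧ a = c j then v0 j (c j) else
      if j ≠ i ∧ c j ≠ e' j then y (Equiv.swap (some i) (some i') (some j)) else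
        if a = e' j + 1 then otup r c v0 (Equiv.swap (some i) (some i') (some j))
          else y (Equiv.swap (some i) (some i') (some j))
  have hv1 : ∀ j, j ≠ i → v1 j (c j) = v0 j (c j) := by
    intro j hj
    dsimp only [v1]
    rw [if_pos ⟨hj, rfl⟩]
  have hwit : Cov H W J (fun j =>
      ((Sum.elim id (fun x : Fin (N + 1) × Fin 3 => v1 x.1 x.2)
        (K1_atom i c v0 j (e' j + 1)) : H) : F) *
      ((Sum.elim id (fun x : Fin (N + 1) × Fin 3 => v1 x.1 x.2)
        (K1_atom i c v0 j (e' j + 2)) : H) : F)) := by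
    have h1 := hI
    rw [← K1_map i i' I hn, K0_cov_emb] at h1
    refine (K0_cov_congr H W J _ _ ?_).mp h1
    intro j hj
    rw [K1_atom_same i c v0 v1 j _ (hv1 j), K1_atom_same i c v0 v1 j _ (hv1 j)]
    have hjI : Equiv.swap (some i) (some i') (some j) ∈ I := (Finset.mem_filter.mp hj).2
    show ((otup r c v0 (Equiv.swap (some i) (some i') (some j)) : H) : F) *
      ((y (Equiv.swap (some i) (some i') (some j)) : H) : F) = _
    by_cases hji : j = i
    · have g1 : v1 j (e' j + 1) = otup r c v0 (Equiv.swap (some i) (some i') (some j)) := by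
        dsimp only [v1]
        rw [if_neg (fun h => h.1 hji), if_neg (fun h => h.1 hji), if_pos rfl]
      have g2 : v1 j (e' j + 2) = y (Equiv.swap (some i) (some i') (some j)) := by
        dsimp only [v1]
        rw [if_neg (fun h => h.1 hji), if_neg (fun h => h.1 hji), if_neg (K1_ne12 _).symm]
      rw [g1, g2]
    · have hji' : j ≠ i' := by
        rintro rfl
        rw [Equiv.swap_apply_right] at hjI
        exact hi hjI
      have ho : Equiv.swap (some i) (some i') (some j) = some j :=
        Equiv.swap_apply_of_ne_of_ne (fun h => hji (Option.some.inj h))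
          (fun h => hji' (Option.some.inj h))
      have hZ : otup r c v0 (some j) = v0 j (c j) := rfl
      by_cases hc : c j = e' j
      · have g1 : v1 j (e' j + 1) = otup r c v0 (Equiv.swap (some i) (some i') (some j)) := by
          dsimp only [v1]
          rw [if_neg (fun h => K1_ne1 _ (h.2.trans hc)), if_neg (fun h => h.2 hc), if_pos rfl]
        have g2 : v1 j (e' j + 2) = y (Equiv.swap (some i) (some i') (some j)) := by
          dsimp only [v1]
          rw [if_neg (fun h => K1_ne2 _ (h.2.trans hc)), if_neg (fun h => h.2 hc),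
            if_neg (K1_ne12 _).symm]
        rw [g1, g2]
      · rcases K1_cases _ _ hc with h | h
        · have g1 : v1 j (e' j + 1) = v0 j (c j) := by
            dsimp only [v1]
            rw [if_pos ⟨hji, h.symm⟩]
          have g2 : v1 j (e' j + 2) = y (Equiv.swap (some i) (some i') (some j)) := by
            dsimp only [v1]
            rw [if_neg (fun h' => K1_ne12 _ (h.symm.trans h'.2.symm)), if_pos ⟨hji, hc⟩]
          rw [g1, g2, ho, hZ]
        · have g1 : v1 j (e' j + 1) = y (Equiv.swap (some i) (some i') (some j)) := by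
            dsimp only [v1]
            rw [if_neg (fun h' => K1_ne12 _ (h'.2.trans h)), if_pos ⟨hji, hc⟩]
          have g2 : v1 j (e' j + 2) = v0 j (c j) := by
            dsimp only [v1]
            rw [if_pos ⟨hji, h.symm⟩]
          rw [g1, g2, ho, hZ, mul_comm]
  have hsz := K0_sz H W hW J (fun j => K1_atom i c v0 j (e' j + 1))
    (fun j => K1_atom i c v0 j (e' j + 2)) v1 hwit
  rw [hcongr]
  calc _ = (Nat.card {v : Fin (N + 1) → Fin 3 → H //
        (∀ j, j ≠ i → v j (c j) = v0 j (c j)) ∧ E v} * Fintype.card H ^ N) * Fintype.card K := by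
        ring
    _ = Nat.card {v : Fin (N + 1) → Fin 3 → H // E v} * Fintype.card K := by rw [hfix]
    _ ≤ _ := hsz

theorem K1_one [Fintype K] (H W : Submodule K F) [Fintype H] [Finite W]
    (hW : ∀ a b c : H, (a : F) * (b : F) * (c : F) ∈ W)
    (r : H) (i : Fin (N + 1)) (c e' : Fin (N + 1) → Fin 3) (v0 : Fin (N + 1) → Fin 3 → H)
    (hv0 : Good H W (rtup r i c v0)) :
    Nat.card {v : Fin (N + 1) → Fin 3 → H // (∀ j, j ≠ i → v j (c j) = v0 j (c j)) ∧
        ¬ Cov H W Finset.univ (rest e' v)} * Fintype.card K * Fintype.card H ^ N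
      ≤ 2 * Module.finrank K W * Fintype.card H ^ (3 * (N + 1)) := by
  classical
  rw [K0_good_iff] at hv0
  obtain ⟨_, y, I, hd, hi, hI⟩ := hv0
  obtain ⟨a, ha⟩ := K1_pick I hd none
  refine le_trans ?_ (K1_rest H W hW r i i c e' v0 y (I a) (hi a) ha (hI a))
  refine Nat.mul_le_mul_right _ (Nat.mul_le_mul_right _ ?_)
  refine Nat.card_le_card_of_injective
    (fun v => ⟨v.1, v.2.1, fun h => v.2.2 (K0_cov_mono H W _ _ (Finset.subset_univ _) _ h)⟩) ?_
  intro v v' h
  exact Subtype.ext (congrArg (fun x => x.1) h)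

end Pool.Agent.MP_b197b4_ntUV
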