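import Pool.Agent.Lib.MP_b197b4_ntUV.K1

/-!
# Leaf K2: two kinds of bad events under the constraint `fsum v = 0`

`e` avoids `c`, `v` has the same `c`-variables as the good `v0` (rows `/= i`), `Cov univ (rest e v)` holds.

`K2_zero`: the event `v j0 a0 = 0`.  If `j0 /= i`, `a0 = c j0` it is empty (`v0 j0 (c j0) /= 0` by goodness).  Otherwise choose a witness
set `I` with `none ∉ I`, `some j0 ∉ I` (two of the three sets avoid `none`, they are disjoint), `J` = its rows (`K1_rest` with
`i' = i`), and use `K0_tool`: the event does not see the rows of `J`; without the constraint its number is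
`card H ^ (2N+2)` (`K0_fix`), and `card K <= card H`, `1 <= finrank W`.

`K2_cov`: the event `not Cov univ (rest e' v)`, any `e'`.  Two witness sets `I1, I2` avoid `none`; the event implies
`not Cov (rows of I1) (rest e' v)`, which does not see the rows of `I2`: `K0_tool` with `J` = rows of `I2`, `K1_rest` twice (`i' = i`).
-/

set_option autoImplicit false

namespace Pool.Agent.MP_b197b4_ntUV

open scoped BigOperators

variable {K F : Type*} [Field K] [Field F] [Algebra K F] {H : Submodule K F} {N : ℕ}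

/-- three disjoint sets: one of them avoids two given points -/
private lemma K2_pick {α : Type*} (I : Fin 3 → Finset α) (hd : ∀ a b, a ≠ b → Disjoint (I a) (I b))
    (x y : α) : ∃ a, x ∉ I a ∧ y ∉ I a := by
  by_contra hcon
  push Not at hcon
  have key : ∀ (z : α) (a b : Fin 3), a ≠ b → z ∈ I a → z ∈ I b → False := fun z a b hab h1 h2 =>
    Finset.disjoint_left.mp (hd a b hab) h1 h2
  have h0 : ∀ a, x ∈ I a ∨ y ∈ I a := by
    intro a
    by_cases h : x ∈ I a
    · exact Or.inl h
    · exact Or.inr (hcon a h)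
  have e01 : (0 : Fin 3) ≠ 1 := by decide
  have e02 : (0 : Fin 3) ≠ 2 := by decide
  have e12 : (1 : Fin 3) ≠ 2 := by decide
  rcases h0 0 with h | h <;> rcases h0 1 with h' | h' <;> rcases h0 2 with h'' | h''
  · exact key _ _ _ e01 h h'
  · exact key _ _ _ e01 h h'
  · exact key _ _ _ e02 h h''
  · exact key _ _ _ e12 h' h''
  · exact key _ _ _ e12 h' h''
  · exact key _ _ _ e02 h h''
  · exact key _ _ _ e01 h h'
  · exact key _ _ _ e01 h h'

/-- three disjoint sets: two of them avoid a given point -/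
private lemma K2_pick2 {α : Type*} (I : Fin 3 → Finset α) (hd : ∀ a b, a ≠ b → Disjoint (I a) (I b))
    (x : α) : ∃ a b, a ≠ b ∧ x ∉ I a ∧ x ∉ I b := by
  have key : ∀ (z : α) (a b : Fin 3), a ≠ b → z ∈ I a → z ∉ I b := fun z a b hab h1 h2 =>
    Finset.disjoint_left.mp (hd a b hab) h1 h2
  have e01 : (0 : Fin 3) ≠ 1 := by decide
  have e02 : (0 : Fin 3) ≠ 2 := by decide
  have e12 : (1 : Fin 3) ≠ 2 := by decide
  by_cases h : x ∈ I 0
  · exact ⟨1, 2, e12, key _ _ _ e01 h, key _ _ _ e02 h⟩
  · by_cases h' : x ∈ I 1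
    · exact ⟨0, 2, e02, h, key _ _ _ e12 h'⟩
    · exact ⟨0, 1, e01, h, h'⟩

private lemma K2_mono {α : Type*} [Finite α] {p q : α → Prop} (h : ∀ x, p x → q x) :
    Nat.card {x : α // p x} ≤ Nat.card {x : α // q x} :=
  Nat.card_le_card_of_injective (Subtype.map id h) (Subtype.map_injective h Function.injective_id)

private lemma K2_congr {α : Type*} {p q : α → Prop} (h : ∀ x, p x ↔ q x) :
    Nat.card {x : α // p x} = Nat.card {x : α // q x} :=
  Nat.card_congr (Equiv.subtypeEquivRight h)

/-- rows of a witness set -/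
private noncomputable def K2_rows (I : Finset (Option (Fin (N + 1)))) : Finset (Fin (N + 1)) := by
  classical
  exact Finset.univ.filter (fun j : Fin (N + 1) => some j ∈ I)

private lemma K2_mem_rows (I : Finset (Option (Fin (N + 1)))) (j : Fin (N + 1)) :
    j ∈ K2_rows I ↔ some j ∈ I := by
  classical
  simp [K2_rows]

/-- `K1_rest` with `i' = i` -/
private lemma K2_rest [Fintype K] (H W : Submodule K F) [Fintype H] [Finite W]
    (hW : ∀ a b c : H, (a : F) * (b : F) * (c : F) ∈ W)
    (r : H) (i : Fin (N + 1)) (c e' : Fin (N + 1) → Fin 3) (v0 : Fin (N + 1) → Fin 3 → H)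
    (y : Option (Fin (N + 1)) → H) (I : Finset (Option (Fin (N + 1)))) (hi : some i ∉ I) (hn : none ∉ I)
    (hI : Cov H W I (fun o => (otup r c v0 o : F) * (y o : F))) :
    Nat.card {v : Fin (N + 1) → Fin 3 → H // (∀ j, j ≠ i → v j (c j) = v0 j (c j)) ∧
        ¬ Cov H W (K2_rows I) (rest e' v)} * Fintype.card K * Fintype.card H ^ N
      ≤ 2 * Module.finrank K W * Fintype.card H ^ (3 * (N + 1)) := by
  have h := K1_rest H W hW r i i c e' v0 y I hi hn hI
  have hJ : (Finset.univ.filter (fun j : Fin (N + 1) => Equiv.swap (some i) (some i) (some j) ∈ I)) = K2_rows I := by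
    ext j
    rw [K2_mem_rows]
    simp
  rw [hJ] at h
  exact h

theorem K2_zero [Fintype K] (H W : Submodule K F) [Fintype H] [Finite W]
    (hW : ∀ a b c : H, (a : F) * (b : F) * (c : F) ∈ W)
    (r : H) (i : Fin (N + 1)) (c e : Fin (N + 1) → Fin 3) (he : ∀ j, e j ≠ c j)
    (v0 : Fin (N + 1) → Fin 3 → H) (hv0 : Good H W (rtup r i c v0))
    (j0 : Fin (N + 1)) (a0 : Fin 3) :
    Nat.card W * Nat.card {v : Fin (N + 1) → Fin 3 → H // (∀ j, j ≠ i → v j (c j) = v0 j (c j)) ∧
        fsum v = 0 ∧ Cov H W Finset.univ (rest e v) ∧ v j0 a0 = 0} * Fintype.card K * Fintype.card H ^ N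
      ≤ 3 * Module.finrank K W * Fintype.card H ^ (3 * (N + 1)) := by
  classical
  obtain ⟨hne, y, I, hdis, hav, hcov⟩ := (K0_good_iff H W r i c v0).mp hv0
  by_cases hc : j0 ≠ i ∧ a0 = c j0
  · -- the set is empty
    have hempty : IsEmpty {v : Fin (N + 1) → Fin 3 → H // (∀ j, j ≠ i → v j (c j) = v0 j (c j)) ∧
        fsum v = 0 ∧ Cov H W Finset.univ (rest e v) ∧ v j0 a0 = 0} := by
      refine ⟨fun ⟨v, h1, _, _, h4⟩ => ?_⟩
      rw [hc.2, h1 j0 hc.1] at h4
      refine hne (some j0) ?_ ?_
      · intro hh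
        exact hc.1 (Option.some_injective _ hh)
      · simpa [otup] using h4
    rw [Nat.card_of_isEmpty (α := {v : Fin (N + 1) → Fin 3 → H // (∀ j, j ≠ i → v j (c j) = v0 j (c j)) ∧
        fsum v = 0 ∧ Cov H W Finset.univ (rest e v) ∧ v j0 a0 = 0})]
    simp
  · obtain ⟨a, ha1, ha2⟩ := K2_pick I hdis none (some j0)
    have hr : r ≠ 0 := by
      have := hne none (by simp)
      simpa [otup] using this
    -- `card K ≤ card H`
    have hKH : Fintype.card K ≤ Fintype.card H := by
      exact Fintype.card_le_of_injective (fun k : K => k • r) (smul_left_injective K hr)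
    -- `1 ≤ finrank W`
    have hfin : Module.Finite K W := Module.Finite.of_finite
    have hW1 : 1 ≤ Module.finrank K W := by
      have hr' : ((r : F) * r * r) ≠ 0 := by
        have : (r : F) ≠ 0 := by simpa using hr
        exact mul_ne_zero (mul_ne_zero this this) this
      have : Nontrivial W := ⟨⟨⟨(r : F) * r * r, hW r r r⟩, 0, by
        intro hh
        exact hr' (congrArg Subtype.val hh)⟩⟩
      exact Module.finrank_pos
    have h1 := K0_tool H W hW i c e he v0 (K2_rows (I a)) (fun v => v j0 a0 = 0) (by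
      intro v v' hvv
      have : v j0 a0 = v' j0 a0 := by
        refine hvv j0 a0 ?_
        intro hj
        exact absurd ((K2_mem_rows _ _).mp hj) ha2
      simp only [this])
    have h2 := K2_rest H W hW r i c e v0 y (I a) (hav a) ha1 (hcov a)
    have h3 := K0_fix i c v0 (fun v : Fin (N + 1) → Fin 3 → H => v j0 a0 = 0) (by
      intro v v' hvv
      have : v j0 a0 = v' j0 a0 := hvv j0 a0 hc
      simp only [this])
    -- the number of points with one zero
    have h4 : Nat.card {v : Fin (N + 1) → Fin 3 → H // v j0 a0 = 0} * Fintype.card H =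
        Fintype.card H ^ (3 * (N + 1)) := by
      have hE : ({v : Fin (N + 1) → Fin 3 → H // v j0 a0 = 0} × H) ≃ (Fin (N + 1) → Fin 3 → H) :=
        { toFun := fun x => Function.update x.1.1 j0 (Function.update (x.1.1 j0) a0 x.2)
          invFun := fun v => (⟨Function.update v j0 (Function.update (v j0) a0 0), by simp⟩, v j0 a0)
          left_inv := by
            rintro ⟨⟨v, hv⟩, x⟩
            ext1
            · apply Subtype.ext
              simp only [Function.update_self, Function.update_idem]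
              rw [← hv]
              simp
            · simp
          right_inv := by
            intro v
            simp }
      have := Nat.card_congr hE
      rw [Nat.card_prod] at this
      rw [← Nat.card_eq_fintype_card (α := H), this]
      rw [Nat.card_fun, Nat.card_fun, Nat.card_eq_fintype_card (α := Fin 3), Fintype.card_fin,
        Nat.card_eq_fintype_card (α := Fin (N + 1)), Fintype.card_fin, ← pow_mul]
    set A := Nat.card {v : Fin (N + 1) → Fin 3 → H // (∀ j, j ≠ i → v j (c j) = v0 j (c j)) ∧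
        fsum v = 0 ∧ Cov H W Finset.univ (rest e v) ∧ v j0 a0 = 0}
    set B := Nat.card {v : Fin (N + 1) → Fin 3 → H // (∀ j, j ≠ i → v j (c j) = v0 j (c j)) ∧
        ¬ Cov H W (K2_rows (I a)) (rest e v)}
    set C := Nat.card {v : Fin (N + 1) → Fin 3 → H // (∀ j, j ≠ i → v j (c j) = v0 j (c j)) ∧ v j0 a0 = 0}
    set D := Nat.card {v : Fin (N + 1) → Fin 3 → H // v j0 a0 = 0}
    have h5 : C * Fintype.card K * Fintype.card H ^ N ≤ Fintype.card H ^ (3 * (N + 1)) := by
      calc C * Fintype.card K * Fintype.card H ^ N = (C * Fintype.card H ^ N) * Fintype.card K := by ring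
        _ = D * Fintype.card K := by rw [h3]
        _ ≤ D * Fintype.card H := Nat.mul_le_mul_left _ hKH
        _ = _ := h4
    calc Nat.card W * A * Fintype.card K * Fintype.card H ^ N
        ≤ (B + C) * Fintype.card K * Fintype.card H ^ N := by gcongr
      _ = B * Fintype.card K * Fintype.card H ^ N + C * Fintype.card K * Fintype.card H ^ N := by ring
      _ ≤ 2 * Module.finrank K W * Fintype.card H ^ (3 * (N + 1)) + 1 * Fintype.card H ^ (3 * (N + 1)) := by
          rw [one_mul]
          exact Nat.add_le_add h2 h5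
      _ ≤ 2 * Module.finrank K W * Fintype.card H ^ (3 * (N + 1)) +
            Module.finrank K W * Fintype.card H ^ (3 * (N + 1)) := by gcongr
      _ = 3 * Module.finrank K W * Fintype.card H ^ (3 * (N + 1)) := by ring

theorem K2_cov [Fintype K] (H W : Submodule K F) [Fintype H] [Finite W]
    (hW : ∀ a b c : H, (a : F) * (b : F) * (c : F) ∈ W)
    (r : H) (i : Fin (N + 1)) (c e e' : Fin (N + 1) → Fin 3) (he : ∀ j, e j ≠ c j)
    (v0 : Fin (N + 1) → Fin 3 → H) (hv0 : Good H W (rtup r i c v0)) :
    Nat.card W * Nat.card {v : Fin (N + 1) → Fin 3 → H // (∀ j, j ≠ i → v j (c j) = v0 j (c j)) ∧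
        fsum v = 0 ∧ Cov H W Finset.univ (rest e v) ∧ ¬ Cov H W Finset.univ (rest e' v)} *
        Fintype.card K * Fintype.card H ^ N
      ≤ 4 * Module.finrank K W * Fintype.card H ^ (3 * (N + 1)) := by
  classical
  obtain ⟨hne, y, I, hdis, hav, hcov⟩ := (K0_good_iff H W r i c v0).mp hv0
  obtain ⟨a, b, hab, ha, hb⟩ := K2_pick2 I hdis none
  have h1 := K0_tool H W hW i c e he v0 (K2_rows (I b))
    (fun v => ¬ Cov H W (K2_rows (I a)) (rest e' v)) (by
      intro v v' hvv
      have : Cov H W (K2_rows (I a)) (rest e' v) ↔ Cov H W (K2_rows (I a)) (rest e' v') := by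
        refine K0_cov_congr H W _ _ _ ?_
        intro j hj
        rw [K2_mem_rows] at hj
        unfold rest
        refine Finset.prod_congr rfl ?_
        intro x _
        rw [hvv j x ?_]
        intro hj'
        rw [K2_mem_rows] at hj'
        exact absurd hj' (Finset.disjoint_left.mp (hdis a b hab) hj)
      rw [this])
  have h2 := K2_rest H W hW r i c e v0 y (I b) (hav b) hb (hcov b)
  have h3 := K2_rest H W hW r i c e' v0 y (I a) (hav a) ha (hcov a)
  have h0 : Nat.card {v : Fin (N + 1) → Fin 3 → H // (∀ j, j ≠ i → v j (c j) = v0 j (c j)) ∧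
        fsum v = 0 ∧ Cov H W Finset.univ (rest e v) ∧ ¬ Cov H W Finset.univ (rest e' v)} ≤
      Nat.card {v : Fin (N + 1) → Fin 3 → H // (∀ j, j ≠ i → v j (c j) = v0 j (c j)) ∧
        fsum v = 0 ∧ Cov H W Finset.univ (rest e v) ∧ ¬ Cov H W (K2_rows (I a)) (rest e' v)} := by
    refine K2_mono ?_
    rintro v ⟨g1, g2, g3, g4⟩
    exact ⟨g1, g2, g3, fun h => g4 (K0_cov_mono H W _ _ (Finset.subset_univ _) _ h)⟩
  set A := Nat.card {v : Fin (N + 1) → Fin 3 → H // (∀ j, j ≠ i → v j (c j) = v0 j (c j)) ∧
        fsum v = 0 ∧ Cov H W Finset.univ (rest e v) ∧ ¬ Cov H W Finset.univ (rest e' v)}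
  set A' := Nat.card {v : Fin (N + 1) → Fin 3 → H // (∀ j, j ≠ i → v j (c j) = v0 j (c j)) ∧
        fsum v = 0 ∧ Cov H W Finset.univ (rest e v) ∧ ¬ Cov H W (K2_rows (I a)) (rest e' v)}
  set B := Nat.card {v : Fin (N + 1) → Fin 3 → H // (∀ j, j ≠ i → v j (c j) = v0 j (c j)) ∧
        ¬ Cov H W (K2_rows (I b)) (rest e v)}
  set C := Nat.card {v : Fin (N + 1) → Fin 3 → H // (∀ j, j ≠ i → v j (c j) = v0 j (c j)) ∧
        ¬ Cov H W (K2_rows (I a)) (rest e' v)}
  calc Nat.card W * A * Fintype.card K * Fintype.card H ^ N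
      ≤ Nat.card W * A' * Fintype.card K * Fintype.card H ^ N := by gcongr
    _ ≤ (B + C) * Fintype.card K * Fintype.card H ^ N := by gcongr
    _ = B * Fintype.card K * Fintype.card H ^ N + C * Fintype.card K * Fintype.card H ^ N := by ring
    _ ≤ 2 * Module.finrank K W * Fintype.card H ^ (3 * (N + 1)) +
          2 * Module.finrank K W * Fintype.card H ^ (3 * (N + 1)) := Nat.add_le_add h2 h3
    _ = 4 * Module.finrank K W * Fintype.card H ^ (3 * (N + 1)) := by ring

end Pool.Agent.MP_b197b4_ntUV
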