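import Pool.Agent.Lib.MP_b197b4_ntUV.EDefs

/-!
# Definitions for part C
-/

set_option autoImplicit false

namespace Pool.Agent.MP_b197b4_ntUV

open scoped BigOperators

/-- `k` is an infinite union of finite fields: every finite set is contained in finite subfields
of arbitrarily large cardinality. -/
def LocFin (k : Type) [Field k] : Prop :=
  ∀ (s : Finset k) (q : ℕ), ∃ K : Subfield k, Finite K ∧ q ≤ Nat.card K ∧ ∀ x ∈ s, x ∈ K

/-- the monomial `T^a` -/
def mono {F : Type} [Field F] {n : ℕ} (T : Fin (n + 1) → F) (a : Fin (n + 1) → ℕ) : F :=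
  ∏ i, T i ^ a i

/-- the index set of the list of exponents: multisets of `2 n + 1` elements of `{0, …, n}` -/
abbrev Lam (n : ℕ) : Type := Sym (Fin (n + 1)) (2 * n + 1)

/-- the number of symbols needed: `3 (t+1)` times the number of exponents -/
def N0 (n t : ℕ) : ℕ := 3 * ((t + 1) * (3 * n + 1).choose n)

theorem card_Lam (n : ℕ) : Fintype.card (Lam n) = (3 * n + 1).choose n := by
  rw [Sym.card_sym_fin_eq_multichoose, Nat.multichoose_eq]
  have h1 : n + 1 + (2 * n + 1) - 1 = 3 * n + 1 := by omega
  rw [h1]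
  have h2 : 2 * n + 1 = 3 * n + 1 - n := by omega
  rw [h2, Nat.choose_symm (by omega)]

end Pool.Agent.MP_b197b4_ntUV
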