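import Pool.Agent.Lib.MP_b197b4_ntUV.Defs

/-!
# Leaf S: Schwartz-Zippel for coverings

The `j`-th multiplier is a product of two atoms; an atom is a constant of `H` (`Sum.inl`) or one of the variables
(`Sum.inr`).  If the covering holds at one point `v0` it fails for at most a proportion
`2 (dim W) / card K` of the points `v : κ → H`.

Proof.  `K`-bases `h_b` of `H`, `w_l` of `W`.  At `v0` choose `u^l` with `sum_j p_j q_j u^l_j = w_l`.  The matrix of the
coordinates of `sum_j p_j(v) q_j(v) u^l_j` has entries of total degree `<= 2` in the coordinates of `v` and is the identity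
at `v0`; where its determinant does not vanish the covering holds.  `MvPolynomial.schwartz_zippel_totalDegree`.
-/

set_option autoImplicit false

namespace Pool.Agent.MP_b197b4_ntUV

open scoped BigOperators

open MvPolynomial in
/-- Schwartz-Zippel for an arbitrary finite set of variables over a finite field. -/
theorem S_sz {K τ : Type*} [Field K] [Fintype K] [Fintype τ] {p : MvPolynomial τ K} (hp : p ≠ 0)
    {D : ℕ} (hD : p.totalDegree ≤ D) :
    Nat.card {x : τ → K // eval x p = 0} * Fintype.card K ≤ D * Fintype.card K ^ Fintype.card τ := by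
  classical
  let e : τ ≃ Fin (Fintype.card τ) := Fintype.equivFin τ
  have hp' : rename e p ≠ 0 := by
    intro h
    exact hp ((rename_injective e e.injective) (h.trans (map_zero (rename e)).symm))
  have hD' : (rename e p).totalDegree ≤ D := le_trans (totalDegree_rename_le e p) hD
  have h1 := schwartz_zippel_totalDegree hp' (Finset.univ : Finset K)
  have hc0 : Nat.card {x : τ → K // eval x p = 0} =
      Nat.card {f : Fin (Fintype.card τ) → K // eval f (rename e p) = 0} := by
    refine Nat.card_congr ((Equiv.arrowCongr e (Equiv.refl K)).subtypeEquiv fun x => ?_)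
    have h2 : eval ((Equiv.arrowCongr e (Equiv.refl K)) x) (rename e p) = eval x p := by
      rw [eval_rename]
      have h3 : (Equiv.arrowCongr e (Equiv.refl K)) x ∘ e = x := by
        funext i
        simp
      rw [h3]
    rw [h2]
  have hc : Nat.card {x : τ → K // eval x p = 0} =
      (((Fintype.piFinset fun _ : Fin (Fintype.card τ) => (Finset.univ : Finset K))).filter
        (fun f => eval f (rename e p) = 0)).card := by
    rw [hc0]
    refine Nat.subtype_card _ fun f => ?_
    simp
  rw [← hc, Finset.card_univ] at h1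
  have hK : (0 : ℚ≥0) < (Fintype.card K : ℚ≥0) := by exact_mod_cast Fintype.card_pos
  rw [div_le_div_iff₀ (by positivity) hK] at h1
  have h2 : Nat.card {x : τ → K // eval x p = 0} * Fintype.card K ≤
      (rename e p).totalDegree * Fintype.card K ^ Fintype.card τ := by exact_mod_cast h1
  exact le_trans h2 (Nat.mul_le_mul_right _ hD')

open MvPolynomial in
theorem S_det {K τ : Type*} [Field K] {d : ℕ} (M : Matrix (Fin d) (Fin d) (MvPolynomial τ K))
    (hM : ∀ i j, (M i j).totalDegree ≤ 2) : M.det.totalDegree ≤ 2 * d := by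
  classical
  rw [Matrix.det_apply']
  refine totalDegree_finsetSum_le fun σ _ => ?_
  refine le_trans (totalDegree_mul _ _) ?_
  have h1 : (((Equiv.Perm.sign σ : ℤˣ) : ℤ) : MvPolynomial τ K).totalDegree = 0 := by
    have h2 : (((Equiv.Perm.sign σ : ℤˣ) : ℤ) : MvPolynomial τ K) =
        C (((Equiv.Perm.sign σ : ℤˣ) : ℤ) : K) :=
      (map_intCast (C : K →+* MvPolynomial τ K) _).symm
    rw [h2, totalDegree_C]
  rw [h1, zero_add]
  refine le_trans (totalDegree_finsetProd _ _) ?_
  refine le_trans (Finset.sum_le_sum fun i _ => hM _ _) ?_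
  simp [mul_comm]

open MvPolynomial in
theorem S_cov {K F : Type*} [Field K] [Fintype K] [Field F] [Algebra K F]
    (H W : Submodule K F) [Fintype H] [Finite W]
    (hW : ∀ a b c : H, (a : F) * (b : F) * (c : F) ∈ W)
    {κ ι : Type*} [Fintype κ] (I : Finset ι) (p q : ι → H ⊕ κ) (v0 : κ → H)
    (h0 : Cov H W I (fun j => ((Sum.elim id v0 (p j) : H) : F) * ((Sum.elim id v0 (q j) : H) : F))) :
    (Nat.card {v : κ → H // ¬ Cov H W I
        (fun j => ((Sum.elim id v (p j) : H) : F) * ((Sum.elim id v (q j) : H) : F))}) * Fintype.card K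
      ≤ 2 * Module.finrank K W * Fintype.card H ^ Fintype.card κ := by
  classical
  let bH := Module.finBasis K H
  let bW := Module.finBasis K W
  set hh := Module.finrank K H with hhdef
  set d := Module.finrank K W with hddef
  choose u hu using fun l : Fin d => h0 (bW l) (bW l).2
  -- coordinates
  let V : (κ × Fin hh → K) → (κ → H) := fun x k => bH.equivFun.symm (fun b => x (k, b))
  have hV : ∀ v : κ → H, V (fun kb => bH.equivFun (v kb.1) kb.2) = v := by
    intro v
    funext k
    exact bH.equivFun.symm_apply_apply (v k)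
  let cf : H ⊕ κ → Fin hh → MvPolynomial (κ × Fin hh) K := fun a b =>
    Sum.elim (fun a => C (bH.equivFun a b)) (fun k => X (k, b)) a
  have hcf : ∀ (x : κ × Fin hh → K) (a : H ⊕ κ) (b : Fin hh),
      eval x (cf a b) = bH.equivFun (Sum.elim id (V x) a) b := by
    intro x a b
    rcases a with a | k
    · exact eval_C _
    · change eval x (X (k, b)) = bH.equivFun (bH.equivFun.symm (fun b => x (k, b))) b
      rw [eval_X, LinearEquiv.apply_symm_apply]
  have hcd : ∀ (a : H ⊕ κ) (b : Fin hh), (cf a b).totalDegree ≤ 1 := by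
    intro a b
    rcases a with a | k
    · change (C (bH.equivFun a b) : MvPolynomial (κ × Fin hh) K).totalDegree ≤ 1
      rw [totalDegree_C]
      exact Nat.zero_le _
    · change (X (k, b) : MvPolynomial (κ × Fin hh) K).totalDegree ≤ 1
      rw [totalDegree_X]
  -- expansion
  have hexp : ∀ (a b c : H) (φ : W →ₗ[K] K), φ ⟨(a : F) * b * c, hW a b c⟩ =
      ∑ i, ∑ k, bH.equivFun a i * bH.equivFun b k * φ ⟨(bH i : F) * (bH k : F) * c, hW _ _ _⟩ := by
    intro a b c φ
    have e1 : (⟨(a : F) * b * c, hW a b c⟩ : W) =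
        ∑ i, ∑ k, (bH.equivFun a i * bH.equivFun b k) •
          (⟨(bH i : F) * (bH k : F) * c, hW _ _ _⟩ : W) := by
      apply Subtype.ext
      have ea : (a : F) = ∑ i, bH.equivFun a i • (bH i : F) := by
        conv_lhs => rw [← bH.sum_equivFun a]
        push_cast
        rfl
      have eb : (b : F) = ∑ i, bH.equivFun b i • (bH i : F) := by
        conv_lhs => rw [← bH.sum_equivFun b]
        push_cast
        rfl
      push_cast
      change (a : F) * b * c = ∑ i, ∑ k, (bH.equivFun a i * bH.equivFun b k) •
          ((bH i : F) * (bH k : F) * (c : F))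
      conv_lhs => rw [ea, eb]
      rw [Finset.sum_mul_sum, Finset.sum_mul]
      refine Finset.sum_congr rfl fun i _ => ?_
      rw [Finset.sum_mul]
      refine Finset.sum_congr rfl fun k _ => ?_
      rw [smul_mul_smul_comm, smul_mul_assoc]
    rw [e1, map_sum]
    refine Finset.sum_congr rfl fun i _ => ?_
    rw [map_sum]
    refine Finset.sum_congr rfl fun k _ => ?_
    rw [map_smul, smul_eq_mul]
  let S : ι → Fin d → Fin hh → Fin hh → Fin d → K := fun j l i k l' =>
    bW.coord l' ⟨(bH i : F) * (bH k : F) * (u l j : F), hW _ _ _⟩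
  let M : Matrix (Fin d) (Fin d) (MvPolynomial (κ × Fin hh) K) := fun l l' =>
    ∑ j ∈ I, ∑ i, ∑ k, cf (p j) i * cf (q j) k * C (S j l i k l')
  let t : (κ → H) → Fin d → W := fun v l => ∑ j ∈ I,
    (⟨((Sum.elim id v (p j) : H) : F) * ((Sum.elim id v (q j) : H) : F) * (u l j : F), hW _ _ _⟩ : W)
  have hev : ∀ x l l', eval x (M l l') = bW.equivFun (t (V x) l) l' := by
    intro x l l'
    change eval x (∑ j ∈ I, ∑ i, ∑ k, cf (p j) i * cf (q j) k * C (S j l i k l')) =
      bW.coord l' (∑ j ∈ I, (⟨((Sum.elim id (V x) (p j) : H) : F) *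
        ((Sum.elim id (V x) (q j) : H) : F) * (u l j : F), hW _ _ _⟩ : W))
    rw [map_sum, map_sum]
    refine Finset.sum_congr rfl fun j _ => ?_
    rw [hexp, map_sum]
    refine Finset.sum_congr rfl fun i _ => ?_
    rw [map_sum]
    refine Finset.sum_congr rfl fun k _ => ?_
    rw [map_mul, map_mul, eval_C, hcf, hcf]
  have hMd : ∀ l l', (M l l').totalDegree ≤ 2 := by
    intro l l'
    refine totalDegree_finsetSum_le fun j _ => totalDegree_finsetSum_le fun i _ =>
      totalDegree_finsetSum_le fun k _ => ?_
    refine le_trans (totalDegree_mul _ _) ?_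
    rw [totalDegree_C, add_zero]
    refine le_trans (totalDegree_mul _ _) ?_
    exact Nat.add_le_add (hcd _ _) (hcd _ _)
  have hdet : ∀ x, eval x M.det = Matrix.det (fun l l' => bW.equivFun (t (V x) l) l') := by
    intro x
    rw [RingHom.map_det]
    refine congrArg Matrix.det ?_
    ext l l'
    exact hev x l l'
  have ht0 : ∀ l, t v0 l = bW l := by
    intro l
    apply Subtype.ext
    have h1 := hu l
    change ((∑ j ∈ I, (⟨((Sum.elim id v0 (p j) : H) : F) * ((Sum.elim id v0 (q j) : H) : F) *
      (u l j : F), hW _ _ _⟩ : W) : W) : F) = bW l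
    rw [← h1]
    push_cast
    rfl
  have hP : M.det ≠ 0 := by
    intro h
    have h1 := hdet (fun kb => bH.equivFun (v0 kb.1) kb.2)
    rw [h, map_zero, hV] at h1
    have h2 : (fun l l' => bW.equivFun (t v0 l) l') = (1 : Matrix (Fin d) (Fin d) K) := by
      ext l l'
      rw [ht0, Matrix.one_apply, Module.Basis.equivFun_self]
    rw [h2, Matrix.det_one] at h1
    exact zero_ne_one h1
  -- covering where the determinant does not vanish
  have hcov : ∀ v : κ → H, Matrix.det (fun l l' => bW.equivFun (t v l) l' : Matrix (Fin d) (Fin d) K) ≠ 0 →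
      Cov H W I (fun j => ((Sum.elim id v (p j) : H) : F) * ((Sum.elim id v (q j) : H) : F)) := by
    intro v hv w hw
    set A : Matrix (Fin d) (Fin d) K := fun l l' => bW.equivFun (t v l) l' with hA
    let c : Fin d → K := Matrix.vecMul (bW.equivFun ⟨w, hw⟩) A⁻¹
    have h1 : Matrix.vecMul c A = bW.equivFun ⟨w, hw⟩ := by
      rw [Matrix.vecMul_vecMul, Matrix.nonsing_inv_mul A (isUnit_iff_ne_zero.2 hv), Matrix.vecMul_one]
    have h2 : ∑ l, c l • t v l = (⟨w, hw⟩ : W) := by
      apply bW.equivFun.injective
      rw [map_sum, ← h1]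
      funext l'
      rw [Finset.sum_apply, Matrix.vecMul, dotProduct]
      refine Finset.sum_congr rfl fun l _ => ?_
      rw [map_smul, Pi.smul_apply, smul_eq_mul]
    refine ⟨fun j => ∑ l, c l • u l j, ?_⟩
    have h3 := congrArg (fun z : W => (z : F)) h2
    change ((∑ l, c l • t v l : W) : F) = w at h3
    rw [← h3]
    push_cast
    have h4 : ∀ l, ((t v l : W) : F) = ∑ j ∈ I, ((Sum.elim id v (p j) : H) : F) *
        ((Sum.elim id v (q j) : H) : F) * (u l j : F) := by
      intro l
      change ((∑ j ∈ I, (⟨((Sum.elim id v (p j) : H) : F) * ((Sum.elim id v (q j) : H) : F) *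
        (u l j : F), hW _ _ _⟩ : W) : W) : F) = _
      push_cast
      rfl
    have h5 : ∀ l, c l • ((t v l : W) : F) = ∑ j ∈ I, c l • (((Sum.elim id v (p j) : H) : F) *
        ((Sum.elim id v (q j) : H) : F) * (u l j : F)) := by
      intro l
      rw [h4, Finset.smul_sum]
    rw [Finset.sum_congr rfl fun l _ => h5 l, Finset.sum_comm]
    refine Finset.sum_congr rfl fun j _ => ?_
    rw [Finset.mul_sum]
    refine Finset.sum_congr rfl fun l _ => ?_
    rw [mul_smul_comm]
  -- counting
  have hinj : Nat.card {v : κ → H // ¬ Cov H W I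
        (fun j => ((Sum.elim id v (p j) : H) : F) * ((Sum.elim id v (q j) : H) : F))} ≤
      Nat.card {x : κ × Fin hh → K // eval x M.det = 0} := by
    refine Nat.card_le_card_of_injective
      (fun v => ⟨fun kb => bH.equivFun (v.1 kb.1) kb.2, ?_⟩) ?_
    · rw [hdet, hV]
      by_contra h
      exact v.2 (hcov v.1 h)
    · intro v v' h
      have h1 := congrArg Subtype.val h
      apply Subtype.ext
      rw [← hV v.1, ← hV v'.1]
      exact congrArg V h1
  have hsz := S_sz hP (S_det M hMd)
  have hcard : Fintype.card H ^ Fintype.card κ = Fintype.card K ^ Fintype.card (κ × Fin hh) := by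
    rw [Fintype.card_prod, Fintype.card_fin, Module.card_eq_pow_finrank (K := K) (V := H), ← pow_mul,
      mul_comm hh]
  rw [hcard]
  exact le_trans (Nat.mul_le_mul_right _ hinj) hsz

end Pool.Agent.MP_b197b4_ntUV
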